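import Mathlib
import Pool.Agent.W52.SecC.A2

/-!
# The elliptic curve `y² = (x - 10) (x - 6) (x + 6)` of conductor 24 over a field

The group law and the subgroup of the points with coordinates in a subfield.
-/

set_option autoImplicit false
set_option linter.all false

namespace Pool.Agent.Zk12

open Pool.Agent.W623.SecC WeierstrassCurve

section

variable {L : Type} [Field L] [CharZero L]

/-- the roots -/
def ee (L : Type) [Field L] : Fin 3 → L := ![10, 6, -6]

/-- the elliptic curve -/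
abbrev EE (L : Type) [Field L] : WeierstrassCurve.Affine L := crv (ee L)

theorem eqn_iff {x y : L} : (EE L).Equation x y ↔ y ^ 2 = (x - 10) * (x - 6) * (x + 6) := by
  rw [Affine.equation_iff]
  simp only [crv, ee, Matrix.cons_val_zero, Matrix.cons_val_one, Matrix.cons_val]
  constructor
  · intro h
    linear_combination h
  · intro h
    linear_combination h

theorem eqn_of {x y : L} (h : (EE L).Nonsingular x y) : y ^ 2 = (x - 10) * (x - 6) * (x + 6) :=
  eqn_iff.1 h.1

theorem ns_of {x y : L} (h : y ^ 2 = (x - 10) * (x - 6) * (x + 6)) : (EE L).Nonsingular x y := by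
  rw [Affine.nonsingular_iff]
  refine ⟨eqn_iff.2 h, ?_⟩
  simp only [crv, ee, Matrix.cons_val_zero, Matrix.cons_val_one, Matrix.cons_val]
  by_cases hy : y = 0
  · left
    rw [hy] at h
    intro hc
    have h0 : (x - 10) * (x - 6) * (x + 6) = 0 := by linear_combination -h
    rcases mul_eq_zero.1 h0 with h1 | h1
    · rcases mul_eq_zero.1 h1 with h2 | h2
      · have hx : x = 10 := by linear_combination h2
        rw [hx] at hc
        norm_num at hc
      · have hx : x = 6 := by linear_combination h2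
        rw [hx] at hc
        norm_num at hc
    · have hx : x = -6 := by linear_combination h1
      rw [hx] at hc
      norm_num at hc
  · right
    intro hc
    apply hy
    have h1 : (2 : L) * y = 0 := by linear_combination hc
    exact (mul_eq_zero.1 h1).resolve_left two_ne_zero

/-- the negative -/
theorem negY_eq (x y : L) : (EE L).negY x y = -y := by
  simp only [Affine.negY, crv, zero_mul, sub_zero]

theorem addX_eq (x₁ x₂ l : L) : (EE L).addX x₁ x₂ l = l ^ 2 + 10 - x₁ - x₂ := by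
  simp only [Affine.addX, crv, ee, Matrix.cons_val_zero, Matrix.cons_val_one, Matrix.cons_val]
  ring

/-- the three roots -/
def Rt (e : L) : Prop := e = 10 ∨ e = 6 ∨ e = -6

theorem Rt.eq {e : L} (h : Rt e) : (e - 10) * (e - 6) * (e + 6) = 0 := by
  rcases h with rfl | rfl | rfl <;> ring

open Classical in
/-- the sum of two points with different first coordinates -/
theorem add_pt {x₁ y₁ x₂ y₂ : L} (h₁ : (EE L).Nonsingular x₁ y₁) (h₂ : (EE L).Nonsingular x₂ y₂)
    (hx : x₁ ≠ x₂) : ∃ (x₃ y₃ : L) (h₃ : (EE L).Nonsingular x₃ y₃),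
      Affine.Point.some x₁ y₁ h₁ + Affine.Point.some x₂ y₂ h₂ = Affine.Point.some x₃ y₃ h₃ ∧
      ∃ l : L, l * (x₁ - x₂) = y₁ - y₂ ∧ x₃ = l ^ 2 + 10 - x₁ - x₂ ∧
        ∀ e : L, Rt e → (x₁ - e) * (x₂ - e) * (x₃ - e) = (l * (e - x₁) + y₁) ^ 2 := by
  have hl : (EE L).slope x₁ x₂ y₁ y₂ * (x₁ - x₂) = y₁ - y₂ := by
    rw [Affine.slope_of_X_ne hx, div_mul_cancel₀ _ (sub_ne_zero.2 hx)]
  refine ⟨_, _, _, Affine.Point.add_of_X_ne hx, (EE L).slope x₁ x₂ y₁ y₂, hl, addX_eq _ _ _, ?_⟩
  intro e he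
  rw [addX_eq]
  generalize (EE L).slope x₁ x₂ y₁ y₂ = l at hl ⊢
  have e1 := eqn_of h₁
  have e2 := eqn_of h₂
  have H : x₁ ^ 2 + x₁ * x₂ + x₂ ^ 2 - 10 * (x₁ + x₂) - 36 = l * (2 * y₁ - l * (x₁ - x₂)) := by
    have h0 : (x₁ - x₂) * (x₁ ^ 2 + x₁ * x₂ + x₂ ^ 2 - 10 * (x₁ + x₂) - 36 -
        l * (2 * y₁ - l * (x₁ - x₂))) = 0 := by
      have h3 : l * (2 * y₁ - l * (x₁ - x₂)) * (x₁ - x₂) = y₁ ^ 2 - y₂ ^ 2 := by
        rw [hl]
        linear_combination (y₁ + y₂) * hl
      linear_combination -h3 - e1 + e2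
    exact sub_eq_zero.1 ((mul_eq_zero.1 h0).resolve_left (sub_ne_zero.2 hx))
  linear_combination (e - x₁) * H - e1 - he.eq

open Classical in
/-- the double of a point -/
theorem dbl_pt {x y : L} (h : (EE L).Nonsingular x y) (hy : y ≠ 0) :
    ∃ (x' y' : L) (h' : (EE L).Nonsingular x' y'),
      Affine.Point.some x y h + Affine.Point.some x y h = Affine.Point.some x' y' h' ∧
      4 * y ^ 2 * (x' - 10) = ((x - 10) ^ 2 - 64) ^ 2 ∧
      4 * y ^ 2 * (x' - 6) = ((x - 6) ^ 2 + 48) ^ 2 ∧
      4 * y ^ 2 * (x' + 6) = ((x + 6) ^ 2 - 192) ^ 2 := by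
  have hneg : y ≠ (EE L).negY x y := by
    rw [negY_eq]
    intro hc
    apply hy
    have h1 : (2 : L) * y = 0 := by linear_combination hc
    exact (mul_eq_zero.1 h1).resolve_left two_ne_zero
  refine ⟨_, _, _, Affine.Point.add_self_of_Y_ne hneg, ?_⟩
  rw [addX_eq]
  have hl : (EE L).slope x x y y * (2 * y) = 3 * x ^ 2 - 20 * x - 36 := by
    rw [Affine.slope_of_Y_ne rfl hneg, negY_eq]
    have h5 : y - -y ≠ 0 := by
      intro hc
      apply hy
      have h1 : (2 : L) * y = 0 := by linear_combination hc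
      exact (mul_eq_zero.1 h1).resolve_left two_ne_zero
    simp only [crv, ee, Matrix.cons_val_zero, Matrix.cons_val_one, Matrix.cons_val]
    field_simp
    ring
  generalize (EE L).slope x x y y = l at hl ⊢
  have e1 := eqn_of h
  have hl2 : 4 * y ^ 2 * l ^ 2 = (3 * x ^ 2 - 20 * x - 36) ^ 2 := by rw [← hl]; ring
  refine ⟨?_, ?_, ?_⟩
  · linear_combination hl2 - 8 * x * e1
  · linear_combination hl2 + (16 - 8 * x) * e1
  · linear_combination hl2 + (64 - 8 * x) * e1

open Classical in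
/-- adding `(6, 0)` -/
theorem add_T6 {x y : L} (h : (EE L).Nonsingular x y) (hx : x ≠ 6) :
    ∃ (x' y' : L) (h' : (EE L).Nonsingular x' y'),
      Affine.Point.some x y h + Affine.Point.some 6 0 (ns_of (by norm_num)) =
        Affine.Point.some x' y' h' ∧ (x' - 6) * (x - 6) = -48 ∧
        ∃ l : L, ∀ e : L, Rt e → (x - e) * (6 - e) * (x' - e) = (l * (e - x) + y) ^ 2 := by
  obtain ⟨x', y', h', hs, l, hl, hx', hl'⟩ :=
    add_pt h (ns_of (x := 6) (y := (0 : L)) (by norm_num)) hx
  refine ⟨x', y', h', hs, ?_, l, hl'⟩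
  have h1 : x - 6 ≠ 0 := sub_ne_zero.2 hx
  have h2 : (x - 6) * (l ^ 2 * (x - 6) - (x - 10) * (x + 6)) = 0 := by
    linear_combination (l * (x - 6) + y) * hl + eqn_of h
  have h3 := (mul_eq_zero.1 h2).resolve_left h1
  rw [hx']
  linear_combination h3

open Classical in
/-- adding `(10, 0)` -/
theorem add_T10 {x y : L} (h : (EE L).Nonsingular x y) (hx : x ≠ 10) :
    ∃ (x' y' : L) (h' : (EE L).Nonsingular x' y'),
      Affine.Point.some x y h + Affine.Point.some 10 0 (ns_of (by norm_num)) =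
        Affine.Point.some x' y' h' ∧ (x' - 10) * (x - 10) = 64 := by
  obtain ⟨x', y', h', hs, l, hl, hx', hl'⟩ :=
    add_pt h (ns_of (x := 10) (y := (0 : L)) (by norm_num)) hx
  refine ⟨x', y', h', hs, ?_⟩
  have h1 : x - 10 ≠ 0 := sub_ne_zero.2 hx
  have h2 : (x - 10) * (l ^ 2 * (x - 10) - (x - 6) * (x + 6)) = 0 := by
    linear_combination (l * (x - 10) + y) * hl + eqn_of h
  have h3 := (mul_eq_zero.1 h2).resolve_left h1
  rw [hx']
  linear_combination h3

variable (k : Subfield L)

open Classical in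
theorem slope_mem {x₁ x₂ y₁ y₂ : L} (h1 : x₁ ∈ k) (h2 : x₂ ∈ k) (h3 : y₁ ∈ k) (h4 : y₂ ∈ k) :
    (EE L).slope x₁ x₂ y₁ y₂ ∈ k := by
  have hnum : ∀ n : ℕ, (n : L) ∈ k := fun n => natCast_mem k n
  unfold Affine.slope
  rw [negY_eq, negY_eq]
  simp only [crv, ee, Matrix.cons_val_zero, Matrix.cons_val_one, Matrix.cons_val]
  have h10 : (10 : L) ∈ k := by simpa using hnum 10
  have h6 : (6 : L) ∈ k := by simpa using hnum 6
  have h2' : (2 : L) ∈ k := by simpa using hnum 2
  have h3' : (3 : L) ∈ k := by simpa using hnum 3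
  split_ifs
  · exact zero_mem _
  · refine div_mem ?_ (sub_mem h3 (neg_mem h3))
    refine sub_mem (add_mem (add_mem (mul_mem h3' (pow_mem h1 2)) (mul_mem (mul_mem h2' ?_) h1))
      ?_) (mul_mem (zero_mem _) h3)
    · exact neg_mem (add_mem (add_mem h10 h6) (neg_mem h6))
    · exact add_mem (add_mem (mul_mem h10 h6) (mul_mem h10 (neg_mem h6)))
        (mul_mem h6 (neg_mem h6))
  · exact div_mem (sub_mem h3 h4) (sub_mem h1 h2)

open Classical in
/-- the points with coordinates in a subfield -/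
def algPt : AddSubgroup (EE L).Point where
  carrier := {P | P = 0 ∨ ∃ x y h, P = Affine.Point.some x y h ∧ x ∈ k ∧ y ∈ k}
  zero_mem' := Or.inl rfl
  neg_mem' := by
    rintro P (rfl | ⟨x, y, h, rfl, hx, hy⟩)
    · left
      exact neg_zero
    · right
      refine ⟨_, _, _, Affine.Point.neg_some h, hx, ?_⟩
      rw [negY_eq]
      exact neg_mem hy
  add_mem' := by
    rintro P Q (rfl | ⟨x, y, h, rfl, hx, hy⟩) (rfl | ⟨x', y', h', rfl, hx', hy'⟩)
    · left
      exact add_zero 0
    · right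
      exact ⟨x', y', h', zero_add _, hx', hy'⟩
    · right
      exact ⟨x, y, h, add_zero _, hx, hy⟩
    · by_cases hxy : x = x' ∧ y = (EE L).negY x' y'
      · left
        exact Affine.Point.add_of_Y_eq hxy.1 hxy.2
      · right
        have hX : (EE L).addX x x' ((EE L).slope x x' y y') ∈ k := by
          rw [addX_eq]
          have h10 : (10 : L) ∈ k := by simpa using natCast_mem k 10
          exact sub_mem (sub_mem (add_mem (pow_mem (slope_mem k hx hx' hy hy') 2) h10) hx) hx'
        refine ⟨_, _, _, Affine.Point.add_some hxy, hX, ?_⟩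
        unfold Affine.addY Affine.negAddY
        rw [negY_eq]
        exact neg_mem (add_mem (mul_mem (slope_mem k hx hx' hy hy') (sub_mem hX hx)) hy)

variable {k}

theorem some_mem_algPt {x y : L} {h : (EE L).Nonsingular x y} :
    Affine.Point.some x y h ∈ algPt k ↔ x ∈ k ∧ y ∈ k := by
  constructor
  · rintro (h0 | ⟨x', y', h', h1, hx, hy⟩)
    · cases h0
    · rw [Affine.Point.some.injEq] at h1
      obtain ⟨rfl, rfl⟩ := h1
      exact ⟨hx, hy⟩
  · rintro ⟨hx, hy⟩
    exact Or.inr ⟨x, y, h, rfl, hx, hy⟩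

/-- the point `(6, 0)` -/
def T6 (L : Type) [Field L] [CharZero L] : (EE L).Point :=
  Affine.Point.some 6 0 (ns_of (by norm_num))

/-- the point `(10, 0)` -/
def T10 (L : Type) [Field L] [CharZero L] : (EE L).Point :=
  Affine.Point.some 10 0 (ns_of (by norm_num))

/-- the point `(18, 48)` -/
def S18 (L : Type) [Field L] [CharZero L] : (EE L).Point :=
  Affine.Point.some 18 48 (ns_of (by norm_num))

/-- the point `(2, 16)` -/
def S2 (L : Type) [Field L] [CharZero L] : (EE L).Point :=
  Affine.Point.some 2 16 (ns_of (by norm_num))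

open Classical in
theorem two_T6 : T6 L + T6 L = 0 :=
  Affine.Point.add_self_of_Y_eq (by rw [negY_eq, neg_zero])

open Classical in
theorem two_T10 : T10 L + T10 L = 0 :=
  Affine.Point.add_self_of_Y_eq (by rw [negY_eq, neg_zero])

theorem eq_T10 {x y : L} {h : (EE L).Nonsingular x y} (hx : x = 10) :
    Affine.Point.some x y h = T10 L := by
  have h1 := eqn_of h
  rw [hx] at h1
  have h2 : y = 0 := by
    have h3 : y ^ 2 = 0 := by rw [h1]; ring
    exact pow_eq_zero_iff two_ne_zero |>.1 h3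
  unfold T10
  congr 1

open Classical in
theorem two_S18 : S18 L + S18 L = T10 L := by
  obtain ⟨x', y', h', h1, h2, -, -⟩ := dbl_pt (L := L) (x := 18) (y := 48)
    (ns_of (by norm_num)) (by norm_num)
  unfold S18
  rw [h1]
  apply eq_T10
  have h3 : (x' - 10) * (4 * 48 ^ 2) = 0 := by
    rw [mul_comm, h2]
    norm_num
  exact sub_eq_zero.1 ((mul_eq_zero.1 h3).resolve_right (by norm_num))

open Classical in
theorem two_S2 : S2 L + S2 L = T10 L := by
  obtain ⟨x', y', h', h1, h2, -, -⟩ := dbl_pt (L := L) (x := 2) (y := 16)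
    (ns_of (by norm_num)) (by norm_num)
  unfold S2
  rw [h1]
  apply eq_T10
  have h3 : (x' - 10) * (4 * 16 ^ 2) = 0 := by
    rw [mul_comm, h2]
    norm_num
  exact sub_eq_zero.1 ((mul_eq_zero.1 h3).resolve_right (by norm_num))

theorem num_mem (k : Subfield L) (n : ℕ) : (n : L) ∈ k := natCast_mem k n

theorem T6_mem : T6 L ∈ algPt k :=
  some_mem_algPt.2 ⟨by simpa using natCast_mem k 6, zero_mem _⟩

theorem T10_mem : T10 L ∈ algPt k :=
  some_mem_algPt.2 ⟨by simpa using natCast_mem k 10, zero_mem _⟩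

theorem S18_mem : S18 L ∈ algPt k :=
  some_mem_algPt.2 ⟨by simpa using natCast_mem k 18, by simpa using natCast_mem k 48⟩

theorem S2_mem : S2 L ∈ algPt k :=
  some_mem_algPt.2 ⟨by simpa using natCast_mem k 2, by simpa using natCast_mem k 16⟩

end

end Pool.Agent.Zk12
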