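import Pool.Agent.Zk12.Pad

/-!
# Classification of local classes at `2`
-/

set_option autoImplicit false

namespace Pool.Agent.Zk12

theorem SqM.ne_zero {c : ℤ} {x : ℚ_[2]} (h : SqM c x) (hc : c ∈ HH) : x ≠ 0 := by
  obtain ⟨b, hb, hx⟩ := h
  have h0 : ((c : ℤ) : ℚ_[2]) ≠ 0 := by
    have : c ≠ 0 := by
      rintro rfl
      revert hc
      decide
    exact_mod_cast this
  rw [hx]
  exact mul_ne_zero h0 (pow_ne_zero _ hb)

theorem SqM.of_eq {c : ℤ} {x b : ℚ_[2]} (h : x = c * b ^ 2) (hx : x ≠ 0) : SqM c x := by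
  refine ⟨b, ?_, h⟩
  rintro rfl
  apply hx
  rw [h]
  ring

theorem SqM.trans {c d : ℤ} {x : ℚ_[2]} (h : SqM c x) (h' : SqM d (c : ℚ_[2])) : SqM d x := by
  obtain ⟨b, hb, hx⟩ := h
  obtain ⟨b', hb', hc⟩ := h'
  exact ⟨b' * b, mul_ne_zero hb' hb, by rw [hx, hc]; ring⟩

theorem hh_ne {n : ℤ} (h : n ∈ HH) : (n : ℚ_[2]) ≠ 0 := by
  have : n ≠ 0 := by
    rintro rfl
    revert h
    decide
  exact_mod_cast this

theorem prod_class {a n : ℤ} (ha : a ∈ HH) (hn : n ∈ HH) {c : ℚ_[2]}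
    (h : (a : ℚ_[2]) * n = c ^ 2) : n = a := by
  have ha0 := hh_ne ha
  have hn0 := hh_ne hn
  refine SqM.uniq (x := (a : ℚ_[2])) hn ha ?_ ⟨1, one_ne_zero, by ring⟩
  refine SqM.of_eq (b := c / n) ?_ ha0
  rw [div_pow, ← h]
  field_simp

theorem inv_two {X : ℚ_[2]} (hX : ¬ ‖X‖ ≤ 1) : ∃ z : ℤ_[2], X⁻¹ = 2 * (z : ℚ_[2]) := by
  have h2 : ‖(2 : ℚ_[2])‖ = 2⁻¹ := by
    have := Padic.norm_p (p := 2)
    simpa using this
  have h1 : ‖X⁻¹‖ < 1 := by
    rw [norm_inv]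
    exact inv_lt_one_of_one_lt₀ (not_le.1 hX)
  have h3 : ‖X⁻¹ / 2‖ ≤ 1 := by
    rw [norm_div, h2]
    have h4 : ‖X⁻¹‖ ≤ (2 : ℝ) ^ (-(1 : ℤ)) := by
      have h5 := (Padic.norm_le_pow_iff_norm_lt_pow_add_one (p := 2) X⁻¹ (-1)).2 (by
        simpa using h1)
      simpa using h5
    rw [div_le_iff₀ (by norm_num)]
    simpa using h4
  exact ⟨⟨X⁻¹ / 2, h3⟩, by
    change X⁻¹ = 2 * (X⁻¹ / 2)
    ring⟩

/-- the check for the elliptic curve -/
def chkE (r : ℕ) : Bool :=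
  let a := cl 5 ((r : ℤ) - 10)
  let b := cl 5 ((r : ℤ) - 6)
  let c := cl 5 ((r : ℤ) - -6)
  if ((r : ℤ) - 10) % 2 ^ (6 + 1) = 0 then
    (((r : ℤ) - 6) % 2 ^ (6 + 1) ≠ 0 ∧ ((r : ℤ) - -6) % 2 ^ (6 + 1) ≠ 0 ∧ b = 1 ∧ c = 1 : Bool)
  else if ((r : ℤ) - 6) % 2 ^ (6 + 1) = 0 then
    (((r : ℤ) - -6) % 2 ^ (6 + 1) ≠ 0 ∧ a = -1 ∧ c = 3 : Bool)
  else if ((r : ℤ) - -6) % 2 ^ (6 + 1) = 0 then (a = -1 ∧ b = -3 : Bool)
  else
    (a ∈ HH ∧ b ∈ HH ∧ c ∈ HH ∧ (0 < c → (a * b * c) % 32 ∈ [0, 1, 4, 9, 16, 17, 25] →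
      (a, b, c) ∈ [((1 : ℤ), (1 : ℤ), (1 : ℤ)), (-1, -3, 3), (2, 3, 6), (-2, -1, 2)]) : Bool)

theorem chkE_all : ∀ r < 2 ^ (6 + 3), chkE r = true := by decide +kernel

theorem sq32 : ∀ m : ZMod 32, (∃ c, m = c ^ 2) → m.val ∈ [0, 1, 4, 9, 16, 17, 25] := by
  decide +kernel

theorem sq32' {m : ℤ} (h : ∃ c : ZMod 32, (m : ZMod 32) = c ^ 2) :
    m % 32 ∈ [0, 1, 4, 9, 16, 17, 25] := by
  have h1 := sq32 _ h
  have h2 : (((m : ZMod 32).val : ℕ) : ℤ) = m % 32 := by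
    rw [ZMod.val_intCast]
    rfl
  simp only [List.mem_cons, List.not_mem_nil, or_false] at h1 ⊢
  omega

/-- the local classes of the elliptic curve which are positive at the third root -/
theorem locE {X : ℚ_[2]} {n₁ n₂ n₃ : ℤ} (h1 : n₁ ∈ HH) (h2 : n₂ ∈ HH) (h3 : n₃ ∈ HH)
    (hpos : 0 < n₃) {b₁ b₂ b₃ : ℚ_[2]} (e1 : X - 10 = n₁ * b₁ ^ 2) (e2 : X - 6 = n₂ * b₂ ^ 2)
    (e3 : X + 6 = n₃ * b₃ ^ 2) (hsq : ∃ c : ℚ_[2], (n₁ : ℚ_[2]) * n₂ * n₃ = c ^ 2) :
    (n₁, n₂, n₃) ∈ [((1 : ℤ), (1 : ℤ), (1 : ℤ)), (-1, -3, 3), (2, 3, 6), (-2, -1, 2)] := by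
  obtain ⟨c, hc⟩ := hsq
  by_cases hX : ‖X‖ ≤ 1
  · obtain ⟨x, hx⟩ : ∃ x : ℤ_[2], (x : ℚ_[2]) = X := ⟨⟨X, hX⟩, rfl⟩
    obtain ⟨r, hr, y, hy⟩ := residue (6 + 3) x
    have hchk := chkE_all r hr
    have k1 : ∀ (hr : ((r : ℤ) - 10) % 2 ^ (6 + 1) ≠ 0) (hn : cl 5 ((r : ℤ) - 10) ∈ HH),
        n₁ = cl 5 ((r : ℤ) - 10) := by
      intro hr hn
      have h4 := cl_close hy 10 hr 5 (fun h => by rw [h] at hn; revert hn; decide)
      have h5 := h4.ne_zero hn
      refine SqM.uniq h1 hn (SqM.of_eq (b := b₁) ?_ h5) h4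
      rw [hx, ← e1]
      push_cast
      ring
    have k2 : ∀ (hr : ((r : ℤ) - 6) % 2 ^ (6 + 1) ≠ 0) (hn : cl 5 ((r : ℤ) - 6) ∈ HH),
        n₂ = cl 5 ((r : ℤ) - 6) := by
      intro hr hn
      have h4 := cl_close hy 6 hr 5 (fun h => by rw [h] at hn; revert hn; decide)
      have h5 := h4.ne_zero hn
      refine SqM.uniq h2 hn (SqM.of_eq (b := b₂) ?_ h5) h4
      rw [hx, ← e2]
      push_cast
      ring
    have k3 : ∀ (hr : ((r : ℤ) - -6) % 2 ^ (6 + 1) ≠ 0) (hn : cl 5 ((r : ℤ) - -6) ∈ HH),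
        n₃ = cl 5 ((r : ℤ) - -6) := by
      intro hr hn
      have h4 := cl_close hy (-6) hr 5 (fun h => by rw [h] at hn; revert hn; decide)
      have h5 := h4.ne_zero hn
      refine SqM.uniq h3 hn (SqM.of_eq (b := b₃) ?_ h5) h4
      rw [hx, ← e3]
      push_cast
      ring
    unfold chkE at hchk
    simp only at hchk
    split_ifs at hchk with g1 g2 g3
    · obtain ⟨q1, q2, q3, q4⟩ := of_decide_eq_true hchk
      have m2 := k2 q1 (by rw [q3]; decide)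
      have m3 := k3 q2 (by rw [q4]; decide)
      rw [q3] at m2
      rw [q4] at m3
      subst m2 m3
      have m1 : n₁ = 1 := by
        refine prod_class (a := 1) (by decide) h1 (c := c) ?_
        rw [← hc]
        push_cast
        ring
      subst m1
      decide
    · obtain ⟨q2, q3, q4⟩ := of_decide_eq_true hchk
      have m1 := k1 g1 (by rw [q3]; decide)
      have m3 := k3 q2 (by rw [q4]; decide)
      rw [q3] at m1
      rw [q4] at m3
      subst m1 m3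
      have m2 : n₂ = -3 := by
        refine prod_class (a := -3) (by decide) h2 (c := c) ?_
        rw [← hc]
        push_cast
        ring
      subst m2
      decide
    · obtain ⟨q3, q4⟩ := of_decide_eq_true hchk
      have m1 := k1 g1 (by rw [q3]; decide)
      have m2 := k2 g2 (by rw [q4]; decide)
      rw [q3] at m1
      rw [q4] at m2
      subst m1 m2
      have m3 : n₃ = 3 := by
        refine prod_class (a := 3) (by decide) h3 (c := c) ?_
        rw [← hc]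
        push_cast
        ring
      subst m3
      decide
    · obtain ⟨q1, q2, q3, q4⟩ := of_decide_eq_true hchk
      have m1 := k1 g1 q1
      have m2 := k2 g2 q2
      have m3 := k3 g3 q3
      rw [← m1, ← m2, ← m3] at q4
      refine q4 hpos (sq32' ?_)
      refine sq_zmod (b := c) ?_
      rw [← hc]
      push_cast
      ring
  · obtain ⟨z, hz⟩ := inv_two hX
    have hX0 : X ≠ 0 := by
      rintro rfl
      apply hX
      rw [norm_zero]
      exact zero_le_one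
    have hXz : X * (2 * (z : ℚ_[2])) = 1 := by rw [← hz, mul_inv_cancel₀ hX0]
    -- the unit `1 - 12 z`
    obtain ⟨u, hu⟩ : ∃ u : ℤ_[2], (1 - 12 * z) * u = 1 := by
      have h4 : IsUnit (1 - 12 * z : ℤ_[2]) := by
        rw [PadicInt.isUnit_iff]
        have h5 : ‖(12 * z : ℤ_[2])‖ < 1 := by
          rw [norm_mul]
          have h6 : ‖(12 : ℤ_[2])‖ < 1 := by
            have := (PadicInt.norm_int_lt_one_iff_dvd (p := 2) 12).2 (by norm_num)
            simpa using this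
          have := PadicInt.norm_le_one z
          nlinarith [norm_nonneg z, norm_nonneg (12 : ℤ_[2])]
        have h7 := PadicInt.norm_add_eq_max_of_ne (p := 2) (q := (1 : ℤ_[2])) (r := -(12 * z)) (by
          rw [norm_one, norm_neg]
          exact h5.ne')
        rw [norm_one, norm_neg] at h7
        rw [sub_eq_add_neg, h7]
        exact max_eq_left h5.le
      obtain ⟨v, hv⟩ := h4
      exact ⟨((v⁻¹ : ℤ_[2]ˣ) : ℤ_[2]), by rw [← hv, Units.mul_inv]⟩
    have hu' : (1 - 12 * (z : ℚ_[2])) * (u : ℚ_[2]) = 1 := by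
      have h4 := congrArg (fun w : ℤ_[2] => (w : ℚ_[2])) hu
      have h5 : ((12 : ℤ_[2]) : ℚ_[2]) = 12 := rfl
      push_cast at h4
      rw [h5] at h4
      exact h4
    have hz0 : (z : ℚ_[2]) ≠ 0 := by
      intro h
      rw [h] at hXz
      norm_num at hXz
    have hu0 : (1 - 12 * (z : ℚ_[2])) ≠ 0 := left_ne_zero_of_mul_eq_one hu'
    have hX6 : X - 6 ≠ 0 := by
      intro h
      apply hu0
      have h4 : X = 6 := by linear_combination h
      rw [h4] at hXz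
      linear_combination -hXz
    have s2 : SqM n₂ (X - 6) := SqM.of_eq e2 hX6
    have f1 : X - 10 = (X - 6) * (1 + 8 * ((-z * u : ℤ_[2]) : ℚ_[2])) := by
      push_cast
      have h4 : X - 6 = X * (1 - 12 * (z : ℚ_[2])) := by linear_combination 6 * hXz
      have h5 : (X - 6) * (u : ℚ_[2]) = X := by
        rw [h4, mul_assoc, hu', mul_one]
      linear_combination 4 * hXz + 8 * (z : ℚ_[2]) * h5
    have f3 : X + 6 = (X - 6) * (1 + 8 * ((3 * z * u : ℤ_[2]) : ℚ_[2])) := by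
      push_cast
      have h3' : ((3 : ℤ_[2]) : ℚ_[2]) = 3 := rfl
      rw [h3']
      have h4 : X - 6 = X * (1 - 12 * (z : ℚ_[2])) := by linear_combination 6 * hXz
      have h5 : (X - 6) * (u : ℚ_[2]) = X := by
        rw [h4, mul_assoc, hu', mul_one]
      linear_combination (-12) * hXz - 24 * (z : ℚ_[2]) * h5
    have s1 : SqM n₂ (X - 10) := by
      have := s2.mul (sqM_one8 (-z * u))
      rw [← f1, mul_one] at this
      exact this
    have s3 : SqM n₂ (X + 6) := by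
      have := s2.mul (sqM_one8 (3 * z * u))
      rw [← f3, mul_one] at this
      exact this
    have m1 : n₁ = n₂ := SqM.uniq h1 h2 (SqM.of_eq e1 (s1.ne_zero h2)) s1
    have m3 : n₃ = n₂ := SqM.uniq h3 h2 (SqM.of_eq e3 (s3.ne_zero h2)) s3
    subst m1 m3
    have m : n₃ = 1 := by
      have h0 := hh_ne h1
      refine prod_class (a := 1) (by decide) h1 (c := c / n₃) ?_
      rw [div_pow, ← hc]
      push_cast
      field_simp
    subst m
    decide

end Pool.Agent.Zk12
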