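import Mathlib
import Pool.Agent.Zk12.E24
import Pool.Agent.Zk12.Loc
import Pool.Agent.TH954.SRed

/-!
# Infinite descent on the curve `E24` with a 2-adic place
-/

set_option autoImplicit false
set_option linter.all false

namespace Pool.Agent.Zk12

open Pool.Agent.W623.SecC WeierstrassCurve Pool.Agent.TH954

section

variable {L : Type} [Field L] [CharZero L]

/-- the classes on the curve which are allowed -/
def ClsL : List (ℤ × ℤ × ℤ) := [(1, 1, 1), (-1, -3, 3), (2, 3, 6), (-2, -1, 2)]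

/-- a point which is a double -/
def IsDbl (L : Type) [Field L] [CharZero L] (P : (EE L).Point) : Prop :=
  open Classical in ∃ Q : (EE L).Point, P = Q + Q

theorem ee_ne (i j : Fin 3) (h : i ≠ j) : ee L i ≠ ee L j := by
  have h1 : (10 : L) ≠ 6 := by norm_num
  have h2 : (10 : L) ≠ -6 := by norm_num
  have h3 : (6 : L) ≠ -6 := by norm_num
  fin_cases i <;> fin_cases j <;> first | exact absurd rfl h | exact h1 | exact h2 | exact h3 | exact h1.symm | exact h2.symm | exact h3.symm

theorem halve' {x y : L} (h : (EE L).Nonsingular x y) {a b c : L} (ha : x - 10 = a ^ 2)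
    (hb : x - 6 = b ^ 2) (hc : x + 6 = c ^ 2) : IsDbl L (Affine.Point.some x y h) := by
  classical
  have key : ∀ a : L, x - 10 = a ^ 2 → a * b * c = y → IsDbl L (Affine.Point.some x y h) := by
    intro a ha hy
    obtain ⟨Q, hQ⟩ := Pool.Agent.W52.SecC.A2.halve (e := ee L) ee_ne h (r := ![a, b, c]) (by
      intro i
      fin_cases i
      · simpa [ee] using ha.symm
      · simpa [ee] using hb.symm
      · have : x - -6 = c ^ 2 := by linear_combination hc
        simpa [ee] using this.symm) (by simpa using hy)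
    refine ⟨Q, ?_⟩
    rw [← hQ, two_nsmul]
  have h1 : (a * b * c) ^ 2 = y ^ 2 := by
    rw [eqn_of h, ha, hb, hc]
    ring
  rcases sq_eq_sq_iff_eq_or_eq_neg.1 h1 with h2 | h2
  · exact key a ha h2
  · exact key (-a) (by rw [ha]; ring) (by linear_combination -h2)

open Classical in
/-- the descent step: a point with an allowed class is a double after adding one of four points -/
theorem desc_step {x y : L} (h : (EE L).Nonsingular x y) (h6 : x ≠ 6) (h18 : x ≠ 18) (h2 : x ≠ 2)
    {n₁ n₂ n₃ : ℤ} (hm : (n₁, n₂, n₃) ∈ ClsL) {b₁ b₂ b₃ : L} (e1 : x - 10 = n₁ * b₁ ^ 2)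
    (e2 : x - 6 = n₂ * b₂ ^ 2) (e3 : x + 6 = n₃ * b₃ ^ 2) (g1 : b₁ ≠ 0) (g2 : b₂ ≠ 0)
    (g3 : b₃ ≠ 0) :
    ∃ T ∈ [0, T6 L, S18 L, S2 L], IsDbl L (Affine.Point.some x y h + T) := by
  simp only [ClsL, List.mem_cons, Prod.mk.injEq, List.not_mem_nil, or_false] at hm
  rcases hm with ⟨rfl, rfl, rfl⟩ | ⟨rfl, rfl, rfl⟩ | ⟨rfl, rfl, rfl⟩ | ⟨rfl, rfl, rfl⟩
  · refine ⟨0, by simp, ?_⟩
    rw [add_zero]
    exact halve' h (a := b₁) (b := b₂) (c := b₃) (by rw [e1]; push_cast; ring)
      (by rw [e2]; push_cast; ring) (by rw [e3]; push_cast; ring)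
  · refine ⟨T6 L, by simp, ?_⟩
    obtain ⟨x', y', h', hs, h6', l, hl⟩ := add_T6 h h6
    unfold T6
    rw [hs]
    have l1 := hl 10 (Or.inl rfl)
    have l3 := hl (-6) (Or.inr (Or.inr rfl))
    push_cast at e1 e2 e3
    have a1 : x' - 10 = ((l * (10 - x) + y) / (2 * b₁)) ^ 2 := by
      rw [div_pow, ← l1, e1]
      field_simp
      ring
    have a3 : x' + 6 = ((l * (-6 - x) + y) / (6 * b₃)) ^ 2 := by
      rw [div_pow, ← l3, show x - -6 = x + 6 by ring, e3]
      field_simp
      ring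
    have a2 : x' - 6 = (4 / b₂) ^ 2 := by
      rw [e2] at h6'
      field_simp
      linear_combination (-1 / 3 : L) * h6'
    exact halve' h' a1 a2 a3
  · refine ⟨S18 L, by simp, ?_⟩
    obtain ⟨x', y', h', hs, l, -, -, hl⟩ := add_pt h
      (ns_of (x := 18) (y := (48 : L)) (by norm_num)) h18
    unfold S18
    rw [hs]
    have l1 := hl 10 (Or.inl rfl)
    have l2 := hl 6 (Or.inr (Or.inl rfl))
    have l3 := hl (-6) (Or.inr (Or.inr rfl))
    push_cast at e1 e2 e3
    have a1 : x' - 10 = ((l * (10 - x) + y) / (4 * b₁)) ^ 2 := by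
      rw [div_pow, ← l1, e1]
      field_simp
      ring
    have a2 : x' - 6 = ((l * (6 - x) + y) / (6 * b₂)) ^ 2 := by
      rw [div_pow, ← l2, e2]
      field_simp
      ring
    have a3 : x' + 6 = ((l * (-6 - x) + y) / (12 * b₃)) ^ 2 := by
      rw [div_pow, ← l3, show x - -6 = x + 6 by ring, e3]
      field_simp
      ring
    exact halve' h' a1 a2 a3
  · refine ⟨S2 L, by simp, ?_⟩
    obtain ⟨x', y', h', hs, l, -, -, hl⟩ := add_pt h
      (ns_of (x := 2) (y := (16 : L)) (by norm_num)) h2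
    unfold S2
    rw [hs]
    have l1 := hl 10 (Or.inl rfl)
    have l2 := hl 6 (Or.inr (Or.inl rfl))
    have l3 := hl (-6) (Or.inr (Or.inr rfl))
    push_cast at e1 e2 e3
    have a1 : x' - 10 = ((l * (10 - x) + y) / (4 * b₁)) ^ 2 := by
      rw [div_pow, ← l1, e1]
      field_simp
      ring
    have a2 : x' - 6 = ((l * (6 - x) + y) / (2 * b₂)) ^ 2 := by
      rw [div_pow, ← l2, e2]
      field_simp
      ring
    have a3 : x' + 6 = ((l * (-6 - x) + y) / (4 * b₃)) ^ 2 := by
      rw [div_pow, ← l3, show x - -6 = x + 6 by ring, e3]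
      field_simp
      ring
    exact halve' h' a1 a2 a3

end

end Pool.Agent.Zk12
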