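import Mathlib
import Pool.Agent.Zk12.Loc

/-!
# 2-adic computations for doubles
-/

set_option autoImplicit false
set_option linter.all false

namespace Pool.Agent.Zk12

theorem chkD_all : ∀ r < 128, r % 16 = 0 ∨ (∀ s < 128, (s * s) % 128 ≠ (r * r + 4) % 128) ∨
    (∀ s < 128, (s * s) % 128 ≠ (r * r + 16) % 128) := by decide +kernel

theorem int_mod {m : ℕ} {z : ℤ} {y : ℤ_[2]} (h : (z : ℤ_[2]) = 2 ^ m * y) : (2 ^ m : ℤ) ∣ z := by
  have h1 : ‖(z : ℤ_[2])‖ ≤ (2 : ℝ) ^ (-(m : ℤ)) := by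
    rw [h, norm_mul]
    have h2 : ‖(2 : ℤ_[2]) ^ m‖ = (2 : ℝ) ^ (-(m : ℤ)) := by
      have := PadicInt.norm_p_pow (p := 2) m
      simpa using this
    rw [h2]
    have := PadicInt.norm_le_one y
    have h3 : (0 : ℝ) ≤ (2 : ℝ) ^ (-(m : ℤ)) := by positivity
    nlinarith
  have h4 := (PadicInt.norm_int_le_pow_iff_dvd (p := 2) (k := z) (n := m)).1 (by simpa using h1)
  simpa using h4

theorem sq_close {a b c : ℚ_[2]} (hb : b ^ 2 = a ^ 2 + 4) (hc : c ^ 2 = a ^ 2 + 16) :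
    4 ≤ ‖a ^ 2‖ ∨ ‖a ^ 2‖ ≤ 1 / 256 := by
  by_cases ha : ‖a‖ ≤ 1
  · right
    have h4 : ‖(4 : ℚ_[2])‖ ≤ 1 := by
      have := Padic.norm_int_le_one (p := 2) 4
      simpa using this
    have h16 : ‖(16 : ℚ_[2])‖ ≤ 1 := by
      have := Padic.norm_int_le_one (p := 2) 16
      simpa using this
    have ha2 : ‖a ^ 2‖ ≤ 1 := by
      rw [norm_pow]
      exact pow_le_one₀ (norm_nonneg _) ha
    have hb1 : ‖b‖ ≤ 1 := by
      have h1 : ‖b‖ ^ 2 ≤ 1 := by
        rw [← norm_pow, hb]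
        exact (Padic.nonarchimedean _ _).trans (max_le ha2 h4)
      nlinarith [norm_nonneg b]
    have hc1 : ‖c‖ ≤ 1 := by
      have h1 : ‖c‖ ^ 2 ≤ 1 := by
        rw [← norm_pow, hc]
        exact (Padic.nonarchimedean _ _).trans (max_le ha2 h16)
      nlinarith [norm_nonneg c]
    obtain ⟨a', ha'⟩ : ∃ a' : ℤ_[2], (a' : ℚ_[2]) = a := ⟨⟨a, ha⟩, rfl⟩
    obtain ⟨b', hb'⟩ : ∃ b' : ℤ_[2], (b' : ℚ_[2]) = b := ⟨⟨b, hb1⟩, rfl⟩
    obtain ⟨c', hc'⟩ : ∃ c' : ℤ_[2], (c' : ℚ_[2]) = c := ⟨⟨c, hc1⟩, rfl⟩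
    have eb : b' ^ 2 = a' ^ 2 + 4 := by
      apply Subtype.ext
      push_cast
      rw [ha', hb', hb]
      rfl
    have ec : c' ^ 2 = a' ^ 2 + 16 := by
      apply Subtype.ext
      push_cast
      rw [ha', hc', hc]
      rfl
    obtain ⟨r, hr, ya, hya⟩ := residue 7 a'
    obtain ⟨s, hs, yb, hyb⟩ := residue 7 b'
    obtain ⟨t, ht, yc, hyc⟩ := residue 7 c'
    have e1 : (s * s) % 128 = (r * r + 4) % 128 := by
      have h1 := int_mod (m := 7) (z := (s * s : ℤ) - (r * r + 4))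
        (y := -(2 * s * yb + 2 ^ 7 * yb ^ 2) + (2 * r * ya + 2 ^ 7 * ya ^ 2)) (by
        rw [hya, hyb] at eb
        push_cast
        linear_combination eb)
      norm_num at h1
      omega
    have e2 : (t * t) % 128 = (r * r + 16) % 128 := by
      have h1 := int_mod (m := 7) (z := (t * t : ℤ) - (r * r + 16))
        (y := -(2 * t * yc + 2 ^ 7 * yc ^ 2) + (2 * r * ya + 2 ^ 7 * ya ^ 2)) (by
        rw [hya, hyc] at ec
        push_cast
        linear_combination ec)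
      norm_num at h1
      omega
    have hchk := chkD_all r hr
    rcases hchk with h | h | h
    · obtain ⟨q, hq⟩ : ∃ q, r = 16 * q := ⟨r / 16, by omega⟩
      have h5 : a' = 2 ^ 4 * (q + 2 ^ 3 * ya) := by
        rw [hya, hq]
        push_cast
        ring
      have h6 : ‖a'‖ ≤ 1 / 16 := by
        rw [h5, norm_mul]
        have h2 : ‖(2 : ℤ_[2]) ^ 4‖ = 1 / 16 := by
          have := PadicInt.norm_p_pow (p := 2) 4
          norm_num at this ⊢
          exact this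
        rw [h2]
        exact mul_le_of_le_one_right (by norm_num) (PadicInt.norm_le_one _)
      have h7 : ‖a‖ ≤ 1 / 16 := by
        rw [← ha']
        exact h6
      rw [norm_pow]
      calc ‖a‖ ^ 2 ≤ (1 / 16) ^ 2 := pow_le_pow_left₀ (norm_nonneg _) h7 2
        _ = 1 / 256 := by norm_num
    · exact absurd e1 (h s hs)
    · exact absurd e2 (h t ht)
  · left
    have h1 : (2 : ℝ) ≤ ‖a‖ := by
      by_contra h2
      apply ha
      have h3 := (Padic.norm_le_pow_iff_norm_lt_pow_add_one (p := 2) a 0).2 (by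
        simpa using not_le.1 h2)
      simpa using h3
    rw [norm_pow]
    nlinarith

theorem nrm_two_pow (n : ℕ) : ‖(2 : ℚ_[2]) ^ n‖ = (1 / 2) ^ n := by
  have h2 : ‖(2 : ℚ_[2])‖ = 2⁻¹ := by
    have := Padic.norm_p (p := 2)
    simpa using this
  rw [norm_pow, h2, one_div]

theorem nrm_add {a b : ℚ_[2]} (h : ‖b‖ < ‖a‖) : ‖a + b‖ = ‖a‖ := by
  rw [Padic.add_eq_max_of_ne h.ne']
  exact max_eq_left h.le

theorem nrm_add' {a b : ℚ_[2]} (h : ‖a‖ < ‖b‖) : ‖a + b‖ = ‖b‖ := by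
  rw [add_comm]
  exact nrm_add h

/-- doubling far away -/
theorem dbl_far {c d : ℚ_[2]} (h : d * (4 * c * (c + 4) * (c + 16)) = (c ^ 2 - 64) ^ 2)
    (hc : 4 ≤ ‖c‖) : ‖d‖ = 4 * ‖c‖ := by
  have n4 : ‖(4 : ℚ_[2])‖ = 1 / 4 := by
    have := nrm_two_pow 2
    norm_num at this ⊢
    exact this
  have n16 : ‖(16 : ℚ_[2])‖ = 1 / 16 := by
    have := nrm_two_pow 4
    norm_num at this ⊢
    exact this
  have n64 : ‖(-64 : ℚ_[2])‖ = 1 / 64 := by
    have := nrm_two_pow 6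
    norm_num at this ⊢
    exact this
  have h1 : ‖c + 4‖ = ‖c‖ := nrm_add (by rw [n4]; linarith)
  have h2 : ‖c + 16‖ = ‖c‖ := nrm_add (by rw [n16]; linarith)
  have h3 : ‖c ^ 2 - 64‖ = ‖c‖ ^ 2 := by
    rw [sub_eq_add_neg, nrm_add, norm_pow]
    rw [n64, norm_pow]
    nlinarith
  have h4 := congrArg norm h
  rw [norm_mul, norm_mul, norm_mul, norm_mul, h1, h2, n4, norm_pow, h3] at h4
  have h5 : (0 : ℝ) < ‖c‖ ^ 3 := by positivity
  have h6 : (‖d‖ - 4 * ‖c‖) * ‖c‖ ^ 3 = 0 := by linear_combination 4 * h4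
  exact sub_eq_zero.1 ((mul_eq_zero.1 h6).resolve_right h5.ne')

/-- doubling near the two-torsion point -/
theorem dbl_near {c d : ℚ_[2]} (h : d * (4 * c * (c + 4) * (c + 16)) = (c ^ 2 - 64) ^ 2)
    (hc : ‖c‖ ≤ 1 / 256) : 16 ≤ ‖d‖ := by
  have n4 : ‖(4 : ℚ_[2])‖ = 1 / 4 := by
    have := nrm_two_pow 2
    norm_num at this ⊢
    exact this
  have n16 : ‖(16 : ℚ_[2])‖ = 1 / 16 := by
    have := nrm_two_pow 4
    norm_num at this ⊢
    exact this
  have n64 : ‖(-64 : ℚ_[2])‖ = 1 / 64 := by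
    have := nrm_two_pow 6
    norm_num at this ⊢
    exact this
  have h1 : ‖c + 4‖ = 1 / 4 := by rw [nrm_add' (by rw [n4]; linarith), n4]
  have h2 : ‖c + 16‖ = 1 / 16 := by rw [nrm_add' (by rw [n16]; linarith), n16]
  have h3 : ‖c ^ 2 - 64‖ = 1 / 64 := by
    rw [sub_eq_add_neg, nrm_add', n64]
    rw [n64, norm_pow]
    nlinarith [norm_nonneg c]
  have h4 := congrArg norm h
  rw [norm_mul, norm_mul, norm_mul, norm_mul, h1, h2, n4, norm_pow, h3] at h4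
  have h5 : ‖d‖ * ‖c‖ = 1 / 16 := by linear_combination 256 * h4
  nlinarith [norm_nonneg c, norm_nonneg d]

end Pool.Agent.Zk12
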