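import Mathlib
import Pool.Agent.Zk12.Core
import Pool.Agent.Zk12.Dbl
import Pool.Agent.TH954.SVal

/-!
# Infinite descent on the curve `E24` with a 2-adic place, the theorem
-/

set_option autoImplicit false
set_option linter.all false

namespace Pool.Agent.Zk12

open Pool.Agent.W623.SecC WeierstrassCurve Pool.Agent.TH954

section

variable {L : Type} [Field L] [CharZero L] [Algebra ℚ L]

/-- the classes of the points of `E24` over `L` whose first coordinate is not in `k` -/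
def ClsE (k : Subfield L) : Prop := ∀ x y : L, y ^ 2 = (x - 10) * (x - 6) * (x + 6) → x ∉ k →
  ∃ n₁ ∈ HH, ∃ n₂ ∈ HH, ∃ n₃ ∈ HH, 0 < n₃ ∧ ∃ b₁ b₂ b₃ : L, x - 10 = n₁ * b₁ ^ 2 ∧
    x - 6 = n₂ * b₂ ^ 2 ∧ x + 6 = n₃ * b₃ ^ 2

variable {pl : Plc ℚ L ℚ_[2]}

theorem val_int (n : ℤ) : pl.val (n : L) (n : ℚ_[2]) := by
  have := Plc.val_alg (pl := pl) (n : ℚ)
  rwa [map_intCast, map_intCast] at this

/-- square roots of integers are in the ring -/
theorem val_sqrt (pl : Plc ℚ L ℚ_[2]) {c : L} {n : ℤ} (h : (n : L) = c ^ 2) : ∃ d : ℚ_[2], (n : ℚ_[2]) = d ^ 2 := by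
  have h1 : c ^ 2 ∈ pl.W := by
    rw [← h]
    exact (val_int n).mem
  obtain ⟨d, hd⟩ := Plc.val_of_mem (Plc.mem_of_pow_mem (pl := pl) (n := 2) (by norm_num) h1)
  refine ⟨d, ?_⟩
  have h2 := hd.pow 2
  rw [← h] at h2
  exact (val_int n).unique h2

theorem HH_ne {n : ℤ} (h : n ∈ HH) : (n : L) ≠ 0 := by
  have : n ≠ 0 := by
    rintro rfl
    revert h
    decide
  exact_mod_cast this

theorem mem_k {k : Subfield L} (n : ℤ) : (n : L) ∈ k := intCast_mem k n

/-- the class of a point -/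
theorem cls_pl {k : Subfield L} {x y : L} (hxy : y ^ 2 = (x - 10) * (x - 6) * (x + 6))
    (hx : x ∉ k) {n₁ n₂ n₃ : ℤ} (h1 : n₁ ∈ HH) (h2 : n₂ ∈ HH) (h3 : n₃ ∈ HH) (hpos : 0 < n₃)
    {b₁ b₂ b₃ : L} (e1 : x - 10 = n₁ * b₁ ^ 2) (e2 : x - 6 = n₂ * b₂ ^ 2)
    (e3 : x + 6 = n₃ * b₃ ^ 2) (pl : Plc ℚ L ℚ_[2]) :
    (n₁, n₂, n₃) ∈ ClsL ∧ b₁ ≠ 0 ∧ b₂ ≠ 0 ∧ b₃ ≠ 0 := by
  have g1 : b₁ ≠ 0 := by
    rintro rfl
    apply hx
    have : x = ((10 : ℤ) : L) := by push_cast; linear_combination e1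
    rw [this]
    exact mem_k 10
  have g2 : b₂ ≠ 0 := by
    rintro rfl
    apply hx
    have : x = ((6 : ℤ) : L) := by push_cast; linear_combination e2
    rw [this]
    exact mem_k 6
  have g3 : b₃ ≠ 0 := by
    rintro rfl
    apply hx
    have : x = ((-6 : ℤ) : L) := by push_cast; linear_combination e3
    rw [this]
    exact mem_k (-6)
  refine ⟨?_, g1, g2, g3⟩
  have hprod : ∃ c : ℚ_[2], (n₁ : ℚ_[2]) * n₂ * n₃ = c ^ 2 := by
    have h4 : (((n₁ * n₂ * n₃ : ℤ)) : L) = (y / (b₁ * b₂ * b₃)) ^ 2 := by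
      rw [div_pow, hxy, e1, e2, e3]
      push_cast
      field_simp
    obtain ⟨d, hd⟩ := val_sqrt pl h4
    refine ⟨d, ?_⟩
    rw [← hd]
    push_cast
    ring
  by_cases hxW : x ∈ pl.W
  · obtain ⟨X, hX⟩ := Plc.val_of_mem hxW
    have key : ∀ (e n : ℤ) (b : L), n ∈ HH → x - e = n * b ^ 2 → ∃ b' : ℚ_[2], X - e = n * b' ^ 2 := by
      intro e n b hn hb
      have h5 : b ^ 2 = (x - e) * ((n : ℤ) : L)⁻¹ := by
        rw [hb]
        field_simp [HH_ne (L := L) hn]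
      have h6 := (hX.sub (val_int e)).mul ((val_int n).inv (hh_ne hn))
      rw [← h5] at h6
      obtain ⟨b', hb'⟩ := Plc.val_of_mem (Plc.mem_of_pow_mem (pl := pl) (n := 2) (by norm_num) h6.mem)
      refine ⟨b', ?_⟩
      have h7 := (hb'.pow 2).unique h6
      rw [h7]
      field_simp [hh_ne hn]
    obtain ⟨c₁, f1⟩ := key 10 n₁ b₁ h1 (by rw [← e1]; push_cast; ring)
    obtain ⟨c₂, f2⟩ := key 6 n₂ b₂ h2 (by rw [← e2]; push_cast; ring)
    obtain ⟨c₃, f3⟩ := key (-6) n₃ b₃ h3 (by rw [← e3]; push_cast; ring)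
    exact locE h1 h2 h3 hpos (b₁ := c₁) (b₂ := c₂) (b₃ := c₃) (by rw [← f1]; push_cast; ring)
      (by rw [← f2]; push_cast; ring) (by rw [← f3]; push_cast; ring) hprod
  · -- at infinity the three classes agree
    have hx0 : x ≠ 0 := by
      rintro rfl
      exact hxW (zero_mem _)
    have hi := Plc.val_inv_of_notMem hxW
    have key : ∀ (e n e' n' : ℤ) (b b' : L), n ∈ HH → n' ∈ HH → b ≠ 0 → b' ≠ 0 →
        x - e = n * b ^ 2 → x - e' = n' * b' ^ 2 → n = n' := by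
      intro e n e' n' b b' hn hn' hb hb' h5 h6
      have hne : x - e' ≠ 0 := by
        rw [h6]
        exact mul_ne_zero (HH_ne hn') (pow_ne_zero _ hb')
      have h7 : (b / b') ^ 2 = (1 - e * x⁻¹) * (1 - e' * x⁻¹)⁻¹ * ((n' : ℤ) : L) * ((n : ℤ) : L)⁻¹ := by
        have h8 : 1 - e' * x⁻¹ = (x - e') / x := by field_simp
        have h9 : 1 - e * x⁻¹ = (x - e) / x := by field_simp
        rw [h8, h9, h5, h6, inv_div]
        field_simp [HH_ne (L := L) hn, HH_ne (L := L) hn']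
      have u1 : pl.val (1 - (e : L) * x⁻¹) 1 := by
        have := Plc.val_one.sub ((val_int (pl := pl) e).mul hi)
        rwa [mul_zero, sub_zero] at this
      have u2 : pl.val (1 - (e' : L) * x⁻¹) 1 := by
        have := Plc.val_one.sub ((val_int (pl := pl) e').mul hi)
        rwa [mul_zero, sub_zero] at this
      have h10 := ((u1.mul (u2.inv one_ne_zero)).mul (val_int n')).mul
        ((val_int n).inv (hh_ne hn))
      rw [← h7] at h10
      obtain ⟨d, hd⟩ := Plc.val_of_mem (Plc.mem_of_pow_mem (pl := pl) (n := 2) (by norm_num) h10.mem)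
      have h11 := (hd.pow 2).unique h10
      rw [inv_one, one_mul, one_mul] at h11
      refine prod_class hn' hn (c := n * d) ?_
      rw [mul_pow, h11]
      field_simp [hh_ne hn]
    have m1 : n₁ = n₃ := key 10 n₁ (-6) n₃ b₁ b₃ h1 h3 g1 g3 (by rw [← e1]; push_cast; ring)
      (by rw [← e3]; push_cast; ring)
    have m2 : n₂ = n₃ := key 6 n₂ (-6) n₃ b₂ b₃ h2 h3 g2 g3 (by rw [← e2]; push_cast; ring)
      (by rw [← e3]; push_cast; ring)
    subst m1 m2
    obtain ⟨c, hc⟩ := hprod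
    have m : n₂ = 1 := by
      have h0 := hh_ne h2
      refine prod_class (a := 1) (by decide) h2 (c := c / n₂) ?_
      rw [div_pow, ← hc]
      push_cast
      field_simp
    subst m
    decide

end

end Pool.Agent.Zk12
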