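import Mathlib
import Pool.Agent.Zk12.Core2

/-!
# Infinite descent on the curve `E24` with a 2-adic place, the conclusion
-/

set_option autoImplicit false
set_option linter.all false

namespace Pool.Agent.Zk12

open Pool.Agent.W623.SecC WeierstrassCurve Pool.Agent.TH954

section

variable {L : Type} [Field L] [CharZero L] {k : Subfield L}

theorem x_not_mem (hk : ∀ y : L, y ^ 2 ∈ k → y ∈ k) {x y : L} {h : (EE L).Nonsingular x y}
    (hP : Affine.Point.some x y h ∉ algPt k) : x ∉ k := by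
  intro hx
  apply hP
  refine some_mem_algPt.2 ⟨hx, hk y ?_⟩
  rw [eqn_of h]
  have h10 : (10 : L) ∈ k := by simpa using natCast_mem k 10
  have h6 : (6 : L) ∈ k := by simpa using natCast_mem k 6
  exact mul_mem (mul_mem (sub_mem hx h10) (sub_mem hx h6)) (add_mem hx h6)

theorem y_ne_zero {x y : L} (h : (EE L).Nonsingular x y) (hx : x ∉ k) : y ≠ 0 := by
  rintro rfl
  have h1 := eqn_of h
  have h0 : (x - 10) * (x - 6) * (x + 6) = 0 := by linear_combination -h1
  have h10 : (10 : L) ∈ k := by simpa using natCast_mem k 10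
  have h6 : (6 : L) ∈ k := by simpa using natCast_mem k 6
  apply hx
  rcases mul_eq_zero.1 h0 with h1 | h1
  · rcases mul_eq_zero.1 h1 with h2 | h2
    · rw [sub_eq_zero.1 h2]
      exact h10
    · rw [sub_eq_zero.1 h2]
      exact h6
  · rw [eq_neg_of_add_eq_zero_left h1]
    exact neg_mem h6

open Classical in
theorem mem_list {T : (EE L).Point} (hT : T ∈ [0, T6 L, S18 L, S2 L]) :
    T ∈ algPt k ∧ T + T ∈ [0, T10 L] := by
  simp only [List.mem_cons, List.not_mem_nil, or_false] at hT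
  rcases hT with rfl | rfl | rfl | rfl
  · exact ⟨zero_mem _, by simp⟩
  · exact ⟨T6_mem, by rw [two_T6]; simp⟩
  · exact ⟨S18_mem, by rw [two_S18]; simp⟩
  · exact ⟨S2_mem, by rw [two_S2]; simp⟩

open Classical in
theorem exists_step [Algebra ℚ L] (hk : ∀ y : L, y ^ 2 ∈ k → y ∈ k) (hC : ClsE k)
    (pl : Plc ℚ L ℚ_[2]) {P : (EE L).Point} (hP : P ∉ algPt k) :
    ∃ T ∈ [0, T6 L, S18 L, S2 L], ∃ Q : (EE L).Point, Q ∉ algPt k ∧ P + T = Q + Q := by
  cases P with
  | zero => exact absurd (zero_mem _) hP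
  | some x y h =>
    have hx := x_not_mem hk hP
    obtain ⟨n₁, h1, n₂, h2, n₃, h3, hpos, b₁, b₂, b₃, e1, e2, e3⟩ := hC x y (eqn_of h) hx
    obtain ⟨hm, g1, g2, g3⟩ := cls_pl (eqn_of h) hx h1 h2 h3 hpos e1 e2 e3 pl
    have hne : ∀ n : ℕ, x ≠ n := by
      rintro n rfl
      exact hx (natCast_mem k n)
    obtain ⟨T, hT, Q, hQ⟩ := desc_step h (by simpa using hne 6) (by simpa using hne 18)
      (by simpa using hne 2) hm e1 e2 e3 g1 g2 g3
    refine ⟨T, hT, Q, fun hQ' => hP ?_, hQ⟩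
    have h4 : Affine.Point.some x y h = Q + Q - T := by rw [← hQ, add_sub_cancel_right]
    rw [h4]
    exact sub_mem (add_mem hQ' hQ') (mem_list (k := k) hT).1

open Classical in
theorem iter [Algebra ℚ L] (hk : ∀ y : L, y ^ 2 ∈ k → y ∈ k) (hC : ClsE k)
    (pl : Plc ℚ L ℚ_[2]) {P : (EE L).Point} (hP : P ∉ algPt k) :
    ∃ T ∈ [0, T10 L], ∀ n : ℕ, ∃ Q : (EE L).Point, Q ∉ algPt k ∧ P + P + T = 2 ^ (n + 2) • Q := by
  obtain ⟨T, hT, Q, hQ, hPQ⟩ := exists_step hk hC pl hP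
  refine ⟨T + T, (mem_list (k := k) hT).2, fun n => ?_⟩
  induction n with
  | zero =>
    refine ⟨Q, hQ, ?_⟩
    have h1 : P + P + (T + T) = (P + T) + (P + T) := by abel
    rw [h1, hPQ]
    norm_num
    abel
  | succ n ih =>
    obtain ⟨R, hR, hPR⟩ := ih
    obtain ⟨U, hU, S, hS, hRS⟩ := exists_step hk hC pl hR
    refine ⟨S, hS, ?_⟩
    have h4 : 2 ^ (n + 2) • U = 0 := by
      have h5 : (U + U) + (U + U) = 0 := by
        have := (mem_list (k := k) hU).2
        simp only [List.mem_cons, List.not_mem_nil, or_false] at this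
        rcases this with h6 | h6
        · rw [h6, add_zero]
        · rw [h6, two_T10]
      have h6 : 2 ^ (n + 2) • U = 2 ^ n • ((U + U) + (U + U)) := by
        rw [pow_add, mul_nsmul]
        norm_num
        congr 1
      rw [h6, h5, nsmul_zero]
    have h7 : 2 ^ (n + 2) • R = 2 ^ (n + 2) • (R + U) := by rw [nsmul_add, h4, add_zero]
    rw [hPR, h7, hRS, ← two_nsmul, ← mul_nsmul']
    congr 1

/-- the points which are far away in the `2`-adic topology -/
def Far [Algebra ℚ L] (pl : Plc ℚ L ℚ_[2]) (n : ℕ) (P : (EE L).Point) : Prop :=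
  ∀ x y h, P = Affine.Point.some x y h → ∀ c, pl.val x c → (4 : ℝ) ^ n ≤ ‖c - 10‖

theorem val_ofNat [Algebra ℚ L] {pl : Plc ℚ L ℚ_[2]} (n : ℕ) [n.AtLeastTwo] :
    pl.val (OfNat.ofNat n : L) (OfNat.ofNat n : ℚ_[2]) := Plc.val_natCast (pl := pl) n

/-- the values of the coordinates in the doubling formula -/
theorem dbl_val [Algebra ℚ L] {pl : Plc ℚ L ℚ_[2]} {x y x' : L} (h : (EE L).Nonsingular x y)
    (hx' : 4 * y ^ 2 * (x' - 10) = ((x - 10) ^ 2 - 64) ^ 2) {d : ℚ_[2]} (hd : pl.val x' d) :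
    ∃ c, pl.val x c ∧ (d - 10) * (4 * (c - 10) * ((c - 10) + 4) * ((c - 10) + 16)) =
      ((c - 10) ^ 2 - 64) ^ 2 := by
  have h0 : (x' - 10) * (4 * (x - 10) * ((x - 10) + 4) * ((x - 10) + 16)) =
      ((x - 10) ^ 2 - 64) ^ 2 := by
    rw [← hx', eqn_of h]
    ring
  by_cases hx : x ∈ pl.W
  · obtain ⟨c, hc⟩ := Plc.val_of_mem hx
    refine ⟨c, hc, ?_⟩
    have hz := hc.sub (val_ofNat (pl := pl) 10)
    have h1 := (hd.sub (val_ofNat (pl := pl) 10)).mul ((((val_ofNat (pl := pl) 4).mul hz).mul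
      (hz.add (val_ofNat (pl := pl) 4))).mul (hz.add (val_ofNat (pl := pl) 16)))
    have h2 := ((hz.pow 2).sub (val_ofNat (pl := pl) 64)).pow 2
    rw [h0] at h1
    exact h1.unique h2
  · exfalso
    have hz : x - 10 ∉ pl.W := by
      intro hz
      apply hx
      have := add_mem hz (val_ofNat (pl := pl) 10).mem
      rwa [sub_add_cancel] at this
    have hz0 : x - 10 ≠ 0 := by
      intro h
      rw [h] at hz
      exact hz (zero_mem _)
    have hw := Plc.val_inv_of_notMem hz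
    have h3 : (x' - 10) * (4 * (x - 10)⁻¹ * (1 + 4 * (x - 10)⁻¹) * (1 + 16 * (x - 10)⁻¹)) =
        (1 - 64 * (x - 10)⁻¹ ^ 2) ^ 2 := by
      generalize x - 10 = z at h0 hz0
      field_simp
      linear_combination h0
    have h4 := (hd.sub (val_ofNat (pl := pl) 10)).mul ((((val_ofNat (pl := pl) 4).mul hw).mul
      (Plc.val_one.add ((val_ofNat (pl := pl) 4).mul hw))).mul
      (Plc.val_one.add ((val_ofNat (pl := pl) 16).mul hw)))
    rw [h3] at h4
    have h5 := (Plc.val_one.sub ((val_ofNat (pl := pl) 64).mul (hw.pow 2))).pow 2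
    have h6 := h4.unique h5
    norm_num at h6

open Classical in
theorem far_dbl [Algebra ℚ L] {pl : Plc ℚ L ℚ_[2]} (hk : ∀ y : L, y ^ 2 ∈ k → y ∈ k) {n : ℕ}
    {Q : (EE L).Point} (hQ : Q ∉ algPt k) (hF : Far pl (n + 1) Q) : Far pl (n + 2) (Q + Q) := by
  intro x' y' h' hQQ d hd
  cases Q with
  | zero => exact absurd (zero_mem _) hQ
  | some x y h =>
    have hx := x_not_mem hk hQ
    obtain ⟨x₁, y₁, h₁, e, e1, -, -⟩ := dbl_pt h (y_ne_zero h hx)
    rw [hQQ, Affine.Point.some.injEq] at e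
    obtain ⟨rfl, rfl⟩ := e
    obtain ⟨c, hc, hcd⟩ := dbl_val h e1 hd
    have h1 := hF x y h rfl c hc
    have h2 : (4 : ℝ) ≤ ‖c - 10‖ := by
      refine le_trans ?_ h1
      rw [pow_succ]
      have : (1 : ℝ) ≤ 4 ^ n := one_le_pow₀ (by norm_num)
      linarith
    rw [dbl_far hcd h2, pow_succ]
    linarith

open Classical in
theorem far_start [Algebra ℚ L] {pl : Plc ℚ L ℚ_[2]} (hk : ∀ y : L, y ^ 2 ∈ k → y ∈ k)
    {Q : (EE L).Point} (hQ2 : Q + Q ∉ algPt k) : Far pl 2 ((Q + Q) + (Q + Q)) := by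
  have hQ : Q ∉ algPt k := fun h => hQ2 (add_mem h h)
  cases Q with
  | zero => exact absurd (zero_mem _) hQ
  | some x y h =>
    have hx := x_not_mem hk hQ
    have hy := y_ne_zero h hx
    obtain ⟨x₁, y₁, h₁, e, e1, e2, e3⟩ := dbl_pt h hy
    rw [e] at hQ2 ⊢
    have hx₁ := x_not_mem hk hQ2
    obtain ⟨x₂, y₂, h₂, e', e1', -, -⟩ := dbl_pt h₁ (y_ne_zero h₁ hx₁)
    rw [e']
    intro x' y' h' hQQ d hd
    rw [Affine.Point.some.injEq] at hQQ
    obtain ⟨rfl, rfl⟩ := hQQ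
    obtain ⟨c, hc, hcd⟩ := dbl_val h₁ e1' hd
    -- the values of the square roots
    have key : ∀ (w A : L) (v : ℚ_[2]), 4 * y ^ 2 * w = A ^ 2 → pl.val w v → ∃ a, v = a ^ 2 := by
      intro w A v hw hv
      have h5 : (A / (2 * y)) ^ 2 = w := by
        rw [div_pow, ← hw]
        field_simp
        ring
      rw [← h5] at hv
      obtain ⟨a, ha⟩ := Plc.val_of_mem (Plc.mem_of_pow_mem (pl := pl) (n := 2) (by norm_num) hv.mem)
      exact ⟨a, hv.unique (ha.pow 2)⟩
    obtain ⟨a, ha⟩ := key _ _ _ e1 (hc.sub (val_ofNat (pl := pl) 10))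
    obtain ⟨b, hb⟩ := key _ _ _ e2 (hc.sub (val_ofNat (pl := pl) 6))
    obtain ⟨b', hb'⟩ := key _ _ _ e3 (hc.add (val_ofNat (pl := pl) 6))
    rcases sq_close (a := a) (b := b) (c := b') (by rw [← ha, ← hb]; ring)
      (by rw [← ha, ← hb']; ring) with h6 | h6
    · rw [← ha] at h6
      rw [dbl_far hcd h6]
      linarith
    · rw [← ha] at h6
      have := dbl_near hcd h6
      norm_num
      exact this

open Classical in
theorem far_pow [Algebra ℚ L] {pl : Plc ℚ L ℚ_[2]} (hk : ∀ y : L, y ^ 2 ∈ k → y ∈ k)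
    {Q : (EE L).Point} (n : ℕ) (hQ : 2 ^ (n + 2) • Q ∉ algPt k) :
    Far pl (n + 2) (2 ^ (n + 2) • Q) := by
  induction n with
  | zero =>
    have h1 : 2 ^ (0 + 2) • Q = (Q + Q) + (Q + Q) := by
      norm_num
      abel
    rw [h1] at hQ ⊢
    exact far_start hk (fun h => hQ (add_mem h h))
  | succ n ih =>
    have h1 : 2 ^ (n + 1 + 2) • Q = 2 ^ (n + 2) • Q + 2 ^ (n + 2) • Q := by
      rw [← add_nsmul]
      congr 1
      ring
    rw [h1] at hQ ⊢
    have h2 : 2 ^ (n + 2) • Q ∉ algPt k := fun h => hQ (add_mem h h)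
    exact far_dbl hk h2 (ih h2)

open Classical in
/-- a double with the classes of the other points in the allowed set is the origin or `(10, 0)` at
the place -/
theorem dbl_main [Algebra ℚ L] (hk : ∀ y : L, y ^ 2 ∈ k → y ∈ k) (hC : ClsE k)
    (pl : Plc ℚ L ℚ_[2]) {x y : L} (h : (EE L).Nonsingular x y) (hx : x ∉ k)
    (hD : IsDbl L (Affine.Point.some x y h)) {c : ℚ_[2]} (hc : pl.val x c) : c = 10 := by
  obtain ⟨P, hP⟩ := hD
  have hPP : P + P ∉ algPt k := by
    rw [← hP]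
    intro h1
    exact hx (some_mem_algPt.1 h1).1
  have hPn : P ∉ algPt k := fun h => hPP (add_mem h h)
  obtain ⟨T, hT, hn⟩ := iter hk hC pl hPn
  simp only [List.mem_cons, List.not_mem_nil, or_false] at hT
  have hTk : T ∈ algPt k := by
    rcases hT with rfl | rfl
    · exact zero_mem _
    · exact T10_mem
  have hR : P + P + T ∉ algPt k := by
    intro h1
    apply hPP
    have := sub_mem h1 hTk
    rwa [add_sub_cancel_right] at this
  have hfar : ∀ n, Far pl (n + 2) (P + P + T) := by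
    intro n
    obtain ⟨Q, hQ, hPQ⟩ := hn n
    rw [hPQ] at hR ⊢
    exact far_pow hk n hR
  have hinf : ∀ x' y' h', P + P + T = Affine.Point.some x' y' h' → x' ∉ pl.W := by
    intro x' y' h' he hx'
    obtain ⟨d, hd⟩ := Plc.val_of_mem hx'
    obtain ⟨n, hn'⟩ := pow_unbounded_of_one_lt ‖d - 10‖ (show (1 : ℝ) < 4 by norm_num)
    have h1 := hfar n x' y' h' he d hd
    have h2 : (4 : ℝ) ^ n ≤ 4 ^ (n + 2) := pow_le_pow_right₀ (by norm_num) (by omega)
    linarith
  rcases hT with rfl | rfl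
  · exfalso
    exact hinf x y h (by rw [add_zero, hP]) hc.mem
  · have hx10 : x ≠ 10 := by
      rintro rfl
      exact hx (by simpa using natCast_mem k 10)
    obtain ⟨x', y', h', hs, h6⟩ := add_T10 h hx10
    have h7 := hinf x' y' h' (by rw [← hP, ← hs]; rfl)
    have h8 : x' - 10 ∉ pl.W := by
      intro hz
      apply h7
      have := add_mem hz (val_ofNat (pl := pl) 10).mem
      rwa [sub_add_cancel] at this
    have h9 : x' - 10 ≠ 0 := by
      intro h
      rw [h] at h8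
      exact h8 (zero_mem _)
    have h10 : x = 10 + 64 * (x' - 10)⁻¹ := by
      field_simp
      linear_combination h6
    have h11 := (val_ofNat (pl := pl) 10).add ((val_ofNat (pl := pl) 64).mul
      (Plc.val_inv_of_notMem h8))
    rw [← h10] at h11
    rw [hc.unique h11]
    norm_num

/-- the core theorem -/
theorem core [Algebra ℚ L] (hk : ∀ y : L, y ^ 2 ∈ k → y ∈ k) (hC : ClsE k)
    (pl : Plc ℚ L ℚ_[2]) {t : L} (ht : t ∉ k)
    (h1 : ∃ c, (t - 1) * (t + 3) = c ^ 2) (h2 : ∃ c, (t + 1) * (t - 3) = c ^ 2)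
    (h3 : ∃ c, (t + 1) * (t + 3) = c ^ 2) (h4 : ∃ c, (t - 1) * (t - 3) = c ^ 2)
    (h5 : ∃ c, (t - 1) * (t + 1) = c ^ 2) (h6 : ∃ c, (t - 3) * (t + 3) = c ^ 2) :
    t ∉ pl.W := by
  obtain ⟨A, hA⟩ := h1
  obtain ⟨B, hB⟩ := h2
  have fix : ∀ (u v : L) (hu : ∃ c, u = c ^ 2) (hv : ∃ c, v = c ^ 2), u * v = (A * B) ^ 2 →
      ∃ c d : L, u = c ^ 2 ∧ v = d ^ 2 ∧ c * d = A * B := by
    rintro u v ⟨c, hc⟩ ⟨d, hd⟩ huv
    have h7 : (c * d) ^ 2 = (A * B) ^ 2 := by rw [← huv, hc, hd]; ring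
    rcases sq_eq_sq_iff_eq_or_eq_neg.1 h7 with h8 | h8
    · exact ⟨c, d, hc, hd, h8⟩
    · exact ⟨-c, d, by rw [hc]; ring, hd, by linear_combination -h8⟩
  obtain ⟨A', B', hA', hB', hAB'⟩ := fix _ _ h3 h4 (by rw [mul_pow, ← hA, ← hB]; ring)
  obtain ⟨A'', B'', hA'', hB'', hAB''⟩ := fix _ _ h5 h6 (by rw [mul_pow, ← hA, ← hB]; ring)
  obtain ⟨x, hx⟩ : ∃ x, x = 2 * (A * B + t ^ 2) := ⟨_, rfl⟩
  have hw : (A * B) ^ 2 = (t ^ 2 - 1) * (t ^ 2 - 9) := by rw [mul_pow, ← hA, ← hB]; ring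
  have e1 : x - 10 = (A'' + B'') ^ 2 := by
    linear_combination hx + hA'' + hB'' - 2 * hAB''
  have e2 : x - 6 = (A + B) ^ 2 := by
    linear_combination hx + hA + hB
  have e3 : x + 6 = (A' + B') ^ 2 := by
    linear_combination hx + hA' + hB' - 2 * hAB'
  have hxk : x ∉ k := by
    intro hxk
    have h10 : (10 : L) ∈ k := by simpa using natCast_mem k 10
    have h36 : (36 : L) ∈ k := by simpa using natCast_mem k 36
    have h4' : (4 : L) ∈ k := by simpa using natCast_mem k 4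
    have h7 : 4 * t ^ 2 * (10 - x) = 36 - x ^ 2 := by
      linear_combination (x + 2 * A * B - 2 * t ^ 2) * hx + 4 * hw
    by_cases h8 : x = 10
    · rw [h8] at h7
      have h9 : (64 : L) = 0 := by linear_combination h7
      norm_num at h9
    · apply ht
      apply hk
      have h9 : 10 - x ≠ 0 := sub_ne_zero.2 (Ne.symm h8)
      have h11 : t ^ 2 = (36 - x ^ 2) / (4 * (10 - x)) := by
        field_simp
        linear_combination h7
      rw [h11]
      exact div_mem (sub_mem h36 (pow_mem hxk 2)) (mul_mem h4' (sub_mem h10 hxk))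
  intro htW
  obtain ⟨τ, hτ⟩ := Plc.val_of_mem htW
  have hwW : A * B ∈ pl.W := by
    refine Plc.mem_of_pow_mem (pl := pl) (n := 2) (by norm_num) ?_
    rw [hw]
    exact ((((hτ.pow 2).sub Plc.val_one).mul ((hτ.pow 2).sub (val_ofNat (pl := pl) 9)))).mem
  obtain ⟨ω, hω⟩ := Plc.val_of_mem hwW
  have hX := (val_ofNat (pl := pl) 2).mul (hω.add (hτ.pow 2))
  rw [← hx] at hX
  have hns : (EE L).Nonsingular x ((A'' + B'') * (A + B) * (A' + B')) :=
    ns_of (by rw [e1, e2, e3]; ring)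
  have h7 := dbl_main hk hC pl hns hxk (halve' hns e1 e2 e3) hX
  have h8 : ω ^ 2 = (τ ^ 2 - 1) * (τ ^ 2 - 9) := by
    have h9 := ((hτ.pow 2).sub Plc.val_one).mul ((hτ.pow 2).sub (val_ofNat (pl := pl) 9))
    rw [← hw] at h9
    exact (hω.pow 2).unique h9
  have h10 : (64 : ℚ_[2]) = 0 := by
    linear_combination 4 * h8 - 2 * (5 - τ ^ 2 + ω) * h7
  norm_num at h10

end

end Pool.Agent.Zk12
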