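import Mathlib
import Pool.Agent.W620.SC.Core
import Pool.Agent.Zk12.Core3
import Pool.Agent.Y157.PS.Defs

/-!
# Fixed fields of semilinear actions of the Galois group of `ℚ`: Kummer theory and real points
-/

set_option autoImplicit false
set_option linter.all false

namespace Pool.Agent.Zk12

open Pool.Agent.Y157.PS (IsU)

section

variable {κ M L : Type} [Field κ] [Field M] [Field L] [CharZero M] [CharZero L] [Algebra ℚ κ]
  [IsAlgClosure ℚ κ]

/-- a semilinear action -/
structure SD (ι : κ →+* M) (s : (κ ≃ₐ[ℚ] κ) →* RingAut M) : Prop where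
  const : ∀ σ c, s σ (ι c) = ι (σ c)
  cont : ∀ z : M, ∃ E : IntermediateField ℚ κ, FiniteDimensional ℚ E ∧
    ∀ σ ∈ E.fixingSubgroup, s σ z = z

/-- `L` is the fixed field -/
structure Fxd (s : (κ ≃ₐ[ℚ] κ) →* RingAut M) (φ : L →+* M) : Prop where
  fix : ∀ z σ, s σ (φ z) = φ z
  surj : ∀ z, (∀ σ, s σ z = z) → ∃ w, φ w = z

/-- functions with divisible divisor are squares -/
def Root2 (ι : κ →+* M) : Prop := ∀ g : M, g ≠ 0 →
  (∀ W : ValuationSubring M, (∀ c, ι c ∈ W) → ∃ π : M, π ≠ 0 ∧ IsU W (g / π ^ 2)) → ∃ h, h ^ 2 = g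

/-- the algebraic elements of the fixed field -/
def kk (ι : κ →+* M) (φ : L →+* M) : Subfield L := ι.fieldRange.comap φ

theorem mem_kk {ι : κ →+* M} {φ : L →+* M} {z : L} : z ∈ kk ι φ ↔ ∃ c, ι c = φ z := Iff.rfl

theorem kk_sq {ι : κ →+* M} {φ : L →+* M} {y : L} (h : y ^ 2 ∈ kk ι φ) : y ∈ kk ι φ := by
  haveI : IsAlgClosed κ := IsAlgClosure.isAlgClosed ℚ
  obtain ⟨c, hc⟩ := mem_kk.1 h
  obtain ⟨d, hd⟩ := IsAlgClosed.exists_pow_nat_eq c (n := 2) (by norm_num)
  rw [map_pow, ← hd, map_pow] at hc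
  rcases sq_eq_sq_iff_eq_or_eq_neg.1 hc with h1 | h1
  · exact mem_kk.2 ⟨d, h1⟩
  · exact mem_kk.2 ⟨-d, by rw [map_neg, h1, neg_neg]⟩

variable {ι : κ →+* M} {s : (κ ≃ₐ[ℚ] κ) →* RingAut M} {φ : L →+* M}

/-- squarefree part of a rational number -/
theorem rat_sqf {a : ℚ} (ha : a ≠ 0) : ∃ n : ℤ, Squarefree n ∧ ∃ t : ℚ, t ≠ 0 ∧ a = n * t ^ 2 := by
  have hab : a.num * a.den ≠ 0 := mul_ne_zero (Rat.num_ne_zero.2 ha) (by exact_mod_cast a.den_nz)
  obtain ⟨m, b, hm, hb, hbm, hsf⟩ := Nat.sq_mul_squarefree_of_pos (n := (a.num * a.den).natAbs)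
    (Int.natAbs_pos.2 hab)
  have hd : (a.den : ℚ) ≠ 0 := by exact_mod_cast a.den_nz
  have hb0 : (b : ℚ) ≠ 0 := by exact_mod_cast hb.ne'
  refine ⟨(a.num * a.den).sign * m, ?_, b / a.den, div_ne_zero hb0 hd, ?_⟩
  · rw [← Int.squarefree_natAbs, Int.natAbs_mul, Int.natAbs_sign_of_ne_zero hab, one_mul,
      Int.natAbs_natCast]
    exact hsf
  · have h1 : (a.num * a.den : ℤ) = ((a.num * a.den).sign * m) * b ^ 2 := by
      conv_lhs => rw [← Int.sign_mul_natAbs (a.num * a.den), ← hbm]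
      push_cast
      ring
    have h2 : (a.num : ℚ) * a.den = ((((a.num * a.den).sign * m : ℤ)) : ℚ) * b ^ 2 := by
      exact_mod_cast h1
    have h3 : a = a.num / a.den := (Rat.num_div_den a).symm
    rw [div_pow]
    conv_lhs => rw [h3]
    field_simp
    linear_combination h2

include ι in
/-- Kummer theory -/
theorem kummer (hs : SD ι s) (hφ : Fxd s φ) {g : L} {u : M} (hu : u ^ 2 = φ g) (hg : g ≠ 0) :
    ∃ (n : ℤ) (β : L) (c : κ), Squarefree n ∧ β ≠ 0 ∧ g = n * β ^ 2 ∧ c ^ 2 = (n : κ) ∧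
      u = ι c * φ β := by
  haveI : IsAlgClosed κ := IsAlgClosure.isAlgClosed ℚ
  haveI : Algebra.IsAlgebraic ℚ κ := IsAlgClosure.isAlgebraic
  haveI : Normal ℚ κ := IsAlgClosure.normal ℚ κ
  haveI : IsGalois ℚ κ := IsGalois.mk
  have hu0 : u ≠ 0 := by
    rintro rfl
    apply hg
    apply φ.injective
    rw [map_zero, ← hu]
    ring
  have hpm : ∀ σ, s σ u = u ∨ s σ u = -u := by
    intro σ
    apply sq_eq_sq_iff_eq_or_eq_neg.1
    rw [← map_pow, hu, hφ.fix]
  obtain ⟨E, hE, hE'⟩ := hs.cont u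
  obtain ⟨β₀, hβ₀, hβ⟩ := Pool.Agent.W620.SC.exists_fixed_multiple s ι hs.const ⊤ u hu0 (by
    intro σ _
    rcases hpm σ with h | h
    · exact ⟨1, by rw [map_one, one_mul, h]⟩
    · exact ⟨-1, by rw [map_neg, map_one, h]; ring⟩) E hE'
  have hιβ : ι β₀ ≠ 0 := (map_ne_zero ι).2 hβ₀
  obtain ⟨w, hw⟩ := hφ.surj _ (fun σ => hβ σ (Subgroup.mem_top σ))
  -- `β₀²` is rational
  have h1 : ∀ σ : κ ≃ₐ[ℚ] κ, σ (β₀ ^ 2) = β₀ ^ 2 := by
    intro σ
    have h2 := hβ σ (Subgroup.mem_top σ)
    have h3 : (s σ (ι β₀ * u)) ^ 2 = (ι β₀ * u) ^ 2 := by rw [h2]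
    rw [map_mul, hs.const, mul_pow, mul_pow] at h3
    have h4 : s σ u ^ 2 = u ^ 2 := by
      rcases hpm σ with h | h
      · rw [h]
      · rw [h]; ring
    rw [h4] at h3
    have h5 := mul_right_cancel₀ (pow_ne_zero 2 hu0) h3
    rw [map_pow]
    apply ι.injective
    rw [map_pow, map_pow]
    exact h5
  obtain ⟨a, ha⟩ : ∃ a : ℚ, algebraMap ℚ κ a = β₀ ^ 2 := by
    have h2 : β₀ ^ 2 ∈ (⊥ : IntermediateField ℚ κ) := by
      rw [InfiniteGalois.mem_bot_iff_fixed]
      exact h1
    exact IntermediateField.mem_bot.1 h2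
  have ha0 : a ≠ 0 := by
    rintro rfl
    rw [map_zero] at ha
    exact pow_ne_zero 2 hβ₀ ha.symm
  obtain ⟨n, hn, t, ht, hant⟩ := rat_sqf ha0
  have hn0 : (n : ℚ) ≠ 0 := by exact_mod_cast hn.ne_zero
  have ht' : (algebraMap ℚ κ t) ≠ 0 := (map_ne_zero _).2 ht
  have hnκ : (n : κ) ≠ 0 := by
    have := (map_ne_zero (algebraMap ℚ κ)).2 hn0
    rwa [map_intCast] at this
  have h6 : β₀ ^ 2 = (n : κ) * (algebraMap ℚ κ t) ^ 2 := by
    rw [← ha, hant, map_mul, map_pow, map_intCast]
  -- `c = β₀ / t`, `c² = n`, `u = w / β₀ = c * (w / (c β₀)) = c * (w / (n t))`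
  have htM : ι (algebraMap ℚ κ t) = φ (algebraMap ℚ L t) := by
    rw [← RingHom.comp_apply, ← RingHom.comp_apply]
    exact congrFun (congrArg _ (RingHom.ext_rat (ι.comp (algebraMap ℚ κ)) (φ.comp (algebraMap ℚ L)))) t
  refine ⟨n, w / (n * algebraMap ℚ L t), β₀ / algebraMap ℚ κ t, hn, ?_, ?_, ?_, ?_⟩
  · refine div_ne_zero ?_ (mul_ne_zero ?_ ((map_ne_zero _).2 ht))
    · rintro rfl
      rw [map_zero] at hw
      exact mul_ne_zero hιβ hu0 hw.symm
    · exact_mod_cast hn.ne_zero
  · apply φ.injective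
    have h7 : ι β₀ ^ 2 = (n : M) * φ (algebraMap ℚ L t) ^ 2 := by
      rw [← map_pow, h6, map_mul, map_intCast, map_pow, htM]
    rw [map_mul, map_pow, map_div₀, map_mul, map_intCast, ← hu, hw, div_pow, mul_pow, h7]
    have h8 : (n : M) ≠ 0 := by exact_mod_cast hn.ne_zero
    have h9 : φ (algebraMap ℚ L t) ≠ 0 := (map_ne_zero _).2 ((map_ne_zero _).2 ht)
    field_simp
  · rw [div_pow, h6]
    field_simp
  · rw [map_div₀, map_div₀, map_mul, map_intCast, hw, htM]
    have h7 : ι β₀ ^ 2 = (n : M) * φ (algebraMap ℚ L t) ^ 2 := by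
      rw [← map_pow, h6, map_mul, map_intCast, map_pow, htM]
    have h8 : (n : M) ≠ 0 := by exact_mod_cast hn.ne_zero
    have h9 : φ (algebraMap ℚ L t) ≠ 0 := (map_ne_zero _).2 ((map_ne_zero _).2 ht)
    field_simp
    linear_combination -h7

/-- in a valuation ring, the two factors of a constant with sum `2 u` -/
theorem val_dich {W : ValuationSubring M} {ι : κ →+* M} (hW : ∀ c, ι c ∈ W) {u f f' : M}
    {c : κ} (hc : c ≠ 0) (hff : f * f' = ι c) (hsum : f + f' = 2 * u) (hu : u ∉ W) :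
    IsU W (f / u) ∨ IsU W (f * u) := by
  have hu0 : u ≠ 0 := by
    rintro rfl
    exact hu (zero_mem _)
  have hui : u⁻¹ ∈ W := (W.mem_or_inv_mem u).resolve_left hu
  have hιc : ι c ≠ 0 := (map_ne_zero ι).2 hc
  have hf0 : f ≠ 0 := by
    rintro rfl
    rw [zero_mul] at hff
    exact hιc hff.symm
  have hf'0 : f' ≠ 0 := by
    rintro rfl
    rw [mul_zero] at hff
    exact hιc hff.symm
  have h2c : ∀ q : κ, ι q ∈ W := hW
  have htwo : (2 : M)⁻¹ ∈ W := by
    have := hW (2 : κ)⁻¹
    rwa [map_inv₀, map_ofNat] at this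
  have h2M : (2 : M) ∈ W := by
    have := hW (2 : κ)
    rwa [map_ofNat] at this
  -- `f / u` and `f' / u` have the sum `2` and the product `c / u²`, a nonunit
  have huN : u⁻¹ ∈ W.nonunits := by
    rw [ValuationSubring.mem_nonunits_iff]
    have h1 : ¬ W.valuation u ≤ 1 := by rwa [W.valuation_le_one_iff]
    rw [map_inv₀]
    exact inv_lt_one_of_one_lt₀ (not_le.1 h1)
  have key : ∀ f f' : M, f * f' = ι c → f + f' = 2 * u → f ≠ 0 → f' ≠ 0 → f ∈ W →
      IsU W (f' / u) ∧ IsU W (f * u) := by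
    intro f f' hff hsum hf0 hf'0 hfW
    have h1 : f' / u = 2 - f * u⁻¹ := by
      field_simp
      linear_combination hsum
    have h2 : f * u⁻¹ ∈ W.nonunits := by
      rw [ValuationSubring.mem_nonunits_iff] at huN ⊢
      rw [map_mul]
      have h3 : W.valuation f ≤ 1 := by rwa [W.valuation_le_one_iff]
      exact (mul_le_mul' h3 le_rfl).trans_lt (by rwa [one_mul])
    have h4 : IsU W (f' / u) := by
      have h5 : W.valuation (f' / u) = 1 := by
        rw [h1]
        have h6 : W.valuation (2 : M) = 1 := by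
          refine le_antisymm ((W.valuation_le_one_iff _).2 h2M) ?_
          have h7 := (W.valuation_le_one_iff _).2 htwo
          rw [map_inv₀] at h7
          exact (inv_le_one₀ (zero_lt_iff.2 ((Valuation.ne_zero_iff _).2 two_ne_zero))).1 h7
        have h8 : W.valuation (f * u⁻¹) < W.valuation (2 : M) := by
          rw [h6]
          rwa [ValuationSubring.mem_nonunits_iff] at h2
        rw [Valuation.map_sub_eq_of_lt_left _ h8, h6]
      refine ⟨div_ne_zero hf'0 hu0, (W.valuation_le_one_iff _).1 h5.le, ?_⟩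
      apply (W.valuation_le_one_iff _).1
      rw [map_inv₀, h5, inv_one]
    refine ⟨h4, ?_⟩
    have h5 : f * u = ι c * (f' / u)⁻¹ := by
      rw [← hff]
      field_simp
    refine ⟨mul_ne_zero hf0 hu0, ?_, ?_⟩
    · rw [h5]
      exact mul_mem (hW c) h4.2.2
    · rw [h5, mul_inv, inv_inv, ← map_inv₀]
      exact mul_mem (hW _) h4.2.1
  by_cases hfW : f ∈ W
  · exact Or.inr (key f f' hff hsum hf0 hf'0 hfW).2
  · have hf'W : f' ∈ W := by
      have h1 : f' = ι c * f⁻¹ := by
        rw [← hff]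
        field_simp
      rw [h1]
      exact mul_mem (hW c) ((W.mem_or_inv_mem f).resolve_left hfW)
    exact Or.inl (key f' f (by rw [mul_comm]; exact hff) (by rw [add_comm]; exact hsum) hf'0 hf0
      hf'W).1

/-- complex conjugation -/
structure Conj (τ : κ ≃ₐ[ℚ] κ) : Prop where
  inv : ∀ z, τ (τ z) = z
  pos : ∀ (a : ℚ) (r : κ), 0 < a → r ^ 2 = algebraMap ℚ κ a → τ r = r
  neg : ∀ (a : ℚ) (r : κ), a < 0 → r ^ 2 = algebraMap ℚ κ a → τ r = -r

variable (κ) in
theorem exists_conj : ∃ τ : κ ≃ₐ[ℚ] κ, Conj τ := by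
  haveI : Algebra.IsAlgebraic ℚ κ := IsAlgClosure.isAlgebraic
  haveI : Normal ℚ κ := IsAlgClosure.normal ℚ κ
  let f : κ →ₐ[ℚ] ℂ := IsAlgClosed.lift
  let e : κ ≃ₐ[ℚ] f.fieldRange := AlgEquiv.ofInjectiveField f
  have he : ∀ z, ((e z : f.fieldRange) : ℂ) = f z := fun z => rfl
  haveI : Normal ℚ f.fieldRange := Normal.of_algEquiv e
  let cc : ℂ ≃ₐ[ℚ] ℂ := Complex.conjAe.restrictScalars ℚ
  have hcc : ∀ z, cc z = (starRingEnd ℂ) z := fun z => rfl
  let τ : κ ≃ₐ[ℚ] κ := e.trans ((cc.restrictNormal f.fieldRange).trans e.symm)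
  have hτ : ∀ z, f (τ z) = (starRingEnd ℂ) (f z) := by
    intro z
    have h1 : e (e.symm ((cc.restrictNormal f.fieldRange) (e z))) =
        (cc.restrictNormal f.fieldRange) (e z) := e.apply_symm_apply _
    change f (e.symm ((cc.restrictNormal f.fieldRange) (e z))) = _
    rw [← he, h1]
    exact AlgEquiv.restrictNormal_commutes cc f.fieldRange (e z)
  have hinj := f.toRingHom.injective
  have hfq : ∀ a : ℚ, f (algebraMap ℚ κ a) = ((a : ℝ) : ℂ) := by
    intro a
    rw [f.commutes]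
    simp
  refine ⟨τ, fun z => hinj ?_, fun a r ha hr => hinj ?_, fun a r ha hr => hinj ?_⟩
  · change f (τ (τ z)) = f z
    rw [hτ, hτ, Complex.conj_conj]
  · change f (τ r) = f r
    rw [hτ]
    have h1 : f r ^ 2 = ((Real.sqrt a : ℝ) : ℂ) ^ 2 := by
      rw [← map_pow, hr, hfq, ← Complex.ofReal_pow, Real.sq_sqrt (by exact_mod_cast ha.le)]
    rcases sq_eq_sq_iff_eq_or_eq_neg.1 h1 with h2 | h2
    · rw [h2, Complex.conj_ofReal]
    · rw [h2, map_neg, Complex.conj_ofReal]
  · change f (τ r) = f (-r)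
    rw [hτ, map_neg]
    have h1 : f r ^ 2 = ((Real.sqrt (-a) : ℝ) * Complex.I : ℂ) ^ 2 := by
      rw [← map_pow, hr, hfq, mul_pow, ← Complex.ofReal_pow,
        Real.sq_sqrt (by exact_mod_cast (neg_pos.2 ha).le), Complex.I_sq]
      push_cast
      ring
    rcases sq_eq_sq_iff_eq_or_eq_neg.1 h1 with h2 | h2
    · rw [h2, map_mul, Complex.conj_ofReal, Complex.conj_I]
      ring
    · rw [h2, map_neg, map_mul, Complex.conj_ofReal, Complex.conj_I]
      ring

/-- the sign lemma: three square roots of `± (x - e)` over the real points -/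
theorem real_lemma (hR : Root2 ι) (hs : SD ι s) {τ : κ ≃ₐ[ℚ] κ} (hτ : Conj τ) {x u v w : M}
    {e e' e'' : ℚ} (hee : e < e') (h1 : e'' ≠ e) (h2 : e'' ≠ e') (hu : x - (e : M) = -u ^ 2)
    (hv : x - (e' : M) = v ^ 2) (hw : x - (e'' : M) = w ^ 2 ∨ x - (e'' : M) = -w ^ 2)
    (fu : s τ u = u) (fv : s τ v = v) (fw : s τ w = w) : False := by
  haveI : IsAlgClosed κ := IsAlgClosure.isAlgClosed ℚ
  have hq : ∀ q : ℚ, ι (algebraMap ℚ κ q) = (q : M) := by
    intro q
    rw [← RingHom.comp_apply]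
    simp
  obtain ⟨i, hi⟩ := IsAlgClosed.exists_pow_nat_eq (algebraMap ℚ κ (-1)) (n := 2) (by norm_num)
  have hi2 : ι i ^ 2 = -1 := by rw [← map_pow, hi, hq]; norm_num
  have hτi : τ i = -i := hτ.neg _ _ (by norm_num) hi
  -- the two functions
  obtain ⟨f, hf⟩ : ∃ f, f = u + ι i * v := ⟨_, rfl⟩
  have hff : f * (u - ι i * v) = ((e - e' : ℚ) : M) := by
    rw [hf]
    push_cast
    linear_combination hu - hv - v ^ 2 * hi2
  have hfs : f + (u - ι i * v) = 2 * u := by rw [hf]; ring
  have hτf : s τ f = u - ι i * v := by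
    rw [hf, map_add, map_mul, hs.const, hτi, map_neg, fu, fv]
    ring
  have hee0 : (e - e' : ℚ) ≠ 0 := sub_ne_zero.2 hee.ne
  have hee0M : ((e - e' : ℚ) : M) ≠ 0 := by exact_mod_cast hee0
  have hf0 : f ≠ 0 := by
    rintro h0
    rw [h0, zero_mul] at hff
    exact hee0M hff.symm
  -- `u`, `v` and `w` are not in `W` if `x` is not
  obtain ⟨g, g', q, hq0, hgg, hgs, hτg, hgW⟩ : ∃ (g g' : M) (q : ℚ), q ≠ 0 ∧ g * g' = (q : M) ∧
      (g + g' = 2 * u ∨ g + g' = 2 * v) ∧ s τ g = g ∧
      (∀ W : ValuationSubring M, (∀ c, ι c ∈ W) → x ∈ W → g ∈ W ∧ g' ∈ W) := by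
    have hmem : ∀ W : ValuationSubring M, (∀ c, ι c ∈ W) → x ∈ W →
        u ∈ W ∧ v ∈ W ∧ w ∈ W := by
      intro W hW hx
      have hcW : ∀ q : ℚ, (q : M) ∈ W := fun q => by rw [← hq]; exact hW _
      have hsq : ∀ z : M, z ^ 2 ∈ W → z ∈ W := by
        intro z hz
        by_contra h
        have h1 := (W.mem_or_inv_mem z).resolve_left h
        apply h
        have h2 : z = z ^ 2 * z⁻¹ := by
          by_cases h0 : z = 0
          · rw [h0]; ring
          · field_simp
        rw [h2]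
        exact mul_mem hz h1
      refine ⟨hsq u ?_, hsq v ?_, hsq w ?_⟩
      · have : u ^ 2 = -(x - (e : M)) := by rw [hu]; ring
        rw [this]
        exact neg_mem (sub_mem hx (hcW _))
      · rw [← hv]
        exact sub_mem hx (hcW _)
      · rcases hw with hw | hw
        · rw [← hw]
          exact sub_mem hx (hcW _)
        · have : w ^ 2 = -(x - (e'' : M)) := by rw [hw]; ring
          rw [this]
          exact neg_mem (sub_mem hx (hcW _))
    rcases hw with hw | hw
    · refine ⟨v + w, v - w, e'' - e', sub_ne_zero.2 h2, ?_, Or.inr (by ring), by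
        rw [map_add, fv, fw], fun W hW hx => ?_⟩
      · push_cast
        linear_combination -hv + hw
      · obtain ⟨a, b, c⟩ := hmem W hW hx
        exact ⟨add_mem b c, sub_mem b c⟩
    · refine ⟨u + w, u - w, e - e'', sub_ne_zero.2 h1.symm, ?_, Or.inl (by ring), by
        rw [map_add, fu, fw], fun W hW hx => ?_⟩
      · push_cast
        linear_combination hu - hw
      · obtain ⟨a, b, c⟩ := hmem W hW hx
        exact ⟨add_mem a c, sub_mem a c⟩
  have hq0M : (q : M) ≠ 0 := by exact_mod_cast hq0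
  have hg0 : g ≠ 0 := by
    rintro h0
    rw [h0, zero_mul] at hgg
    exact hq0M hgg.symm
  -- the square root of `f g`
  obtain ⟨h, hh⟩ : ∃ h, h ^ 2 = f * g := by
    refine hR _ (mul_ne_zero hf0 hg0) fun W hW => ?_
    have hcW : ∀ q : ℚ, (q : M) ∈ W := fun q => by rw [← hq]; exact hW _
    have hunit : ∀ (q : ℚ) (a b : M), q ≠ 0 → a * b = (q : M) → a ∈ W → b ∈ W → IsU W a := by
      intro q a b hq0 hab ha hb
      have hq0M : (q : M) ≠ 0 := by exact_mod_cast hq0
      have ha0 : a ≠ 0 := by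
        rintro rfl
        rw [zero_mul] at hab
        exact hq0M hab.symm
      refine ⟨ha0, ha, ?_⟩
      have h3 : a⁻¹ = b * ((q⁻¹ : ℚ) : M) := by
        push_cast
        rw [← hab]
        field_simp
        exact (div_self (right_ne_zero_of_mul (hab ▸ hq0M))).symm
      rw [h3]
      exact mul_mem hb (hcW _)
    by_cases hx : x ∈ W
    · refine ⟨1, one_ne_zero, ?_⟩
      rw [one_pow, div_one]
      have hmem := hgW W hW hx
      have hsq : ∀ z : M, z ^ 2 ∈ W → z ∈ W := by
        intro z hz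
        by_contra h
        have h1 := (W.mem_or_inv_mem z).resolve_left h
        apply h
        have h2 : z = z ^ 2 * z⁻¹ := by
          by_cases h0 : z = 0
          · rw [h0]; ring
          · field_simp
        rw [h2]
        exact mul_mem hz h1
      have huW : u ∈ W := hsq u (by
        have : u ^ 2 = -(x - (e : M)) := by rw [hu]; ring
        rw [this]
        exact neg_mem (sub_mem hx (hcW _)))
      have hvW : v ∈ W := hsq v (by
        rw [← hv]
        exact sub_mem hx (hcW _))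
      have i1 := hunit _ f _ hee0 hff (by rw [hf]; exact add_mem huW (mul_mem (hW i) hvW))
        (sub_mem huW (mul_mem (hW i) hvW))
      have i2 := hunit _ g _ hq0 hgg hmem.1 hmem.2
      exact ⟨mul_ne_zero i1.1 i2.1, mul_mem i1.2.1 i2.2.1, by
        rw [mul_inv]; exact mul_mem i1.2.2 i2.2.2⟩
    · -- at infinity
      have hnot : ∀ (z : M) (q : ℚ), (x - (q : M) = z ^ 2 ∨ x - (q : M) = -z ^ 2) → z ∉ W := by
        intro z q hz hzW
        apply hx
        have h3 : x = (x - (q : M)) + (q : M) := by ring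
        rw [h3]
        refine add_mem ?_ (hcW _)
        rcases hz with hz | hz
        · rw [hz]; exact pow_mem hzW 2
        · rw [hz]; exact neg_mem (pow_mem hzW 2)
      have huW := hnot u e (Or.inr hu)
      have hvW := hnot v e' (Or.inl hv)
      have hu0 : u ≠ 0 := fun h => huW (by rw [h]; exact zero_mem _)
      have hv0 : v ≠ 0 := fun h => hvW (by rw [h]; exact zero_mem _)
      -- `v / u` is a unit
      have huv : IsU W (v / u) := by
        have hxN : (u ^ 2)⁻¹ ∈ W := by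
          rw [← inv_pow]
          exact pow_mem ((W.mem_or_inv_mem u).resolve_left huW) 2
        have hxN' : (v ^ 2)⁻¹ ∈ W := by
          rw [← inv_pow]
          exact pow_mem ((W.mem_or_inv_mem v).resolve_left hvW) 2
        have hsq : ∀ z : M, z ^ 2 ∈ W → z ∈ W := by
          intro z hz
          by_contra h
          have h1 := (W.mem_or_inv_mem z).resolve_left h
          apply h
          have h2 : z = z ^ 2 * z⁻¹ := by
            by_cases h0 : z = 0
            · rw [h0]; ring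
            · field_simp
          rw [h2]
          exact mul_mem hz h1
        refine ⟨div_ne_zero hv0 hu0, hsq _ ?_, hsq _ ?_⟩
        · have h3 : (v / u) ^ 2 = -1 + ((e - e' : ℚ) : M) * (u ^ 2)⁻¹ := by
            have h4 : v ^ 2 = -u ^ 2 + ((e - e' : ℚ) : M) := by
              push_cast
              linear_combination hu - hv
            rw [div_pow, h4]
            field_simp
          rw [h3]
          exact add_mem (neg_mem (one_mem _)) (mul_mem (hcW _) hxN)
        · have h3 : ((v / u)⁻¹) ^ 2 = -1 + ((e - e' : ℚ) : M) * (v ^ 2)⁻¹ := by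
            have h4 : u ^ 2 = -v ^ 2 + ((e - e' : ℚ) : M) := by
              push_cast
              linear_combination hu - hv
            rw [inv_div, div_pow, h4]
            field_simp
          rw [h3]
          exact add_mem (neg_mem (one_mem _)) (mul_mem (hcW _) hxN')
      have umul : ∀ a b : M, IsU W a → IsU W b → IsU W (a * b) := fun a b ha hb =>
        ⟨mul_ne_zero ha.1 hb.1, mul_mem ha.2.1 hb.2.1, by rw [mul_inv]; exact mul_mem ha.2.2 hb.2.2⟩
      have uinv : ∀ a : M, IsU W a → IsU W a⁻¹ := fun a ha =>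
        ⟨inv_ne_zero ha.1, ha.2.2, by rw [inv_inv]; exact ha.2.1⟩
      have d1 := val_dich hW (c := algebraMap ℚ κ (e - e')) ((map_ne_zero _).2 hee0)
        (by rw [hq]; exact hff) hfs huW
      have d2 : IsU W (g / u) ∨ IsU W (g * u) := by
        rcases hgs with hgs | hgs
        · exact val_dich hW (c := algebraMap ℚ κ q) ((map_ne_zero _).2 hq0)
            (by rw [hq]; exact hgg) hgs huW
        · rcases val_dich hW (c := algebraMap ℚ κ q) ((map_ne_zero _).2 hq0)
            (by rw [hq]; exact hgg) hgs hvW with h3 | h3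
          · left
            have h4 : g / u = g / v * (v / u) := by field_simp
            rw [h4]
            exact umul _ _ h3 huv
          · right
            have h4 : g * u = g * v * (v / u)⁻¹ := by field_simp
            rw [h4]
            exact umul _ _ h3 (uinv _ huv)
      rcases d1 with d1 | d1 <;> rcases d2 with d2 | d2
      · refine ⟨u, hu0, ?_⟩
        have h4 : f * g / u ^ 2 = f / u * (g / u) := by field_simp
        rw [h4]
        exact umul _ _ d1 d2
      · refine ⟨1, one_ne_zero, ?_⟩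
        have h4 : f * g / 1 ^ 2 = f / u * (g * u) := by field_simp
        rw [h4]
        exact umul _ _ d1 d2
      · refine ⟨1, one_ne_zero, ?_⟩
        have h4 : f * g / 1 ^ 2 = f * u * (g / u) := by field_simp
        rw [h4]
        exact umul _ _ d1 d2
      · refine ⟨u⁻¹, inv_ne_zero hu0, ?_⟩
        have h4 : f * g / u⁻¹ ^ 2 = f * u * (g * u) := by field_simp
        rw [h4]
        exact umul _ _ d1 d2
  -- the contradiction
  obtain ⟨z, hz⟩ : ∃ z, z = h * s τ h / g := ⟨_, rfl⟩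
  have hz2 : z ^ 2 = ((e - e' : ℚ) : M) := by
    have h3 : (s τ h) ^ 2 = (u - ι i * v) * g := by rw [← map_pow, hh, map_mul, hτf, hτg]
    rw [hz, div_pow, mul_pow, hh, h3, ← hff]
    field_simp
  have hτz : s τ z = z := by
    have h3 : s τ (s τ h) = h := by
      have h4 : τ * τ = 1 := by
        ext z
        exact hτ.inv z
      have h5 : s τ (s τ h) = s (τ * τ) h := by rw [map_mul]; rfl
      rw [h5, h4, map_one]
      rfl
    rw [hz, map_div₀, map_mul, h3, hτg, mul_comm]
  obtain ⟨r, hr⟩ := IsAlgClosed.exists_pow_nat_eq (algebraMap ℚ κ (e - e')) (n := 2) (by norm_num)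
  have hr2 : ι r ^ 2 = z ^ 2 := by rw [← map_pow, hr, hq, hz2]
  have hτr : τ r = -r := hτ.neg _ _ (sub_neg.2 hee) hr
  have hz0 : z ≠ 0 := by
    rintro rfl
    apply hee0M
    rw [← hz2]
    ring
  have h3 : s τ (ι r) = -ι r := by rw [hs.const, hτr, map_neg]
  rcases sq_eq_sq_iff_eq_or_eq_neg.1 hr2 with h4 | h4
  · rw [h4, hτz] at h3
    exact hz0 (self_eq_neg.1 h3)
  · rw [h4, map_neg, hτz, neg_neg] at h3
    exact hz0 (neg_eq_self.1 h3)

end

end Pool.Agent.Zk12
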