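import Mathlib
import Pool.Agent.Zk12.Abs

/-!
# Square roots of `t - e` on curves `a y² = ∏ (t - e)`, and their classes
-/

set_option autoImplicit false
set_option linter.all false

namespace Pool.Agent.Zk12

open Pool.Agent.Y157.PS (IsU)

theorem isU_val {M : Type} [Field M] {W : ValuationSubring M} {z : M} :
    IsU W z ↔ W.valuation z = 1 := by
  constructor
  · rintro ⟨h0, h1, h2⟩
    have h3 := (W.valuation_le_one_iff _).2 h1
    have h4 := (W.valuation_le_one_iff _).2 h2
    rw [map_inv₀] at h4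
    exact le_antisymm h3 ((inv_le_one₀ (zero_lt_iff.2 ((Valuation.ne_zero_iff _).2 h0))).1 h4)
  · intro h
    refine ⟨?_, (W.valuation_le_one_iff _).1 h.le, ?_⟩
    · rintro rfl
      rw [map_zero] at h
      exact zero_ne_one h
    · apply (W.valuation_le_one_iff _).1
      rw [map_inv₀, h, inv_one]

section

variable {κ M L : Type} [Field κ] [Field M] [Field L] [CharZero M] [CharZero L] [Algebra ℚ κ]
  [IsAlgClosure ℚ κ] {ι : κ →+* M} {s : (κ ≃ₐ[ℚ] κ) →* RingAut M} {φ : L →+* M}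

theorem iota_rat (q : ℚ) : ι (algebraMap ℚ κ q) = (q : M) := by
  rw [← RingHom.comp_apply]
  simp

/-- the valuation of the differences -/
theorem dich {W : ValuationSubring M} {S : Finset ℚ} {m : ℕ} (hS : S.card = 2 * m + 1) {a : ℚ}
    (ha : W.valuation (a : M) = 1) (hint : ∀ e ∈ S, (e : M) ∈ W)
    (hdif : ∀ e ∈ S, ∀ e' ∈ S, e ≠ e' → W.valuation ((e : M) - e') = 1) {t y : M}
    (h : (a : M) * y ^ 2 = ∏ e ∈ S, (t - (e : M))) {e : ℚ} (he : e ∈ S) :
    (1 < W.valuation t ∧ W.valuation (t - (e : M)) = W.valuation t ∧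
        W.valuation y ^ 2 = W.valuation t ^ (2 * m + 1)) ∨
      W.valuation (t - (e : M)) = 1 ∨ W.valuation (t - (e : M)) = W.valuation y ^ 2 := by
  have hp : W.valuation y ^ 2 = ∏ e ∈ S, W.valuation (t - (e : M)) := by
    rw [← map_prod, ← h, map_mul, ha, one_mul, map_pow]
  by_cases ht : t ∈ W
  · right
    by_cases h1 : W.valuation (t - (e : M)) = 1
    · exact Or.inl h1
    · right
      have h2 : W.valuation (t - (e : M)) < 1 := lt_of_le_of_ne
        ((W.valuation_le_one_iff _).2 (sub_mem ht (hint e he))) h1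
      rw [hp, ← Finset.mul_prod_erase S _ he, Finset.prod_eq_one, mul_one]
      intro e' he'
      rw [Finset.mem_erase] at he'
      have h3 : t - (e' : M) = (t - (e : M)) + ((e : M) - e') := by ring
      have h4 := hdif e he e' he'.2 he'.1.symm
      rw [h3, Valuation.map_add_eq_of_lt_right _ (by rw [h4]; exact h2), h4]
  · left
    have h1 : 1 < W.valuation t := by
      by_contra h2
      exact ht ((W.valuation_le_one_iff _).1 (not_lt.1 h2))
    have h2 : ∀ e ∈ S, W.valuation (t - (e : M)) = W.valuation t := by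
      intro e he
      rw [Valuation.map_sub_eq_of_lt_left]
      exact ((W.valuation_le_one_iff _).2 (hint e he)).trans_lt h1
    refine ⟨h1, h2 e he, ?_⟩
    rw [hp, Finset.prod_congr rfl h2, Finset.prod_const, hS]

/-- the square roots -/
theorem rootP (hR : Root2 ι) {S : Finset ℚ} {m : ℕ} (hS : S.card = 2 * m + 1) {a : ℚ}
    (ha : a ≠ 0) {t y : M} (hy : y ≠ 0) (h : (a : M) * y ^ 2 = ∏ e ∈ S, (t - (e : M)))
    {e : ℚ} (he : e ∈ S) : ∃ u, u ^ 2 = t - (e : M) := by
  have hne : t - (e : M) ≠ 0 := by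
    intro h0
    have h1 : (a : M) * y ^ 2 = 0 := by rw [h, Finset.prod_eq_zero he h0]
    have ha' : (a : M) ≠ 0 := by exact_mod_cast ha
    exact mul_ne_zero ha' (pow_ne_zero 2 hy) h1
  refine hR _ hne fun W hW => ?_
  have hq1 : ∀ q : ℚ, q ≠ 0 → W.valuation (q : M) = 1 := by
    intro q hq
    have h1 : IsU W (q : M) := by
      refine ⟨by exact_mod_cast hq, ?_, ?_⟩
      · rw [← iota_rat (ι := ι)]; exact hW _
      · rw [← iota_rat (ι := ι), ← map_inv₀]; exact hW _
    exact isU_val.1 h1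
  rcases dich (W := W) hS (hq1 a ha) (fun e _ => by rw [← iota_rat (ι := ι)]; exact hW _)
    (fun e _ e' _ hee => by
      have := hq1 (e - e') (sub_ne_zero.2 hee)
      rwa [Rat.cast_sub] at this) h he with ⟨h1, h2, h3⟩ | h1 | h1
  · have ht0 : t ≠ 0 := by
      rintro rfl
      rw [map_zero] at h1
      exact not_lt_zero h1
    have hν0 : W.valuation t ≠ 0 := (Valuation.ne_zero_iff _).2 ht0
    refine ⟨y / t ^ m, div_ne_zero hy (pow_ne_zero _ ht0), ?_⟩
    rw [isU_val, map_div₀, map_pow, map_div₀, map_pow, div_pow, h3, h2, pow_succ, ← pow_mul,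
      mul_comm m 2, mul_div_assoc, mul_comm, div_mul_cancel₀ _ (pow_ne_zero _ hν0), div_self hν0]
  · refine ⟨1, one_ne_zero, ?_⟩
    rw [isU_val, one_pow, div_one, h1]
  · refine ⟨y, hy, ?_⟩
    rw [isU_val, map_div₀, map_pow, h1]
    exact div_self (pow_ne_zero _ ((Valuation.ne_zero_iff _).2 hy))

/-- the sign lemma for classes -/
theorem sgn_mono (hR : Root2 ι) (hs : SD ι s) (hφ : Fxd s φ) {x : L} {e e' e'' : ℚ}
    (hee : e < e') (h1 : e'' ≠ e) (h2 : e'' ≠ e') {n n' n'' : ℤ} {b b' b'' : L}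
    (hn : x - (e : L) = n * b ^ 2) (hn' : x - (e' : L) = n' * b' ^ 2)
    (hn'' : x - (e'' : L) = n'' * b'' ^ 2) (h0 : n'' ≠ 0) : ¬ (n < 0 ∧ 0 < n') := by
  rintro ⟨hneg, hpos⟩
  haveI : IsAlgClosed κ := IsAlgClosure.isAlgClosed ℚ
  obtain ⟨τ, hτ⟩ := exists_conj κ
  have hroot : ∀ q : ℚ, ∃ r : κ, r ^ 2 = algebraMap ℚ κ q := fun q =>
    IsAlgClosed.exists_pow_nat_eq _ (by norm_num)
  obtain ⟨r, hr⟩ := hroot (-n)
  obtain ⟨r', hr'⟩ := hroot n'
  have e1 : ι r ^ 2 = -(n : M) := by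
    rw [← map_pow, hr, iota_rat]
    push_cast
    rfl
  have e2 : ι r' ^ 2 = (n' : M) := by
    rw [← map_pow, hr', iota_rat]
    push_cast
    rfl
  have hφq : ∀ q : ℚ, φ (q : L) = (q : M) := fun q => map_ratCast φ q
  have f1 : φ x - (e : M) = -(ι r * φ b) ^ 2 := by
    have := congrArg φ hn
    rw [map_sub, hφq, map_mul, map_intCast, map_pow] at this
    rw [this, mul_pow, e1]
    ring
  have f2 : φ x - (e' : M) = (ι r' * φ b') ^ 2 := by
    have := congrArg φ hn'
    rw [map_sub, hφq, map_mul, map_intCast, map_pow] at this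
    rw [this, mul_pow, e2]
  have g1 : s τ (ι r * φ b) = ι r * φ b := by
    rw [map_mul, hs.const, hτ.pos (-n) r (by exact_mod_cast neg_pos.2 hneg) hr, hφ.fix]
  have g2 : s τ (ι r' * φ b') = ι r' * φ b' := by
    rw [map_mul, hs.const, hτ.pos n' r' (by exact_mod_cast hpos) hr', hφ.fix]
  rcases lt_or_gt_of_ne h0 with h3 | h3
  · obtain ⟨r'', hr''⟩ := hroot (-n'')
    have e3 : ι r'' ^ 2 = -(n'' : M) := by
      rw [← map_pow, hr'', iota_rat]
      push_cast
      rfl
    have f3 : φ x - (e'' : M) = -(ι r'' * φ b'') ^ 2 := by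
      have := congrArg φ hn''
      rw [map_sub, hφq, map_mul, map_intCast, map_pow] at this
      rw [this, mul_pow, e3]
      ring
    have g3 : s τ (ι r'' * φ b'') = ι r'' * φ b'' := by
      rw [map_mul, hs.const, hτ.pos (-n'') r'' (by exact_mod_cast neg_pos.2 h3) hr'', hφ.fix]
    exact real_lemma hR hs hτ hee h1 h2 f1 f2 (Or.inr f3) g1 g2 g3
  · obtain ⟨r'', hr''⟩ := hroot n''
    have e3 : ι r'' ^ 2 = (n'' : M) := by
      rw [← map_pow, hr'', iota_rat]
      push_cast
      rfl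
    have f3 : φ x - (e'' : M) = (ι r'' * φ b'') ^ 2 := by
      have := congrArg φ hn''
      rw [map_sub, hφq, map_mul, map_intCast, map_pow] at this
      rw [this, mul_pow, e3]
    have g3 : s τ (ι r'' * φ b'') = ι r'' * φ b'' := by
      rw [map_mul, hs.const, hτ.pos n'' r'' (by exact_mod_cast h3) hr'', hφ.fix]
    exact real_lemma hR hs hτ hee h1 h2 f1 f2 (Or.inl f3) g1 g2 g3

end

end Pool.Agent.Zk12
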