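import Mathlib
import Pool.Agent.Zk12.Abs2
import Pool.Agent.Y158.GR.NumV

/-!
# Actions which are trivial on the inertia groups at the places outside 6
-/

set_option autoImplicit false
set_option linter.all false

namespace Pool.Agent.Zk12

open Pool.Agent.Y157.PS (IsU Ine) 
open Pool.Agent.Y158.GR (Above)
open IsDedekindDomain NumberField

section

variable {κ M L : Type} [Field κ] [Field M] [Field L] [CharZero M] [CharZero L] [Algebra ℚ κ]
  [IsAlgClosure ℚ κ]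

/-- the inertia groups at `v` act trivially on the residue field of a valuation ring above -/
def Tame (v : HeightOneSpectrum (𝓞 ℚ)) (ι : κ →+* M) (s : (κ ≃ₐ[ℚ] κ) →* RingAut M) : Prop :=
  ∃ V : ValuationSubring κ, Above v V ∧ ∃ O : ValuationSubring M, (∀ c, ι c ∈ O ↔ c ∈ V) ∧
    (∀ z : M, z ≠ 0 → ∃ b : κ, b ≠ 0 ∧ IsU O (z / ι b)) ∧
    ∀ σ : κ ≃ₐ[ℚ] κ, Ine V σ → ∀ z ∈ O, s σ z - z ∈ O.nonunits

variable {ι : κ →+* M} {s : (κ ≃ₐ[ℚ] κ) →* RingAut M} {φ : L →+* M}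

/-- the classes are unramified -/
theorem unrP {v : HeightOneSpectrum (𝓞 ℚ)} (hT : Tame v ι s) (h2 : v.valuation ℚ 2 = 1)
    (hs : SD ι s) (hφ : Fxd s φ) {S : Finset ℚ} {m : ℕ} (hS : S.card = 2 * m + 1) {a : ℚ}
    (ha : v.valuation ℚ a = 1) (hint : ∀ e ∈ S, v.valuation ℚ e ≤ 1)
    (hdif : ∀ e ∈ S, ∀ e' ∈ S, e ≠ e' → v.valuation ℚ (e - e') = 1) {t y : L} (hy : y ≠ 0)
    (h : (a : L) * y ^ 2 = ∏ e ∈ S, (t - (e : L))) {e : ℚ} (he : e ∈ S) {n : ℤ} {b : L} {c : κ}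
    {u : M} (hu : u ^ 2 = φ (t - (e : L))) (hc : c ^ 2 = (n : κ)) (huc : u = ι c * φ b)
    (hc0 : c ≠ 0) (hb0 : b ≠ 0) : ∃ q : ℚ, v.valuation ℚ n = v.valuation ℚ q ^ 2 := by
  obtain ⟨V, hV, O, hOV, hval, hine⟩ := hT
  have hφq : ∀ q : ℚ, φ (q : L) = (q : M) := fun q => map_ratCast φ q
  have hOU : ∀ c : κ, IsU V c → O.valuation (ι c) = 1 := by
    rintro c ⟨h0, h1, h2⟩
    apply isU_val.1
    refine ⟨(map_ne_zero ι).2 h0, (hOV c).2 h1, ?_⟩
    rw [← map_inv₀]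
    exact (hOV _).2 h2
  have hOq : ∀ q : ℚ, v.valuation ℚ q = 1 → O.valuation (q : M) = 1 := by
    intro q hq
    rw [← iota_rat (ι := ι)]
    exact hOU _ ((hV.isU q).2 hq)
  have hOn : ∀ c : κ, ι c ∈ O.nonunits → c ∈ V.nonunits := by
    intro c hc
    rw [ValuationSubring.mem_nonunits_iff] at hc
    by_contra h0
    have h1 : c ∈ V := (hOV c).1 ((O.valuation_le_one_iff _).1 hc.le)
    exact absurd (hOU c (Pool.Agent.Y157.PS.isU_of_not_nonunit h1 h0)) hc.ne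
  -- constants of fixed elements
  have key : ∀ (z : M) (b : κ) (ξ : κ) (σ : κ ≃ₐ[ℚ] κ), Ine V σ → z ≠ 0 → b ≠ 0 →
      IsU O (z / ι b) → s σ z = ι ξ * z → ξ * b / σ b - 1 ∈ V.nonunits := by
    intro z b ξ σ hσ hz hb hU hsz
    apply hOn
    have h3 := hine σ hσ (z / ι b) hU.2.1
    have hσb : ι (σ b) ≠ 0 := (map_ne_zero ι).2 ((map_ne_zero σ).2 hb)
    have hιb : ι b ≠ 0 := (map_ne_zero ι).2 hb
    have h4 : ι (ξ * b / σ b - 1) = (s σ (z / ι b) - z / ι b) * (z / ι b)⁻¹ := by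
      rw [map_div₀, hs.const, hsz, map_sub, map_div₀, map_mul, map_one]
      field_simp
    rw [h4, mul_comm]
    exact Pool.Agent.Y157.PS.non_mul hU.2.2 h3
  have key1 : ∀ (z : L) (b : κ) (σ : κ ≃ₐ[ℚ] κ), Ine V σ → z ≠ 0 → b ≠ 0 →
      IsU O (φ z / ι b) → b / σ b - 1 ∈ V.nonunits := by
    intro z b σ hσ hz hb hU
    have := key (φ z) b 1 σ hσ ((map_ne_zero φ).2 hz) hb hU (by rw [hφ.fix, map_one, one_mul])
    rwa [one_mul] at this
  -- the subgroup of constants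
  let G : κ → Prop := fun b => b ≠ 0 ∧ ∀ σ : κ ≃ₐ[ℚ] κ, Ine V σ → b / σ b - 1 ∈ V.nonunits
  have hmem : ∀ z : κ, z - 1 ∈ V.nonunits → IsU V z := by
    intro z hz
    rw [isU_val]
    rw [ValuationSubring.mem_nonunits_iff] at hz
    have h3 : z = (z - 1) + 1 := by ring
    rw [h3, Valuation.map_add_eq_of_lt_right _ (by rw [map_one]; exact hz), map_one]
  have Gmul : ∀ b b', G b → G b' → G (b * b') := by
    rintro b b' ⟨hb, hb1⟩ ⟨hb', hb1'⟩
    refine ⟨mul_ne_zero hb hb', fun σ hσ => ?_⟩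
    have e1 := hb1 σ hσ
    have e2 := hb1' σ hσ
    have h3 : b * b' / σ (b * b') - 1 = b / σ b * (b' / σ b' - 1) + (b / σ b - 1) := by
      rw [map_mul]
      have := (map_ne_zero σ).2 hb
      have := (map_ne_zero σ).2 hb'
      field_simp
      ring
    rw [h3]
    exact Pool.Agent.Y157.PS.non_add (Pool.Agent.Y157.PS.non_mul (hmem _ e1).2.1 e2) e1
  have Ginv : ∀ b, G b → G b⁻¹ := by
    rintro b ⟨hb, hb1⟩
    refine ⟨inv_ne_zero hb, fun σ hσ => ?_⟩
    have e1 := hb1 σ hσ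
    have h3 : b⁻¹ / σ b⁻¹ - 1 = -((b / σ b)⁻¹ * (b / σ b - 1)) := by
      rw [map_inv₀]
      have := (map_ne_zero σ).2 hb
      field_simp
      ring
    rw [h3]
    have h4 := Pool.Agent.Y157.PS.non_mul (hmem _ e1).2.2 e1
    rw [ValuationSubring.mem_nonunits_iff] at h4 ⊢
    rwa [Valuation.map_neg]
  have Gone : G 1 := by
    refine ⟨one_ne_zero, fun σ _ => ?_⟩
    rw [map_one, div_one, sub_self, ValuationSubring.mem_nonunits_iff, map_zero]
    exact zero_lt_one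
  have Gpow : ∀ b, G b → ∀ n : ℕ, G (b ^ n) := by
    intro b hb n
    induction n with
    | zero => rw [pow_zero]; exact Gone
    | succ n ih => rw [pow_succ]; exact Gmul _ _ ih hb
  have Gof : ∀ z : L, z ≠ 0 → ∃ b, G b ∧ O.valuation (φ z) = O.valuation (ι b) := by
    intro z hz
    obtain ⟨b, hb, hU⟩ := hval (φ z) ((map_ne_zero φ).2 hz)
    refine ⟨b, ⟨hb, fun σ hσ => key1 z b σ hσ hz hb hU⟩, ?_⟩
    have h3 := isU_val.1 hU
    rw [map_div₀] at h3
    exact (div_eq_one_iff_eq ((Valuation.ne_zero_iff _).2 ((map_ne_zero ι).2 hb))).1 h3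
  have hu0 : u ≠ 0 := by rw [huc]; exact mul_ne_zero ((map_ne_zero ι).2 hc0) ((map_ne_zero φ).2 hb0)
  -- the constant of `u`
  obtain ⟨b', hb', hub'⟩ : ∃ b', G b' ∧ O.valuation u = O.valuation (ι b') := by
    have hsq : ∀ b', O.valuation u ^ 2 = O.valuation (ι b') ^ 2 →
        O.valuation u = O.valuation (ι b') := fun b' h3 =>
      (pow_left_inj₀ zero_le zero_le two_ne_zero).1 h3
    have hu2 : O.valuation u ^ 2 = O.valuation (φ t - (e : M)) := by
      rw [← map_pow, hu, map_sub, hφq]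
    obtain ⟨by', hby', hy'⟩ := Gof y hy
    have h' : (a : M) * φ y ^ 2 = ∏ e ∈ S, (φ t - (e : M)) := by
      have := congrArg φ h
      rw [map_mul, map_pow, hφq, map_prod] at this
      rw [this]
      refine Finset.prod_congr rfl fun e _ => ?_
      rw [map_sub, hφq]
    rcases dich (W := O) hS (hOq a ha) (fun e he => by
        rw [← iota_rat (ι := ι)]; exact (hOV _).2 ((hV e).2 (hint e he)))
      (fun e he e' he' hee => by
        have := hOq (e - e') (hdif e he e' he' hee)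
        rwa [Rat.cast_sub] at this) h' he with ⟨g1, g2, g3⟩ | g1 | g1
    · have ht0 : t ≠ 0 := by
        rintro rfl
        rw [map_zero, map_zero] at g1
        exact not_lt_zero g1
      obtain ⟨bt, hbt, ht'⟩ := Gof t ht0
      refine ⟨by' * (bt ^ m)⁻¹, Gmul _ _ hby' (Ginv _ (Gpow _ hbt m)), hsq _ ?_⟩
      have hν0 : O.valuation (φ t) ≠ 0 := (Valuation.ne_zero_iff _).2 ((map_ne_zero φ).2 ht0)
      rw [hu2, g2, map_mul, map_mul, map_inv₀, map_inv₀, map_pow, map_pow, ← hy', ← ht', mul_pow,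
        g3, inv_pow, ← pow_mul, mul_comm m 2, pow_succ, mul_comm (_ ^ (2 * m)) _, mul_assoc,
        mul_inv_cancel₀ (pow_ne_zero _ hν0), mul_one]
    · refine ⟨1, Gone, hsq _ ?_⟩
      rw [hu2, g1, map_one, map_one, one_pow]
    · refine ⟨by', hby', hsq _ ?_⟩
      rw [hu2, g1, hy']
  have hfix : ∀ σ : κ ≃ₐ[ℚ] κ, Ine V σ → σ c = c := by
    intro σ hσ
    have hpm : σ c = c ∨ σ c = -c := by
      apply sq_eq_sq_iff_eq_or_eq_neg.1
      rw [← map_pow, hc, map_intCast]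
    rcases hpm with h3 | h3
    · exact h3
    · exfalso
      have h4 : s σ u = ι (-1) * u := by
        rw [huc, map_mul, hs.const, h3, hφ.fix, map_neg, map_neg, map_one]
        ring
      have hU : IsU O (u / ι b') := by
        rw [isU_val, map_div₀, hub']
        exact div_self ((Valuation.ne_zero_iff _).2 ((map_ne_zero ι).2 hb'.1))
      have h5 := key u b' (-1) σ hσ hu0 hb'.1 hU h4
      have h6 := hb'.2 σ hσ
      -- `-2` would be a nonunit
      have h7 : (-2 : κ) ∈ V.nonunits := by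
        have h8 : (-2 : κ) = (-1 * b' / σ b' - 1) + (b' / σ b' - 1) := by ring
        rw [h8]
        exact Pool.Agent.Y157.PS.non_add h5 h6
      have h8 : IsU V (algebraMap ℚ κ 2) := (hV.isU 2).2 h2
      rw [isU_val, map_ofNat] at h8
      rw [ValuationSubring.mem_nonunits_iff, Valuation.map_neg, h8] at h7
      exact lt_irrefl _ h7
  have h2' : ((2 : ℕ) : 𝓞 ℚ) ∉ v.asIdeal := by
    rw [← v.intValuation_eq_one_iff]
    have h3 : v.valuation ℚ (algebraMap (𝓞 ℚ) ℚ ((2 : ℕ) : 𝓞 ℚ)) = 1 := by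
      rw [_root_.map_natCast]
      exact_mod_cast h2
    rwa [v.valuation_of_algebraMap] at h3
  obtain ⟨q, hq⟩ := hV.pow h2' hc0 hfix (a := (n : ℚ)) (by rw [map_intCast, hc])
  exact ⟨q, hq⟩

end

end Pool.Agent.Zk12
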