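import Mathlib
import Pool.Agent.Zk12.Tame

/-!
# Squarefree numbers which are unramified outside `6`; the points of the elliptic curve
-/

set_option autoImplicit false
set_option linter.all false

namespace Pool.Agent.Zk12

open Pool.Agent.Y157.PS (IsU Ine) 
open Pool.Agent.Y158.GR (Above)
open IsDedekindDomain NumberField Rat.HeightOneSpectrum

theorem exists_v (p : ℕ) [hp : Fact p.Prime] : ∃ v : HeightOneSpectrum (𝓞 ℚ),
    (v.valuation ℚ).IsEquiv (Rat.padicValuation p) := by
  obtain ⟨P, hP⟩ : ∃ P : Nat.Primes, P.1 = p := ⟨⟨p, hp.out⟩, rfl⟩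
  subst hP
  obtain ⟨v, hv⟩ := (primesEquiv (R := 𝓞 ℚ)).surjective P
  subst hv
  exact ⟨v, valuation_equiv_padicValuation v⟩

/-- a place of `ℚ` comes from a prime number -/
theorem exists_p (v : HeightOneSpectrum (𝓞 ℚ)) : ∃ (p : ℕ) (_ : Fact p.Prime),
    (v.valuation ℚ).IsEquiv (Rat.padicValuation p) :=
  ⟨primesEquiv v, ⟨(primesEquiv v).2⟩, valuation_equiv_padicValuation v⟩

theorem not_dvd_of {p : ℕ} [hp : Fact p.Prime] {v : HeightOneSpectrum (𝓞 ℚ)}
    (hv : (v.valuation ℚ).IsEquiv (Rat.padicValuation p)) {n : ℤ} (hn : Squarefree n) {q : ℚ}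
    (h : v.valuation ℚ n = v.valuation ℚ q ^ 2) : ¬ (p : ℤ) ∣ n := by
  intro hpn
  have hn0 : (n : ℚ) ≠ 0 := by exact_mod_cast hn.ne_zero
  have hq0 : q ≠ 0 := by
    rintro rfl
    rw [map_zero, zero_pow two_ne_zero] at h
    exact (Valuation.ne_zero_iff _).2 hn0 h
  have h1 : Rat.padicValuation p (n : ℚ) = Rat.padicValuation p (q ^ 2) := by
    apply hv.val_eq.1
    rw [h, map_pow]
  have hz : (p : ℤ) ^ 2 ∣ n := by
    obtain ⟨m, rfl⟩ := hpn
    have h2 : padicValRat p ((p * m : ℤ) : ℚ) = padicValRat p (q ^ 2) := by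
      have hpm : (((p * m : ℤ)) : ℚ) ≠ 0 := hn0
      simp only [Rat.padicValuation, Valuation.coe_mk, MonoidWithZeroHom.coe_mk, ZeroHom.coe_mk,
        if_neg hpm, if_neg (pow_ne_zero 2 hq0)] at h1
      have := WithZero.exp_injective h1
      linarith
    have hm0 : (m : ℚ) ≠ 0 := by
      intro h0
      apply hn0
      push_cast
      rw [h0, mul_zero]
    have hp0 : (p : ℚ) ≠ 0 := by exact_mod_cast hp.out.ne_zero
    rw [padicValRat.pow] at h2
    push_cast at h2
    rw [padicValRat.mul hp0 hm0, padicValRat.self hp.out.one_lt] at h2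
    have h3 : 1 ≤ padicValRat p (m : ℚ) := by
      have h4 : 0 ≤ padicValRat p (m : ℚ) := by
        rw [padicValRat.of_int]
        positivity
      omega
    have h5 : (p : ℤ) ∣ m := by
      rw [padicValRat.of_int] at h3
      by_contra h6
      rw [padicValInt.eq_zero_of_not_dvd h6] at h3
      norm_num at h3
    obtain ⟨m', rfl⟩ := h5
    exact ⟨m', by ring⟩
  have h6 := hn (p : ℤ) (by rwa [← pow_two])
  have h7 := Int.isUnit_iff.1 h6
  have := hp.out.two_le
  omega

theorem mem_HH {n : ℤ} (hn : Squarefree n) (h : ∀ v : HeightOneSpectrum (𝓞 ℚ),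
    v.valuation ℚ 6 = 1 → ∃ q : ℚ, v.valuation ℚ n = v.valuation ℚ q ^ 2) : n ∈ HH := by
  have key : ∀ p : ℕ, p.Prime → p ∣ n.natAbs → p = 2 ∨ p = 3 := by
    intro p hp hpn
    by_contra hcon
    push Not at hcon
    haveI : Fact p.Prime := ⟨hp⟩
    obtain ⟨v, hv⟩ := exists_v p
    have h6 : v.valuation ℚ 6 = 1 := by
      rw [← map_one (v.valuation ℚ)]
      apply hv.val_eq.2
      rw [map_one]
      have : Int.padicValuation p 6 = 1 := by
        rw [Int.padicValuation_eq_one_iff]
        intro hd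
        have hd' : p ∣ 6 := by exact_mod_cast hd
        have h7 : p ∣ 2 * 3 := hd'
        rcases (Nat.Prime.dvd_mul hp).1 h7 with h8 | h8
        · exact hcon.1 ((Nat.prime_dvd_prime_iff_eq hp Nat.prime_two).1 h8)
        · exact hcon.2 ((Nat.prime_dvd_prime_iff_eq hp Nat.prime_three).1 h8)
      rw [← Rat.padicValuation_cast] at this
      exact_mod_cast this
    obtain ⟨q, hq⟩ := h v h6
    exact not_dvd_of hv hn hq (Int.natCast_dvd.2 hpn)
  have hsf : Squarefree n.natAbs := Int.squarefree_natAbs.2 hn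
  have hd : n.natAbs ∣ 6 := by
    rw [← Nat.prod_primeFactors_of_squarefree hsf]
    have hsub : n.natAbs.primeFactors ⊆ ({2, 3} : Finset ℕ) := by
      intro p hp
      rw [Nat.mem_primeFactors] at hp
      simp only [Finset.mem_insert, Finset.mem_singleton]
      exact key p hp.1 hp.2.1
    have := Finset.prod_dvd_prod_of_subset _ _ (fun p : ℕ => p) hsub
    simpa using this
  have h6 : n.natAbs ≤ 6 := Nat.le_of_dvd (by norm_num) hd
  have h7 : n ≤ 6 := by omega
  have h8 : -6 ≤ n := by omega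
  have h0 := hn.ne_zero
  have hd' : (6 : ℕ) % n.natAbs = 0 := Nat.mod_eq_zero_of_dvd hd
  interval_cases n <;> simp_all [HH]

end Pool.Agent.Zk12
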