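import Mathlib
import Pool.Agent.Zk12.Num

/-!
# The classes of the points of the elliptic curve `E24` over a fixed field
-/

set_option autoImplicit false
set_option linter.all false

namespace Pool.Agent.Zk12

open Pool.Agent.Y157.PS (IsU Ine) 
open Pool.Agent.Y158.GR (Above)
open IsDedekindDomain NumberField

section

variable {κ M L : Type} [Field κ] [Field M] [Field L] [CharZero M] [CharZero L] [Algebra ℚ κ]
  [IsAlgClosure ℚ κ] {ι : κ →+* M} {s : (κ ≃ₐ[ℚ] κ) →* RingAut M} {φ : L →+* M}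

/-- the roots -/
def SE : Finset ℚ := {10, 6, -6}

theorem SE_card : SE.card = 2 * 1 + 1 := by decide +kernel

theorem SE_prod {F : Type} [Field F] [CharZero F] (t : F) :
    ∏ e ∈ SE, (t - (e : F)) = (t - 10) * (t - 6) * (t + 6) := by
  unfold SE
  rw [Finset.prod_insert (by norm_num), Finset.prod_insert (by norm_num), Finset.prod_singleton]
  push_cast
  ring

/-- the classes of the points are unramified outside `6` -/
def UnrE (ι : κ →+* M) (s : (κ ≃ₐ[ℚ] κ) →* RingAut M) (φ : L →+* M) : Prop :=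
  ∀ t y : L, y ≠ 0 → y ^ 2 = (t - 10) * (t - 6) * (t + 6) → ∀ e ∈ SE, ∀ n : ℤ, Squarefree n →
    ∀ (b : L) (c : κ), b ≠ 0 → c ≠ 0 → c ^ 2 = (n : κ) → (ι c * φ b) ^ 2 = φ (t - (e : L)) → n ∈ HH

/-- integers which are squares in the fixed field are positive -/
theorem pos_of_sq (hs : SD ι s) (hφ : Fxd s φ) {n : ℤ} {b : L} (h : (n : L) = b ^ 2) : 0 ≤ n := by
  by_contra hn
  push Not at hn
  haveI : IsAlgClosed κ := IsAlgClosure.isAlgClosed ℚ
  obtain ⟨τ, hτ⟩ := exists_conj κ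
  obtain ⟨r, hr⟩ := IsAlgClosed.exists_pow_nat_eq (algebraMap ℚ κ (n : ℚ)) (n := 2) (by norm_num)
  have h1 : τ r = -r := hτ.neg _ r (by exact_mod_cast hn) hr
  have h2 : ι r ^ 2 = φ b ^ 2 := by
    rw [← map_pow, ← map_pow, ← h, hr, iota_rat, map_intCast]
    push_cast
    rfl
  have h3 : s τ (ι r) = -ι r := by rw [hs.const, h1, map_neg]
  have hb0 : φ b ≠ 0 := by
    intro h4
    rw [map_eq_zero] at h4
    rw [h4, zero_pow two_ne_zero] at h
    have : n = 0 := by exact_mod_cast h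
    omega
  rcases sq_eq_sq_iff_eq_or_eq_neg.1 h2 with h4 | h4
  · rw [h4, hφ.fix] at h3
    exact hb0 (self_eq_neg.1 h3)
  · rw [h4, map_neg, hφ.fix, neg_neg] at h3
    exact hb0 (neg_eq_self.1 h3)

theorem clsE_of (hR : Root2 ι) (hs : SD ι s) (hφ : Fxd s φ) (hU : UnrE ι s φ) :
    ClsE (kk ι φ) := by
  intro x y hxy hx
  have hφq : ∀ q : ℚ, φ (q : L) = (q : M) := fun q => map_ratCast φ q
  have hq : ∀ q : ℚ, (q : L) ∈ kk ι φ := fun q => mem_kk.2 ⟨algebraMap ℚ κ q, by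
    rw [iota_rat, hφq]⟩
  have hxe : ∀ e : ℚ, x - (e : L) ≠ 0 := by
    intro e h
    apply hx
    rw [sub_eq_zero.1 h]
    exact hq e
  have hy : y ≠ 0 := by
    rintro rfl
    have h1 := (SE_prod x).symm
    rw [← hxy] at h1
    have h2 : ∏ e ∈ SE, (x - (e : L)) = 0 := by rw [← h1]; ring
    rw [Finset.prod_eq_zero_iff] at h2
    obtain ⟨e, -, he⟩ := h2
    exact hxe e he
  have hyM : φ y ≠ 0 := (map_ne_zero φ).2 hy
  have hM : ((1 : ℚ) : M) * (φ y) ^ 2 = ∏ e ∈ SE, (φ x - (e : M)) := by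
    have h10 : φ 10 = 10 := map_ofNat φ 10
    have h6 : φ 6 = 6 := map_ofNat φ 6
    rw [SE_prod, ← map_pow, hxy, Rat.cast_one, one_mul, map_mul, map_mul, map_sub, map_sub,
      map_add, h10, h6]
  have key : ∀ e ∈ SE, ∃ (n : ℤ) (b : L), n ∈ HH ∧ b ≠ 0 ∧ x - (e : L) = n * b ^ 2 := by
    intro e he
    obtain ⟨u, hu⟩ := rootP hR SE_card one_ne_zero hyM hM he
    have hu' : u ^ 2 = φ (x - (e : L)) := by rw [hu, map_sub, hφq]
    obtain ⟨n, b, c, hn, hb, hnb, hc, huc⟩ := kummer hs hφ hu' (hxe e)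
    have hc0 : c ≠ 0 := by
      rintro rfl
      rw [zero_pow two_ne_zero] at hc
      haveI : CharZero κ := charZero_of_injective_algebraMap (algebraMap ℚ κ).injective
      exact hn.ne_zero (by exact_mod_cast hc.symm)
    exact ⟨n, b, hU x y hy hxy e he n hn b c hb hc0 hc (by rw [← huc, hu']), hb, hnb⟩
  obtain ⟨n₁, b₁, h1, hb1, e1⟩ := key 10 (by decide +kernel)
  obtain ⟨n₂, b₂, h2, hb2, e2⟩ := key 6 (by decide +kernel)
  obtain ⟨n₃, b₃, h3, hb3, e3⟩ := key (-6) (by decide +kernel)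
  have hz : ∀ n ∈ HH, n ≠ 0 := by decide
  have hprod : 0 ≤ n₁ * n₂ * n₃ := by
    refine pos_of_sq (b := y / (b₁ * b₂ * b₃)) hs hφ ?_
    rw [div_pow, hxy]
    have f1 : x - 10 = n₁ * b₁ ^ 2 := by rw [← e1]; norm_num
    have f2 : x - 6 = n₂ * b₂ ^ 2 := by rw [← e2]; norm_num
    have f3 : x + 6 = n₃ * b₃ ^ 2 := by rw [← e3]; norm_num
    rw [f1, f2, f3]
    push_cast
    field_simp
  have hpos : 0 < n₃ := by
    by_contra hneg
    have hneg' : n₃ < 0 := lt_of_le_of_ne (not_lt.1 hneg) (hz _ h3)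
    have hn12 : n₁ * n₂ < 0 := by
      have h4 : n₁ * n₂ ≠ 0 := mul_ne_zero (hz _ h1) (hz _ h2)
      rcases lt_or_gt_of_ne h4 with h5 | h5
      · exact h5
      · exfalso
        have := mul_neg_of_pos_of_neg h5 hneg'
        omega
    rcases lt_or_gt_of_ne (hz _ h1) with h5 | h5
    · have h6 : 0 < n₂ := by
        by_contra h7
        have := mul_nonneg_of_nonpos_of_nonpos h5.le (not_lt.1 h7)
        omega
      exact sgn_mono hR hs hφ (e := -6) (e' := 6) (e'' := 10) (by norm_num) (by norm_num)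
        (by norm_num) e3 e2 e1 (hz _ h1) ⟨hneg', h6⟩
    · exact sgn_mono hR hs hφ (e := -6) (e' := 10) (e'' := 6) (by norm_num) (by norm_num)
        (by norm_num) e3 e1 e2 (hz _ h2) ⟨hneg', h5⟩
  refine ⟨n₁, h1, n₂, h2, n₃, h3, hpos, b₁, b₂, b₃, ?_, ?_, ?_⟩
  · rw [← e1]; norm_num
  · rw [← e2]; norm_num
  · rw [← e3]; norm_num

omit [Field κ] [Field M] [Field L] [CharZero M] [CharZero L] [Algebra ℚ κ] [IsAlgClosure ℚ κ] in
theorem v_int (v : HeightOneSpectrum (𝓞 ℚ)) (n : ℤ) : v.valuation ℚ (n : ℚ) ≤ 1 := by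
  have h1 := v.valuation_le_one (K := ℚ) (n : 𝓞 ℚ)
  have h2 : algebraMap (𝓞 ℚ) ℚ (n : 𝓞 ℚ) = (n : ℚ) := map_intCast _ n
  rw [← h2]
  exact h1

omit [Field κ] [Field M] [Field L] [CharZero M] [CharZero L] [Algebra ℚ κ] [IsAlgClosure ℚ κ] in
theorem v_23 {v : HeightOneSpectrum (𝓞 ℚ)} (hv : v.valuation ℚ 6 = 1) :
    v.valuation ℚ 2 = 1 ∧ v.valuation ℚ 3 = 1 := by
  have h2 : v.valuation ℚ 2 ≤ 1 := by exact_mod_cast v_int v 2
  have h3 : v.valuation ℚ 3 ≤ 1 := by exact_mod_cast v_int v 3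
  have h6 : v.valuation ℚ 2 * v.valuation ℚ 3 = 1 := by
    rw [← map_mul, ← hv]
    norm_num
  constructor
  · refine le_antisymm h2 ?_
    rw [← h6]
    exact mul_le_of_le_one_right' h3
  · refine le_antisymm h3 ?_
    rw [← h6]
    exact mul_le_of_le_one_left' h2

/-- the condition holds if the action is tame outside `6` -/
theorem unrE_of (hs : SD ι s) (hφ : Fxd s φ)
    (hT : ∀ v : HeightOneSpectrum (𝓞 ℚ), v.valuation ℚ 6 = 1 → Tame v ι s) : UnrE ι s φ := by
  intro t y hy hty e he n hn b c hb hc hcn hbc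
  refine mem_HH hn fun v hv => ?_
  have h23 := v_23 hv
  have hv' : ∀ a b : ℕ, v.valuation ℚ ((2 : ℚ) ^ a * 3 ^ b) = 1 := by
    intro a b
    rw [map_mul, map_pow, map_pow, h23.1, h23.2, one_pow, one_pow, one_mul]
  refine unrP (hT v hv) h23.1 hs hφ SE_card (a := 1) (map_one _) ?_ ?_ hy ?_ he (u := ι c * φ b)
    hbc hcn rfl hc hb
  · intro e he
    simp only [SE, Finset.mem_insert, Finset.mem_singleton] at he
    rcases he with rfl | rfl | rfl
    · exact_mod_cast v_int v 10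
    · exact_mod_cast v_int v 6
    · exact_mod_cast v_int v (-6)
  · intro e he e' he' hee
    simp only [SE, Finset.mem_insert, Finset.mem_singleton] at he he'
    have a1 := hv' 2 0
    have a2 := hv' 4 0
    have a3 := hv' 2 1
    norm_num at a1 a2 a3
    rcases he with rfl | rfl | rfl <;> rcases he' with rfl | rfl | rfl <;>
      first
        | exact absurd rfl hee
        | (norm_num; first | exact a1 | exact a2 | exact a3 |
            (rw [Valuation.map_neg]; first | exact a1 | exact a2 | exact a3))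
  · rw [SE_prod, Rat.cast_one, one_mul, hty]

end

end Pool.Agent.Zk12
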