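import Mathlib
import Pool.Agent.W623.SecC.All
import Pool.Agent.W308.SecC.B2
import Pool.Agent.W327.SecC.PartB1
import Pool.Agent.W933.SecC.PartB3

/-!
# Points of elliptic curves over the fixed field of a section: the classes are unramified at the
places of good reduction
-/

set_option autoImplicit false
set_option linter.all false

open Polynomial NumberField IsDedekindDomain IntermediateField

namespace Pool.Agent.Zk12

open Pool.Agent.W623.SecC

/-- functions with divisors divisible by `n` are `n`-th powers -/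
def RootN {κ M : Type} [Field κ] [Field M] (ι : κ →+* M) : Prop := ∀ (n : ℕ), 0 < n → ∀ g : M,
  g ≠ 0 → (∀ W : ValuationSubring M, (∀ c, ι c ∈ W) → ∃ π : M, π ≠ 0 ∧ g / π ^ n ∈ W ∧
    π ^ n / g ∈ W) → ∃ h, h ^ n = g

/-- the local ring of `v` -/
theorem loc_data {K : Type} [Field K] [NumberField K] (v : HeightOneSpectrum (𝓞 K))
    (b : 𝓞 K) (n : ℕ) (hb : b ∈ v.asIdeal ^ n) (hb' : b ∉ v.asIdeal ^ (n + 1)) :
    ∃ (A : Type) (_ : CommRing A) (_ : IsDomain A) (_ : IsDiscreteValuationRing A)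
      (_ : Algebra A K), Finite (IsLocalRing.ResidueField A) ∧ IsFractionRing A K ∧
      (∀ c : 𝓞 K, ∃ c' : A, algebraMap A K c' = algebraMap (𝓞 K) K c) ∧
      (∀ c : 𝓞 K, c ∉ v.asIdeal → ∃ u : A, IsUnit u ∧ algebraMap A K u = algebraMap (𝓞 K) K c) ∧
      ∃ ϖ t : A, Irreducible ϖ ∧ IsUnit t ∧
          algebraMap (𝓞 K) K b = algebraMap A K t * algebraMap A K ϖ ^ (n : ℤ) := by
  classical
  have hvm : v.asIdeal.IsMaximal := v.isMaximal
  have hvp : v.asIdeal.IsPrime := v.isPrime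
  have hle : v.asIdeal.primeCompl ≤ nonZeroDivisors (𝓞 K) := v.asIdeal.primeCompl_le_nonZeroDivisors
  let A := Localization.subalgebra.ofField K v.asIdeal.primeCompl hle
  have hloc : IsLocalization.AtPrime A v.asIdeal :=
    Localization.subalgebra.isLocalization_ofField K v.asIdeal.primeCompl hle
  have hdvr : IsDiscreteValuationRing A :=
    IsLocalization.AtPrime.isDiscreteValuationRing_of_dedekind_domain (𝓞 K) v.ne_bot A
  have hfr : IsFractionRing A K := inferInstance
  have hunit : ∀ c : 𝓞 K, c ∉ v.asIdeal → IsUnit (algebraMap (𝓞 K) A c) := fun c hc =>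
    (IsLocalization.AtPrime.isUnit_to_map_iff A v.asIdeal c).2 hc
  let e : (𝓞 K ⧸ v.asIdeal) ≃+* IsLocalRing.ResidueField A :=
    IsLocalization.AtPrime.equivQuotMaximalIdeal v.asIdeal A
  have hcompK : (algebraMap A K).comp (algebraMap (𝓞 K) A) = algebraMap (𝓞 K) K := by
    ext c
    rfl
  have hfin : Finite (IsLocalRing.ResidueField A) := by
    have h1 : Finite (𝓞 K ⧸ v.asIdeal) := Ideal.finiteQuotientOfFreeOfNeBot _ v.ne_bot
    exact Finite.of_equiv _ e.toEquiv
  refine ⟨A, inferInstance, inferInstance, hdvr, inferInstance, hfin, hfr, ?_, ?_, ?_⟩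
  · intro c
    exact ⟨algebraMap (𝓞 K) A c, by rw [← RingHom.comp_apply, hcompK]⟩
  · intro c hc
    exact ⟨algebraMap (𝓞 K) A c, hunit c hc, by rw [← RingHom.comp_apply, hcompK]⟩
  · obtain ⟨ϖ, hϖ⟩ := IsDiscreteValuationRing.exists_irreducible A
    have hpow : ∀ m : ℕ, b ∈ v.asIdeal ^ m ↔ algebraMap (𝓞 K) A b ∈
        IsLocalRing.maximalIdeal A ^ m := by
      intro m
      rw [← IsLocalization.AtPrime.under_maximalIdeal_pow v.asIdeal A]
      rfl
    have hb0 : algebraMap (𝓞 K) A b ≠ 0 := by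
      intro h
      apply hb'
      rw [hpow, h]
      exact zero_mem _
    obtain ⟨j, u, hj⟩ := IsDiscreteValuationRing.eq_unit_mul_pow_irreducible hb0 hϖ
    have hdvd : ∀ m : ℕ, b ∈ v.asIdeal ^ m ↔ m ≤ j := by
      intro m
      rw [hpow, hϖ.maximalIdeal_eq, Ideal.span_singleton_pow, Ideal.mem_span_singleton, hj,
        (Units.isUnit u).dvd_mul_left, pow_dvd_pow_iff hϖ.ne_zero hϖ.not_isUnit]
    have hjn : j = n := by
      rw [hdvd] at hb hb'
      omega
    refine ⟨ϖ, u, hϖ, u.isUnit, ?_⟩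
    rw [← hcompK, RingHom.comp_apply, hj, map_mul, map_pow, hjn, zpow_natCast]

theorem ell_unr {K κ M : Type} [Field K] [NumberField K] [Field κ] [Field M] [Algebra K κ]
    [IsAlgClosure K κ] {ι : κ →+* M} (hR : RootN ι) (s : (κ ≃ₐ[K] κ) →* RingAut M)
    (hconst : ∀ σ c, s σ (ι c) = ι (σ c))
    (hcont : ∀ w : M, ∃ E : IntermediateField K κ, FiniteDimensional K E ∧
      ∀ σ ∈ E.fixingSubgroup, s σ w = w)
    (v : HeightOneSpectrum (𝓞 K)) (h2 : (2 : 𝓞 K) ∉ v.asIdeal) (e : Fin 3 → 𝓞 K)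
    (hd : ∀ i j, i ≠ j → e i - e j ∉ v.asIdeal) {z w : M} (hz : ∀ σ, s σ z = z)
    (hw : ∀ σ, s σ w = w)
    (hzw : w ^ 2 = ∏ i, (z - ι (algebraMap K κ (algebraMap (𝓞 K) K (e i)))))
    (htr : ∀ a, ι a ≠ z) (i : Fin 3) {b : 𝓞 K} {β : M} (hβ : ∀ σ, s σ β = β) (hβ0 : β ≠ 0)
    (h : z - ι (algebraMap K κ (algebraMap (𝓞 K) K (e i))) =
      ι (algebraMap K κ (algebraMap (𝓞 K) K b)) * β ^ 2) {n : ℕ} (hb : b ∈ v.asIdeal ^ n)
    (hb' : b ∉ v.asIdeal ^ (n + 1)) : Even n := by
  haveI : IsAlgClosed κ := IsAlgClosure.isAlgClosed K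
  haveI : Algebra.IsAlgebraic K κ := IsAlgClosure.isAlgebraic
  haveI : CharZero κ := charZero_of_injective_algebraMap (algebraMap K κ).injective
  obtain ⟨A, _, _, _, _, hfin, hfr, hint, hun, ϖ, t, hϖ, ht, hbt⟩ := loc_data v b n hb hb'
  let _ : Algebra A κ := ((algebraMap K κ).comp (algebraMap A K)).toAlgebra
  have hst : IsScalarTower A K κ := IsScalarTower.of_algebraMap_eq (fun _ => rfl)
  obtain ⟨V, φ, hVa, hVm, hφV, hφq⟩ := _root_.W327.SecC.partB1 A K κ
  set q := Nat.card (IsLocalRing.ResidueField A) with hq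
  have hq2 : 2 ≤ q := by
    have := Fintype.ofFinite (IsLocalRing.ResidueField A)
    rw [hq, Nat.card_eq_fintype_card]
    exact Fintype.one_lt_card
  have hunit : ∀ b : A, IsUnit b → IsU V (algebraMap A κ b) := by
    rintro b ⟨b, rfl⟩
    refine ⟨(b.isUnit.map (algebraMap A κ)).ne_zero, hVa _, ?_⟩
    have h1 : (algebraMap A κ (b : A))⁻¹ = algebraMap A κ ((b⁻¹ : Aˣ) : A) := by
      refine inv_eq_of_mul_eq_one_right ?_
      rw [← map_mul, Units.mul_inv, map_one]
    rw [h1]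
    exact hVa _
  have hunit' : ∀ c : 𝓞 K, c ∉ v.asIdeal → IsU V (algebraMap K κ (algebraMap (𝓞 K) K c)) := by
    intro c hc
    obtain ⟨u, hu, huc⟩ := hun c hc
    rw [← huc]
    exact hunit u hu
  have hint' : ∀ c : 𝓞 K, algebraMap K κ (algebraMap (𝓞 K) K c) ∈ V := by
    intro c
    obtain ⟨u, huc⟩ := hint c
    rw [← huc]
    exact hVa u
  have hAinj : Function.Injective (algebraMap A κ) := by
    rw [IsScalarTower.algebraMap_eq A K κ]
    exact (algebraMap K κ).injective.comp (IsFractionRing.injective A K)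
  have hϖk0 : algebraMap A K ϖ ≠ 0 := by
    rw [Ne, map_eq_zero_iff _ (IsFractionRing.injective A K)]
    exact hϖ.ne_zero
  have hpn : algebraMap K κ (algebraMap A K ϖ) ∈ V.nonunits := hVm _ (by
    rw [hϖ.maximalIdeal_eq]
    exact Ideal.mem_span_singleton_self ϖ)
  have h2V : (2 : κ)⁻¹ ∈ V := by
    have h1 := (hunit' 2 h2).2.2
    rwa [map_ofNat, map_ofNat] at h1
  obtain ⟨S, -, hφS, hSsq, hStame⟩ := Pool.Agent.W933.SecC.partB3 K κ V h2V
      (algebraMap A K ϖ) hϖk0 hpn ⊥ (by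
        intro c hc hc0
        refine Pool.Agent.W308.SecC.partB2 A K κ V hVa hVm ϖ hϖ X ?_ ?_ c (bot_le (a :=
          IntermediateField.adjoin K {θ : κ | aeval θ (X : A[X]) = 0}) hc) hc0
        · rw [leadingCoeff_X]
          exact isUnit_one
        · rw [Polynomial.map_X]
          exact separable_X) φ hφV (by
        intro x
        constructor
        · intro hx
          obtain ⟨y, hy⟩ := IntermediateField.mem_bot.1 hx
          have h3 : φ x = φ (algebraMap K κ y) := by rw [φ.commutes, hy]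
          rw [φ.injective h3]
          exact IntermediateField.mem_bot.2 ⟨y, rfl⟩
        · intro hx
          obtain ⟨y, hy⟩ := IntermediateField.mem_bot.1 hx
          rw [← hy, φ.commutes]
          exact IntermediateField.mem_bot.2 ⟨y, rfl⟩)
  let D : Dat K κ M :=
    { s := s
      ι := ι
      hι := hconst
      cont := hcont
      S := S
      V := V
      ϖ := algebraMap A K ϖ
      ϖ0 := hϖk0
      ϖn := hpn
      sq := hSsq
      tame := hStame
      φ := φ
      φV := hφV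
      φS := hφS }
  have hroots : D.HasRoots := by
    intro z w e W hW hzw' htrS m x y hxy f hf
    set g := ev W (D.ι.comp (algebraMap D.S κ)) z w hzw' f with hg
    by_cases hg0 : g = 0
    · exact ⟨0, by rw [hg0, zero_pow (by positivity)]⟩
    · refine hR (2 ^ m) (by positivity) g hg0 fun O hO => ?_
      obtain ⟨t, -, ht0, h3, h4⟩ := allA7 D.S M (D.ι.comp (algebraMap D.S κ)) O
        (fun c => hO _) e W hW z w hzw' htrS (2 ^ m) x y hxy f hf
      exact ⟨t, ht0, h3, h4⟩
  have hSK : ∀ c : K, algebraMap K κ c ∈ D.S := fun c => D.S.algebraMap_mem c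
  obtain ⟨ρ, hρ⟩ := IsAlgClosed.exists_pow_nat_eq (algebraMap K κ (algebraMap A K t)) (n := 2)
    (by norm_num)
  have hρS : ρ ∈ D.S := hSsq _ (hSK _) (hunit t ht) ρ hρ
  have hρ0 : ρ ≠ 0 := by
    rintro rfl
    have h3 := (hunit t ht).1
    apply h3
    rw [zero_pow two_ne_zero] at hρ
    exact hρ.symm
  have hp : D.p = algebraMap K κ (algebraMap A K ϖ) := rfl
  have hres := D.ell allA8 h2V q hq2 hφq (fun i => algebraMap K κ (algebraMap (𝓞 K) K (e i)))
    (fun i => hSK _) (fun i => hint' _) (fun i j hij => by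
      have h3 := hunit' _ (hd i j hij)
      rwa [map_sub, map_sub] at h3) (fun i => φ.commutes _) z w (fun σ _ => hz σ)
    (fun σ _ => hw σ) (hz _) (hw _) hzw htr hroots i (n : ℤ) ⟨ι ρ * β, mul_mem (D.ι_mem hρS)
      (fun σ _ => hβ σ), mul_ne_zero ((_root_.map_ne_zero ι).2 hρ0) hβ0, by
        change z - ι (algebraMap K κ (algebraMap (𝓞 K) K (e i))) = ι D.p ^ (n : ℤ) * (ι ρ * β) ^ 2
        rw [h, hbt, hp, mul_pow, ← map_pow ι ρ, hρ, map_mul, map_mul, map_zpow₀, map_zpow₀]
        ring⟩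
  exact_mod_cast hres

end Pool.Agent.Zk12
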