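import Mathlib
import Pool.Agent.Zk12.CE
import Pool.Agent.Zk12.EllU

/-!
# The classes of the points of elliptic curves over a fixed field: arbitrary sections
-/

set_option autoImplicit false
set_option linter.all false

namespace Pool.Agent.Zk12

open IsDedekindDomain NumberField

/-- the exact power of `v` dividing an integer of the field -/
theorem exists_ord {K : Type} [Field K] [NumberField K] (v : HeightOneSpectrum (𝓞 K)) {b : 𝓞 K}
    (hb : b ≠ 0) : ∃ m : ℕ, b ∈ v.asIdeal ^ m ∧ b ∉ v.asIdeal ^ (m + 1) ∧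
      (Even m → ∃ q : K, v.valuation K (algebraMap (𝓞 K) K b) = v.valuation K q ^ 2) := by
  classical
  refine ⟨(Associates.mk v.asIdeal).count (Associates.mk (Ideal.span {b})).factors, ?_, ?_, ?_⟩
  · rw [← v.intValuation_le_pow_iff_mem, v.intValuation_if_neg hb]
  · rw [← v.intValuation_le_pow_iff_mem, v.intValuation_if_neg hb, not_le,
      WithZero.exp_lt_exp]
    push_cast
    linarith
  · rintro ⟨i, hi⟩
    obtain ⟨π, hπ⟩ := v.valuation_exists_uniformizer K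
    refine ⟨π ^ i, ?_⟩
    rw [map_pow, hπ, v.valuation_of_algebraMap, v.intValuation_if_neg hb, hi, ← pow_mul,
      ← WithZero.exp_nsmul]
    congr 1
    push_cast
    simp
    ring

section

variable {κ M L : Type} [Field κ] [Field M] [Field L] [CharZero M] [CharZero L] [Algebra ℚ κ]
  [IsAlgClosure ℚ κ] {ι : κ →+* M} {s : (κ ≃ₐ[ℚ] κ) →* RingAut M} {φ : L →+* M}

omit [CharZero M] in
theorem root2_of_rootN (hR : RootN ι) : Root2 ι := fun g hg h =>
  hR 2 two_pos g hg fun W hW => by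
    obtain ⟨π, h0, hU⟩ := h W hW
    refine ⟨π, h0, hU.2.1, ?_⟩
    rw [← inv_div]
    exact hU.2.2

theorem six_not {v : HeightOneSpectrum (𝓞 ℚ)} (hv : v.valuation ℚ 6 = 1) {n : ℤ} (q : ℚ)
    (hq : v.valuation ℚ q = 1) (hn : (n : ℚ) = q) : (n : 𝓞 ℚ) ∉ v.asIdeal := by
  rw [← v.intValuation_eq_one_iff]
  have h1 : v.valuation ℚ (algebraMap (𝓞 ℚ) ℚ (n : 𝓞 ℚ)) = 1 := by
    rw [map_intCast, hn, hq]
  rwa [v.valuation_of_algebraMap] at h1

/-- the classes are unramified outside `6`: three roots, arbitrary sections -/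
theorem cls_unr (hR : RootN ι) (hs : SD ι s) (hφ : Fxd s φ) (e : Fin 3 → ℤ)
    {v : HeightOneSpectrum (𝓞 ℚ)} (h2 : ((2 : ℤ) : 𝓞 ℚ) ∉ v.asIdeal)
    (hd : ∀ i j, i ≠ j → ((e i - e j : ℤ) : 𝓞 ℚ) ∉ v.asIdeal) {t y : L} (ht : t ∉ kk ι φ)
    (h : y ^ 2 = ∏ i, (t - (e i : L))) (i : Fin 3) {n : ℤ} (hn : n ≠ 0) {b : L} (hb : b ≠ 0)
    (hnb : t - (e i : L) = n * b ^ 2) : ∃ q : ℚ, v.valuation ℚ n = v.valuation ℚ q ^ 2 := by
  have hn' : (n : 𝓞 ℚ) ≠ 0 := by exact_mod_cast hn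
  obtain ⟨m, h3, h4, h5⟩ := exists_ord v hn'
  have hcast : ∀ z : ℤ, ι (algebraMap ℚ κ (algebraMap (𝓞 ℚ) ℚ (z : 𝓞 ℚ))) = (z : M) := by
    intro z
    rw [map_intCast, map_intCast, map_intCast]
  have hφz : ∀ z : ℤ, φ (z : L) = (z : M) := fun z => map_intCast φ z
  have h6 := ell_unr hR s hs.const hs.cont v (by exact_mod_cast h2) (fun i => (e i : 𝓞 ℚ))
    (fun i j hij => by
      have := hd i j hij
      push_cast at this
      exact this) (z := φ t) (w := φ y) (hφ.fix t) (hφ.fix y) (by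
        rw [← map_pow, h, map_prod]
        refine Finset.prod_congr rfl fun i _ => ?_
        rw [map_sub, hφz, hcast]) (fun a ha => ht (mem_kk.2 ⟨a, ha⟩)) i (b := (n : 𝓞 ℚ))
    (β := φ b) (hφ.fix b) ((_root_.map_ne_zero φ).2 hb) (by
      have h7 := congrArg φ hnb
      rw [map_sub, map_mul, map_pow, hφz, hφz] at h7
      rw [hcast, hcast, h7]) h3 h4
  obtain ⟨q, hq⟩ := h5 h6
  have h8 : algebraMap (𝓞 ℚ) ℚ (n : 𝓞 ℚ) = (n : ℚ) := map_intCast _ n
  rw [h8] at hq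
  exact ⟨q, hq⟩

/-- the roots -/
def eE : Fin 3 → ℤ := ![10, 6, -6]

theorem eE_prod (t : L) : ∏ i, (t - (eE i : L)) = (t - 10) * (t - 6) * (t + 6) := by
  rw [Fin.prod_univ_three]
  simp only [eE, Matrix.cons_val_zero, Matrix.cons_val_one, Matrix.cons_val]
  push_cast
  ring

theorem clsE_rootN (hR : RootN ι) (hs : SD ι s) (hφ : Fxd s φ) : ClsE (kk ι φ) := by
  have hR2 : Root2 ι := root2_of_rootN hR
  intro x y hxy hx
  have hφq : ∀ q : ℚ, φ (q : L) = (q : M) := fun q => map_ratCast φ q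
  have hq : ∀ q : ℚ, (q : L) ∈ kk ι φ := fun q => mem_kk.2 ⟨algebraMap ℚ κ q, by
    rw [iota_rat, hφq]⟩
  have hxe : ∀ e : ℚ, x - (e : L) ≠ 0 := by
    intro e h
    apply hx
    rw [sub_eq_zero.1 h]
    exact hq e
  have hy : y ≠ 0 := by
    rintro rfl
    have h1 := (SE_prod x).symm
    rw [← hxy] at h1
    have h2 : ∏ e ∈ SE, (x - (e : L)) = 0 := by rw [← h1]; ring
    rw [Finset.prod_eq_zero_iff] at h2
    obtain ⟨e, -, he⟩ := h2
    exact hxe e he
  have hyM : φ y ≠ 0 := (map_ne_zero φ).2 hy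
  have hM : ((1 : ℚ) : M) * (φ y) ^ 2 = ∏ e ∈ SE, (φ x - (e : M)) := by
    have h10 : φ 10 = 10 := map_ofNat φ 10
    have h6 : φ 6 = 6 := map_ofNat φ 6
    rw [SE_prod, ← map_pow, hxy, Rat.cast_one, one_mul, map_mul, map_mul, map_sub, map_sub,
      map_add, h10, h6]
  have key : ∀ i : Fin 3, ((eE i : ℤ) : ℚ) ∈ SE → ∃ (n : ℤ) (b : L), n ∈ HH ∧ b ≠ 0 ∧
      x - (((eE i : ℤ) : ℚ) : L) = n * b ^ 2 := by
    intro i he
    obtain ⟨u, hu⟩ := rootP hR2 SE_card one_ne_zero hyM hM he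
    have hu' : u ^ 2 = φ (x - (((eE i : ℤ) : ℚ) : L)) := by rw [hu, map_sub, hφq]
    obtain ⟨n, b, c, hn, hb, hnb, hc, huc⟩ := kummer hs hφ hu' (hxe _)
    refine ⟨n, b, mem_HH hn fun v hv => ?_, hb, hnb⟩
    have h23 := v_23 hv
    have hv' : ∀ a b : ℕ, v.valuation ℚ ((2 : ℚ) ^ a * 3 ^ b) = 1 := by
      intro a b
      rw [map_mul, map_pow, map_pow, h23.1, h23.2, one_pow, one_pow, one_mul]
    refine cls_unr hR hs hφ eE (six_not hv 2 h23.1 (by norm_num)) ?_ hx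
      (by rw [eE_prod, hxy]) i hn.ne_zero hb (by rw [← hnb]; push_cast; rfl)
    intro i j hij
    have a1 := hv' 2 0
    have a2 := hv' 4 0
    have a3 := hv' 2 1
    norm_num at a1 a2 a3
    fin_cases i <;> fin_cases j
    · exact absurd rfl hij
    · exact six_not hv _ a1 (by norm_num [eE])
    · exact six_not hv _ a2 (by norm_num [eE])
    · exact six_not hv (-4) (by rw [Valuation.map_neg]; exact a1) (by norm_num [eE])
    · exact absurd rfl hij
    · exact six_not hv _ a3 (by norm_num [eE])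
    · exact six_not hv (-16) (by rw [Valuation.map_neg]; exact a2) (by norm_num [eE])
    · exact six_not hv (-12) (by rw [Valuation.map_neg]; exact a3) (by norm_num [eE])
    · exact absurd rfl hij
  have m0 : ((eE 0 : ℤ) : ℚ) = 10 := by norm_num [eE]
  have m1 : ((eE 1 : ℤ) : ℚ) = 6 := by norm_num [eE]
  have m2 : ((eE 2 : ℤ) : ℚ) = -6 := by
    change ((-6 : ℤ) : ℚ) = -6
    norm_num
  obtain ⟨n₁, b₁, h1, hb1, e1⟩ := key 0 (by rw [m0]; decide +kernel)
  obtain ⟨n₂, b₂, h2, hb2, e2⟩ := key 1 (by rw [m1]; decide +kernel)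
  obtain ⟨n₃, b₃, h3, hb3, e3⟩ := key 2 (by rw [m2]; decide +kernel)
  rw [m0] at e1
  rw [m1] at e2
  rw [m2] at e3
  have hz : ∀ n ∈ HH, n ≠ 0 := by decide
  have hprod : 0 ≤ n₁ * n₂ * n₃ := by
    refine pos_of_sq (b := y / (b₁ * b₂ * b₃)) hs hφ ?_
    rw [div_pow, hxy]
    have f1 : x - 10 = n₁ * b₁ ^ 2 := by rw [← e1]; norm_num
    have f2 : x - 6 = n₂ * b₂ ^ 2 := by rw [← e2]; norm_num
    have f3 : x + 6 = n₃ * b₃ ^ 2 := by rw [← e3]; norm_num
    rw [f1, f2, f3]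
    push_cast
    field_simp
  have hpos : 0 < n₃ := by
    by_contra hneg
    have hneg' : n₃ < 0 := lt_of_le_of_ne (not_lt.1 hneg) (hz _ h3)
    have hn12 : n₁ * n₂ < 0 := by
      have h4 : n₁ * n₂ ≠ 0 := mul_ne_zero (hz _ h1) (hz _ h2)
      rcases lt_or_gt_of_ne h4 with h5 | h5
      · exact h5
      · exfalso
        have := mul_neg_of_pos_of_neg h5 hneg'
        omega
    rcases lt_or_gt_of_ne (hz _ h1) with h5 | h5
    · have h6 : 0 < n₂ := by
        by_contra h7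
        have := mul_nonneg_of_nonpos_of_nonpos h5.le (not_lt.1 h7)
        omega
      exact sgn_mono hR2 hs hφ (e := -6) (e' := 6) (e'' := 10) (by norm_num) (by norm_num)
        (by norm_num) e3 e2 e1 (hz _ h1) ⟨hneg', h6⟩
    · exact sgn_mono hR2 hs hφ (e := -6) (e' := 10) (e'' := 6) (by norm_num) (by norm_num)
        (by norm_num) e3 e1 e2 (hz _ h2) ⟨hneg', h5⟩
  refine ⟨n₁, h1, n₂, h2, n₃, h3, hpos, b₁, b₂, b₃, ?_, ?_, ?_⟩
  · rw [← e1]; norm_num
  · rw [← e2]; norm_num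
  · rw [← e3]; norm_num

end

end Pool.Agent.Zk12
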