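import Mathlib
import Pool.Agent.Zk12.Loc

/-!
# Classification of the local classes of the six points `0, ∞, ±1, ±3`
-/

set_option autoImplicit false
set_option linter.all false

namespace Pool.Agent.Zk12

/-- the finite branch points -/
def ev : Fin 5 → ℤ := ![-3, -1, 0, 1, 3]

/-- the classes of one of the six points -/
def Pat (α : Fin 5 → ℤ) : Prop := (∀ i, α i = α 2) ∨ ∃ k, ∀ l, l ≠ k → α l = cl 3 (ev k - ev l)

/-- the signs are possible over the reals -/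
def Mono (α : Fin 5 → ℤ) : Prop := ∀ i j, i < j → ¬ (α i < 0 ∧ 0 < α j)

instance : DecidablePred Pat := fun α => by unfold Pat; infer_instance
instance : DecidablePred Mono := fun α => by unfold Mono; infer_instance

def Chk1 (r : ℕ) : Prop := ∀ k l : Fin 5, ((r : ℤ) - ev k) % 2 ^ (4 + 1) = 0 → l ≠ k →
      ((r : ℤ) - ev l) % 2 ^ (4 + 1) ≠ 0 ∧ cl 4 ((r : ℤ) - ev l) ∈ HH ∧
        cl 4 ((r : ℤ) - ev l) = cl 3 (ev k - ev l)

def Chk2 (r : ℕ) : Prop := (∀ k : Fin 5, ((r : ℤ) - ev k) % 2 ^ (4 + 1) ≠ 0) →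
      (∀ i : Fin 5, cl 4 ((r : ℤ) - ev i) ∈ HH) ∧
      (Mono (fun i => cl 4 ((r : ℤ) - ev i)) → Pat (fun i => cl 4 ((r : ℤ) - ev i)))

def Chk3 (r : ℕ) (a : ℤ) : Prop := (∀ i : Fin 5, cl 2 (a * (1 - 2 * (r : ℤ) * ev i)) ∈ HH) ∧
    (Mono (fun i => cl 2 (a * (1 - 2 * (r : ℤ) * ev i))) →
      Pat (fun i => cl 2 (a * (1 - 2 * (r : ℤ) * ev i))))

instance (r : ℕ) : Decidable (Chk1 r) := by unfold Chk1; infer_instance
instance (r : ℕ) : Decidable (Chk2 r) := by unfold Chk2; infer_instance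
instance (r : ℕ) (a : ℤ) : Decidable (Chk3 r a) := by unfold Chk3; infer_instance

theorem chkT_all : ∀ r < 128, Chk1 r ∧ Chk2 r := by decide +kernel

theorem chkI_all : ∀ r < 4, ∀ a ∈ HH, Chk3 r a := by decide +kernel

theorem locT {T : ℚ_[2]} {α : Fin 5 → ℤ} (hα : ∀ i, α i ∈ HH) (hm : Mono α) {b : Fin 5 → ℚ_[2]}
    (h : ∀ i, T - ev i = α i * b i ^ 2) : Pat α := by
  by_cases hT : ‖T‖ ≤ 1
  · obtain ⟨x, hx⟩ : ∃ x : ℤ_[2], (x : ℚ_[2]) = T := ⟨⟨T, hT⟩, rfl⟩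
    obtain ⟨r, hr, y, hy⟩ := residue (4 + 3) x
    obtain ⟨c1, c2⟩ := chkT_all r hr
    have key : ∀ i, ((r : ℤ) - ev i) % 2 ^ (4 + 1) ≠ 0 → cl 4 ((r : ℤ) - ev i) ∈ HH →
        α i = cl 4 ((r : ℤ) - ev i) := by
      intro i hr hn
      have h4 := cl_close hy (ev i) hr 4 (fun h => by rw [h] at hn; revert hn; decide)
      refine SqM.uniq (hα i) hn (SqM.of_eq (b := b i) ?_ (h4.ne_zero hn)) h4
      rw [hx, ← h i]
    by_cases hk : ∃ k, ((r : ℤ) - ev k) % 2 ^ (4 + 1) = 0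
    · obtain ⟨k, hk⟩ := hk
      right
      refine ⟨k, fun l hl => ?_⟩
      obtain ⟨d1, d2, d3⟩ := c1 k l hk hl
      rw [← d3]
      exact key l d1 d2
    · push Not at hk
      obtain ⟨d1, d2⟩ := c2 hk
      have : α = fun i => cl 4 ((r : ℤ) - ev i) := funext fun i => key i (hk i) (d1 i)
      rw [this] at hm ⊢
      exact d2 hm
  · obtain ⟨z, hz⟩ := inv_two hT
    have hT0 : T ≠ 0 := by
      rintro rfl
      apply hT
      rw [norm_zero]
      exact zero_le_one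
    have hTz : T * (2 * (z : ℚ_[2])) = 1 := by rw [← hz, mul_inv_cancel₀ hT0]
    obtain ⟨r, hr, y, hy⟩ := residue 2 z
    obtain ⟨c1, c2⟩ := chkI_all r (by norm_num at hr ⊢; exact hr) (α 2) (hα 2)
    have h0 : SqM (α 2) T := by
      refine SqM.of_eq (b := b 2) ?_ hT0
      rw [← h 2]
      simp [ev]
    have key : ∀ i, α i = cl 2 (α 2 * (1 - 2 * r * ev i)) := by
      intro i
      have hn := c1 i
      -- `T - e = T (1 - 2 r e) (1 + 8 y')`
      have hodd : (1 - 2 * (r : ℤ) * ev i) % 2 = 1 := by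
        have : 1 - 2 * (r : ℤ) * ev i = 1 + 2 * (-(r * ev i)) := by ring
        omega
      obtain ⟨u, hu⟩ := oddInv _ hodd
      have h3 : T - ev i = T * ((((1 - 2 * r * ev i : ℤ)) : ℚ_[2]) *
          (1 + 8 * ((-(ev i : ℤ_[2]) * y * u : ℤ_[2]) : ℚ_[2]))) := by
        have hu' := congrArg (fun w : ℤ_[2] => (w : ℚ_[2])) hu
        have hy' := congrArg (fun w : ℤ_[2] => (w : ℚ_[2])) hy
        have h2' : ((2 : ℤ_[2]) : ℚ_[2]) = 2 := rfl
        push_cast at hu' hy' ⊢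
        rw [h2'] at hy' hu'
        linear_combination (ev i : ℚ_[2]) * hTz - (2 * T * ev i) * hy' +
          8 * T * (ev i : ℚ_[2]) * y * hu'
      have h4 : SqM (cl 2 (α 2 * (1 - 2 * r * ev i))) (T - ev i) := by
        rw [h3]
        have h5 := (cl_spec 2 (α 2 * (1 - 2 * r * ev i)) (fun h => by
          rw [h] at hn; revert hn; decide))
        obtain ⟨β, hβ, hTβ⟩ := h0
        have h6 := (sqM_close h5 (-(ev i : ℤ_[2]) * y * u)).sq hβ
        have h7 : T * ((((1 - 2 * r * ev i : ℤ)) : ℚ_[2]) *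
            (1 + 8 * ((-(ev i : ℤ_[2]) * y * u : ℤ_[2]) : ℚ_[2]))) =
            (((α 2 * (1 - 2 * r * ev i) : ℤ)) : ℚ_[2]) *
            (1 + 8 * ((-(ev i : ℤ_[2]) * y * u : ℤ_[2]) : ℚ_[2])) * β ^ 2 := by
          rw [hTβ]
          push_cast
          ring
        rw [h7]
        exact h6
      exact SqM.uniq (hα i) hn (SqM.of_eq (h i) (h4.ne_zero hn)) h4
    have : α = fun i => cl 2 (α 2 * (1 - 2 * r * ev i)) := funext key
    rw [this] at hm ⊢
    exact c2 hm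

end Pool.Agent.Zk12
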