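import Mathlib
import Pool.Agent.Zk12.LocT
import Pool.Agent.Zk12.Core3

/-!
# The coordinate at the place
-/

set_option autoImplicit false
set_option linter.all false

namespace Pool.Agent.Zk12

open Pool.Agent.TH954

section

variable {L : Type} [Field L] [CharZero L] [Algebra ℚ L] {k : Subfield L}

theorem core' (hk : ∀ y : L, y ^ 2 ∈ k → y ∈ k) (hC : ClsE k) (pl : Plc ℚ L ℚ_[2]) {t : L}
    (ht : t ∉ k) {D : L} (h1 : ∃ q, t - 1 = D * q ^ 2) (h2 : ∃ q, t + 1 = D * q ^ 2)
    (h3 : ∃ q, t - 3 = D * q ^ 2) (h4 : ∃ q, t + 3 = D * q ^ 2) : t ∉ pl.W := by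
  obtain ⟨q1, h1⟩ := h1
  obtain ⟨q2, h2⟩ := h2
  obtain ⟨q3, h3⟩ := h3
  obtain ⟨q4, h4⟩ := h4
  refine core hk hC pl ht ⟨D * (q1 * q4), ?_⟩ ⟨D * (q2 * q3), ?_⟩ ⟨D * (q2 * q4), ?_⟩
    ⟨D * (q1 * q3), ?_⟩ ⟨D * (q1 * q2), ?_⟩ ⟨D * (q3 * q4), ?_⟩
  · rw [h1, h4]; ring
  · rw [h2, h3]; ring
  · rw [h2, h4]; ring
  · rw [h1, h3]; ring
  · rw [h1, h2]; ring
  · rw [h3, h4]; ring

theorem core_mob (hk : ∀ y : L, y ^ 2 ∈ k → y ∈ k) (hC : ClsE k) (pl : Plc ℚ L ℚ_[2]) {t : L}
    (ht : t ∉ k) {e A c : ℤ} (hc : c ≠ 0) {D : L}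
    (h1 : ∃ q, (A : L) + c / (t - e) - 1 = D * q ^ 2)
    (h2 : ∃ q, (A : L) + c / (t - e) + 1 = D * q ^ 2)
    (h3 : ∃ q, (A : L) + c / (t - e) - 3 = D * q ^ 2)
    (h4 : ∃ q, (A : L) + c / (t - e) + 3 = D * q ^ 2) : pl.val t (e : ℚ_[2]) := by
  have hcL : (c : L) ≠ 0 := by exact_mod_cast hc
  have hcQ : (c : ℚ_[2]) ≠ 0 := by exact_mod_cast hc
  have hte : t - e ≠ 0 := by
    intro h
    apply ht
    rw [sub_eq_zero.1 h]
    exact intCast_mem k e
  have h5 : (A : L) + c / (t - e) ∉ k := by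
    intro h
    apply ht
    have h6 : t = e + c / ((A : L) + c / (t - e) - A) := by
      rw [add_sub_cancel_left]
      field_simp
      ring
    rw [h6]
    exact add_mem (intCast_mem k e) (div_mem (intCast_mem k c) (sub_mem h (intCast_mem k A)))
  have h6 := core' hk hC pl h5 h1 h2 h3 h4
  have h7 : (t - e)⁻¹ ∉ pl.W := by
    intro h
    apply h6
    rw [div_eq_mul_inv]
    exact add_mem (val_int (pl := pl) A).mem (mul_mem (val_int (pl := pl) c).mem h)
  have h8 := Plc.val_inv_of_notMem h7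
  rw [inv_inv] at h8
  have h9 := h8.add (val_int (pl := pl) e)
  rwa [sub_add_cancel, zero_add] at h9

theorem t_conc (hk : ∀ y : L, y ^ 2 ∈ k → y ∈ k) (hC : ClsE k) (pl : Plc ℚ L ℚ_[2]) {t : L}
    (ht : t ∉ k) {α : Fin 5 → ℤ} (hP : Pat α) {b : Fin 5 → L}
    (h : ∀ i, t - ev i = α i * b i ^ 2) : t ∉ pl.W ∨ ∃ i, pl.val t (ev i : ℚ_[2]) := by
  have g0 : t + 3 = α 0 * b 0 ^ 2 := by rw [← h 0]; simp [ev]
  have g1 : t + 1 = α 1 * b 1 ^ 2 := by rw [← h 1]; simp [ev]
  have g2 : t = α 2 * b 2 ^ 2 := by rw [← h 2]; simp [ev]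
  have g3 : t - 1 = α 3 * b 3 ^ 2 := by rw [← h 3]; simp [ev]
  have g4 : t - 3 = α 4 * b 4 ^ 2 := by rw [← h 4]; simp [ev]
  have hne : ∀ n : ℤ, t - n ≠ 0 := by
    intro n h
    apply ht
    rw [sub_eq_zero.1 h]
    exact intCast_mem k n
  rcases hP with hP | ⟨i, hi⟩
  · left
    refine core' hk hC pl ht (D := α 2) ⟨b 3, ?_⟩ ⟨b 1, ?_⟩ ⟨b 4, ?_⟩ ⟨b 0, ?_⟩
    · rw [g3, hP 3]
    · rw [g1, hP 1]
    · rw [g4, hP 4]
    · rw [g0, hP 0]
  · right
    refine ⟨i, ?_⟩
    fin_cases i
    · -- the point `-3`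
      have a1 : α 1 = -2 := by rw [hi 1 (by decide)]; decide
      have a2 : α 2 = -3 := by rw [hi 2 (by decide)]; decide
      have a3 : α 3 = -1 := by rw [hi 3 (by decide)]; decide
      have a4 : α 4 = -6 := by rw [hi 4 (by decide)]; decide
      rw [a1] at g1
      rw [a2] at g2
      rw [a3] at g3
      rw [a4] at g4
      push_cast at g1 g2 g3 g4
      have hd : t - ((-3 : ℤ) : L) ≠ 0 := hne (-3)
      refine core_mob hk hC pl ht (e := -3) (A := 3) (c := -12) (by norm_num)
        (D := -3 / (t - ((-3 : ℤ) : L))) ⟨2 * b 4, ?_⟩ ⟨2 * b 2, ?_⟩ ⟨2, ?_⟩ ⟨2 * b 1, ?_⟩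
      · field_simp
        push_cast
        linear_combination 2 * g4
      · field_simp
        push_cast
        linear_combination 4 * g2
      · field_simp
        push_cast
        ring
      · field_simp
        push_cast
        linear_combination 6 * g1
    · -- the point `-1`
      have a0 : α 0 = 2 := by rw [hi 0 (by decide)]; decide
      have a2 : α 2 = -1 := by rw [hi 2 (by decide)]; decide
      have a3 : α 3 = -2 := by rw [hi 3 (by decide)]; decide
      rw [a0] at g0
      rw [a2] at g2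
      rw [a3] at g3
      push_cast at g0 g2 g3
      have hd : t - ((-1 : ℤ) : L) ≠ 0 := hne (-1)
      refine core_mob hk hC pl ht (e := -1) (A := 1) (c := -4) (by norm_num)
        (D := -1 / (t - ((-1 : ℤ) : L))) ⟨2, ?_⟩ ⟨2 * b 3, ?_⟩ ⟨2 * b 0, ?_⟩ ⟨2 * b 2, ?_⟩
      · field_simp
        push_cast
        ring
      · field_simp
        push_cast
        linear_combination 2 * g3
      · field_simp
        push_cast
        linear_combination (-2) * g0
      · field_simp
        push_cast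
        linear_combination 4 * g2
    · -- the point `0`
      have a0 : α 0 = 3 := by rw [hi 0 (by decide)]; decide
      have a1 : α 1 = 1 := by rw [hi 1 (by decide)]; decide
      have a3 : α 3 = -1 := by rw [hi 3 (by decide)]; decide
      have a4 : α 4 = -3 := by rw [hi 4 (by decide)]; decide
      rw [a0] at g0
      rw [a1] at g1
      rw [a3] at g3
      rw [a4] at g4
      push_cast at g0 g1 g3 g4
      have hd : t - ((0 : ℤ) : L) ≠ 0 := hne 0
      refine core_mob hk hC pl ht (e := 0) (A := 0) (c := 3) (by norm_num)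
        (D := 3 / (t - ((0 : ℤ) : L))) ⟨b 4, ?_⟩ ⟨b 0, ?_⟩ ⟨b 3, ?_⟩ ⟨b 1, ?_⟩
      · field_simp
        push_cast
        linear_combination (-1) * g4
      · field_simp
        push_cast
        linear_combination g0
      · field_simp
        push_cast
        linear_combination (-3) * g3
      · field_simp
        push_cast
        linear_combination 3 * g1
    · -- the point `1`
      have a1 : α 1 = 2 := by rw [hi 1 (by decide)]; decide
      have a2 : α 2 = 1 := by rw [hi 2 (by decide)]; decide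
      have a4 : α 4 = -2 := by rw [hi 4 (by decide)]; decide
      rw [a1] at g1
      rw [a2] at g2
      rw [a4] at g4
      push_cast at g1 g2 g4
      have hd : t - ((1 : ℤ) : L) ≠ 0 := hne 1
      refine core_mob hk hC pl ht (e := 1) (A := 1) (c := 4) (by norm_num)
        (D := 1 / (t - ((1 : ℤ) : L))) ⟨2, ?_⟩ ⟨2 * b 1, ?_⟩ ⟨2 * b 4, ?_⟩ ⟨2 * b 2, ?_⟩
      · field_simp
        push_cast
        ring
      · field_simp
        push_cast
        linear_combination 2 * g1
      · field_simp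
        push_cast
        linear_combination (-2) * g4
      · field_simp
        push_cast
        linear_combination 4 * g2
    · -- the point `3`
      have a0 : α 0 = 6 := by rw [hi 0 (by decide)]; decide
      have a2 : α 2 = 3 := by rw [hi 2 (by decide)]; decide
      have a3 : α 3 = 2 := by rw [hi 3 (by decide)]; decide
      rw [a0] at g0
      rw [a2] at g2
      rw [a3] at g3
      push_cast at g0 g2 g3
      have hd : t - ((3 : ℤ) : L) ≠ 0 := hne 3
      refine core_mob hk hC pl ht (e := 3) (A := 3) (c := 12) (by norm_num)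
        (D := 3 / (t - ((3 : ℤ) : L))) ⟨2 * b 0, ?_⟩ ⟨2 * b 2, ?_⟩ ⟨2, ?_⟩ ⟨2 * b 3, ?_⟩
      · field_simp
        push_cast
        linear_combination 2 * g0
      · field_simp
        push_cast
        linear_combination 4 * g2
      · field_simp
        push_cast
        ring
      · field_simp
        push_cast
        linear_combination 6 * g3

end

end Pool.Agent.Zk12
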