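import Mathlib
import Pool.Agent.Zk12.EllU
import Pool.Agent.TH213.SEL.Transp

/-!
# The maximal extension which is unramified over a set of valuation rings
-/

set_option autoImplicit false
set_option linter.all false

open Polynomial NumberField IsDedekindDomain IntermediateField

namespace Pool.Agent.Zk12

open Pool.Agent.W623.SecC Pool.Agent.W620.SC

section

variable {k F Ω M B : Type} [Field k] [CharZero k] [Field F] [Field Ω] [Field M] [Field B]
  [Algebra k F] [Algebra F Ω] [Algebra k Ω] [IsScalarTower k F Ω] [Algebra F M] [Algebra k M]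
  [IsScalarTower k F M] [Algebra k B] [Algebra.IsAlgebraic k B] [IsAlgClosed Ω]
  [Algebra.IsAlgebraic F Ω]

theorem rootN_unr (U : Set (ValuationSubring F)) (hU : ∀ O ∈ U, ∀ c : k, algebraMap k F c ∈ O)
    (e : M →ₐ[F] Ω) (he : e.fieldRange = unramified F Ω U) (j : B →ₐ[k] M) :
    RootN (j : B →+* M) := by
  intro n hn g hg hW
  have hmem : ∀ z : M, e z ∈ unramified F Ω U := by
    intro z
    rw [← he]
    exact ⟨z, rfl⟩
  obtain ⟨α, hα⟩ := exists_root_unramified (k := k) U hU hn ⟨e g, hmem g⟩ (by
    intro _ W hWU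
    obtain ⟨π, hπ0, h1, h2⟩ := hW (W.comap (e : M →+* Ω)) (by
      intro c
      change e (j c) ∈ W
      have h3 : IsIntegral k (e (j c)) := by
        have h4 : IsIntegral k c := Algebra.IsIntegral.isIntegral c
        exact h4.map ((e.restrictScalars k).comp j)
      have h5 : ∀ c : k, algebraMap k Ω c ∈ W := by
        intro c
        rw [IsScalarTower.algebraMap_apply k F Ω]
        exact hU _ hWU c
      exact const_mem h5 h3)
    refine ⟨e π, hmem π, ?_, ?_, ?_⟩
    · exact (_root_.map_ne_zero e).2 hπ0
    · change e g / e π ^ n ∈ W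
      rw [← map_pow, ← map_div₀]
      exact h1
    · change e π ^ n / e g ∈ W
      rw [← map_pow, ← map_div₀]
      exact h2)
  have h3 : (α : Ω) ∈ e.fieldRange := by
    rw [he]
    exact α.2
  obtain ⟨h, hh⟩ := h3
  have hh' : e h = (α : Ω) := hh
  refine ⟨h, e.injective ?_⟩
  have h4 : ((α ^ n : unramified F Ω U) : Ω) = e g := by rw [hα]
  change e (h ^ n) = e g
  rw [map_pow, hh', ← h4]
  rfl

end

end Pool.Agent.Zk12
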