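import Mathlib
import Pool.Agent.Y157.PS.Tools

/-!
# The covering field in terms of another coordinate
-/

set_option autoImplicit false
set_option linter.all false

open Polynomial FF Pool.Agent.Y157.PS

namespace Pool.Agent.Zk12

section

variable {ℓ : ℕ} [hℓ : Fact ℓ.Prime] {κ R M : Type} [Field κ] [CharZero κ]
  [Field R] [Field M] [Algebra κ R] [Algebra R M] [Algebra κ M] [IsScalarTower κ R M] {x : R}
  {B : Finset κ} {Y : M}

/-- the new coordinate -/
noncomputable def mobX (x : R) (u α β : κ) : R :=
  algebraMap κ R α / (x - algebraMap κ R u) + algebraMap κ R β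

/-- the new branch points -/
def mobE (u α β : κ) (e : κ) : κ := α / (e - u) + β

theorem mobE_inj {u α β : κ} (hα : α ≠ 0) {e e' : κ} (he : e ≠ u) (he' : e' ≠ u)
    (h : mobE u α β e = mobE u α β e') : e = e' := by
  unfold mobE at h
  have h1 := add_right_cancel h
  rw [div_eq_div_iff (sub_ne_zero.2 he) (sub_ne_zero.2 he')] at h1
  have h2 := mul_left_cancel₀ hα h1
  linear_combination -h2

theorem ratF_mob (hx : RatF κ x) {u α β : κ} (hα : α ≠ 0) : RatF κ (mobX x u α β) := by
  have hxu : x - algebraMap κ R u ≠ 0 := by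
    intro h
    apply hx.trans
    rw [sub_eq_zero.1 h]
    exact isAlgebraic_algebraMap u
  have hαR : algebraMap κ R α ≠ 0 := (_root_.map_ne_zero _).2 hα
  have hback : x = algebraMap κ R u + algebraMap κ R α / (mobX x u α β - algebraMap κ R β) := by
    unfold mobX
    rw [add_sub_cancel_right]
    field_simp
    ring
  have hmem : x ∈ IntermediateField.adjoin κ {mobX x u α β} := by
    have h1 : algebraMap κ R u + algebraMap κ R α / (mobX x u α β - algebraMap κ R β) ∈
        IntermediateField.adjoin κ {mobX x u α β} :=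
      add_mem (IntermediateField.algebraMap_mem _ u) (div_mem
        (IntermediateField.algebraMap_mem _ α) (sub_mem
        (IntermediateField.mem_adjoin_simple_self _ _) (IntermediateField.algebraMap_mem _ β)))
    rwa [← hback] at h1
  constructor
  · intro h
    apply hx.trans
    have h2 : IsAlgebraic κ (algebraMap κ R u + algebraMap κ R α /
        (mobX x u α β - algebraMap κ R β)) := by
      have a1 : ∀ c : κ, IsAlgebraic κ (algebraMap κ R c) := fun c => isAlgebraic_algebraMap c
      rw [div_eq_mul_inv]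
      exact (a1 u).add ((a1 α).mul ((h.sub (a1 β)).inv))
    rw [← hback] at h2
    exact h2
  · rw [eq_top_iff, ← hx.gen, IntermediateField.adjoin_le_iff]
    intro z hz
    rw [Set.mem_singleton_iff] at hz
    rw [hz]
    exact hmem

/-- the difference of the coordinates -/
theorem mob_sub {X : M} {u α β a : κ} (hXu : X - algebraMap κ M u ≠ 0) (hau : a ≠ u) :
    algebraMap κ M α / (X - algebraMap κ M u) + algebraMap κ M β - algebraMap κ M (mobE u α β a) =
      algebraMap κ M (-α / (a - u)) * ((X - algebraMap κ M a) / (X - algebraMap κ M u)) := by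
  have h1 : algebraMap κ M a - algebraMap κ M u ≠ 0 := by
    rw [← map_sub, _root_.map_ne_zero]
    exact sub_ne_zero.2 hau
  unfold mobE
  rw [map_add, map_div₀, map_div₀, map_sub, map_neg]
  field_simp
  ring

theorem cov_mob (hC : Cov ℓ κ R M x B Y) {u α β : κ} (hu : u ∉ B) (hα : α ≠ 0) {m : ℕ}
    (hm : B.card = ℓ * m) {d : κ} (hd : d ^ ℓ = ∏ e ∈ B, (-α / (e - u))) [DecidableEq κ] :
    Cov ℓ κ R M (mobX x u α β) (B.image (mobE u α β))
      (algebraMap κ M d * Y / (algebraMap R M x - algebraMap κ M u) ^ m) := by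
  obtain ⟨X, hX⟩ : ∃ X, X = algebraMap R M x := ⟨_, rfl⟩
  have hXt : Transcendental κ X := by
    rw [hX, transcendental_algebraMap_iff (algebraMap R M).injective]
    exact hC.rat.trans
  have hXc : ∀ c : κ, X - algebraMap κ M c ≠ 0 := by
    intro c h
    apply hXt
    rw [sub_eq_zero.1 h]
    exact isAlgebraic_algebraMap c
  have hX' : algebraMap R M (mobX x u α β) =
      algebraMap κ M α / (X - algebraMap κ M u) + algebraMap κ M β := by
    unfold mobX
    rw [map_add, map_div₀, map_sub, ← IsScalarTower.algebraMap_apply,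
      ← IsScalarTower.algebraMap_apply, ← IsScalarTower.algebraMap_apply, hX]
  have hne : ∀ e ∈ B, e ≠ u := fun e he h => hu (h ▸ he)
  have hinj : ∀ e ∈ B, ∀ e' ∈ B, mobE u α β e = mobE u α β e' → e = e' := fun e he e' he' h =>
    mobE_inj hα (hne e he) (hne e' he') h
  have hcard : (B.image (mobE u α β)).card = B.card := Finset.card_image_of_injOn (by
    intro e he e' he' h
    exact hinj e he e' he' h)
  have hd0 : d ≠ 0 := by
    rintro rfl
    rw [zero_pow hℓ.out.ne_zero] at hd
    have h1 := hd.symm
    rw [Finset.prod_eq_zero_iff] at h1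
    obtain ⟨e, he, h2⟩ := h1
    exact div_ne_zero (neg_ne_zero.2 hα) (sub_ne_zero.2 (hne e he)) h2
  have hdM : algebraMap κ M d ≠ 0 := (_root_.map_ne_zero _).2 hd0
  have hY0 : Y ≠ 0 := by
    rintro rfl
    have h1 := hC.eqn
    rw [zero_pow hℓ.out.ne_zero] at h1
    have h2 := h1.symm
    rw [Finset.prod_eq_zero_iff] at h2
    obtain ⟨e, he, h3⟩ := h2
    rw [← hX] at h3
    exact hXc e h3
  have hpm : (X - algebraMap κ M u) ^ m ≠ 0 := pow_ne_zero _ (hXc u)
  -- the orders
  have hord : ∀ (W : Place κ M) (a : κ), a ≠ u → 0 < W.ord (X - algebraMap κ M a) →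
      W.ord (algebraMap κ M α / (X - algebraMap κ M u) + algebraMap κ M β -
        algebraMap κ M (mobE u α β a)) = W.ord (X - algebraMap κ M a) ∧
      W.ord (algebraMap κ M d * Y / (X - algebraMap κ M u) ^ m) = W.ord Y := by
    intro W a hau hW
    have h1 := ord_sub_const hW hau
    have h2 : -α / (a - u) ≠ 0 := div_ne_zero (neg_ne_zero.2 hα) (sub_ne_zero.2 hau)
    constructor
    · rw [mob_sub (hXc u) hau, W.ord_mul ((_root_.map_ne_zero _).2 h2)
        (div_ne_zero (hXc a) (hXc u)), W.ord_const h2, W.ord_div (hXc a) (hXc u), h1]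
      ring
    · rw [W.ord_div (mul_ne_zero hdM hY0) hpm, W.ord_mul hdM hY0, W.ord_const hd0, W.ord_pow, h1]
      ring
  refine ⟨ratF_mob hC.rat hα, hC.gal, hC.pow, ?_, ?_, ?_, ?_, hC.root⟩
  · rw [hcard]; exact hC.dvd
  · rw [hcard]; exact hC.three
  · rw [Finset.prod_image (by intro e he e' he' h; exact hinj e he e' he' h), hX', ← hX,
      Finset.prod_congr rfl (fun e he => mob_sub (β := β) (α := α) (hXc u) (hne e he)),
      Finset.prod_mul_distrib, ← map_prod, ← hd, Finset.prod_div_distrib, Finset.prod_const, hm,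
      div_pow, mul_pow, hC.eqn, ← hX, map_pow, pow_mul']
    ring
  · intro V hV hV'
    obtain ⟨W, hWV, hW⟩ := hC.loc V hV hV'
    refine ⟨W, hWV, ?_⟩
    rw [hX', ← hX]
    rw [← hX] at hW
    rcases hW with ⟨e, he, h1, h2⟩ | ⟨a, ha, h1⟩ | h1
    · left
      have h3 := hord W e (hne e he) (by rw [h1]; exact_mod_cast hℓ.out.pos)
      exact ⟨mobE u α β e, Finset.mem_image_of_mem _ he, by rw [h3.1, h1], by rw [h3.2, h2]⟩
    · by_cases hau : a = u
      · right; right
        subst hau
        have h3 : W.ord (algebraMap κ M α / (X - algebraMap κ M a)) = -1 := by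
          rw [W.ord_div ((_root_.map_ne_zero _).2 hα) (hXc a), W.ord_const hα, h1]
          ring
        by_cases hβ : β = 0
        · rw [hβ, map_zero, add_zero, h3]
        · rw [(W.ord_add_eq (div_ne_zero ((_root_.map_ne_zero _).2 hα) (hXc a))
            ((_root_.map_ne_zero _).2 hβ) (by rw [h3, W.ord_const hβ]; norm_num)).2, h3]
      · right; left
        have h3 := hord W a hau (by rw [h1]; norm_num)
        refine ⟨mobE u α β a, ?_, by rw [h3.1, h1]⟩
        intro h4
        rw [Finset.mem_image] at h4
        obtain ⟨e, he, h5⟩ := h4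
        exact ha ((mobE_inj hα (hne e he) hau h5) ▸ he)
    · right; left
      refine ⟨β, ?_, ?_⟩
      · intro h4
        rw [Finset.mem_image] at h4
        obtain ⟨e, he, h5⟩ := h4
        unfold mobE at h5
        have h6 : α / (e - u) = 0 := by linear_combination h5
        exact div_ne_zero hα (sub_ne_zero.2 (hne e he)) h6
      · have hX0 : X ≠ 0 := by
          rintro h0
          rw [h0, W.ord_zero] at h1
          norm_num at h1
        have h3 : W.ord (X - algebraMap κ M u) = -1 := by
          by_cases hu0 : u = 0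
          · rw [hu0, map_zero, sub_zero, h1]
          · rw [sub_eq_add_neg, ← map_neg, (W.ord_add_eq hX0 ((_root_.map_ne_zero _).2
              (neg_ne_zero.2 hu0)) (by rw [h1, W.ord_const (neg_ne_zero.2 hu0)]; norm_num)).2, h1]
        rw [add_sub_cancel_right, W.ord_div ((_root_.map_ne_zero _).2 hα) (hXc u),
          W.ord_const hα, h3]
        norm_num

end

end Pool.Agent.Zk12
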