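import Mathlib
import Pool.Agent.Y158.GR.NumV

/-!
# The place of a number field below a valuation ring of the algebraic closure
-/

set_option autoImplicit false
set_option linter.all false

open Polynomial FF Pool.Agent.Y157.PS IsDedekindDomain NumberField

namespace Pool.Agent.Zk12

open Pool.Agent.Y158.GR

theorem above_sub {K' κ : Type} [Field K'] [NumberField K'] [Field κ] [Algebra K' κ]
    (V : ValuationSubring κ) {p : ℕ} (hp : p ≠ 0) (hpV : (p : κ) ∈ V.nonunits) :
    ∃ v' : HeightOneSpectrum (𝓞 K'), Above v' V := by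
  have hint : ∀ a : 𝓞 K', algebraMap K' κ a ∈ V := by
    intro a
    have h1 : IsIntegral ℤ (algebraMap K' κ a) := (RingOfIntegers.isIntegral_coe a).map
      ((algebraMap K' κ).toIntAlgHom)
    have h3 : IsIntegral V (algebraMap K' κ a) := h1.tower_top
    obtain ⟨y, hy⟩ := IsIntegrallyClosed.isIntegral_iff.1 h3
    rw [← hy]
    exact y.2
  let f : 𝓞 K' →+* V := ((algebraMap K' κ).comp (algebraMap (𝓞 K') K')).codRestrict V hint
  have hf : ∀ a : 𝓞 K', ((f a : V) : κ) = algebraMap K' κ a := fun a => rfl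
  have hmem : ∀ a : 𝓞 K', a ∈ Ideal.comap f (IsLocalRing.maximalIdeal V) ↔
      algebraMap K' κ a ∈ V.nonunits := by
    intro a
    rw [Ideal.mem_comap, ← hf]
    exact (ValuationSubring.mem_nonunits_iff_exists_mem_maximalIdeal (A := V)).trans ⟨by
      rintro ⟨h1, h2⟩
      exact h2, fun h => ⟨(f a).2, h⟩⟩ |>.symm
  have hprime : (Ideal.comap f (IsLocalRing.maximalIdeal V)).IsPrime := inferInstance
  have hp0 : ((p : ℕ) : 𝓞 K') ≠ 0 := Nat.cast_ne_zero.2 hp
  have hbot : Ideal.comap f (IsLocalRing.maximalIdeal V) ≠ ⊥ := by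
    intro h
    have h1 : ((p : ℕ) : 𝓞 K') ∈ Ideal.comap f (IsLocalRing.maximalIdeal V) := by
      rw [hmem]
      have h2 : algebraMap K' κ (((p : ℕ) : 𝓞 K') : K') = (p : κ) := by
        rw [show (((p : ℕ) : 𝓞 K') : K') = ((p : ℕ) : K') from _root_.map_natCast (algebraMap (𝓞 K') K') p,
          _root_.map_natCast]
      rw [h2]
      exact hpV
    rw [h, Ideal.mem_bot] at h1
    exact hp0 h1
  let v' : HeightOneSpectrum (𝓞 K') := ⟨_, hprime, hbot⟩
  have hunit : ∀ b : 𝓞 K', b ∉ v'.asIdeal → IsU V (algebraMap K' κ b) := by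
    intro b hb
    refine isU_of_not_nonunit (hint b) fun h => hb ?_
    exact (hmem b).2 h
  refine ⟨v', fun z => ?_⟩
  constructor
  · intro hz
    by_contra h1
    have h1' : 1 < v'.valuation K' z := not_le.1 h1
    have hz0 : z ≠ 0 := by
      rintro rfl
      rw [map_zero] at h1'
      exact not_lt_zero h1'
    have h2 : v'.valuation K' z⁻¹ < 1 := by
      rw [map_inv₀]
      exact inv_lt_one_of_one_lt₀ h1'
    obtain ⟨n, d, hnd⟩ := v'.exists_primeCompl_mul_eq_of_integer z⁻¹ h2.le
    have hd := hunit d d.2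
    have hn : n ∈ v'.asIdeal := by
      rw [← v'.intValuation_lt_one_iff_mem, ← v'.valuation_of_algebraMap (K := K')]
      change v'.valuation K' (algebraMap (𝓞 K') K' n) < 1
      rw [← hnd, map_mul]
      have h3 : v'.valuation K' (algebraMap (𝓞 K') K' (d : 𝓞 K')) ≤ 1 := v'.valuation_le_one _
      exact (mul_le_mul' le_rfl h3).trans_lt (by rwa [mul_one])
    have hn' := (hmem n).1 hn
    have h4 : algebraMap K' κ z⁻¹ ∈ V.nonunits := by
      have h5 : algebraMap K' κ z⁻¹ = (algebraMap K' κ (algebraMap (𝓞 K') K' (d : 𝓞 K')))⁻¹ *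
          algebraMap K' κ (algebraMap (𝓞 K') K' n) := by
        rw [← hnd, map_mul]
        field_simp [hd.1]
      rw [h5]
      exact non_mul hd.2.2 hn'
    have h6 := non_mul hz h4
    rw [← map_mul, mul_inv_cancel₀ hz0, map_one] at h6
    exact isU_one.not_nonunit h6
  · intro hz
    obtain ⟨n, d, hnd⟩ := v'.exists_primeCompl_mul_eq_of_integer z hz
    have hd := hunit d d.2
    have h5 : algebraMap K' κ z = algebraMap K' κ (algebraMap (𝓞 K') K' n) *
        (algebraMap K' κ (algebraMap (𝓞 K') K' (d : 𝓞 K')))⁻¹ := by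
      rw [← hnd, map_mul]
      field_simp [hd.1]
    rw [h5]
    exact mul_mem (hint n) hd.2.2

end Pool.Agent.Zk12
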