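import Mathlib
import Pool.Agent.Zk12.Sub
import Pool.Agent.Zk12.Mob
import Pool.Agent.Zk12.CE
import Pool.Agent.Y158.GR.Prb

/-!
# The inertia groups at the places of good reduction
-/

set_option autoImplicit false
set_option linter.all false

open Polynomial FF Pool.Agent.Y157.PS IsDedekindDomain NumberField

namespace Pool.Agent.Zk12

open Pool.Agent.Y158.GR

/-- the branch points -/
def BQ : Finset ℚ := {0, 6, 10, 15, 30, -30}

theorem BQ_card : BQ.card = 2 * 3 := by decide +kernel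

/-- the branch points in `κ` -/
def BK (κ : Type) [Field κ] [Algebra ℚ κ] : Finset κ :=
  BQ.map ⟨algebraMap ℚ κ, (algebraMap ℚ κ).injective⟩

section

variable {κ : Type} [Field κ] [Algebra ℚ κ] [IsAlgClosure ℚ κ]

theorem mem_BK {e : κ} : e ∈ BK κ ↔ ∃ q ∈ BQ, algebraMap ℚ κ q = e := by
  unfold BK
  rw [Finset.mem_map]
  rfl

theorem BK_card : (BK κ).card = 2 * 3 := by
  unfold BK
  rw [Finset.card_map, BQ_card]

theorem BK_prod {F : Type} [CommMonoid F] (f : κ → F) :
    ∏ e ∈ BK κ, f e = f 0 * f 6 * f 10 * f 15 * f 30 * f (-30) := by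
  unfold BK
  rw [Finset.prod_map]
  have : BQ = {0, 6, 10, 15, 30, -30} := rfl
  rw [this, Finset.prod_insert (by norm_num), Finset.prod_insert (by norm_num),
    Finset.prod_insert (by norm_num), Finset.prod_insert (by norm_num),
    Finset.prod_insert (by norm_num), Finset.prod_singleton]
  simp only [Function.Embedding.coeFn_mk, map_zero, map_ofNat, map_neg]
  simp only [mul_assoc]

/-- the integers which are the five finite branch points in the coordinate `t` -/
def A5 : List ℤ := [3, 1, 0, -1, -3]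

/-- `a - w` is a unit outside `6` -/
theorem unit_aw {v : HeightOneSpectrum (𝓞 ℚ)} (hv : v.valuation ℚ 6 = 1)
    {V : ValuationSubring κ} (hV : Above v V) {w : κ} (hw : w ^ 2 = -3) {a : ℤ} (ha : a ∈ A5) :
    IsU V ((a : κ) - w) := by
  obtain ⟨h2, h3⟩ := v_23 hv
  have hz : ∀ n : ℤ, (n : κ) ∈ V := by
    intro n
    have := (hV (n : ℚ)).2 (v_int v n)
    rwa [map_intCast] at this
  have hwV : w ∈ V := by
    by_contra h
    have h1 := (V.mem_or_inv_mem w).resolve_left h
    apply h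
    have h4 : w = -3 * w⁻¹ := by
      have hw0 : w ≠ 0 := by
        rintro rfl
        exact h (zero_mem _)
      field_simp
      linear_combination hw
    rw [h4]
    have := hz (-3)
    push_cast at this
    exact mul_mem this h1
  have hU : IsU V (((a ^ 2 + 3 : ℤ)) : κ) := by
    have h4 : v.valuation ℚ ((a ^ 2 + 3 : ℤ) : ℚ) = 1 := by
      have h12 : v.valuation ℚ 12 = 1 := by
        rw [show (12 : ℚ) = 2 * 2 * 3 by norm_num, map_mul, map_mul, h2, h3]; norm_num
      have h4 : v.valuation ℚ 4 = 1 := by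
        rw [show (4 : ℚ) = 2 * 2 by norm_num, map_mul, h2]; norm_num
      simp only [A5, List.mem_cons, List.not_mem_nil, or_false] at ha
      rcases ha with rfl | rfl | rfl | rfl | rfl <;> norm_num <;> assumption
    have := (hV.isU _).2 h4
    rwa [map_intCast] at this
  have hprod : ((a : κ) - w) * ((a : κ) + w) = ((a ^ 2 + 3 : ℤ) : κ) := by
    push_cast
    linear_combination -hw
  have h0 : ((a : κ) - w) ≠ 0 := by
    intro h
    rw [h, zero_mul] at hprod
    exact hU.1 hprod.symm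
  refine ⟨h0, sub_mem (hz a) hwV, ?_⟩
  have h5 : ((a : κ) - w)⁻¹ = ((a : κ) + w) * (((a ^ 2 + 3 : ℤ)) : κ)⁻¹ := by
    rw [← hprod]
    have h1 : ((a : κ) + w) ≠ 0 := by
      intro h
      rw [h, mul_zero] at hprod
      exact hU.1 hprod.symm
    field_simp
  rw [h5]
  exact mul_mem (add_mem (hz a) hwV) hU.2.2

/-- the transformed branch points -/
theorem mobE_mem {w : κ} (hc0 : (2 : κ) + w ≠ 0) (hA : ∀ a ∈ A5, (a : κ) - w ≠ 0) {e : κ}
    (he : e ∈ BK κ) : mobE (30 / (2 + w)) (-30 / (2 + w) ^ 2) (-1 / (2 + w)) e = 0 ∨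
      ∃ a ∈ A5, mobE (30 / (2 + w)) (-30 / (2 + w) ^ 2) (-1 / (2 + w)) e = ((a : κ) - w)⁻¹ := by
  haveI : CharZero κ := charZero_of_injective_algebraMap (algebraMap ℚ κ).injective
  obtain ⟨q, hq, rfl⟩ := mem_BK.1 he
  have key : ∀ (q : κ) (a : ℤ), a ∈ A5 → q * (a + 2) = 30 →
      mobE (30 / (2 + w)) (-30 / (2 + w) ^ 2) (-1 / (2 + w)) q = ((a : κ) - w)⁻¹ := by
    intro q a ha hqa
    have h1 := hA a ha
    have h2 : (a : κ) + 2 ≠ 0 := by
      intro h
      rw [h, mul_zero] at hqa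
      norm_num at hqa
    have hq : q = 30 / (a + 2) := by rw [eq_div_iff h2, hqa]
    have h3 : q - 30 / (2 + w) = 30 * (w - a) / ((a + 2) * (2 + w)) := by
      rw [hq]
      field_simp
      ring
    have h4 : w - (a : κ) ≠ 0 := by
      intro h
      apply h1
      linear_combination -h
    unfold mobE
    rw [h3]
    have h30 : (30 : κ) ≠ 0 := by norm_num
    field_simp
    ring
  have hB : q = 0 ∨ q = 6 ∨ q = 10 ∨ q = 15 ∨ q = 30 ∨ q = -30 := by
    simpa [BQ] using hq
  rcases hB with rfl | rfl | rfl | rfl | rfl | rfl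
  · left
    rw [map_zero]
    unfold mobE
    have h30 : (30 : κ) ≠ 0 := by norm_num
    field_simp
    ring
  · right
    exact ⟨3, by decide, key _ 3 (by decide) (by rw [map_ofNat]; norm_num)⟩
  · right
    exact ⟨1, by decide, key _ 1 (by decide) (by rw [map_ofNat]; norm_num)⟩
  · right
    exact ⟨0, by decide, key _ 0 (by decide) (by rw [map_ofNat]; norm_num)⟩
  · right
    exact ⟨-1, by decide, key _ (-1) (by decide) (by rw [map_ofNat]; norm_num)⟩
  · right
    exact ⟨-3, by decide, key _ (-3) (by decide) (by rw [map_neg, map_ofNat]; norm_num)⟩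

/-- good reduction in the new coordinate -/
theorem good_mob {v : HeightOneSpectrum (𝓞 ℚ)} (hv : v.valuation ℚ 6 = 1)
    {V : ValuationSubring κ} (hV : Above v V) {w : κ} (hw : w ^ 2 = -3) (hc0 : (2 : κ) + w ≠ 0)
    [DecidableEq κ] :
    Good V ((BK κ).image (mobE (30 / (2 + w)) (-30 / (2 + w) ^ 2) (-1 / (2 + w)))) := by
  obtain ⟨h2, h3⟩ := v_23 hv
  have hU : ∀ a ∈ A5, IsU V ((a : κ) - w) := fun a ha => unit_aw hv hV hw ha
  have hA : ∀ a ∈ A5, (a : κ) - w ≠ 0 := fun a ha => (hU a ha).1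
  have hd : ∀ a ∈ A5, ∀ b ∈ A5, a ≠ b → IsU V ((b : κ) - a) := by
    intro a ha b hb hab
    have h4 : v.valuation ℚ ((b - a : ℤ) : ℚ) = 1 := by
      have h4 : v.valuation ℚ 4 = 1 := by
        rw [show (4 : ℚ) = 2 * 2 by norm_num, map_mul, h2]; norm_num
      have hneg : ∀ q : ℚ, v.valuation ℚ q = 1 → v.valuation ℚ (-q) = 1 := fun q hq => by
        rw [Valuation.map_neg, hq]
      have n2 := hneg _ h2
      have n3 := hneg _ h3
      have n4 := hneg _ h4
      have n6 := hneg _ hv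
      have h1 : v.valuation ℚ 1 = 1 := map_one _
      have n1 := hneg _ h1
      simp only [A5, List.mem_cons, List.not_mem_nil, or_false] at ha hb
      rcases ha with rfl | rfl | rfl | rfl | rfl <;> rcases hb with rfl | rfl | rfl | rfl | rfl <;>
        first | exact absurd rfl hab | (norm_num <;> assumption)
    have := (hV.isU _).2 h4
    rw [map_intCast] at this
    push_cast at this
    exact this
  have umul : ∀ a b : κ, IsU V a → IsU V b → IsU V (a * b) := fun a b ha hb =>
    ⟨mul_ne_zero ha.1 hb.1, mul_mem ha.2.1 hb.2.1, by rw [mul_inv]; exact mul_mem ha.2.2 hb.2.2⟩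
  have uinv : ∀ a : κ, IsU V a → IsU V a⁻¹ := fun a ha =>
    ⟨inv_ne_zero ha.1, ha.2.2, by rw [inv_inv]; exact ha.2.1⟩
  have uneg : ∀ a : κ, IsU V a → IsU V (-a) := fun a ha =>
    ⟨neg_ne_zero.2 ha.1, neg_mem ha.2.1, by rw [inv_neg]; exact neg_mem ha.2.2⟩
  have hform : ∀ e ∈ (BK κ).image (mobE (30 / (2 + w)) (-30 / (2 + w) ^ 2) (-1 / (2 + w))),
      e = 0 ∨ ∃ a ∈ A5, e = ((a : κ) - w)⁻¹ := by
    intro e he
    rw [Finset.mem_image] at he
    obtain ⟨e', he', rfl⟩ := he
    exact mobE_mem hc0 hA he'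
  constructor
  · intro e he
    rcases hform e he with h | ⟨a, ha, h⟩
    · rw [h]; exact zero_mem _
    · rw [h]; exact (hU a ha).2.2
  · intro e he e' he' hee
    rcases hform e he with h | ⟨a, ha, h⟩ <;> rcases hform e' he' with h' | ⟨a', ha', h'⟩
    · exact absurd (h.trans h'.symm) hee
    · rw [h, h', zero_sub]
      exact uneg _ (uinv _ (hU a' ha'))
    · rw [h, h', sub_zero]
      exact uinv _ (hU a ha)
    · have haa : a ≠ a' := by
        rintro rfl
        exact hee (h.trans h'.symm)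
      have h5 : ((a : κ) - w)⁻¹ - ((a' : κ) - w)⁻¹ =
          ((a' : κ) - a) * (((a : κ) - w)⁻¹ * ((a' : κ) - w)⁻¹) := by
        have := hA a ha
        have := hA a' ha'
        field_simp
        ring
      rw [h, h', h5]
      exact umul _ _ (hd a ha a' ha' haa) (umul _ _ (uinv _ (hU a ha)) (uinv _ (hU a' ha')))

/-- the product for the leading coefficient -/
theorem lead_prod {w : κ} (hw : w ^ 2 = -3) (hc0 : (2 : κ) + w ≠ 0)
    (hA : ∀ a ∈ A5, (a : κ) - w ≠ 0) (hw0 : w ≠ 0) :
    ∏ e ∈ BK κ, (-(-30 / (2 + w) ^ 2) / (e - 30 / (2 + w))) = 30 / (48 * w * (2 + w) ^ 6) := by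
  haveI : CharZero κ := charZero_of_injective_algebraMap (algebraMap ℚ κ).injective
  rw [BK_prod]
  have h30 : (30 : κ) ≠ 0 := by norm_num
  have key : ∀ (q : κ) (a : ℤ), a ∈ A5 → q * (a + 2) = 30 →
      -(-30 / (2 + w) ^ 2) / (q - 30 / (2 + w)) = (a + 2) / ((2 + w) * (w - a)) := by
    intro q a ha hqa
    have h1 := hA a ha
    have h2 : (a : κ) + 2 ≠ 0 := by
      intro h
      rw [h, mul_zero] at hqa
      norm_num at hqa
    have hq : q = 30 / (a + 2) := by rw [eq_div_iff h2, hqa]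
    have h3 : q - 30 / (2 + w) = 30 * (w - a) / ((a + 2) * (2 + w)) := by
      rw [hq]
      field_simp
      ring
    have h4 : w - (a : κ) ≠ 0 := by
      intro h
      apply h1
      linear_combination -h
    rw [h3]
    field_simp
  have k0 : -(-30 / (2 + w) ^ 2) / (0 - 30 / (2 + w)) = -1 / (2 + w) := by
    field_simp
    ring
  rw [k0, key 6 3 (by decide) (by norm_num), key 10 1 (by decide) (by norm_num),
    key 15 0 (by decide) (by norm_num), key 30 (-1) (by decide) (by norm_num),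
    key (-30) (-3) (by decide) (by norm_num)]
  have a1 : w - ((3 : ℤ) : κ) ≠ 0 := fun h => hA 3 (by decide) (by linear_combination -h)
  have a2 : w - ((1 : ℤ) : κ) ≠ 0 := fun h => hA 1 (by decide) (by linear_combination -h)
  have a3 : w - ((0 : ℤ) : κ) ≠ 0 := fun h => hA 0 (by decide) (by linear_combination -h)
  have a4 : w - ((-1 : ℤ) : κ) ≠ 0 := fun h => hA (-1) (by decide) (by linear_combination -h)
  have a5 : w - ((-3 : ℤ) : κ) ≠ 0 := fun h => hA (-3) (by decide) (by linear_combination -h)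
  have hf : (w - ((3 : ℤ) : κ)) * (w - ((1 : ℤ) : κ)) * (w - ((0 : ℤ) : κ)) *
      (w - ((-1 : ℤ) : κ)) * (w - ((-3 : ℤ) : κ)) = 48 * w := by
    push_cast
    linear_combination (w ^ 3 - 13 * w) * hw
  have h48 : (48 : κ) * w ≠ 0 := mul_ne_zero (by norm_num) hw0
  rw [← hf]
  have h6 : (w - ((3 : ℤ) : κ)) * (w - ((1 : ℤ) : κ)) * (w - ((0 : ℤ) : κ)) *
      (w - ((-1 : ℤ) : κ)) * (w - ((-3 : ℤ) : κ)) * (2 + w) ^ 6 ≠ 0 :=
    mul_ne_zero (by rw [hf]; exact h48) (pow_ne_zero _ hc0)
  rw [eq_div_iff h6]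
  push_cast at *
  field_simp
  ring

end

end Pool.Agent.Zk12
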