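import Mathlib
import Pool.Agent.Zk12.Good2
import Pool.Agent.Y158.GR.Glb
import Pool.Agent.Y158.GR.KumD

/-!
# Rigidity of sections at a Weierstrass point
-/

set_option autoImplicit false
set_option linter.all false

open Polynomial FF Pool.Agent.Y157.PS IsDedekindDomain NumberField

namespace Pool.Agent.Zk12

open Pool.Agent.Y158.GR

section

variable {κ R M : Type} [Field κ] [Algebra ℚ κ] [IsAlgClosure ℚ κ] [Field R] [Field M]
  [Algebra κ R] [Algebra R M] [Algebra κ M] [IsScalarTower κ R M] {x : R} {Y : M}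

theorem root2_of_cov {B : Finset κ} (hC : Cov 2 κ R M x B Y) : Root2 (algebraMap κ M) := by
  intro g hg h
  refine hC.root g hg fun W => ?_
  obtain ⟨π, hπ, hU⟩ := h W.O (fun c => W.reg_const c)
  have h1 := ord_of_isU W hU
  rw [W.ord_div hg (pow_ne_zero 2 hπ), W.ord_pow] at h1
  exact ⟨W.ord π, by push_cast at h1 ⊢; linarith⟩

/-- a quadratic character which is unramified outside `6` and trivial at `2` is trivial -/
theorem char_triv {C : Type} [Field C] [Algebra ℚ_[2] C] [Algebra ℚ C] [IsScalarTower ℚ ℚ_[2] C]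
    [IsAlgClosure ℚ_[2] C] (ι : κ →ₐ[ℚ] C) (χ : (κ ≃ₐ[ℚ] κ) → κ) (hχ1 : ∀ σ, χ σ ^ 2 = 1)
    (hχ2 : ∀ σ τ, χ (σ * τ) = χ σ * χ τ)
    (hχ3 : ∃ E : IntermediateField ℚ κ, FiniteDimensional ℚ E ∧ ∀ σ ∈ E.fixingSubgroup, χ σ = 1)
    (hI : ∀ v : HeightOneSpectrum (𝓞 ℚ), v.valuation ℚ 6 = 1 →
      ∃ V : ValuationSubring κ, Above v V ∧ ∀ σ, Ine V σ → χ σ = 1)
    (hD : ∀ σ, DecL ℚ_[2] ι σ → χ σ = 1) : ∀ σ, χ σ = 1 := by
  haveI : Algebra.IsAlgebraic ℚ κ := IsAlgClosure.isAlgebraic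
  haveI : IsAlgClosed κ := IsAlgClosure.isAlgClosed ℚ
  haveI : Normal ℚ κ := IsAlgClosure.normal ℚ κ
  haveI : IsGalois ℚ κ := IsGalois.mk
  haveI : CharZero κ := charZero_of_injective_algebraMap (algebraMap ℚ κ).injective
  have hμ : ∀ σ : κ ≃ₐ[ℚ] κ, ∀ c : κ, c ^ 2 = 1 → σ c = c := by
    intro σ c hc
    have h1 : (c - 1) * (c + 1) = 0 := by linear_combination hc
    rcases mul_eq_zero.1 h1 with h | h
    · rw [sub_eq_zero.1 h, map_one]
    · rw [eq_neg_of_add_eq_zero_left h, map_neg, map_one]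
  obtain ⟨E, hE, hEχ⟩ := hχ3
  obtain ⟨c, hc, hcχ⟩ := Pool.Agent.Y655.PS.resolvent (⊤ : Subgroup (κ ≃ₐ[ℚ] κ)) χ
    (fun σ _ h => by
      have := hχ1 σ
      rw [h, zero_pow two_ne_zero] at this
      exact zero_ne_one this)
    (fun σ _ σ' _ => hχ2 σ σ') (fun σ _ σ' _ => hμ σ _ (hχ1 σ')) E (fun σ h _ => hEχ σ h)
  have hcχ' : ∀ σ, σ c = χ σ * c := fun σ => hcχ σ trivial
  obtain ⟨a, ha⟩ : ∃ a : ℚ, algebraMap ℚ κ a = c ^ 2 := by
    have h1 : c ^ 2 ∈ (⊥ : IntermediateField ℚ κ) := by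
      rw [InfiniteGalois.mem_bot_iff_fixed]
      intro σ
      rw [map_pow, hcχ', mul_pow, hχ1, one_mul]
    exact IntermediateField.mem_bot.1 h1
  have ha0 : a ≠ 0 := by
    rintro rfl
    rw [map_zero] at ha
    exact pow_ne_zero 2 hc ha.symm
  obtain ⟨n, hn, t, ht, hant⟩ := rat_sqf ha0
  have hHH : n ∈ HH := by
    refine mem_HH hn fun v hv => ?_
    obtain ⟨V, hV, hVχ⟩ := hI v hv
    have h2v : ((2 : ℕ) : 𝓞 ℚ) ∉ v.asIdeal := by
      rw [← v.intValuation_eq_one_iff]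
      have h3 : v.valuation ℚ (algebraMap (𝓞 ℚ) ℚ ((2 : ℕ) : 𝓞 ℚ)) = 1 := by
        rw [_root_.map_natCast]
        exact_mod_cast (v_23 hv).1
      rwa [v.valuation_of_algebraMap] at h3
    obtain ⟨q, hq⟩ := hV.pow h2v hc (fun σ hσ => by rw [hcχ', hVχ σ hσ, one_mul]) ha
    refine ⟨q / t, ?_⟩
    have ht0 : v.valuation ℚ t ^ 2 ≠ 0 := pow_ne_zero _ ((Valuation.ne_zero_iff _).2 ht)
    rw [map_div₀, div_pow, eq_div_iff ht0, ← map_pow, ← map_mul, ← hant, hq]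
  obtain ⟨w, hw⟩ := locfix (L := ℚ_[2]) ι (c := c) (fun σ hσ => by
    rw [hcχ', hD σ hσ, one_mul])
  have hwn : (algebraMap ℚ ℚ_[2] a) = w ^ 2 := by
    apply (algebraMap ℚ_[2] C).injective
    rw [map_pow, hw, ← map_pow, ← ha, ι.commutes, ← IsScalarTower.algebraMap_apply]
  have htQ : algebraMap ℚ ℚ_[2] t ≠ 0 := (_root_.map_ne_zero _).2 ht
  have hn1 : n = 1 := by
    refine prod_class (a := 1) (by decide) hHH (c := w / algebraMap ℚ ℚ_[2] t) ?_
    rw [div_pow, ← hwn, hant, map_mul, map_pow, map_intCast]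
    field_simp
    push_cast
    ring
  rw [hn1, Int.cast_one, one_mul] at hant
  have hcq : c = algebraMap ℚ κ t ∨ c = -algebraMap ℚ κ t := by
    apply sq_eq_sq_iff_eq_or_eq_neg.1
    rw [← ha, hant, map_pow]
  intro σ
  have h1 : σ c = c := by
    rcases hcq with h | h
    · rw [h, σ.commutes]
    · rw [h, map_neg, σ.commutes]
  rw [hcχ'] at h1
  exact mul_right_cancel₀ hc (by rw [h1, one_mul])

/-- elements which fix the place `W` commute with the inertia generator -/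
theorem comm_of_fixes2 {B : Finset κ} (hC : Cov 2 κ R M x B Y)
    {s : (κ ≃ₐ[ℚ] κ) →* RingAut M} (hs : Act ℚ κ R M x s) (W : Place κ M)
    {e : κ} (he : e ∈ B) (hW : 0 < W.ord (algebraMap R M x - algebraMap κ M e))
    {c : M ≃ₐ[R] M} (hcW : Fixes W c) {σ : κ ≃ₐ[ℚ] κ} {ξ₀ : κ} (hξ₀ : ξ₀ ≠ 0)
    (hY : s σ Y = algebraMap κ M ξ₀ * Y) (hσ : Fixes W (s σ)) : s σ = cjA c s σ := by
  haveI : IsAlgClosed κ := IsAlgClosure.isAlgClosed ℚ
  haveI : CharZero κ := charZero_of_injective_algebraMap (algebraMap ℚ κ).injective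
  have hμ : ∀ σ : κ ≃ₐ[ℚ] κ, ∀ c : κ, c ^ 2 = 1 → σ c = c := by
    intro σ c hc
    have h1 : (c - 1) * (c + 1) = 0 := by linear_combination hc
    rcases mul_eq_zero.1 h1 with h | h
    · rw [sub_eq_zero.1 h, map_one]
    · rw [eq_neg_of_add_eq_zero_left h, map_neg, map_one]
  have hYW := hC.ordY W he hW
  have hY0 : Y ≠ 0 := by
    rintro rfl
    rw [W.ord_zero] at hYW
    exact zero_ne_one hYW
  have hsi : ∀ z : M, s σ⁻¹ (s σ z) = z := fun z => Pool.Agent.Y748.PS.s_inv_apply s σ z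
  have his : ∀ z : M, s σ (s σ⁻¹ z) = z := fun z => Pool.Agent.Y748.PS.s_apply_inv s σ z
  obtain ⟨η, hη⟩ := conjR hC.rat (s σ) (σ : κ ≃+* κ) (fun b => hs.const σ b) (hs.fixx σ) c
  have hη' : ∀ z, η z = s σ⁻¹ (c (s σ z)) := by
    intro z
    rw [hη, map_inv]
    rfl
  have hηW : Fixes W η := by
    intro z
    have h1 : W.ord (s σ (η z)) = W.ord (η z) := hσ _
    rw [hη', his, hcW, hσ] at h1
    rw [hη', ← h1]
  obtain ⟨ξ, hξ, hcY⟩ := hC.actY hY0 c
  have hηY : η Y = c Y := by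
    apply (s σ).injective
    rw [hη', his, hcY, map_mul (s σ), hs.const, hμ _ ξ hξ, hY, map_mul c, hcY,
      Pool.Agent.Y748.PS.gal_const]
    ring
  have h1 : (c⁻¹ * η : M ≃ₐ[R] M) = 1 := by
    refine hC.stabR a_stab W _ (hcW.inv.mul hηW) Y hYW ?_
    change c⁻¹ (η Y) = Y
    rw [hηY, inv_c]
  have h2 : η = c := by
    have h3 := congrArg (fun g => c * g) h1
    simp only [mul_inv_cancel_left, mul_one] at h3
    exact h3
  ext z
  rw [cjA_apply]
  have h3 : s σ (η (c⁻¹ z)) = c (s σ (c⁻¹ z)) := by rw [hη', his]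
  rw [← h3, h2, c_inv]

/-- a section whose decomposition group at `2` fixes a place above a branch point fixes it -/
theorem rigid8 (hC : Cov 2 κ R M x (BK κ) Y) {a : ℚ} {δ : κ}
    (hδ : δ ^ 2 = algebraMap ℚ κ (30 ^ 5 * a)) {S : (κ ≃ₐ[ℚ] κ) →* RingAut M}
    (hs : Sec ℚ κ R M x Y δ S)
    (ha : ∀ v : HeightOneSpectrum (𝓞 ℚ), v.valuation ℚ 6 = 1 → v.valuation ℚ a = 1)
    {C : Type} [Field C] [Algebra ℚ_[2] C] [Algebra ℚ C] [IsScalarTower ℚ ℚ_[2] C]
    [IsAlgClosure ℚ_[2] C] (ι : κ →ₐ[ℚ] C) (W : Place κ M) {e : κ} (he : e ∈ BK κ)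
    (hW : 0 < W.ord (algebraMap R M x - algebraMap κ M e))
    (hD : ∀ σ, DecL ℚ_[2] ι σ → Fixes W (S σ)) : ∀ σ, Fixes W (S σ) := by
  haveI : Algebra.IsAlgebraic ℚ κ := IsAlgClosure.isAlgebraic
  haveI : IsAlgClosed κ := IsAlgClosure.isAlgClosed ℚ
  haveI : CharZero κ := charZero_of_injective_algebraMap (algebraMap ℚ κ).injective
  haveI : Fact (Nat.Prime 5) := ⟨by norm_num⟩
  obtain ⟨v₅, hv₅⟩ := exists_v 5
  have h65 : v₅.valuation ℚ 6 = 1 := by
    rw [← map_one (v₅.valuation ℚ)]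
    apply hv₅.val_eq.2
    rw [map_one]
    have : Int.padicValuation 5 6 = 1 := by
      rw [Int.padicValuation_eq_one_iff]
      norm_num
    rw [← Rat.padicValuation_cast] at this
    exact_mod_cast this
  have ha0 : a ≠ 0 := by
    rintro rfl
    have := ha v₅ h65
    rw [map_zero] at this
    exact zero_ne_one this
  have hδ0 : δ ≠ 0 := by
    rintro rfl
    rw [zero_pow two_ne_zero] at hδ
    have h5 := hδ.symm
    rw [_root_.map_eq_zero] at h5
    exact mul_ne_zero (by norm_num) ha0 h5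
  obtain ⟨-, -, -, -, hrot⟩ := good_all hC hδ hs h65 (ha v₅ h65)
  obtain ⟨c, hcW, hcY⟩ := hrot W e he hW
  have hA := Act.of_sec hs
  have hμ : ∀ σ : κ ≃ₐ[ℚ] κ, ∀ c : κ, c ^ 2 = 1 → σ c = c := by
    intro σ c hc
    have h1 : (c - 1) * (c + 1) = 0 := by linear_combination hc
    rcases mul_eq_zero.1 h1 with h | h
    · rw [sub_eq_zero.1 h, map_one]
    · rw [eq_neg_of_add_eq_zero_left h, map_neg, map_one]
  have heq : S = cjA c S := by
    refine rigid inferInstance hC (fun σ e he => ?_) hμ hA (cjA_act c hA) fun χ h1 h2 h3 h4 => ?_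
    · obtain ⟨q, -, rfl⟩ := mem_BK.1 he
      exact σ.commutes q
    · refine char_triv ι χ h1 h2 h3 (fun v hv => ?_) fun σ hσ => h4 σ ?_
      · obtain ⟨V, hV, -, hcm, -⟩ := good_all hC hδ hs hv (ha v hv)
        exact ⟨V, hV, fun σ hσ => h4 σ (hcm c σ hσ)⟩
      · exact comm_of_fixes2 hC hA W he hW hcW (ξ₀ := σ δ / δ)
          (div_ne_zero ((_root_.map_ne_zero _).2 hδ0) hδ0) (hs.fixy σ) (hD σ hσ)
  intro σ
  exact fixes_of_comm hC hA W he hW hcW hcY (DFunLike.congr_fun heq σ)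

end

end Pool.Agent.Zk12
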