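import Mathlib
import Pool.Agent.Zk12.CE
import Pool.Agent.Zk12.TConc

/-!
# The coordinate `t` at the place: the theorem over the fixed field
-/

set_option autoImplicit false
set_option linter.all false

namespace Pool.Agent.Zk12

open Pool.Agent.Y157.PS (IsU Ine) 
open Pool.Agent.Y158.GR (Above)
open IsDedekindDomain NumberField Pool.Agent.TH954

/-- the roots -/
def ST : Finset ℚ := {-3, -1, 0, 1, 3}

theorem ST_card : ST.card = 2 * 2 + 1 := by decide +kernel

theorem ST_prod {F : Type} [Field F] [CharZero F] (t : F) :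
    ∏ e ∈ ST, (t - (e : F)) = t * (t ^ 2 - 1) * (t ^ 2 - 9) := by
  unfold ST
  rw [Finset.prod_insert (by norm_num), Finset.prod_insert (by norm_num),
    Finset.prod_insert (by norm_num), Finset.prod_insert (by norm_num), Finset.prod_singleton]
  push_cast
  ring

theorem ev_mem (i : Fin 5) : ((ev i : ℤ) : ℚ) ∈ ST := by
  fin_cases i <;> simp [ev, ST]

section

variable {κ M L : Type} [Field κ] [Field M] [Field L] [CharZero M] [CharZero L] [Algebra ℚ κ]
  [IsAlgClosure ℚ κ] {ι : κ →+* M} {s : (κ ≃ₐ[ℚ] κ) →* RingAut M} {φ : L →+* M} [Algebra ℚ L]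

theorem v_dif {v : HeightOneSpectrum (𝓞 ℚ)} (hv : v.valuation ℚ 6 = 1) :
    ∀ e ∈ ST, ∀ e' ∈ ST, e ≠ e' → v.valuation ℚ (e - e') = 1 := by
  obtain ⟨h2, h3⟩ := v_23 hv
  have h4 : v.valuation ℚ 4 = 1 := by
    rw [show (4 : ℚ) = 2 * 2 by norm_num, map_mul, h2]; norm_num
  have hneg : ∀ q : ℚ, v.valuation ℚ q = 1 → v.valuation ℚ (-q) = 1 := fun q hq => by
    rw [Valuation.map_neg, hq]
  have n2 := hneg _ h2
  have n3 := hneg _ h3
  have n4 := hneg _ h4
  have n6 := hneg _ hv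
  have h1 : v.valuation ℚ 1 = 1 := map_one _
  have n1 := hneg _ h1
  intro e he e' he' hee
  simp only [ST, Finset.mem_insert, Finset.mem_singleton] at he he'
  rcases he with rfl | rfl | rfl | rfl | rfl <;> rcases he' with rfl | rfl | rfl | rfl | rfl <;>
    first | exact absurd rfl hee | (norm_num <;> assumption)

/-- the classes at a place -/
theorem pat_pl (pl : Plc ℚ L ℚ_[2]) {t : L} {α : Fin 5 → ℤ} (hα : ∀ i, α i ∈ HH) (hm : Mono α)
    {b : Fin 5 → L} (hb : ∀ i, b i ≠ 0) (h : ∀ i, t - ev i = α i * b i ^ 2) : Pat α := by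
  by_cases ht : t ∈ pl.W
  · obtain ⟨T, hT⟩ := Plc.val_of_mem ht
    have key : ∀ i, ∃ b' : ℚ_[2], T - ev i = α i * b' ^ 2 := by
      intro i
      have h5 : b i ^ 2 = (t - ev i) * ((α i : ℤ) : L)⁻¹ := by
        rw [h i]
        field_simp [HH_ne (L := L) (hα i)]
      have h6 := (hT.sub (val_int (ev i))).mul ((val_int (α i)).inv (hh_ne (hα i)))
      rw [← h5] at h6
      obtain ⟨b', hb'⟩ := Plc.val_of_mem (Plc.mem_of_pow_mem (pl := pl) (n := 2) (by norm_num) h6.mem)
      refine ⟨b', ?_⟩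
      have h7 := (hb'.pow 2).unique h6
      rw [h7]
      field_simp [hh_ne (hα i)]
    choose b' hb' using key
    exact locT hα hm hb'
  · left
    intro i
    have hx0 : t ≠ 0 := by
      rintro rfl
      exact ht (zero_mem _)
    have hi := Plc.val_inv_of_notMem ht
    have key : ∀ (e n e' n' : ℤ) (b b' : L), n ∈ HH → n' ∈ HH → b ≠ 0 → b' ≠ 0 →
        t - e = n * b ^ 2 → t - e' = n' * b' ^ 2 → n = n' := by
      intro e n e' n' b b' hn hn' hb hb' h5 h6
      have hne : t - e' ≠ 0 := by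
        rw [h6]
        exact mul_ne_zero (HH_ne hn') (pow_ne_zero _ hb')
      have h7 : (b / b') ^ 2 = (1 - e * t⁻¹) * (1 - e' * t⁻¹)⁻¹ * ((n' : ℤ) : L) * ((n : ℤ) : L)⁻¹ := by
        have h8 : 1 - e' * t⁻¹ = (t - e') / t := by field_simp
        have h9 : 1 - e * t⁻¹ = (t - e) / t := by field_simp
        rw [h8, h9, h5, h6, inv_div]
        field_simp [HH_ne (L := L) hn, HH_ne (L := L) hn']
      have u1 : pl.val (1 - (e : L) * t⁻¹) 1 := by
        have := Plc.val_one.sub ((val_int (pl := pl) e).mul hi)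
        rwa [mul_zero, sub_zero] at this
      have u2 : pl.val (1 - (e' : L) * t⁻¹) 1 := by
        have := Plc.val_one.sub ((val_int (pl := pl) e').mul hi)
        rwa [mul_zero, sub_zero] at this
      have h10 := ((u1.mul (u2.inv one_ne_zero)).mul (val_int n')).mul
        ((val_int n).inv (hh_ne hn))
      rw [← h7] at h10
      obtain ⟨d, hd⟩ := Plc.val_of_mem (Plc.mem_of_pow_mem (pl := pl) (n := 2) (by norm_num) h10.mem)
      have h11 := (hd.pow 2).unique h10
      rw [inv_one, one_mul, one_mul] at h11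
      refine prod_class hn' hn (c := n * d) ?_
      rw [mul_pow, h11]
      field_simp [hh_ne hn]
    exact key _ _ _ _ _ _ (hα i) (hα 2) (hb i) (hb 2) (h i) (h 2)

theorem t_classes (hR : Root2 ι) (hs : SD ι s) (hφ : Fxd s φ)
    (hT : ∀ v : HeightOneSpectrum (𝓞 ℚ), v.valuation ℚ 6 = 1 → Tame v ι s)
    (pl : Plc ℚ L ℚ_[2]) {a : ℚ} (ha0 : a ≠ 0)
    (ha : ∀ v : HeightOneSpectrum (𝓞 ℚ), v.valuation ℚ 6 = 1 → v.valuation ℚ a = 1)
    {t y : L} (h : (a : L) * y ^ 2 = t * (t ^ 2 - 1) * (t ^ 2 - 9)) (ht : t ∉ kk ι φ) :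
    t ∉ pl.W ∨ ∃ i, pl.val t (ev i : ℚ_[2]) := by
  have hφq : ∀ q : ℚ, φ (q : L) = (q : M) := fun q => map_ratCast φ q
  have hq : ∀ q : ℚ, (q : L) ∈ kk ι φ := fun q => mem_kk.2 ⟨algebraMap ℚ κ q, by
    rw [iota_rat, hφq]⟩
  have hxe : ∀ e : ℚ, t - (e : L) ≠ 0 := by
    intro e h
    apply ht
    rw [sub_eq_zero.1 h]
    exact hq e
  have h' : (a : L) * y ^ 2 = ∏ e ∈ ST, (t - (e : L)) := by rw [ST_prod, h]
  have hy : y ≠ 0 := by
    rintro rfl
    have h2 : ∏ e ∈ ST, (t - (e : L)) = 0 := by rw [← h']; ring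
    rw [Finset.prod_eq_zero_iff] at h2
    obtain ⟨e, -, he⟩ := h2
    exact hxe e he
  have hyM : φ y ≠ 0 := (map_ne_zero φ).2 hy
  have hM : (a : M) * (φ y) ^ 2 = ∏ e ∈ ST, (φ t - (e : M)) := by
    have := congrArg φ h'
    rw [map_mul, map_pow, hφq, map_prod] at this
    rw [this]
    refine Finset.prod_congr rfl fun e _ => ?_
    rw [map_sub, hφq]
  have key : ∀ i : Fin 5, ∃ (n : ℤ) (b : L), n ∈ HH ∧ b ≠ 0 ∧ t - (ev i : L) = n * b ^ 2 := by
    intro i
    have he := ev_mem i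
    have hcast : (((ev i : ℤ) : ℚ) : L) = (ev i : L) := by push_cast; rfl
    obtain ⟨u, hu⟩ := rootP hR ST_card ha0 hyM hM he
    have hu' : u ^ 2 = φ (t - (((ev i : ℤ) : ℚ) : L)) := by rw [hu, map_sub, hφq]
    obtain ⟨n, b, c, hn, hb, hnb, hc, huc⟩ := kummer hs hφ hu' (hxe _)
    have hc0 : c ≠ 0 := by
      rintro rfl
      rw [zero_pow two_ne_zero] at hc
      haveI : CharZero κ := charZero_of_injective_algebraMap (algebraMap ℚ κ).injective
      exact hn.ne_zero (by exact_mod_cast hc.symm)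
    refine ⟨n, b, mem_HH hn fun v hv => ?_, hb, by rw [← hcast, hnb]⟩
    refine unrP (hT v hv) (v_23 hv).1 hs hφ ST_card (ha v hv) ?_ (v_dif hv) hy h' he (u := u)
      hu' hc huc hc0 hb
    intro e he
    simp only [ST, Finset.mem_insert, Finset.mem_singleton] at he
    rcases he with rfl | rfl | rfl | rfl | rfl
    · exact_mod_cast v_int v (-3)
    · exact_mod_cast v_int v (-1)
    · exact_mod_cast v_int v 0
    · exact_mod_cast v_int v 1
    · exact_mod_cast v_int v 3
  choose α b hα hb hαb using key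
  have hmono : Mono α := by
    intro i j hij
    obtain ⟨l, hli, hlj⟩ : ∃ l : Fin 5, l ≠ i ∧ l ≠ j := by
      revert i j
      decide
    have hz : ∀ n ∈ HH, n ≠ 0 := by decide
    have hlt : ∀ i j : Fin 5, i < j → ev i < ev j := by decide
    have hinj : ∀ i j : Fin 5, i ≠ j → ev i ≠ ev j := by decide
    have hcast : ∀ i, (((ev i : ℤ) : ℚ) : L) = (ev i : L) := fun i => by push_cast; rfl
    refine sgn_mono hR hs hφ (x := t) (e := (ev i : ℚ)) (e' := (ev j : ℚ)) (e'' := (ev l : ℚ))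
      (by exact_mod_cast hlt i j hij) (by exact_mod_cast hinj l i hli)
      (by exact_mod_cast hinj l j hlj) (b := b i) (b' := b j) (b'' := b l) ?_ ?_ ?_ (hz _ (hα l))
    · rw [hcast, hαb]
    · rw [hcast, hαb]
    · rw [hcast, hαb]
  exact t_conc (fun y hy => kk_sq hy) (clsE_of hR hs hφ (unrE_of hs hφ hT)) pl ht
    (pat_pl pl hα hmono hb hαb) hαb

end

end Pool.Agent.Zk12
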