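import Mathlib
import Pool.Agent.Zk12.Rigid
import Pool.Agent.Zk12.TCls
import Pool.Agent.Y158.GR.Fer

/-!
# Sections of the geometrically pro-`2` fundamental group of `a y² = t (t² - 1) (t² - 9)`
-/

set_option autoImplicit false
set_option linter.all false

open Polynomial FF Pool.Agent.Y157.PS IsDedekindDomain NumberField Pool.Agent.TH954

namespace Pool.Agent.Zk12

open Pool.Agent.Y158.GR

attribute [-instance] DivisionRing.toRatAlgebra

noncomputable local instance ratQ2 : Algebra ℚ ℚ_[2] := DivisionRing.toRatAlgebra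

section

variable {F Ω : Type} [Field F] [Field Ω] [Algebra ℚ F] [Algebra F Ω] [Algebra ℚ Ω]
  [IsScalarTower ℚ F Ω] [IsAlgClosed Ω] [Algebra.IsAlgebraic F Ω]

/-- the covering field -/
theorem setup8 {a : ℚ} (ha0 : a ≠ 0) (t y : F) (ht : Transcendental ℚ t)
    (hF : IntermediateField.adjoin ℚ {t, y} = (⊤ : IntermediateField ℚ F))
    (hty : algebraMap ℚ F a * y ^ 2 = t * (t ^ 2 - 1) * (t ^ 2 - 9)) :
    ∃ (δ : algebraicClosure ℚ Ω) (R M : Type) (_ : Field R) (_ : Field M)
      (_ : Algebra (algebraicClosure ℚ Ω) R)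
      (_ : Algebra R M) (_ : Algebra (algebraicClosure ℚ Ω) M)
      (_ : IsScalarTower (algebraicClosure ℚ Ω) R M) (x' : R) (Y : M)
      (eqv : M ≃+* geomPro 2 ℚ F Ω), δ ≠ 0 ∧ δ ^ 2 = algebraMap ℚ _ (30 ^ 5 * a) ∧
      Cov 2 (algebraicClosure ℚ Ω) R M x' (BK (algebraicClosure ℚ Ω)) Y ∧
      (∀ c : algebraicClosure ℚ Ω, ((eqv (algebraMap (algebraicClosure ℚ Ω) M c) :
        geomPro 2 ℚ F Ω) : Ω) = (c : Ω)) ∧
      ((eqv (algebraMap R M x') : geomPro 2 ℚ F Ω) : Ω) = algebraMap F Ω (30 / (t + 2)) ∧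
      ((eqv Y : geomPro 2 ℚ F Ω) : Ω) = (δ : Ω) * algebraMap F Ω (y / (t + 2) ^ 3) := by
  have hac : IsAlgClosure ℚ (algebraicClosure ℚ Ω) := inferInstance
  have hkb : IsAlgClosed (algebraicClosure ℚ Ω) := hac.1
  haveI : CharZero F := charZero_of_injective_algebraMap (algebraMap ℚ F).injective
  haveI : CharZero Ω := charZero_of_injective_algebraMap (algebraMap ℚ Ω).injective
  have ht2 : t + 2 ≠ 0 := by
    intro h
    apply ht
    rw [eq_neg_of_add_eq_zero_left h]
    have : (-2 : F) = algebraMap ℚ F (-2) := by rw [map_neg, map_ofNat]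
    rw [this]
    exact isAlgebraic_algebraMap _
  obtain ⟨δ, hδ⟩ := IsAlgClosed.exists_pow_nat_eq
    (algebraMap ℚ (algebraicClosure ℚ Ω) (30 ^ 5 * a)) (n := 2) (by norm_num)
  have hδ0 : δ ≠ 0 := by
    rintro rfl
    rw [zero_pow two_ne_zero] at hδ
    have h5 := hδ.symm
    rw [_root_.map_eq_zero] at h5
    exact mul_ne_zero (by norm_num) ha0 h5
  have hxt : Transcendental ℚ (30 / (t + 2)) := by
    intro h
    apply ht
    have h1 : t = 30 / (30 / (t + 2)) - 2 := by
      field_simp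
      ring
    rw [h1]
    have h30 : IsAlgebraic ℚ (30 : F) := by
      have : (30 : F) = algebraMap ℚ F 30 := by rw [map_ofNat]
      rw [this]
      exact isAlgebraic_algebraMap _
    have h2 : IsAlgebraic ℚ (2 : F) := by
      have : (2 : F) = algebraMap ℚ F 2 := by rw [map_ofNat]
      rw [this]
      exact isAlgebraic_algebraMap _
    rw [div_eq_mul_inv 30 (30 / (t + 2))]
    exact (h30.mul h.inv).sub h2
  have hF' : IntermediateField.adjoin ℚ {30 / (t + 2), y / (t + 2) ^ 3} =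
      (⊤ : IntermediateField ℚ F) := by
    rw [eq_top_iff, ← hF, IntermediateField.adjoin_le_iff]
    have h30 : (30 : F) ∈ IntermediateField.adjoin ℚ {30 / (t + 2), y / (t + 2) ^ 3} := by
      have h := natCast_mem (IntermediateField.adjoin ℚ {30 / (t + 2), y / (t + 2) ^ 3}) 30
      rwa [Nat.cast_ofNat] at h
    have h2 : (2 : F) ∈ IntermediateField.adjoin ℚ {30 / (t + 2), y / (t + 2) ^ 3} := by
      have h := natCast_mem (IntermediateField.adjoin ℚ {30 / (t + 2), y / (t + 2) ^ 3}) 2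
      rwa [Nat.cast_ofNat] at h
    have hx : 30 / (t + 2) ∈ IntermediateField.adjoin ℚ {30 / (t + 2), y / (t + 2) ^ 3} :=
      IntermediateField.subset_adjoin ℚ _ (by simp)
    have hy : y / (t + 2) ^ 3 ∈ IntermediateField.adjoin ℚ {30 / (t + 2), y / (t + 2) ^ 3} :=
      IntermediateField.subset_adjoin ℚ _ (by simp)
    have htm : t ∈ IntermediateField.adjoin ℚ {30 / (t + 2), y / (t + 2) ^ 3} := by
      have h1 : 30 / (30 / (t + 2)) - 2 ∈
          IntermediateField.adjoin ℚ {30 / (t + 2), y / (t + 2) ^ 3} :=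
        sub_mem (div_mem h30 hx) h2
      have h3 : 30 / (30 / (t + 2)) - 2 = t := by
        field_simp
        ring
      rwa [h3] at h1
    intro z hz
    simp only [Set.mem_insert_iff, Set.mem_singleton_iff] at hz
    rcases hz with rfl | rfl
    · exact htm
    · have h1 : z / (t + 2) ^ 3 * (t + 2) ^ 3 ∈
          IntermediateField.adjoin ℚ {30 / (t + 2), z / (t + 2) ^ 3} :=
        mul_mem hy (pow_mem (add_mem htm h2) 3)
      rwa [div_mul_cancel₀ _ (pow_ne_zero _ ht2)] at h1
  haveI : Fact (Nat.Prime 2) := ⟨Nat.prime_two⟩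
  obtain ⟨R, M, i1, i2, i3, i4, i5, i6, x', Y, eqv, h1, h2, h3, h4⟩ :=
    glue (ℓ := 2) (Ω := Ω) (BK (algebraicClosure ℚ Ω)) (by rw [BK_card]; norm_num)
      (by rw [BK_card]; norm_num) δ hδ0 (30 / (t + 2)) (y / (t + 2) ^ 3) hxt hF' (by
        rw [BK_prod]
        have e0 : ((0 : algebraicClosure ℚ Ω) : Ω) = 0 := rfl
        have e6 : ((6 : algebraicClosure ℚ Ω) : Ω) = 6 := rfl
        have e10 : ((10 : algebraicClosure ℚ Ω) : Ω) = 10 := rfl
        have e15 : ((15 : algebraicClosure ℚ Ω) : Ω) = 15 := rfl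
        have e30 : ((30 : algebraicClosure ℚ Ω) : Ω) = 30 := rfl
        have e31 : ((-30 : algebraicClosure ℚ Ω) : Ω) = -30 := rfl
        rw [e0, e6, e10, e15, e30, e31]
        have hδΩ : (δ : Ω) ^ 2 = algebraMap ℚ Ω (30 ^ 5 * a) := by
          have := congrArg (algebraMap (algebraicClosure ℚ Ω) Ω) hδ
          rw [map_pow, ← IsScalarTower.algebraMap_apply] at this
          exact this
        have h30 : (30 : Ω) = algebraMap F Ω 30 := by rw [map_ofNat]
        have h15 : (15 : Ω) = algebraMap F Ω 15 := by rw [map_ofNat]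
        have h10 : (10 : Ω) = algebraMap F Ω 10 := by rw [map_ofNat]
        have h6 : (6 : Ω) = algebraMap F Ω 6 := by rw [map_ofNat]
        rw [h30, h15, h10, h6, mul_pow, hδΩ, IsScalarTower.algebraMap_apply ℚ F Ω, ← map_neg,
          sub_zero, ← map_pow, ← map_mul, ← map_sub, ← map_sub, ← map_sub, ← map_sub, ← map_sub,
          ← map_mul, ← map_mul, ← map_mul, ← map_mul, ← map_mul]
        congr 1
        rw [map_mul, map_pow, map_ofNat]
        field_simp
        linear_combination (900 : F) * hty)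
  exact ⟨δ, R, M, i1, i2, i3, i4, i5, i6, x', Y, eqv, hδ0, hδ, h1, h2, h3, h4⟩

end

end Pool.Agent.Zk12
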