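import Mathlib
import Pool.Agent.Zk12.Base
import Pool.Agent.Y158.GR.PlcL

/-!
# Sections of the geometrically pro-`2` fundamental group of `a y² = t (t² - 1) (t² - 9)`
-/

set_option autoImplicit false
set_option linter.all false

open Polynomial FF Pool.Agent.Y157.PS IsDedekindDomain NumberField Pool.Agent.TH954

namespace Pool.Agent.Zk12

open Pool.Agent.Y158.GR

attribute [-instance] DivisionRing.toRatAlgebra

noncomputable local instance ratQ2' : Algebra ℚ ℚ_[2] := DivisionRing.toRatAlgebra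

section

variable {F Ω : Type} [Field F] [Field Ω] [Algebra ℚ F] [Algebra F Ω] [Algebra ℚ Ω]
  [IsScalarTower ℚ F Ω] [IsAlgClosed Ω] [Algebra.IsAlgebraic F Ω]

theorem base8 {a : ℚ} (ha0 : a ≠ 0)
    (ha : ∀ v : HeightOneSpectrum (𝓞 ℚ), v.valuation ℚ 6 = 1 → v.valuation ℚ a = 1) (t y : F)
    (ht : Transcendental ℚ t)
    (hF : IntermediateField.adjoin ℚ {t, y} = (⊤ : IntermediateField ℚ F))
    (hty : algebraMap ℚ F a * y ^ 2 = t * (t ^ 2 - 1) * (t ^ 2 - 9))
    {C : Type} [Field C] [Algebra ℚ_[2] C] [Algebra ℚ C] [IsScalarTower ℚ ℚ_[2] C]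
    [IsAlgClosure ℚ_[2] C]
    (s : GalSection ℚ F (geomPro 2 ℚ F Ω) (algebraicClosure ℚ Ω))
    (hj : ∀ z, ((s.j z : geomPro 2 ℚ F Ω) : Ω) = (z : Ω)) (p : Plc ℚ (geomPro 2 ℚ F Ω) C)
    (hpv : s.GivenBy ℚ_[2] p) :
    (p.val (algebraMap F (geomPro 2 ℚ F Ω) t)⁻¹ 0 ∨
      ∃ i, p.val (algebraMap F (geomPro 2 ℚ F Ω) t) ((ev i : ℤ) : C)) ∧
    ∀ σ z, s.s σ z ∈ p.W ↔ z ∈ p.W := by
  classical
  have hac : IsAlgClosure ℚ (algebraicClosure ℚ Ω) := inferInstance
  have hkb : IsAlgClosed (algebraicClosure ℚ Ω) := hac.1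
  have hch : CharZero (algebraicClosure ℚ Ω) :=
    charZero_of_injective_algebraMap (algebraMap ℚ (algebraicClosure ℚ Ω)).injective
  haveI : CharZero F := charZero_of_injective_algebraMap (algebraMap ℚ F).injective
  haveI : CharZero Ω := charZero_of_injective_algebraMap (algebraMap ℚ Ω).injective
  have hkalg : Algebra.IsAlgebraic ℚ (algebraicClosure ℚ Ω) := inferInstance
  haveI hnor : Normal ℚ (algebraicClosure ℚ Ω) := IsAlgClosure.normal ℚ _
  obtain ⟨δ, R, M, i1, i2, i3, i4, i5, i6, x', Y, eqv, hδ0, hδ, hC, hc, hx', hy'⟩ :=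
    setup8 (Ω := Ω) ha0 t y ht hF hty
  have hcompat := compat_of s hj
  have hSec := sec_of hδ0 hc hx' hy' s.s s.cont hcompat
  set sA := conjSec eqv s.s with hsA
  have hs' : ∀ σ z, eqv (sA σ z) = s.s σ (eqv z) := fun σ z => conjSec_apply eqv s.s σ z
  have hAct := Act.of_sec hSec
  have hcj : ∀ c : algebraicClosure ℚ Ω, eqv (algebraMap (algebraicClosure ℚ Ω) M c) = s.j c :=
    fun c => Subtype.ext ((hc c).trans (hj c).symm)
  have hx0 : eqv (algebraMap R M x') = algebraMap F (geomPro 2 ℚ F Ω) (30 / (t + 2)) :=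
    Subtype.ext hx'
  haveI hchM : CharZero M := charZero_of_injective_algebraMap
    (algebraMap (algebraicClosure ℚ Ω) M).injective
  haveI hchN : CharZero (geomPro 2 ℚ F Ω) := charZero_of_injective_algebraMap
    (algebraMap F (geomPro 2 ℚ F Ω)).injective
  haveI hchL : CharZero (fixL s) := charZero_of_injective_algebraMap
    (algebraMap ℚ (fixL s)).injective
  -- the abstract data
  let φ : fixL s →+* M := (eqv.symm : geomPro 2 ℚ F Ω →+* M).comp
    (algebraMap (fixL s) (geomPro 2 ℚ F Ω))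
  have hφ : ∀ z : fixL s, eqv (φ z) = (z : geomPro 2 ℚ F Ω) := fun z => eqv.apply_symm_apply _
  have hSD : SD (algebraMap (algebraicClosure ℚ Ω) M) sA := ⟨hSec.const, hSec.cont⟩
  have hFx : Fxd sA φ := by
    refine ⟨fun z σ => ?_, fun z hz => ?_⟩
    · apply eqv.injective
      rw [hs', hφ]
      exact z.2 σ
    · refine ⟨⟨eqv z, fun σ => ?_⟩, ?_⟩
      · rw [← hs', hz]
      · apply eqv.injective
        rw [hφ]
  have hR2 := root2_of_cov hC
  have hTame : ∀ v : HeightOneSpectrum (𝓞 ℚ), v.valuation ℚ 6 = 1 →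
      Tame v (algebraMap (algebraicClosure ℚ Ω) M) sA := by
    intro v hv
    obtain ⟨V, hV, ⟨O, h1, h2, h3⟩, -, -⟩ := good_all hC hδ hSec hv (ha v hv)
    exact ⟨V, hV, O, h1, h2, h3⟩
  -- the elements
  let tL : fixL s := ⟨algebraMap F (geomPro 2 ℚ F Ω) t, F_fixL s t⟩
  let yL : fixL s := ⟨algebraMap F (geomPro 2 ℚ F Ω) y, F_fixL s y⟩
  have hrel : ((a : ℚ) : fixL s) * yL ^ 2 = tL * (tL ^ 2 - 1) * (tL ^ 2 - 9) := by
    apply Subtype.ext
    have h1 := congrArg (algebraMap F (geomPro 2 ℚ F Ω)) hty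
    have h2 : algebraMap F (geomPro 2 ℚ F Ω) (algebraMap ℚ F a) = ((a : ℚ) : geomPro 2 ℚ F Ω) := by
      rw [← RingHom.comp_apply]
      exact map_ratCast ((algebraMap F (geomPro 2 ℚ F Ω)).comp (algebraMap ℚ F)) a
    rw [map_mul, map_pow, map_mul, map_mul, map_sub, map_sub, map_pow, map_one, map_ofNat, h2] at h1
    push_cast
    exact h1
  have htk : tL ∉ kk (algebraMap (algebraicClosure ℚ Ω) M) φ := by
    intro h
    obtain ⟨c, hc1⟩ := mem_kk.1 h
    have h1 := congrArg eqv hc1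
    rw [hφ, hcj] at h1
    have h2 := congrArg (fun z : geomPro 2 ℚ F Ω => (z : Ω)) h1
    simp only [hj] at h2
    have h3 : Transcendental ℚ (algebraMap F Ω t) :=
      (transcendental_algebraMap_iff (R := ℚ) (algebraMap F Ω).injective (a := t)).2 ht
    apply h3
    have h4 : (c : Ω) = algebraMap F Ω t := h2
    rw [← h4]
    exact (mem_algebraicClosure_iff.1 c.2)
  have hconc := t_classes hR2 hSD hFx hTame (plcL hpv) ha0 ha hrel htk
  have hconc' : p.val (algebraMap F (geomPro 2 ℚ F Ω) t)⁻¹ 0 ∨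
      ∃ i, p.val (algebraMap F (geomPro 2 ℚ F Ω) t) ((ev i : ℤ) : C) := by
    rcases hconc with h | ⟨i, h⟩
    · left
      have h1 := plcL_val (Plc.val_inv_of_notMem h)
      rw [map_zero] at h1
      exact h1
    · right
      refine ⟨i, ?_⟩
      have h1 := plcL_val h
      rw [map_intCast] at h1
      exact h1
  refine ⟨hconc', ?_⟩
  -- the valuation ring
  have hmem : ∀ z : M, z ∈ p.W.comap (eqv : M →+* geomPro 2 ℚ F Ω) ↔ eqv z ∈ p.W :=
    fun z => Iff.rfl
  have hnon : ∀ z : M, z ∈ (p.W.comap (eqv : M →+* geomPro 2 ℚ F Ω)).nonunits ↔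
      eqv z ∈ p.W.nonunits := fun z => comap_non eqv p.W z
  have hval0 : ∀ z : geomPro 2 ℚ F Ω, p.val z 0 → z ∈ p.W.nonunits := by
    intro z hz
    rw [nonunits_iff]
    refine ⟨hz.mem, ?_⟩
    by_cases h0 : z = 0
    · exact Or.inl h0
    · right
      intro h1
      obtain ⟨c, hc1⟩ := Plc.val_of_mem h1
      have h2 := hz.mul hc1
      rw [mul_inv_cancel₀ h0, zero_mul] at h2
      exact zero_ne_one (h2.unique Plc.val_one)
  have ht2 : t + 2 ≠ 0 := by
    intro h
    apply ht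
    rw [eq_neg_of_add_eq_zero_left h]
    have : (-2 : F) = algebraMap ℚ F (-2) := by rw [map_neg, map_ofNat]
    rw [this]
    exact isAlgebraic_algebraMap _
  have ht0 : t ≠ 0 := by
    rintro rfl
    exact ht isAlgebraic_zero
  haveI hchC : CharZero C := charZero_of_injective_algebraMap (algebraMap ℚ C).injective
  have hev : ∀ i : Fin 5, ev i + 2 ≠ 0 := by decide
  -- the value of `x`
  obtain ⟨q, hq, hxq⟩ : ∃ q ∈ BQ, p.val (algebraMap F (geomPro 2 ℚ F Ω) (30 / (t + 2)))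
      (algebraMap ℚ C q) := by
    rcases hconc' with h | ⟨i, h⟩
    · refine ⟨0, by simp [BQ], ?_⟩
      have h1 : algebraMap F (geomPro 2 ℚ F Ω) (30 / (t + 2)) =
          ((30 : ℕ) : geomPro 2 ℚ F Ω) * (algebraMap F (geomPro 2 ℚ F Ω) t)⁻¹ *
            (1 + ((2 : ℕ) : geomPro 2 ℚ F Ω) * (algebraMap F (geomPro 2 ℚ F Ω) t)⁻¹)⁻¹ := by
        have h30 : ((30 : ℕ) : geomPro 2 ℚ F Ω) = algebraMap F (geomPro 2 ℚ F Ω) 30 := by
          rw [map_ofNat]; norm_num
        have h2 : ((2 : ℕ) : geomPro 2 ℚ F Ω) = algebraMap F (geomPro 2 ℚ F Ω) 2 := by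
          rw [map_ofNat]; norm_num
        rw [h30, h2, ← map_one (algebraMap F (geomPro 2 ℚ F Ω)), ← map_inv₀, ← map_mul, ← map_mul,
          ← map_add, ← map_inv₀, ← map_mul]
        congr 1
        field_simp
      rw [h1, map_zero]
      have h2 := ((Plc.val_natCast 30).mul h).mul
        ((Plc.val_one.add ((Plc.val_natCast 2).mul h)).inv (by
          rw [mul_zero, add_zero]; exact one_ne_zero))
      rw [mul_zero, zero_mul] at h2
      exact h2
    · have h1 := ((Plc.val_natCast (pl := p) 30)).mul ((h.add (Plc.val_natCast (pl := p) 2)).inv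
        (by
          have h3 : ev i + 2 ≠ 0 := hev i
          exact_mod_cast h3))
      have h2 : algebraMap F (geomPro 2 ℚ F Ω) (30 / (t + 2)) =
          ((30 : ℕ) : geomPro 2 ℚ F Ω) * (algebraMap F (geomPro 2 ℚ F Ω) t +
            ((2 : ℕ) : geomPro 2 ℚ F Ω))⁻¹ := by
        have h30 : ((30 : ℕ) : geomPro 2 ℚ F Ω) = algebraMap F (geomPro 2 ℚ F Ω) 30 := by
          rw [map_ofNat]; norm_num
        have h2 : ((2 : ℕ) : geomPro 2 ℚ F Ω) = algebraMap F (geomPro 2 ℚ F Ω) 2 := by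
          rw [map_ofNat]; norm_num
        rw [h30, h2, ← map_add, ← map_inv₀, ← map_mul, div_eq_mul_inv]
      rw [← h2] at h1
      refine ⟨30 / (ev i + 2), ?_, ?_⟩
      · fin_cases i <;> norm_num [ev, BQ]
      · have h3 : algebraMap ℚ C (30 / ((ev i : ℤ) + 2)) =
            ((30 : ℕ) : C) * (((ev i : ℤ) : C) + ((2 : ℕ) : C))⁻¹ := by
          rw [map_div₀, map_add, map_intCast, map_ofNat, map_ofNat, div_eq_mul_inv]
          push_cast
          rfl
        rw [h3]
        exact h1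
  have he : algebraMap ℚ (algebraicClosure ℚ Ω) q ∈ BK (algebraicClosure ℚ Ω) :=
    mem_BK.2 ⟨q, hq, rfl⟩
  have hxe : p.val (eqv (algebraMap R M x' - algebraMap (algebraicClosure ℚ Ω) M
      (algebraMap ℚ (algebraicClosure ℚ Ω) q))) 0 := by
    rw [map_sub, hx0, hcj]
    have h1 := hxq.sub (iot_val s p (algebraMap ℚ (algebraicClosure ℚ Ω) q))
    rw [(p.iot s.j).commutes, sub_self] at h1
    exact h1
  have hne : algebraMap R M x' - algebraMap (algebraicClosure ℚ Ω) M
      (algebraMap ℚ (algebraicClosure ℚ Ω) q) ≠ 0 := by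
    intro h0
    have h2 : Transcendental (algebraicClosure ℚ Ω) (algebraMap R M x') :=
      (transcendental_algebraMap_iff (algebraMap R M).injective).2 hC.rat.trans
    apply h2
    rw [sub_eq_zero.1 h0]
    exact isAlgebraic_algebraMap _
  obtain ⟨W, hWO, -⟩ := hC.loc (p.W.comap (eqv : M →+* geomPro 2 ℚ F Ω)) (fun c => by
    rw [hmem, hcj]
    exact (iot_val s p c).mem) (by
    intro htop
    have h2 := (hnon _).2 (hval0 _ hxe)
    rw [htop, nonunits_iff] at h2
    rcases h2.2 with h3 | h3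
    · exact hne h3
    · exact h3 trivial)
  have hWe : 0 < W.ord (algebraMap R M x' - algebraMap (algebraicClosure ℚ Ω) M
      (algebraMap ℚ (algebraicClosure ℚ Ω) q)) := by
    rw [← O_non_iff W hne, hWO, hnon]
    exact hval0 _ hxe
  have hfin := rigid8 hC hδ hSec ha (p.iot s.j) W he hWe (fun σ hσ => by
    refine fixes_of_O W (sA σ) (σ : _ ≃+* _) (fun b => hAct.const σ b) fun z => ?_
    rw [hWO, hmem, hmem, hs']
    exact given_mem hpv hσ _)
  intro σ z
  have h3 := O_of_fixes W (sA σ) (hfin σ) (eqv.symm z)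
  rw [hWO, hmem, hmem, hs', eqv.apply_symm_apply] at h3
  exact h3

end

end Pool.Agent.Zk12
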