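import Mathlib
import Pool.Agent.Zk12.Final8
import Pool.Agent.Y158.FQ.Fin

/-!
# Sections over `a y² = t (t² - 1) (t² - 9)`: sections which fix `y`
-/

set_option autoImplicit false
set_option linter.all false

open Polynomial FF Pool.Agent.Y157.PS IsDedekindDomain NumberField Pool.Agent.TH954

namespace Pool.Agent.Zk12

open Pool.Agent.Y158.GR Pool.Agent.Y158.FQ

attribute [-instance] DivisionRing.toRatAlgebra SubfieldClass.instSMulRat
attribute [local instance 1] DivisionRing.toRatAlgebra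

section

variable {F Ω B : Type} [Field F] [Field Ω] [Field B] [Algebra ℚ F] [Algebra F Ω] [Algebra ℚ Ω]
  [Algebra ℚ B] [IsScalarTower ℚ F Ω] [IsAlgClosed Ω] [Algebra.IsAlgebraic F Ω]
  [IsAlgClosure ℚ B]
  {C : Type} [Field C] [Algebra ℚ_[2] C] [Algebra ℚ C] [IsScalarTower ℚ ℚ_[2] C]
  [IsAlgClosure ℚ_[2] C]

theorem gen9 {a : ℚ} (ha0 : a ≠ 0)
    (ha : ∀ v : HeightOneSpectrum (𝓞 ℚ), v.valuation ℚ 6 = 1 → v.valuation ℚ a = 1) (t : F)
    (ht : Transcendental ℚ t) (hFt : Algebra.IsAlgebraic (IntermediateField.adjoin ℚ {t}) F)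
    (N : IntermediateField F Ω) (s : GalSection ℚ F N B) (y : N)
    (hty : algebraMap ℚ N a * y ^ 2 = algebraMap F N (t * (t ^ 2 - 1) * (t ^ 2 - 9)))
    (hys : ∀ g, s.s g y = y)
    (hN : ∀ z ∈ geomPro 2 ℚ (IntermediateField.adjoin ℚ {algebraMap F Ω t, (y : Ω)}) Ω, z ∈ N)
    (p : Plc ℚ N C) (hpv : s.GivenBy ℚ_[2] p) :
    (p.val (algebraMap F N t)⁻¹ 0 ∨ ∃ i, p.val (algebraMap F N t) ((ev i : ℤ) : C)) ∧
      ∀ (g : B ≃ₐ[ℚ] B) (z : N),
        (z : Ω) ∈ geomPro 2 ℚ (IntermediateField.adjoin ℚ {algebraMap F Ω t, (y : Ω)}) Ω →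
        (s.s g z ∈ p.W ↔ z ∈ p.W) := by
  haveI : Algebra.IsAlgebraic ℚ B := IsAlgClosure.isAlgebraic
  let F' : IntermediateField F Ω := IntermediateField.adjoin F {(y : Ω)}
  have hF'N : F' ≤ N := by
    rw [IntermediateField.adjoin_le_iff, Set.singleton_subset_iff]
    exact y.2
  let N' : IntermediateField F' Ω := IntermediateField.extendScalars hF'N
  let e : N ≃+* N' :=
    { toFun := fun z => ⟨(z : Ω), (IntermediateField.mem_extendScalars hF'N).2 z.2⟩
      invFun := fun z => ⟨(z : Ω), (IntermediateField.mem_extendScalars hF'N).1 z.2⟩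
      left_inv := fun z => rfl
      right_inv := fun z => rfl
      map_mul' := fun _ _ => rfl
      map_add' := fun _ _ => rfl }
  have he : ∀ z : N, ((e z : N') : Ω) = (z : Ω) := fun z => rfl
  have hfix : ∀ (r : F') (g : B ≃ₐ[ℚ] B) (z : N), (z : Ω) = algebraMap F' Ω r →
      s.s (g.restrictScalars ℚ) z = z := by
    intro r g z hz
    let T : Subfield Ω := Subfield.map (algebraMap N Ω)
      (RingHom.eqLocusField ((s.s (g.restrictScalars ℚ) : N ≃ₐ[F] N) : N →+* N) (RingHom.id N))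
    have hT : ∀ t : N, s.s (g.restrictScalars ℚ) t = t → (t : Ω) ∈ T := fun t ht => ⟨t, ht, rfl⟩
    have h1 : (r : Ω) ∈ T := by
      refine adjoin_le_sub (T := T) (fun q => ?_) (fun t ht => ?_) _ r.2
      · exact hT (algebraMap F N q) ((s.s (g.restrictScalars ℚ)).commutes q)
      · rw [Set.mem_singleton_iff] at ht
        rw [ht]
        exact hT y (hys _)
    obtain ⟨t, ht, htr⟩ := h1
    have h2 : t = z := Subtype.ext (htr.trans hz.symm)
    rw [← h2]
    exact ht
  have hKB : ∀ c : ℚ, ((s.j (algebraMap ℚ B c) : N) : Ω) = algebraMap ℚ Ω c := fun c => by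
    rw [AlgHom.commutes]
    rfl
  have hKC : ∀ c : ℚ, p.val (s.j (algebraMap ℚ B c)) (algebraMap ℚ C c) := fun c => by
    rw [AlgHom.commutes]
    exact p.comm c
  haveI : IsScalarTower ℚ F' Ω := IsScalarTower.of_algebraMap_eq' (Subsingleton.elim _ _)
  have hinj : Function.Injective (algebraMap F' Ω) := (algebraMap F' Ω).injective
  haveI hF'Ω : Algebra.IsAlgebraic F' Ω := Algebra.IsAlgebraic.tower_top (K := F) F'
  obtain ⟨t', ht'⟩ : ∃ t' : F', algebraMap F' Ω t' = algebraMap F Ω t :=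
    ⟨algebraMap F F' t, rfl⟩
  obtain ⟨y', hy'⟩ : ∃ y' : F', algebraMap F' Ω y' = (y : Ω) :=
    ⟨⟨(y : Ω), IntermediateField.mem_adjoin_simple_self F _⟩, rfl⟩
  have ht't : Transcendental ℚ t' := by
    intro h
    have h1 : IsAlgebraic ℚ (algebraMap F' Ω t') := h.algebraMap
    rw [ht'] at h1
    exact (transcendental_algebraMap_iff (R := ℚ) (algebraMap F Ω).injective (a := t)).2 ht h1
  have hF't : Algebra.IsAlgebraic (IntermediateField.adjoin ℚ {t'}) F' := by
    let R : IntermediateField ℚ Ω := IntermediateField.adjoin ℚ {algebraMap F Ω t}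
    have hR : Algebra.IsAlgebraic R Ω := alg_over hFt R (IntermediateField.mem_adjoin_simple_self ℚ _)
    have hRmem : ∀ z ∈ R, ∃ z' : IntermediateField.adjoin ℚ {t'}, algebraMap F' Ω z' = z := by
      intro z hz
      have h2 := IntermediateField.adjoin_map ℚ {t'} (IsScalarTower.toAlgHom ℚ F' Ω)
      rw [Set.image_singleton] at h2
      have hz2 : z ∈ IntermediateField.adjoin ℚ {(IsScalarTower.toAlgHom ℚ F' Ω) t'} := by
        have h3 : (IsScalarTower.toAlgHom ℚ F' Ω) t' = algebraMap F Ω t := ht'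
        rw [h3]
        exact hz
      rw [← h2] at hz2
      obtain ⟨z', hz', hz''⟩ := hz2
      exact ⟨⟨z', hz'⟩, hz''⟩
    have hEΩ : Algebra.IsAlgebraic (IntermediateField.adjoin ℚ {t'}) Ω := by
      choose f hf using fun z : R => hRmem z z.2
      have hinj := (algebraMap (IntermediateField.adjoin ℚ {t'}) Ω).injective
      have hf' : ∀ z : R, algebraMap (IntermediateField.adjoin ℚ {t'}) Ω (f z) = z := hf
      let i : R →+* IntermediateField.adjoin ℚ {t'} :=
        { toFun := f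
          map_one' := hinj (by rw [hf', map_one]; rfl)
          map_mul' := fun a b => hinj (by rw [hf', map_mul, hf', hf']; rfl)
          map_zero' := hinj (by rw [hf', map_zero]; rfl)
          map_add' := fun a b => hinj (by rw [hf', map_add, hf', hf']; rfl) }
      refine ⟨fun z => ?_⟩
      obtain ⟨q, hq, hqz⟩ := Algebra.IsAlgebraic.isAlgebraic (R := R) z
      refine ⟨q.map i, (Polynomial.map_ne_zero_iff i.injective).2 hq, ?_⟩
      rw [aeval_def, eval₂_map]
      have h3 : (algebraMap (IntermediateField.adjoin ℚ {t'}) Ω).comp i = algebraMap R Ω :=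
        RingHom.ext fun z => hf' z
      rw [h3]
      exact hqz
    exact Algebra.IsAlgebraic.tower_bot (IntermediateField.adjoin ℚ {t'}) F' Ω
  have hty' : algebraMap ℚ F' a * y' ^ 2 = t' * (t' ^ 2 - 1) * (t' ^ 2 - 9) := by
    apply hinj
    have h1 := congrArg (algebraMap N Ω) hty
    rw [map_mul, map_pow, map_mul, map_mul, map_sub, map_sub, map_pow, map_one, map_ofNat, ht',
      hy', ← IsScalarTower.algebraMap_apply ℚ F' Ω]
    have h2 : algebraMap N Ω (algebraMap F N (t * (t ^ 2 - 1) * (t ^ 2 - 9))) =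
        algebraMap F Ω t * (algebraMap F Ω t ^ 2 - 1) * (algebraMap F Ω t ^ 2 - 9) := by
      change algebraMap F Ω (t * (t ^ 2 - 1) * (t ^ 2 - 9)) = _
      rw [map_mul, map_mul, map_sub, map_sub, map_pow, map_one, map_ofNat]
    rw [h2, map_mul, map_pow] at h1
    exact h1
  have hgp : ∀ z, z ∈ geomPro 2 ℚ (IntermediateField.adjoin ℚ {t', y'}) Ω ↔
      z ∈ geomPro 2 ℚ (IntermediateField.adjoin ℚ {algebraMap F Ω t, (y : Ω)}) Ω :=
    geomPro_base (k := ℚ) (K := ℚ) (c := 1) (c' := 1) (one_mem _) (one_mem _) one_ne_zero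
      one_ne_zero (by rw [ht', one_mul]) (by rw [hy', one_mul])
  obtain ⟨h1, h2⟩ := gen8 ha0 ha t' y' ht't hF't hty' N'
    (fun z hz => (IntermediateField.mem_extendScalars hF'N).2 (hN z ((hgp z).1 hz)))
    (extSec e he s hKB hfix) (extPlc e he s p hKB hKC)
    (extGiven e he s p hKB hKC hfix ℚ_[2] hpv)
  have hex : e.symm (algebraMap F' N' t') = algebraMap F N t := Subtype.ext ht'
  constructor
  · simp only [extPlc_val] at h1
    rw [map_inv₀, hex] at h1
    exact h1
  · intro g z hz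
    have h3 := h2 g (e z) ((hgp _).2 hz)
    rw [extPlc_mem, extPlc_mem, extSec_apply, e.symm_apply_apply, e.symm_apply_apply] at h3
    exact h3

end

end Pool.Agent.Zk12
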