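import Mathlib
import Pool.Agent.W52.SecC.A2

/-!
# The elliptic curve `y² = x³ - n² x` over a field

The group law and the subgroup of the points with coordinates in a subfield.
-/

set_option autoImplicit false
set_option linter.all false

namespace Pool.Agent.Zk12.CN

open Pool.Agent.W623.SecC WeierstrassCurve

section

variable {L : Type} [Field L] [CharZero L] {n : ℤ} (hn : n ≠ 0)

/-- the roots -/
def ee (L : Type) [Field L] (n : ℤ) : Fin 3 → L := ![(n : L), 0, -(n : L)]

/-- the elliptic curve -/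
abbrev EE (L : Type) [Field L] (n : ℤ) : WeierstrassCurve.Affine L := crv (ee L n)

omit [CharZero L] in
theorem eqn_iff {x y : L} : (EE L n).Equation x y ↔ y ^ 2 = (x - n) * x * (x + n) := by
  rw [Affine.equation_iff]
  simp only [crv, ee, Matrix.cons_val_zero, Matrix.cons_val_one, Matrix.cons_val]
  constructor
  · intro h
    linear_combination h
  · intro h
    linear_combination h

omit [CharZero L] in
theorem eqn_of {x y : L} (h : (EE L n).Nonsingular x y) : y ^ 2 = (x - n) * x * (x + n) :=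
  eqn_iff.1 h.1

include hn in
theorem ns_of {x y : L} (h : y ^ 2 = (x - n) * x * (x + n)) : (EE L n).Nonsingular x y := by
  have hn0 : (n : L) ≠ 0 := by exact_mod_cast hn
  rw [Affine.nonsingular_iff]
  refine ⟨eqn_iff.2 h, ?_⟩
  simp only [crv, ee, Matrix.cons_val_zero, Matrix.cons_val_one, Matrix.cons_val]
  by_cases hy : y = 0
  · left
    rw [hy] at h
    intro hc
    have h0 : (x - n) * x * (x + n) = 0 := by linear_combination -h
    have h2n : (2 : L) * (n : L) ^ 2 ≠ 0 := mul_ne_zero two_ne_zero (pow_ne_zero _ hn0)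
    have h1n : (n : L) ^ 2 ≠ 0 := pow_ne_zero _ hn0
    rcases mul_eq_zero.1 h0 with h1 | h1
    · rcases mul_eq_zero.1 h1 with h2 | h2
      · have hx : x = n := by linear_combination h2
        apply h2n
        rw [hx] at hc
        linear_combination -hc
      · apply h1n
        rw [h2] at hc
        linear_combination hc
    · have hx : x = -n := by linear_combination h1
      apply h2n
      rw [hx] at hc
      linear_combination -hc
  · right
    intro hc
    apply hy
    have h1 : (2 : L) * y = 0 := by linear_combination hc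
    exact (mul_eq_zero.1 h1).resolve_left two_ne_zero

omit [CharZero L] in
/-- the negative -/
theorem negY_eq (x y : L) : (EE L n).negY x y = -y := by
  simp only [Affine.negY, crv, zero_mul, sub_zero]

omit [CharZero L] in
theorem addX_eq (x₁ x₂ l : L) : (EE L n).addX x₁ x₂ l = l ^ 2 - x₁ - x₂ := by
  simp only [Affine.addX, crv, ee, Matrix.cons_val_zero, Matrix.cons_val_one, Matrix.cons_val]
  ring

/-- the three roots -/
def Rt (n : ℤ) (e : L) : Prop := e = n ∨ e = 0 ∨ e = -n

omit [CharZero L] in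
theorem Rt.eq {e : L} (h : Rt n e) : (e - n) * e * (e + n) = 0 := by
  rcases h with rfl | rfl | rfl <;> ring

include hn in
theorem ns_root {e : L} (h : Rt n e) : (EE L n).Nonsingular e 0 :=
  ns_of hn (by rw [h.eq]; ring)

omit [CharZero L] in
open Classical in
/-- the sum of two points with different first coordinates -/
theorem add_pt {x₁ y₁ x₂ y₂ : L} (h₁ : (EE L n).Nonsingular x₁ y₁)
    (h₂ : (EE L n).Nonsingular x₂ y₂)
    (hx : x₁ ≠ x₂) : ∃ (x₃ y₃ : L) (h₃ : (EE L n).Nonsingular x₃ y₃),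
      Affine.Point.some x₁ y₁ h₁ + Affine.Point.some x₂ y₂ h₂ = Affine.Point.some x₃ y₃ h₃ ∧
      ∃ l : L, l * (x₁ - x₂) = y₁ - y₂ ∧ x₃ = l ^ 2 - x₁ - x₂ ∧
        ∀ e : L, Rt n e → (x₁ - e) * (x₂ - e) * (x₃ - e) = (l * (e - x₁) + y₁) ^ 2 := by
  have hl : (EE L n).slope x₁ x₂ y₁ y₂ * (x₁ - x₂) = y₁ - y₂ := by
    rw [Affine.slope_of_X_ne hx, div_mul_cancel₀ _ (sub_ne_zero.2 hx)]
  refine ⟨_, _, _, Affine.Point.add_of_X_ne hx, (EE L n).slope x₁ x₂ y₁ y₂, hl, addX_eq _ _ _, ?_⟩
  intro e he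
  rw [addX_eq]
  generalize (EE L n).slope x₁ x₂ y₁ y₂ = l at hl ⊢
  have e1 := eqn_of h₁
  have e2 := eqn_of h₂
  have H : x₁ ^ 2 + x₁ * x₂ + x₂ ^ 2 - n ^ 2 = l * (2 * y₁ - l * (x₁ - x₂)) := by
    have h0 : (x₁ - x₂) * (x₁ ^ 2 + x₁ * x₂ + x₂ ^ 2 - n ^ 2 -
        l * (2 * y₁ - l * (x₁ - x₂))) = 0 := by
      have h3 : l * (2 * y₁ - l * (x₁ - x₂)) * (x₁ - x₂) = y₁ ^ 2 - y₂ ^ 2 := by
        rw [hl]
        linear_combination (y₁ + y₂) * hl
      linear_combination -h3 - e1 + e2
    exact sub_eq_zero.1 ((mul_eq_zero.1 h0).resolve_left (sub_ne_zero.2 hx))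
  linear_combination (e - x₁) * H - e1 - he.eq

open Classical in
/-- the double of a point -/
theorem dbl_pt {x y : L} (h : (EE L n).Nonsingular x y) (hy : y ≠ 0) :
    ∃ (x' y' : L) (h' : (EE L n).Nonsingular x' y'),
      Affine.Point.some x y h + Affine.Point.some x y h = Affine.Point.some x' y' h' ∧
      4 * y ^ 2 * x' = (x ^ 2 + n ^ 2) ^ 2 ∧
      4 * y ^ 2 * (x' - n) = (x ^ 2 - 2 * n * x - n ^ 2) ^ 2 ∧
      4 * y ^ 2 * (x' + n) = (x ^ 2 + 2 * n * x - n ^ 2) ^ 2 := by
  have hneg : y ≠ (EE L n).negY x y := by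
    rw [negY_eq]
    intro hc
    apply hy
    have h1 : (2 : L) * y = 0 := by linear_combination hc
    exact (mul_eq_zero.1 h1).resolve_left two_ne_zero
  refine ⟨_, _, _, Affine.Point.add_self_of_Y_ne hneg, ?_⟩
  rw [addX_eq]
  have hl : (EE L n).slope x x y y * (2 * y) = 3 * x ^ 2 - n ^ 2 := by
    rw [Affine.slope_of_Y_ne rfl hneg, negY_eq]
    have h5 : y - -y ≠ 0 := by
      intro hc
      apply hy
      have h1 : (2 : L) * y = 0 := by linear_combination hc
      exact (mul_eq_zero.1 h1).resolve_left two_ne_zero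
    simp only [crv, ee, Matrix.cons_val_zero, Matrix.cons_val_one, Matrix.cons_val]
    field_simp
    ring
  generalize (EE L n).slope x x y y = l at hl ⊢
  have e1 := eqn_of h
  have hl2 : 4 * y ^ 2 * l ^ 2 = (3 * x ^ 2 - n ^ 2) ^ 2 := by rw [← hl]; ring
  refine ⟨?_, ?_, ?_⟩
  · linear_combination hl2 - 8 * x * e1
  · linear_combination hl2 - (8 * x + 4 * n) * e1
  · linear_combination hl2 - (8 * x - 4 * n) * e1

variable (k : Subfield L)

omit [CharZero L] in
open Classical in
theorem slope_mem {x₁ x₂ y₁ y₂ : L} (h1 : x₁ ∈ k) (h2 : x₂ ∈ k) (h3 : y₁ ∈ k) (h4 : y₂ ∈ k) :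
    (EE L n).slope x₁ x₂ y₁ y₂ ∈ k := by
  have hnk : (n : L) ∈ k := intCast_mem k n
  unfold Affine.slope
  rw [negY_eq, negY_eq]
  simp only [crv, ee, Matrix.cons_val_zero, Matrix.cons_val_one, Matrix.cons_val]
  have h2' : (2 : L) ∈ k := by simpa using natCast_mem k 2
  have h3' : (3 : L) ∈ k := by simpa using natCast_mem k 3
  split_ifs
  · exact zero_mem _
  · refine div_mem ?_ (sub_mem h3 (neg_mem h3))
    refine sub_mem (add_mem (add_mem (mul_mem h3' (pow_mem h1 2)) (mul_mem (mul_mem h2' ?_) h1))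
      ?_) (mul_mem (zero_mem _) h3)
    · exact neg_mem (add_mem (add_mem hnk (zero_mem _)) (neg_mem hnk))
    · exact add_mem (add_mem (mul_mem hnk (zero_mem _)) (mul_mem hnk (neg_mem hnk)))
        (mul_mem (zero_mem _) (neg_mem hnk))
  · exact div_mem (sub_mem h3 h4) (sub_mem h1 h2)

omit [CharZero L] in
open Classical in
/-- the points with coordinates in a subfield -/
def algPt (n : ℤ) : AddSubgroup (EE L n).Point where
  carrier := {P | P = 0 ∨ ∃ x y h, P = Affine.Point.some x y h ∧ x ∈ k ∧ y ∈ k}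
  zero_mem' := Or.inl rfl
  neg_mem' := by
    rintro P (rfl | ⟨x, y, h, rfl, hx, hy⟩)
    · left
      exact neg_zero
    · right
      refine ⟨_, _, _, Affine.Point.neg_some h, hx, ?_⟩
      rw [negY_eq]
      exact neg_mem hy
  add_mem' := by
    rintro P Q (rfl | ⟨x, y, h, rfl, hx, hy⟩) (rfl | ⟨x', y', h', rfl, hx', hy'⟩)
    · left
      exact add_zero 0
    · right
      exact ⟨x', y', h', zero_add _, hx', hy'⟩
    · right
      exact ⟨x, y, h, add_zero _, hx, hy⟩
    · by_cases hxy : x = x' ∧ y = (EE L n).negY x' y'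
      · left
        exact Affine.Point.add_of_Y_eq hxy.1 hxy.2
      · right
        have hX : (EE L n).addX x x' ((EE L n).slope x x' y y') ∈ k := by
          rw [addX_eq]
          exact sub_mem (sub_mem (pow_mem (slope_mem k hx hx' hy hy') 2) hx) hx'
        refine ⟨_, _, _, Affine.Point.add_some hxy, hX, ?_⟩
        unfold Affine.addY Affine.negAddY
        rw [negY_eq]
        exact neg_mem (add_mem (mul_mem (slope_mem k hx hx' hy hy') (sub_mem hX hx)) hy)

variable {k}

omit [CharZero L] in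
theorem some_mem_algPt {x y : L} {h : (EE L n).Nonsingular x y} :
    Affine.Point.some x y h ∈ algPt k n ↔ x ∈ k ∧ y ∈ k := by
  constructor
  · rintro (h0 | ⟨x', y', h', h1, hx, hy⟩)
    · cases h0
    · rw [Affine.Point.some.injEq] at h1
      obtain ⟨rfl, rfl⟩ := h1
      exact ⟨hx, hy⟩
  · rintro ⟨hx, hy⟩
    exact Or.inr ⟨x, y, h, rfl, hx, hy⟩

/-- a 2-torsion point -/
def IsT (T : (EE L n).Point) : Prop :=
  T = 0 ∨ ∃ (e : L) (h : (EE L n).Nonsingular e 0), Rt n e ∧ T = Affine.Point.some e 0 h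

open Classical in
theorem IsT.two {T : (EE L n).Point} (h : IsT T) : T + T = 0 := by
  rcases h with rfl | ⟨e, h, -, rfl⟩
  · exact add_zero 0
  · exact Affine.Point.add_self_of_Y_eq (by rw [negY_eq, neg_zero])

omit [CharZero L] in
theorem IsT.mem {T : (EE L n).Point} (h : IsT T) : T ∈ algPt k n := by
  have hnk : (n : L) ∈ k := intCast_mem k n
  rcases h with rfl | ⟨e, h, he, rfl⟩
  · exact zero_mem _
  · refine some_mem_algPt.2 ⟨?_, zero_mem _⟩
    rcases he with rfl | rfl | rfl
    · exact hnk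
    · exact zero_mem _
    · exact neg_mem hnk

/-- a point which is a double -/
def IsDbl (P : (EE L n).Point) : Prop :=
  open Classical in ∃ Q : (EE L n).Point, P = Q + Q

include hn in
theorem ee_ne (i j : Fin 3) (h : i ≠ j) : ee L n i ≠ ee L n j := by
  have hn0 : (n : L) ≠ 0 := by exact_mod_cast hn
  have h2 : (n : L) ≠ -n := by
    intro h
    have h3 : (2 : L) * n = 0 := by linear_combination h
    exact hn0 ((mul_eq_zero.1 h3).resolve_left two_ne_zero)
  have h3 : (0 : L) ≠ -n := by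
    intro h
    exact hn0 (by linear_combination h)
  fin_cases i <;> fin_cases j <;> first | exact absurd rfl h | exact hn0 | exact h2 | exact h3 | exact hn0.symm | exact h2.symm | exact h3.symm

include hn in
theorem halve' {x y : L} (h : (EE L n).Nonsingular x y) {a b c : L} (ha : x - n = a ^ 2)
    (hb : x = b ^ 2) (hc : x + n = c ^ 2) : IsDbl (Affine.Point.some x y h) := by
  classical
  have key : ∀ a : L, x - n = a ^ 2 → a * b * c = y → IsDbl (Affine.Point.some x y h) := by
    intro a ha hy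
    obtain ⟨Q, hQ⟩ := Pool.Agent.W52.SecC.A2.halve (e := ee L n) (ee_ne hn) h (r := ![a, b, c]) (by
      intro i
      fin_cases i
      · simpa [ee] using ha.symm
      · simpa [ee] using hb.symm
      · have : x - -n = c ^ 2 := by linear_combination hc
        simpa [ee] using this.symm) (by simpa using hy)
    refine ⟨Q, ?_⟩
    rw [← hQ, two_nsmul]
  have h1 : (a * b * c) ^ 2 = y ^ 2 := by
    rw [eqn_of h, ha, hc]
    linear_combination (-(a ^ 2 * c ^ 2)) * hb
  rcases sq_eq_sq_iff_eq_or_eq_neg.1 h1 with h2 | h2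
  · exact key a ha h2
  · exact key (-a) (by rw [ha]; ring) (by linear_combination -h2)

/-- the classes of the two-torsion points -/
def Cls (n : ℤ) (x : L) : Prop :=
  (∃ b₁ b₂ b₃ : L, x - n = b₁ ^ 2 ∧ x = b₂ ^ 2 ∧ x + n = b₃ ^ 2) ∨
  (∃ b₁ b₂ b₃ : L, x - n = 2 * b₁ ^ 2 ∧ x = n * b₂ ^ 2 ∧ x + n = 2 * n * b₃ ^ 2) ∨
  (∃ b₁ b₂ b₃ : L, x - n = -n * b₁ ^ 2 ∧ x = -b₂ ^ 2 ∧ x + n = n * b₃ ^ 2) ∨
  (∃ b₁ b₂ b₃ : L, x - n = -(2 * n) * b₁ ^ 2 ∧ x = -n * b₂ ^ 2 ∧ x + n = 2 * b₃ ^ 2)

open Classical in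
include hn in
/-- adding a two-torsion point makes a point with an allowed class a double -/
theorem desc_step {x y : L} (h : (EE L n).Nonsingular x y) (hx1 : x ≠ n) (hx2 : x ≠ 0)
    (hx3 : x ≠ -n) (hm : Cls n x) : ∃ T : (EE L n).Point, IsT T ∧
      IsDbl (Affine.Point.some x y h + T) := by
  have hn0 : (n : L) ≠ 0 := by exact_mod_cast hn
  have d1 : x - n ≠ 0 := sub_ne_zero.2 hx1
  have d3 : x + n ≠ 0 := fun h => hx3 (eq_neg_of_add_eq_zero_left h)
  rcases hm with ⟨b₁, b₂, b₃, e1, e2, e3⟩ | ⟨b₁, b₂, b₃, e1, e2, e3⟩ | ⟨b₁, b₂, b₃, e1, e2, e3⟩ |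
    ⟨b₁, b₂, b₃, e1, e2, e3⟩
  · refine ⟨0, Or.inl rfl, ?_⟩
    rw [add_zero]
    exact halve' hn h e1 e2 e3
  · -- adding `(n, 0)`
    have g1 : b₁ ≠ 0 := by rintro rfl; exact d1 (by rw [e1]; ring)
    have g2 : b₂ ≠ 0 := by rintro rfl; exact hx2 (by rw [e2]; ring)
    have g3 : b₃ ≠ 0 := by rintro rfl; exact d3 (by rw [e3]; ring)
    have hT : (EE L n).Nonsingular (n : L) 0 := ns_root hn (Or.inl rfl)
    refine ⟨Affine.Point.some n 0 hT, Or.inr ⟨n, hT, Or.inl rfl, rfl⟩, ?_⟩
    obtain ⟨x', y', h', hs, l, hl, hx', hl'⟩ := add_pt h hT hx1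
    rw [hs]
    have l2 := hl' 0 (Or.inr (Or.inl rfl))
    have l3 := hl' (-n) (Or.inr (Or.inr rfl))
    have hmul : (x' - n) * (x - n) = 2 * n ^ 2 := by
      have h2 : (x - n) * (l ^ 2 * (x - n) - x * (x + n)) = 0 := by
        linear_combination (l * (x - n) + y) * hl + eqn_of h
      have h3 := (mul_eq_zero.1 h2).resolve_left d1
      rw [hx']
      linear_combination h3
    have a1 : x' - n = (n / b₁) ^ 2 := by
      rw [e1] at hmul
      field_simp
      linear_combination (1 / 2 : L) * hmul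
    have a2 : x' = ((l * (0 - x) + y) / (n * b₂)) ^ 2 := by
      rw [div_pow, ← l2, sub_zero, sub_zero, sub_zero]
      conv_rhs => rw [e2]
      field_simp
    have a3 : x' + n = ((l * (-n - x) + y) / (2 * n * b₃)) ^ 2 := by
      rw [div_pow, ← l3, show x - -(n : L) = x + n by ring, e3]
      field_simp
      ring
    exact halve' hn h' a1 a2 a3
  · -- adding `(0, 0)`
    have g1 : b₁ ≠ 0 := by rintro rfl; exact d1 (by rw [e1]; ring)
    have g2 : b₂ ≠ 0 := by rintro rfl; exact hx2 (by rw [e2]; ring)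
    have g3 : b₃ ≠ 0 := by rintro rfl; exact d3 (by rw [e3]; ring)
    have hT : (EE L n).Nonsingular (0 : L) 0 := ns_root hn (Or.inr (Or.inl rfl))
    refine ⟨Affine.Point.some 0 0 hT, Or.inr ⟨0, hT, Or.inr (Or.inl rfl), rfl⟩, ?_⟩
    obtain ⟨x', y', h', hs, l, hl, hx', hl'⟩ := add_pt h hT hx2
    rw [hs]
    have l1 := hl' n (Or.inl rfl)
    have l3 := hl' (-n) (Or.inr (Or.inr rfl))
    have hmul : x' * x = -n ^ 2 := by
      have h2 : x * (l ^ 2 * x - (x - n) * (x + n)) = 0 := by
        rw [sub_zero, sub_zero] at hl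
        linear_combination (l * x + y) * hl + eqn_of h
      have h3 := (mul_eq_zero.1 h2).resolve_left hx2
      rw [hx']
      linear_combination h3
    have a2 : x' = (n / b₂) ^ 2 := by
      rw [e2] at hmul
      field_simp
      linear_combination -hmul
    have a1 : x' - n = ((l * (n - x) + y) / (n * b₁)) ^ 2 := by
      rw [div_pow, ← l1, e1]
      field_simp
      ring
    have a3 : x' + n = ((l * (-n - x) + y) / (n * b₃)) ^ 2 := by
      rw [div_pow, ← l3, show x - -(n : L) = x + n by ring, e3]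
      field_simp
      ring
    exact halve' hn h' a1 a2 a3
  · -- adding `(-n, 0)`
    have g1 : b₁ ≠ 0 := by rintro rfl; exact d1 (by rw [e1]; ring)
    have g2 : b₂ ≠ 0 := by rintro rfl; exact hx2 (by rw [e2]; ring)
    have g3 : b₃ ≠ 0 := by rintro rfl; exact d3 (by rw [e3]; ring)
    have hT : (EE L n).Nonsingular (-n : L) 0 := ns_root hn (Or.inr (Or.inr rfl))
    refine ⟨Affine.Point.some (-n) 0 hT, Or.inr ⟨-n, hT, Or.inr (Or.inr rfl), rfl⟩, ?_⟩
    obtain ⟨x', y', h', hs, l, hl, hx', hl'⟩ := add_pt h hT hx3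
    rw [hs]
    have l1 := hl' n (Or.inl rfl)
    have l2 := hl' 0 (Or.inr (Or.inl rfl))
    have hmul : (x' + n) * (x + n) = 2 * n ^ 2 := by
      have h2 : (x + n) * (l ^ 2 * (x + n) - x * (x - n)) = 0 := by
        linear_combination (l * (x + n) + y) * hl + eqn_of h
      have h3 := (mul_eq_zero.1 h2).resolve_left d3
      rw [hx']
      linear_combination h3
    have a3 : x' + n = (n / b₃) ^ 2 := by
      rw [e3] at hmul
      field_simp
      linear_combination (1 / 2 : L) * hmul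
    have a1 : x' - n = ((l * (n - x) + y) / (2 * n * b₁)) ^ 2 := by
      rw [div_pow, ← l1, e1]
      field_simp
      ring
    have a2 : x' = ((l * (0 - x) + y) / (n * b₂)) ^ 2 := by
      rw [div_pow, ← l2, sub_zero, sub_zero]
      conv_rhs => rw [e2]
      field_simp
      ring
    exact halve' hn h' a1 a2 a3

end

end Pool.Agent.Zk12.CN
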