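import Mathlib
import Pool.Agent.Zk12.Loc

/-!
# The local classes at `2` of the curves `y² = x³ - n² x`, `n = 2, 3`
-/

set_option autoImplicit false
set_option linter.all false

namespace Pool.Agent.Zk12.CN

open Pool.Agent.Zk12

theorem cl_mem (n : ℕ) : ∀ z : ℤ, cl n z ≠ 0 → cl n z ∈ HH := by
  induction n with
  | zero => intro z h; exact absurd rfl h
  | succ n ih =>
    intro z h
    unfold cl at h ⊢
    split_ifs at h ⊢ with h1 h2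
    · exact ih _ h
    · unfold clo
      split_ifs <;> decide
    · unfold clo
      split_ifs <;> decide

theorem cl_zero (n : ℕ) : ∀ z : ℤ, cl n z = 0 → (4 : ℤ) ^ n ∣ z := by
  induction n with
  | zero => intro z h; simp
  | succ n ih =>
    intro z h
    unfold cl at h
    split_ifs at h with h1 h2
    · obtain ⟨w, hw⟩ := ih _ h
      refine ⟨w, ?_⟩
      have : z = 4 * (z / 4) := by omega
      rw [this, hw, pow_succ]
      ring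
    · unfold clo at h
      split_ifs at h <;> norm_num at h
    · unfold clo at h
      split_ifs at h <;> norm_num at h

/-- the possible classes of `x - e` for `x` close to `r`, `z = r - e` -/
def cand (z : ℤ) : List ℤ := if z % 2 ^ 7 = 0 then HH else [cl 5 z]

theorem mem_cand {x : ℤ_[2]} {r : ℕ} {y : ℤ_[2]} (hx : x = r + 2 ^ 9 * y) (e : ℤ) {α : ℤ}
    (hα : α ∈ HH) {b : ℚ_[2]} (h : (x : ℚ_[2]) - e = α * b ^ 2) : α ∈ cand ((r : ℤ) - e) := by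
  unfold cand
  split_ifs with h1
  · exact hα
  · have h2 : cl 5 ((r : ℤ) - e) ≠ 0 := by
      intro h3
      apply h1
      have h4 := cl_zero _ _ h3
      have h5 : (2 : ℤ) ^ 7 ∣ (r : ℤ) - e := dvd_trans (by norm_num) h4
      exact Int.emod_eq_zero_of_dvd h5
    have h3 := cl_mem _ _ h2
    have h4 := cl_close (m := 6) hx e h1 5 h2
    rw [List.mem_singleton]
    exact SqM.uniq hα h3 (SqM.of_eq (b := b) h (h4.ne_zero h3)) h4

/-- the check -/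
def chkG (e0 e1 e2 : ℤ) (Ls : List (ℤ × ℤ × ℤ)) (r : ℕ) : Bool :=
  (cand ((r : ℤ) - e0)).all fun a => (cand ((r : ℤ) - e1)).all fun b =>
    (cand ((r : ℤ) - e2)).all fun c =>
      (0 < c → (a * b * c) % 32 ∈ [0, 1, 4, 9, 16, 17, 25] → (a, b, c) ∈ Ls : Bool)

theorem loc_gen {e0 e1 e2 : ℤ} {Ls : List (ℤ × ℤ × ℤ)} (hchk : ∀ r < 2 ^ 9, chkG e0 e1 e2 Ls r = true)
    {x : ℤ_[2]} {n₁ n₂ n₃ : ℤ} (h1 : n₁ ∈ HH) (h2 : n₂ ∈ HH) (h3 : n₃ ∈ HH)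
    (hpos : 0 < n₃) {b₁ b₂ b₃ : ℚ_[2]} (g1 : (x : ℚ_[2]) - e0 = n₁ * b₁ ^ 2)
    (g2 : (x : ℚ_[2]) - e1 = n₂ * b₂ ^ 2)
    (g3 : (x : ℚ_[2]) - e2 = n₃ * b₃ ^ 2) (hsq : ∃ c : ℚ_[2], (n₁ : ℚ_[2]) * n₂ * n₃ = c ^ 2) :
    (n₁, n₂, n₃) ∈ Ls := by
  obtain ⟨r, hr, y, hy⟩ := residue 9 x
  have hc := hchk r hr
  unfold chkG at hc
  rw [List.all_eq_true] at hc
  have hc1 := hc _ (mem_cand hy e0 h1 g1)
  rw [List.all_eq_true] at hc1
  have hc2 := hc1 _ (mem_cand hy e1 h2 g2)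
  rw [List.all_eq_true] at hc2
  have hc3 := of_decide_eq_true (hc2 _ (mem_cand hy e2 h3 g3))
  obtain ⟨c, hc'⟩ := hsq
  refine hc3 hpos (sq32' ?_)
  refine sq_zmod (b := c) ?_
  rw [← hc']
  push_cast
  ring

/-- the allowed classes -/
def LN (n : ℤ) : List (ℤ × ℤ × ℤ) :=
  if n = 2 then [(1, 1, 1), (2, 2, 1), (-2, -1, 2), (-1, -2, 2)]
  else [(1, 1, 1), (2, 3, 6), (-3, -1, 3), (-6, -3, 2)]

theorem chk2 : ∀ r < 2 ^ 9, chkG 8 0 (-8) (LN 2) r = true := by decide +kernel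

theorem chk3 : ∀ r < 2 ^ 9, chkG 12 0 (-12) (LN 3) r = true := by decide +kernel

theorem inv_eight {X : ℚ_[2]} (hX : ¬ ‖X‖ ≤ 4) : ∃ z : ℤ_[2], X⁻¹ = 8 * (z : ℚ_[2]) := by
  have h2 : ‖(8 : ℚ_[2])‖ = 8⁻¹ := by
    have : (8 : ℚ_[2]) = 2 ^ 3 := by norm_num
    rw [this, norm_pow]
    have := Padic.norm_p (p := 2)
    have h2 : ‖(2 : ℚ_[2])‖ = 2⁻¹ := by simpa using this
    rw [h2]
    norm_num
  have h1 : ‖X⁻¹‖ < 4⁻¹ := by
    rw [norm_inv]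
    exact inv_strictAnti₀ (by norm_num) (not_le.1 hX)
  have h3 : ‖X⁻¹ / 8‖ ≤ 1 := by
    rw [norm_div, h2]
    have h4 : ‖X⁻¹‖ ≤ (2 : ℝ) ^ (-(3 : ℤ)) := by
      refine (Padic.norm_le_pow_iff_norm_lt_pow_add_one (p := 2) X⁻¹ (-3)).2 ?_
      have : ((2 : ℕ) : ℝ) ^ ((-3 : ℤ) + 1) = 4⁻¹ := by norm_num
      rw [this]
      exact h1
    rw [div_le_iff₀ (by norm_num)]
    have : (2 : ℝ) ^ (-(3 : ℤ)) = 8⁻¹ := by norm_num
    rw [this] at h4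
    linarith
  exact ⟨⟨X⁻¹ / 8, h3⟩, by
    change X⁻¹ = 8 * (X⁻¹ / 8)
    ring⟩

/-- the local classes of the elliptic curve which are positive at the third root -/
theorem locN {n : ℤ} (hn : n = 2 ∨ n = 3) {X : ℚ_[2]} {n₁ n₂ n₃ : ℤ} (h1 : n₁ ∈ HH)
    (h2 : n₂ ∈ HH) (h3 : n₃ ∈ HH)
    (hpos : 0 < n₃) {b₁ b₂ b₃ : ℚ_[2]} (e1 : X - n = n₁ * b₁ ^ 2) (e2 : X = n₂ * b₂ ^ 2)
    (e3 : X + n = n₃ * b₃ ^ 2) (hsq : ∃ c : ℚ_[2], (n₁ : ℚ_[2]) * n₂ * n₃ = c ^ 2) :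
    (n₁, n₂, n₃) ∈ LN n := by
  by_cases hX : ‖X‖ ≤ 4
  · have h4 : ‖(4 : ℚ_[2])‖ = 4⁻¹ := by
      have : (4 : ℚ_[2]) = 2 ^ 2 := by norm_num
      rw [this, norm_pow]
      have := Padic.norm_p (p := 2)
      have h2 : ‖(2 : ℚ_[2])‖ = 2⁻¹ := by simpa using this
      rw [h2]
      norm_num
    have hx1 : ‖4 * X‖ ≤ 1 := by
      rw [norm_mul, h4]
      linarith
    obtain ⟨x, hx⟩ : ∃ x : ℤ_[2], (x : ℚ_[2]) = 4 * X := ⟨⟨4 * X, hx1⟩, rfl⟩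
    have g1 : (x : ℚ_[2]) - (4 * n : ℤ) = n₁ * (2 * b₁) ^ 2 := by
      push_cast
      rw [hx]
      linear_combination 4 * e1
    have g2 : (x : ℚ_[2]) - (0 : ℤ) = n₂ * (2 * b₂) ^ 2 := by
      push_cast
      rw [hx]
      linear_combination 4 * e2
    have g3 : (x : ℚ_[2]) - (-(4 * n) : ℤ) = n₃ * (2 * b₃) ^ 2 := by
      push_cast
      rw [hx]
      linear_combination 4 * e3
    rcases hn with rfl | rfl
    · exact loc_gen chk2 h1 h2 h3 hpos g1 g2 g3 hsq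
    · exact loc_gen chk3 h1 h2 h3 hpos g1 g2 g3 hsq
  · obtain ⟨z, hz⟩ := inv_eight hX
    have hX0 : X ≠ 0 := by
      rintro rfl
      apply hX
      rw [norm_zero]
      norm_num
    have hXz : X * (8 * (z : ℚ_[2])) = 1 := by rw [← hz, mul_inv_cancel₀ hX0]
    have s2 : SqM n₂ X := SqM.of_eq e2 hX0
    have f1 : X - n = X * (1 + 8 * ((-(n : ℤ_[2]) * z : ℤ_[2]) : ℚ_[2])) := by
      push_cast
      linear_combination (n : ℚ_[2]) * hXz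
    have f3 : X + n = X * (1 + 8 * (((n : ℤ_[2]) * z : ℤ_[2]) : ℚ_[2])) := by
      push_cast
      linear_combination (-(n : ℚ_[2])) * hXz
    have s1 : SqM n₂ (X - n) := by
      have := s2.mul (sqM_one8 (-(n : ℤ_[2]) * z))
      rw [← f1, mul_one] at this
      exact this
    have s3 : SqM n₂ (X + n) := by
      have := s2.mul (sqM_one8 ((n : ℤ_[2]) * z))
      rw [← f3, mul_one] at this
      exact this
    have m1 : n₁ = n₂ := SqM.uniq h1 h2 (SqM.of_eq e1 (s1.ne_zero h2)) s1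
    have m3 : n₃ = n₂ := SqM.uniq h3 h2 (SqM.of_eq e3 (s3.ne_zero h2)) s3
    subst m1 m3
    obtain ⟨c, hc⟩ := hsq
    have m : n₃ = 1 := by
      have h0 := hh_ne h1
      refine prod_class (a := 1) (by decide) h1 (c := c / n₃) ?_
      rw [div_pow, ← hc]
      push_cast
      field_simp
    subst m
    rcases hn with rfl | rfl <;> decide

/-- three squares are far away -/
theorem sq_far {n : ℤ} (hn : n = 2 ∨ n = 3) {a b c : ℚ_[2]} (hb : a ^ 2 - n = b ^ 2)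
    (hc : a ^ 2 + n = c ^ 2) : 4 ≤ ‖a ^ 2‖ := by
  by_contra hcon
  have ha : ‖a‖ ≤ 1 := by
    by_contra h1
    apply hcon
    have h2 : (2 : ℝ) ≤ ‖a‖ := by
      by_contra h2
      apply h1
      have h3 := (Padic.norm_le_pow_iff_norm_lt_pow_add_one (p := 2) a 0).2 (by
        simpa using not_le.1 h2)
      simpa using h3
    rw [norm_pow]
    nlinarith
  have hni : ‖(n : ℚ_[2])‖ ≤ 1 := Padic.norm_int_le_one (p := 2) n
  have ha2 : ‖a ^ 2‖ ≤ 1 := by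
    rw [norm_pow]
    exact pow_le_one₀ (norm_nonneg _) ha
  have hb1 : ‖b‖ ≤ 1 := by
    have h1 : ‖b‖ ^ 2 ≤ 1 := by
      rw [← norm_pow, ← hb, sub_eq_add_neg]
      exact (Padic.nonarchimedean _ _).trans (max_le ha2 (by rwa [norm_neg]))
    nlinarith [norm_nonneg b]
  have hc1 : ‖c‖ ≤ 1 := by
    have h1 : ‖c‖ ^ 2 ≤ 1 := by
      rw [← norm_pow, ← hc]
      exact (Padic.nonarchimedean _ _).trans (max_le ha2 hni)
    nlinarith [norm_nonneg c]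
  obtain ⟨a', ha'⟩ : ∃ a' : ℤ_[2], (a' : ℚ_[2]) = a := ⟨⟨a, ha⟩, rfl⟩
  obtain ⟨b', hb'⟩ : ∃ b' : ℤ_[2], (b' : ℚ_[2]) = b := ⟨⟨b, hb1⟩, rfl⟩
  obtain ⟨c', hc'⟩ : ∃ c' : ℤ_[2], (c' : ℚ_[2]) = c := ⟨⟨c, hc1⟩, rfl⟩
  have eb : a' ^ 2 - n = b' ^ 2 := by
    apply Subtype.ext
    push_cast
    rw [ha', hb']
    exact hb
  have ec : a' ^ 2 + n = c' ^ 2 := by
    apply Subtype.ext
    push_cast
    rw [ha', hc']
    exact hc
  have eb' := congrArg (PadicInt.toZModPow (p := 2) 3) eb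
  have ec' := congrArg (PadicInt.toZModPow (p := 2) 3) ec
  rw [map_sub, map_pow, map_pow, map_intCast] at eb'
  rw [map_add, map_pow, map_pow, map_intCast] at ec'
  generalize PadicInt.toZModPow (p := 2) 3 a' = u at eb' ec'
  generalize PadicInt.toZModPow (p := 2) 3 b' = v at eb'
  generalize PadicInt.toZModPow (p := 2) 3 c' = w at ec'
  have key2 : ∀ u v w : ZMod (2 ^ 3), u ^ 2 - ((2 : ℤ) : ZMod (2 ^ 3)) = v ^ 2 →
      u ^ 2 + ((2 : ℤ) : ZMod (2 ^ 3)) ≠ w ^ 2 := by decide +kernel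
  have key3 : ∀ u v w : ZMod (2 ^ 3), u ^ 2 - ((3 : ℤ) : ZMod (2 ^ 3)) = v ^ 2 →
      u ^ 2 + ((3 : ℤ) : ZMod (2 ^ 3)) ≠ w ^ 2 := by decide +kernel
  rcases hn with rfl | rfl
  · exact key2 u v w eb' ec'
  · exact key3 u v w eb' ec'

end Pool.Agent.Zk12.CN
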