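import Mathlib
import Pool.Agent.Zk12.EN
import Pool.Agent.Zk12.LocN
import Pool.Agent.Zk12.Core2
import Pool.Agent.Zk12.Core3

/-!
# Infinite descent on the curve `y² = x³ - n² x` with a 2-adic place
-/

set_option autoImplicit false
set_option linter.all false

namespace Pool.Agent.Zk12.CN

open Pool.Agent.Zk12
open Pool.Agent.W623.SecC WeierstrassCurve Pool.Agent.TH954

section

variable {L : Type} [Field L] [CharZero L] {n : ℤ}

/-- the classes of the points over `L` whose first coordinate is not in `k` -/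
def ClsN (n : ℤ) (k : Subfield L) : Prop := ∀ x y : L, y ^ 2 = (x - n) * x * (x + n) → x ∉ k →
  ∃ n₁ ∈ HH, ∃ n₂ ∈ HH, ∃ n₃ ∈ HH, 0 < n₃ ∧ ∃ b₁ b₂ b₃ : L, x - n = n₁ * b₁ ^ 2 ∧
    x = n₂ * b₂ ^ 2 ∧ x + n = n₃ * b₃ ^ 2

/-- the list of the classes -/
theorem cls_of_LN (hn : n = 2 ∨ n = 3) {n₁ n₂ n₃ : ℤ} (h : (n₁, n₂, n₃) ∈ LN n) {x b₁ b₂ b₃ : L}
    (e1 : x - n = n₁ * b₁ ^ 2) (e2 : x = n₂ * b₂ ^ 2) (e3 : x + n = n₃ * b₃ ^ 2) : Cls n x := by
  rcases hn with rfl | rfl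
  · simp only [LN, if_true, List.mem_cons, Prod.mk.injEq, List.not_mem_nil, or_false] at h
    rcases h with ⟨rfl, rfl, rfl⟩ | ⟨rfl, rfl, rfl⟩ | ⟨rfl, rfl, rfl⟩ | ⟨rfl, rfl, rfl⟩
    · left
      exact ⟨b₁, b₂, b₃, by push_cast at e1; linear_combination e1, by push_cast at e2; linear_combination e2,
        by push_cast at e3; linear_combination e3⟩
    · right; left
      exact ⟨b₁, b₂, b₃ / 2, by push_cast at e1; linear_combination e1, by push_cast at e2; linear_combination e2,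
        by push_cast at e3; linear_combination e3⟩
    · right; right; left
      exact ⟨b₁, b₂, b₃, by push_cast at e1; linear_combination e1, by push_cast at e2; linear_combination e2,
        by push_cast at e3; linear_combination e3⟩
    · right; right; right
      exact ⟨b₁ / 2, b₂, b₃, by push_cast at e1; linear_combination e1, by push_cast at e2; linear_combination e2,
        by push_cast at e3; linear_combination e3⟩
  · have h3 : ¬ ((3 : ℤ) = 2) := by norm_num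
    simp only [LN, if_neg h3, List.mem_cons, Prod.mk.injEq, List.not_mem_nil, or_false] at h
    rcases h with ⟨rfl, rfl, rfl⟩ | ⟨rfl, rfl, rfl⟩ | ⟨rfl, rfl, rfl⟩ | ⟨rfl, rfl, rfl⟩
    · left
      exact ⟨b₁, b₂, b₃, by push_cast at e1; linear_combination e1, by push_cast at e2; linear_combination e2,
        by push_cast at e3; linear_combination e3⟩
    · right; left
      exact ⟨b₁, b₂, b₃, by push_cast at e1; linear_combination e1, by push_cast at e2; linear_combination e2,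
        by push_cast at e3; linear_combination e3⟩
    · right; right; left
      exact ⟨b₁, b₂, b₃, by push_cast at e1; linear_combination e1, by push_cast at e2; linear_combination e2,
        by push_cast at e3; linear_combination e3⟩
    · right; right; right
      exact ⟨b₁, b₂, b₃, by push_cast at e1; linear_combination e1, by push_cast at e2; linear_combination e2,
        by push_cast at e3; linear_combination e3⟩

variable {k : Subfield L}

theorem x_not_mem (hk : ∀ y : L, y ^ 2 ∈ k → y ∈ k) {x y : L} {h : (EE L n).Nonsingular x y}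
    (hP : Affine.Point.some x y h ∉ algPt k n) : x ∉ k := by
  intro hx
  apply hP
  refine some_mem_algPt.2 ⟨hx, hk y ?_⟩
  rw [eqn_of h]
  exact mul_mem (mul_mem (sub_mem hx (intCast_mem k n)) hx) (add_mem hx (intCast_mem k n))

theorem y_ne_zero {x y : L} (h : (EE L n).Nonsingular x y) (hx : x ∉ k) : y ≠ 0 := by
  rintro rfl
  have h1 := eqn_of h
  have h0 : (x - n) * x * (x + n) = 0 := by linear_combination -h1
  apply hx
  rcases mul_eq_zero.1 h0 with h1 | h1
  · rcases mul_eq_zero.1 h1 with h2 | h2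
    · rw [sub_eq_zero.1 h2]
      exact intCast_mem k n
    · rw [h2]
      exact zero_mem _
  · rw [eq_neg_of_add_eq_zero_left h1]
    exact neg_mem (intCast_mem k n)

/-- the class of a point -/
theorem cls_plN [Algebra ℚ L] (hn : n = 2 ∨ n = 3) {x y : L}
    (hxy : y ^ 2 = (x - n) * x * (x + n))
    (hx : x ∉ k) {n₁ n₂ n₃ : ℤ} (h1 : n₁ ∈ HH) (h2 : n₂ ∈ HH) (h3 : n₃ ∈ HH) (hpos : 0 < n₃)
    {b₁ b₂ b₃ : L} (e1 : x - n = n₁ * b₁ ^ 2) (e2 : x = n₂ * b₂ ^ 2)
    (e3 : x + n = n₃ * b₃ ^ 2) (pl : Plc ℚ L ℚ_[2]) : (n₁, n₂, n₃) ∈ LN n := by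
  have g1 : b₁ ≠ 0 := by
    rintro rfl
    apply hx
    have : x = (n : L) := by linear_combination e1
    rw [this]
    exact mem_k n
  have g2 : b₂ ≠ 0 := by
    rintro rfl
    apply hx
    have : x = 0 := by linear_combination e2
    rw [this]
    exact zero_mem _
  have g3 : b₃ ≠ 0 := by
    rintro rfl
    apply hx
    have : x = -(n : L) := by linear_combination e3
    rw [this]
    exact neg_mem (mem_k n)
  have hprod : ∃ c : ℚ_[2], (n₁ : ℚ_[2]) * n₂ * n₃ = c ^ 2 := by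
    have h4 : (((n₁ * n₂ * n₃ : ℤ)) : L) = (y / (b₁ * b₂ * b₃)) ^ 2 := by
      have h5 : y ^ 2 = (n₁ * b₁ ^ 2) * (n₂ * b₂ ^ 2) * (n₃ * b₃ ^ 2) := by
        rw [← e1, ← e2, ← e3]
        exact hxy
      rw [div_pow, h5]
      push_cast
      field_simp
    obtain ⟨d, hd⟩ := val_sqrt pl h4
    refine ⟨d, ?_⟩
    rw [← hd]
    push_cast
    ring
  by_cases hxW : x ∈ pl.W
  · obtain ⟨X, hX⟩ := Plc.val_of_mem hxW
    have key : ∀ (e m : ℤ) (b : L), m ∈ HH → x - e = m * b ^ 2 → ∃ b' : ℚ_[2], X - e = m * b' ^ 2 := by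
      intro e m b hm hb
      have h5 : b ^ 2 = (x - e) * ((m : ℤ) : L)⁻¹ := by
        rw [hb]
        field_simp [HH_ne (L := L) hm]
      have h6 := (hX.sub (val_int e)).mul ((val_int m).inv (hh_ne hm))
      rw [← h5] at h6
      obtain ⟨b', hb'⟩ := Plc.val_of_mem (Plc.mem_of_pow_mem (pl := pl) (n := 2) (by norm_num) h6.mem)
      refine ⟨b', ?_⟩
      have h7 := (hb'.pow 2).unique h6
      rw [h7]
      field_simp [hh_ne hm]
    obtain ⟨c₁, f1⟩ := key n n₁ b₁ h1 e1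
    obtain ⟨c₂, f2⟩ := key 0 n₂ b₂ h2 (by rw [← e2]; push_cast; ring)
    obtain ⟨c₃, f3⟩ := key (-n) n₃ b₃ h3 (by rw [← e3]; push_cast; ring)
    exact locN hn h1 h2 h3 hpos (b₁ := c₁) (b₂ := c₂) (b₃ := c₃) f1
      (by rw [← f2]; push_cast; ring) (by rw [← f3]; push_cast; ring) hprod
  · -- at infinity the three classes agree
    have hx0 : x ≠ 0 := by
      rintro rfl
      exact hxW (zero_mem _)
    have hi := Plc.val_inv_of_notMem hxW
    have key : ∀ (e m e' m' : ℤ) (b b' : L), m ∈ HH → m' ∈ HH → b ≠ 0 → b' ≠ 0 →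
        x - e = m * b ^ 2 → x - e' = m' * b' ^ 2 → m = m' := by
      intro e m e' m' b b' hm hm' hb hb' h5 h6
      have hne : x - e' ≠ 0 := by
        rw [h6]
        exact mul_ne_zero (HH_ne hm') (pow_ne_zero _ hb')
      have h7 : (b / b') ^ 2 = (1 - e * x⁻¹) * (1 - e' * x⁻¹)⁻¹ * ((m' : ℤ) : L) * ((m : ℤ) : L)⁻¹ := by
        have h8 : 1 - e' * x⁻¹ = (x - e') / x := by field_simp
        have h9 : 1 - e * x⁻¹ = (x - e) / x := by field_simp
        rw [h8, h9, h5, h6, inv_div]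
        field_simp [HH_ne (L := L) hm, HH_ne (L := L) hm']
      have u1 : pl.val (1 - (e : L) * x⁻¹) 1 := by
        have := Plc.val_one.sub ((val_int (pl := pl) e).mul hi)
        rwa [mul_zero, sub_zero] at this
      have u2 : pl.val (1 - (e' : L) * x⁻¹) 1 := by
        have := Plc.val_one.sub ((val_int (pl := pl) e').mul hi)
        rwa [mul_zero, sub_zero] at this
      have h10 := ((u1.mul (u2.inv one_ne_zero)).mul (val_int m')).mul
        ((val_int m).inv (hh_ne hm))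
      rw [← h7] at h10
      obtain ⟨d, hd⟩ := Plc.val_of_mem (Plc.mem_of_pow_mem (pl := pl) (n := 2) (by norm_num) h10.mem)
      have h11 := (hd.pow 2).unique h10
      rw [inv_one, one_mul, one_mul] at h11
      refine prod_class hm' hm (c := m * d) ?_
      rw [mul_pow, h11]
      field_simp [hh_ne hm]
    have m1 : n₁ = n₃ := key n n₁ (-n) n₃ b₁ b₃ h1 h3 g1 g3 e1
      (by rw [← e3]; push_cast; ring)
    have m2 : n₂ = n₃ := key 0 n₂ (-n) n₃ b₂ b₃ h2 h3 g2 g3 (by rw [← e2]; push_cast; ring)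
      (by rw [← e3]; push_cast; ring)
    subst m1 m2
    obtain ⟨c, hc⟩ := hprod
    have m : n₂ = 1 := by
      have h0 := hh_ne h2
      refine prod_class (a := 1) (by decide) h2 (c := c / n₂) ?_
      rw [div_pow, ← hc]
      push_cast
      field_simp
    subst m
    rcases hn with rfl | rfl <;> decide

open Classical in
theorem exists_step [Algebra ℚ L] (hn : n = 2 ∨ n = 3) (hk : ∀ y : L, y ^ 2 ∈ k → y ∈ k)
    (hC : ClsN n k) (pl : Plc ℚ L ℚ_[2]) {P : (EE L n).Point} (hP : P ∉ algPt k n) :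
    ∃ T : (EE L n).Point, IsT T ∧ ∃ Q : (EE L n).Point, Q ∉ algPt k n ∧ P + T = Q + Q := by
  have hn0 : n ≠ 0 := by rcases hn with rfl | rfl <;> norm_num
  cases P with
  | zero => exact absurd (zero_mem _) hP
  | some x y h =>
    have hx := x_not_mem hk hP
    obtain ⟨n₁, h1, n₂, h2, n₃, h3, hpos, b₁, b₂, b₃, e1, e2, e3⟩ := hC x y (eqn_of h) hx
    have hm := cls_plN hn (eqn_of h) hx h1 h2 h3 hpos e1 e2 e3 pl
    have hne : ∀ m : ℤ, x ≠ m := by
      rintro m rfl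
      exact hx (intCast_mem k m)
    obtain ⟨T, hT, Q, hQ⟩ := desc_step hn0 h (hne n) (by simpa using hne 0)
      (by simpa using hne (-n)) (cls_of_LN hn hm e1 e2 e3)
    refine ⟨T, hT, Q, fun hQ' => hP ?_, hQ⟩
    have h4 : Affine.Point.some x y h = Q + Q - T := by rw [← hQ, add_sub_cancel_right]
    rw [h4]
    exact sub_mem (add_mem hQ' hQ') (hT.mem (k := k))

open Classical in
theorem iter [Algebra ℚ L] (hn : n = 2 ∨ n = 3) (hk : ∀ y : L, y ^ 2 ∈ k → y ∈ k)
    (hC : ClsN n k) (pl : Plc ℚ L ℚ_[2]) {P : (EE L n).Point} (hP : P ∉ algPt k n) (m : ℕ) :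
    ∃ Q : (EE L n).Point, Q ∉ algPt k n ∧ P + P = 2 ^ (m + 1) • Q := by
  induction m with
  | zero => exact ⟨P, hP, by rw [zero_add, pow_one, two_nsmul]⟩
  | succ m ih =>
    obtain ⟨R, hR, hPR⟩ := ih
    obtain ⟨U, hU, S, hS, hRS⟩ := exists_step hn hk hC pl hR
    refine ⟨S, hS, ?_⟩
    have h4 : 2 ^ (m + 1) • U = 0 := by
      rw [pow_succ, mul_nsmul', two_nsmul, hU.two, nsmul_zero]
    have h7 : 2 ^ (m + 1) • R = 2 ^ (m + 1) • (R + U) := by rw [nsmul_add, h4, add_zero]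
    rw [hPR, h7, hRS, ← two_nsmul, ← mul_nsmul']
    congr 1

/-- the points which are far away in the `2`-adic topology -/
def Far [Algebra ℚ L] (pl : Plc ℚ L ℚ_[2]) (m : ℕ) (P : (EE L n).Point) : Prop :=
  ∀ x y h, P = Affine.Point.some x y h → ∀ c, pl.val x c → (4 : ℝ) ^ m ≤ ‖c‖

/-- the values of the coordinates in the doubling formula -/
theorem dbl_val [Algebra ℚ L] {pl : Plc ℚ L ℚ_[2]} {x y x' : L} (h : (EE L n).Nonsingular x y)
    (hx' : 4 * y ^ 2 * x' = (x ^ 2 + n ^ 2) ^ 2) {d : ℚ_[2]} (hd : pl.val x' d) :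
    ∃ c, pl.val x c ∧ d * (4 * (c - n) * c * (c + n)) = (c ^ 2 + n ^ 2) ^ 2 := by
  have h0 : x' * (4 * (x - n) * x * (x + n)) = (x ^ 2 + n ^ 2) ^ 2 := by
    rw [← hx', eqn_of h]
    ring
  by_cases hx : x ∈ pl.W
  · obtain ⟨c, hc⟩ := Plc.val_of_mem hx
    refine ⟨c, hc, ?_⟩
    have h1 := hd.mul ((((val_ofNat (pl := pl) 4).mul (hc.sub (val_int n))).mul hc).mul
      (hc.add (val_int n)))
    have h2 := ((hc.pow 2).add ((val_int n).pow 2)).pow 2
    rw [h0] at h1
    exact h1.unique h2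
  · exfalso
    have hz0 : x ≠ 0 := by
      intro h
      rw [h] at hx
      exact hx (zero_mem _)
    have hw := Plc.val_inv_of_notMem hx
    have h3 : x' * (4 * x⁻¹ * (1 - n * x⁻¹) * (1 + n * x⁻¹)) = (1 + n ^ 2 * x⁻¹ ^ 2) ^ 2 := by
      field_simp
      linear_combination h0
    have h4 := hd.mul ((((val_ofNat (pl := pl) 4).mul hw).mul
      (Plc.val_one.sub ((val_int n).mul hw))).mul (Plc.val_one.add ((val_int n).mul hw)))
    rw [h3] at h4
    have h5 := (Plc.val_one.add (((val_int n).pow 2).mul (hw.pow 2))).pow 2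
    have h6 := h4.unique h5
    norm_num at h6

/-- doubling far away -/
theorem dbl_far {c d : ℚ_[2]} (h : d * (4 * (c - n) * c * (c + n)) = (c ^ 2 + n ^ 2) ^ 2)
    (hc : 4 ≤ ‖c‖) : ‖d‖ = 4 * ‖c‖ := by
  have n4 : ‖(4 : ℚ_[2])‖ = 1 / 4 := by
    have := nrm_two_pow 2
    norm_num at this ⊢
    exact this
  have hn1 : ‖(n : ℚ_[2])‖ ≤ 1 := Padic.norm_int_le_one (p := 2) n
  have h1 : ‖c + n‖ = ‖c‖ := nrm_add (by linarith)
  have h2 : ‖c - n‖ = ‖c‖ := by
    rw [sub_eq_add_neg]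
    exact nrm_add (by rw [norm_neg]; linarith)
  have h3 : ‖c ^ 2 + n ^ 2‖ = ‖c‖ ^ 2 := by
    rw [nrm_add, norm_pow]
    rw [norm_pow, norm_pow]
    have := norm_nonneg (n : ℚ_[2])
    nlinarith
  have h4 := congrArg norm h
  rw [norm_mul, norm_mul, norm_mul, norm_mul, h1, h2, n4, norm_pow, h3] at h4
  have h5 : (0 : ℝ) < ‖c‖ ^ 3 := by positivity
  have h6 : (‖d‖ - 4 * ‖c‖) * ‖c‖ ^ 3 = 0 := by linear_combination 4 * h4
  exact sub_eq_zero.1 ((mul_eq_zero.1 h6).resolve_right h5.ne')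

open Classical in
theorem far_dbl [Algebra ℚ L] {pl : Plc ℚ L ℚ_[2]} (hk : ∀ y : L, y ^ 2 ∈ k → y ∈ k) {m : ℕ}
    {Q : (EE L n).Point} (hQ : Q ∉ algPt k n) (hF : Far pl (m + 1) Q) : Far pl (m + 2) (Q + Q) := by
  intro x' y' h' hQQ d hd
  cases Q with
  | zero => exact absurd (zero_mem _) hQ
  | some x y h =>
    have hx := x_not_mem hk hQ
    obtain ⟨x₁, y₁, h₁, e, e1, -, -⟩ := dbl_pt h (y_ne_zero h hx)
    rw [hQQ, Affine.Point.some.injEq] at e
    obtain ⟨rfl, rfl⟩ := e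
    obtain ⟨c, hc, hcd⟩ := dbl_val h e1 hd
    have h1 := hF x y h rfl c hc
    have h2 : (4 : ℝ) ≤ ‖c‖ := by
      refine le_trans ?_ h1
      rw [pow_succ]
      have : (1 : ℝ) ≤ 4 ^ m := one_le_pow₀ (by norm_num)
      linarith
    rw [dbl_far hcd h2, pow_succ]
    linarith

open Classical in
theorem far_start [Algebra ℚ L] (hn : n = 2 ∨ n = 3) {pl : Plc ℚ L ℚ_[2]}
    (hk : ∀ y : L, y ^ 2 ∈ k → y ∈ k)
    {Q : (EE L n).Point} (hQ2 : Q + Q ∉ algPt k n) : Far pl 1 (Q + Q) := by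
  have hQ : Q ∉ algPt k n := fun h => hQ2 (add_mem h h)
  cases Q with
  | zero => exact absurd (zero_mem _) hQ
  | some x y h =>
    have hx := x_not_mem hk hQ
    have hy := y_ne_zero h hx
    obtain ⟨x₁, y₁, h₁, e, e1, e2, e3⟩ := dbl_pt h hy
    rw [e]
    intro x' y' h' hQQ c hc
    rw [Affine.Point.some.injEq] at hQQ
    obtain ⟨rfl, rfl⟩ := hQQ
    -- the values of the square roots
    have key : ∀ (w A : L) (v : ℚ_[2]), 4 * y ^ 2 * w = A ^ 2 → pl.val w v → ∃ a, v = a ^ 2 := by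
      intro w A v hw hv
      have h5 : (A / (2 * y)) ^ 2 = w := by
        rw [div_pow, ← hw]
        field_simp
        ring
      rw [← h5] at hv
      obtain ⟨a, ha⟩ := Plc.val_of_mem (Plc.mem_of_pow_mem (pl := pl) (n := 2) (by norm_num) hv.mem)
      exact ⟨a, hv.unique (ha.pow 2)⟩
    obtain ⟨a, ha⟩ := key _ _ _ e1 hc
    obtain ⟨b, hb⟩ := key _ _ _ e2 (hc.sub (val_int n))
    obtain ⟨b', hb'⟩ := key _ _ _ e3 (hc.add (val_int n))
    rw [pow_one, ha]
    exact sq_far hn (a := a) (b := b) (c := b') (by rw [← ha, ← hb]) (by rw [← ha, ← hb'])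

open Classical in
theorem far_pow [Algebra ℚ L] (hn : n = 2 ∨ n = 3) {pl : Plc ℚ L ℚ_[2]}
    (hk : ∀ y : L, y ^ 2 ∈ k → y ∈ k)
    {Q : (EE L n).Point} (m : ℕ) (hQ : 2 ^ (m + 1) • Q ∉ algPt k n) :
    Far pl (m + 1) (2 ^ (m + 1) • Q) := by
  induction m with
  | zero =>
    rw [zero_add, pow_one, two_nsmul] at hQ ⊢
    exact far_start hn hk hQ
  | succ m ih =>
    have h1 : 2 ^ (m + 1 + 1) • Q = 2 ^ (m + 1) • Q + 2 ^ (m + 1) • Q := by
      rw [← add_nsmul]
      congr 1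
      ring
    rw [h1] at hQ ⊢
    have h2 : 2 ^ (m + 1) • Q ∉ algPt k n := fun h => hQ (add_mem h h)
    exact far_dbl hk h2 (ih h2)

open Classical in
/-- a point of which all coordinates are squares is far away -/
theorem coreN [Algebra ℚ L] (hn : n = 2 ∨ n = 3) (hk : ∀ y : L, y ^ 2 ∈ k → y ∈ k)
    (hC : ClsN n k) (pl : Plc ℚ L ℚ_[2]) {x : L} (hx : x ∉ k) (h1 : ∃ a, x - n = a ^ 2)
    (h2 : ∃ b, x = b ^ 2) (h3 : ∃ c, x + n = c ^ 2) : x ∉ pl.W := by
  have hn0 : n ≠ 0 := by rcases hn with rfl | rfl <;> norm_num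
  obtain ⟨a, ha⟩ := h1
  obtain ⟨b, hb⟩ := h2
  obtain ⟨c, hc⟩ := h3
  have hns : (EE L n).Nonsingular x (a * b * c) := by
    refine ns_of hn0 ?_
    rw [ha, hc]
    linear_combination (-(a ^ 2 * c ^ 2)) * hb
  obtain ⟨P, hP⟩ := halve' hn0 hns ha hb hc
  have hPP : P + P ∉ algPt k n := by
    rw [← hP]
    intro h1
    exact hx (some_mem_algPt.1 h1).1
  have hPn : P ∉ algPt k n := fun h => hPP (add_mem h h)
  intro hxW
  obtain ⟨v, hv⟩ := Plc.val_of_mem hxW
  obtain ⟨m, hm⟩ := pow_unbounded_of_one_lt ‖v‖ (show (1 : ℝ) < 4 by norm_num)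
  obtain ⟨Q, hQ, hPQ⟩ := iter hn hk hC pl hPn m
  have h4 := far_pow hn (pl := pl) hk m (Q := Q) (by rw [← hPQ]; exact hPP)
  have h5 := h4 x _ hns (by rw [← hPQ, hP]) v hv
  have h6 : (4 : ℝ) ^ m ≤ 4 ^ (m + 1) := pow_le_pow_right₀ (by norm_num) (by omega)
  linarith

end

end Pool.Agent.Zk12.CN
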