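import Mathlib
import Pool.Agent.Zk12.CE
import Pool.Agent.Zk12.CoreN

/-!
# The classes of the points of the elliptic curve `y² = x³ - n² x` over a fixed field
-/

set_option autoImplicit false
set_option linter.all false

namespace Pool.Agent.Zk12.CN

open Pool.Agent.Zk12
open Pool.Agent.Y157.PS (IsU Ine) 
open Pool.Agent.Y158.GR (Above)
open IsDedekindDomain NumberField

section

variable {κ M L : Type} [Field κ] [Field M] [Field L] [CharZero M] [CharZero L] [Algebra ℚ κ]
  [IsAlgClosure ℚ κ] {ι : κ →+* M} {s : (κ ≃ₐ[ℚ] κ) →* RingAut M} {φ : L →+* M}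

/-- the roots -/
def SN (n : ℤ) : Finset ℚ := {(n : ℚ), 0, -(n : ℚ)}

theorem SN_card {n : ℤ} (hn : 0 < n) : (SN n).card = 2 * 1 + 1 := by
  have hq : (0 : ℚ) < n := by exact_mod_cast hn
  unfold SN
  rw [Finset.card_insert_of_notMem, Finset.card_insert_of_notMem, Finset.card_singleton]
  · simp only [Finset.mem_singleton]
    linarith
  · simp only [Finset.mem_insert, Finset.mem_singleton]
    rintro (h | h) <;> linarith

theorem SN_prod {n : ℤ} (hn : 0 < n) {F : Type} [Field F] [CharZero F] (t : F) :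
    ∏ e ∈ SN n, (t - (e : F)) = (t - n) * t * (t + n) := by
  have hq : (0 : ℚ) < n := by exact_mod_cast hn
  unfold SN
  rw [Finset.prod_insert, Finset.prod_insert, Finset.prod_singleton]
  · push_cast
    ring
  · simp only [Finset.mem_singleton]
    linarith
  · simp only [Finset.mem_insert, Finset.mem_singleton]
    rintro (h | h) <;> linarith

theorem clsN_of {n : ℤ} (hn : n = 2 ∨ n = 3) (hR : Root2 ι) (hs : SD ι s) (hφ : Fxd s φ)
    (hT : ∀ v : HeightOneSpectrum (𝓞 ℚ), v.valuation ℚ 6 = 1 → Tame v ι s) :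
    ClsN n (kk ι φ) := by
  have hn0 : 0 < n := by rcases hn with rfl | rfl <;> norm_num
  have hnq : (0 : ℚ) < n := by exact_mod_cast hn0
  intro x y hxy hx
  have hφq : ∀ q : ℚ, φ (q : L) = (q : M) := fun q => map_ratCast φ q
  have hq : ∀ q : ℚ, (q : L) ∈ kk ι φ := fun q => mem_kk.2 ⟨algebraMap ℚ κ q, by
    rw [iota_rat, hφq]⟩
  have hxe : ∀ e : ℚ, x - (e : L) ≠ 0 := by
    intro e h
    apply hx
    rw [sub_eq_zero.1 h]
    exact hq e
  have hy : y ≠ 0 := by
    rintro rfl
    have h1 := (SN_prod hn0 x).symm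
    rw [← hxy] at h1
    have h2 : ∏ e ∈ SN n, (x - (e : L)) = 0 := by rw [← h1]; ring
    rw [Finset.prod_eq_zero_iff] at h2
    obtain ⟨e, -, he⟩ := h2
    exact hxe e he
  have hyM : φ y ≠ 0 := (map_ne_zero φ).2 hy
  have hM : ((1 : ℚ) : M) * (φ y) ^ 2 = ∏ e ∈ SN n, (φ x - (e : M)) := by
    have h10 : φ n = n := map_intCast φ n
    rw [SN_prod hn0, ← map_pow, hxy, Rat.cast_one, one_mul, map_mul, map_mul, map_sub,
      map_add, h10]
  have key : ∀ e ∈ SN n, ∃ (m : ℤ) (b : L), m ∈ HH ∧ b ≠ 0 ∧ x - (e : L) = m * b ^ 2 := by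
    intro e he
    obtain ⟨u, hu⟩ := rootP hR (SN_card hn0) one_ne_zero hyM hM he
    have hu' : u ^ 2 = φ (x - (e : L)) := by rw [hu, map_sub, hφq]
    obtain ⟨m, b, c, hm, hb, hmb, hc, huc⟩ := kummer hs hφ hu' (hxe e)
    have hc0 : c ≠ 0 := by
      rintro rfl
      rw [zero_pow two_ne_zero] at hc
      haveI : CharZero κ := charZero_of_injective_algebraMap (algebraMap ℚ κ).injective
      exact hm.ne_zero (by exact_mod_cast hc.symm)
    refine ⟨m, b, mem_HH hm fun v hv => ?_, hb, hmb⟩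
    have h23 := v_23 hv
    have h1 : v.valuation ℚ 1 = 1 := map_one _
    have h4 : v.valuation ℚ 4 = 1 := by
      rw [show (4 : ℚ) = 2 * 2 by norm_num, map_mul, h23.1]; norm_num
    have h2 := h23.1
    have h3 := h23.2
    have hneg : ∀ q : ℚ, v.valuation ℚ q = 1 → v.valuation ℚ (-q) = 1 := fun q hq => by
      rw [Valuation.map_neg, hq]
    have n2 := hneg _ h2
    have n3 := hneg _ h3
    have n4 := hneg _ h4
    have n6 := hneg _ hv
    refine unrP (hT v hv) h23.1 hs hφ (SN_card hn0) (a := 1) (map_one _) ?_ ?_ hy ?_ he (u := u)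
      hu' hc huc hc0 hb
    · intro e he
      simp only [SN, Finset.mem_insert, Finset.mem_singleton] at he
      rcases he with rfl | rfl | rfl
      · exact v_int v n
      · exact_mod_cast v_int v 0
      · exact_mod_cast v_int v (-n)
    · intro e he e' he' hee
      simp only [SN, Finset.mem_insert, Finset.mem_singleton] at he he'
      rcases hn with rfl | rfl <;>
      rcases he with rfl | rfl | rfl <;> rcases he' with rfl | rfl | rfl <;>
        first
          | exact absurd rfl hee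
          | (norm_num <;> assumption)
    · rw [SN_prod hn0, Rat.cast_one, one_mul, hxy]
  obtain ⟨n₁, b₁, h1, hb1, e1⟩ := key n (by simp [SN])
  obtain ⟨n₂, b₂, h2, hb2, e2⟩ := key 0 (by simp [SN])
  obtain ⟨n₃, b₃, h3, hb3, e3⟩ := key (-n) (by simp [SN])
  have hz : ∀ n ∈ HH, n ≠ 0 := by decide
  have f1 : x - n = n₁ * b₁ ^ 2 := by rw [← e1]; push_cast; ring
  have f2 : x = n₂ * b₂ ^ 2 := by rw [← e2]; push_cast; ring
  have f3 : x + n = n₃ * b₃ ^ 2 := by rw [← e3]; push_cast; ring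
  have hprod : 0 ≤ n₁ * n₂ * n₃ := by
    refine pos_of_sq (b := y / (b₁ * b₂ * b₃)) hs hφ ?_
    have h5 : y ^ 2 = (n₁ * b₁ ^ 2) * (n₂ * b₂ ^ 2) * (n₃ * b₃ ^ 2) := by
      rw [← f1, ← f2, ← f3]
      exact hxy
    rw [div_pow, h5]
    push_cast
    field_simp
  have hpos : 0 < n₃ := by
    by_contra hneg
    have hneg' : n₃ < 0 := lt_of_le_of_ne (not_lt.1 hneg) (hz _ h3)
    have hn12 : n₁ * n₂ < 0 := by
      have h4 : n₁ * n₂ ≠ 0 := mul_ne_zero (hz _ h1) (hz _ h2)
      rcases lt_or_gt_of_ne h4 with h5 | h5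
      · exact h5
      · exfalso
        have := mul_neg_of_pos_of_neg h5 hneg'
        omega
    rcases lt_or_gt_of_ne (hz _ h1) with h5 | h5
    · have h6 : 0 < n₂ := by
        by_contra h7
        have := mul_nonneg_of_nonpos_of_nonpos h5.le (not_lt.1 h7)
        omega
      exact sgn_mono hR hs hφ (e := -n) (e' := 0) (e'' := n) (by linarith) (by linarith)
        (by linarith) e3 e2 e1 (hz _ h1) ⟨hneg', h6⟩
    · exact sgn_mono hR hs hφ (e := -n) (e' := n) (e'' := 0) (by linarith) (by linarith)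
        (by linarith) e3 e1 e2 (hz _ h2) ⟨hneg', h5⟩
  exact ⟨n₁, h1, n₂, h2, n₃, h3, hpos, b₁, b₂, b₃, f1, f2, f3⟩

end

end Pool.Agent.Zk12.CN
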