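import Mathlib
import Pool.Agent.Zk12.CEN
import Pool.Agent.Zk12.TConc

/-!
# Six points with good reduction outside `6`: the local classes at `2`
-/

set_option autoImplicit false
set_option linter.all false

namespace Pool.Agent.Zk12.G6

open Pool.Agent.Zk12 Pool.Agent.TH954 Pool.Agent.Zk12.CN

/-- the classes of one of the six points -/
def Pt (E : Fin 5 → ℤ) (α : Fin 5 → ℤ) : Prop :=
  (∀ i, α i = α 2) ∨ ∃ k, ∀ l, l ≠ k → α l = cl 3 (E k - E l)

instance (E : Fin 5 → ℤ) : DecidablePred (Pt E) := fun α => by unfold Pt; infer_instance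

def Chk1 (E : Fin 5 → ℤ) (r : ℕ) : Prop := ∀ k l : Fin 5, ((r : ℤ) - E k) % 2 ^ (4 + 1) = 0 →
      l ≠ k → ((r : ℤ) - E l) % 2 ^ (4 + 1) ≠ 0 ∧ cl 4 ((r : ℤ) - E l) ∈ HH ∧
        cl 4 ((r : ℤ) - E l) = cl 3 (E k - E l)

def Chk2 (E : Fin 5 → ℤ) (r : ℕ) : Prop := (∀ k : Fin 5, ((r : ℤ) - E k) % 2 ^ (4 + 1) ≠ 0) →
      (∀ i : Fin 5, cl 4 ((r : ℤ) - E i) ∈ HH) ∧
      (Mono (fun i => cl 4 ((r : ℤ) - E i)) → Pt E (fun i => cl 4 ((r : ℤ) - E i)))

def Chk3 (E : Fin 5 → ℤ) (r : ℕ) (a : ℤ) : Prop :=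
  (∀ i : Fin 5, cl 2 (a * (1 - 2 * (r : ℤ) * E i)) ∈ HH) ∧
    (Mono (fun i => cl 2 (a * (1 - 2 * (r : ℤ) * E i))) →
      Pt E (fun i => cl 2 (a * (1 - 2 * (r : ℤ) * E i))))

instance (E : Fin 5 → ℤ) (r : ℕ) : Decidable (Chk1 E r) := by unfold Chk1; infer_instance
instance (E : Fin 5 → ℤ) (r : ℕ) : Decidable (Chk2 E r) := by unfold Chk2; infer_instance
instance (E : Fin 5 → ℤ) (r : ℕ) (a : ℤ) : Decidable (Chk3 E r a) := by
  unfold Chk3; infer_instance

/-- six points `E 0 < ⋯ < E 4, ∞` with good reduction outside `6` -/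
structure Six (E : Fin 5 → ℤ) (c m : ℤ) : Prop where
  z2 : E 2 = 0
  mono : ∀ i j, i < j → E i < E j
  dif : ∀ i j, i ≠ j → (E i - E j) ∣ 6 ^ 6
  chk1 : ∀ r < 128, Chk1 E r ∧ Chk2 E r
  chk3 : ∀ r < 4, ∀ a ∈ HH, Chk3 E r a
  shift : ∀ i, E i + c ≠ 0
  cm : c ^ 2 + m ≠ 0
  em : ∀ i, (E i ^ 2 + m) ∣ 6 ^ 6
  ml : m ∣ 6 ^ 6

/-- the second set of points -/
def ev2 : Fin 5 → ℤ := ![-2, -1, 0, 1, 2]

theorem six1 : Six ev 2 3 := by
  constructor
  · decide
  · decide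
  · decide
  · decide +kernel
  · decide +kernel
  · decide
  · decide
  · decide
  · decide

theorem six2 : Six ev2 3 2 := by
  constructor
  · decide
  · decide
  · decide
  · decide +kernel
  · decide +kernel
  · decide
  · decide
  · decide
  · decide

variable {E : Fin 5 → ℤ} {c m : ℤ}

theorem Six.locT (hE : Six E c m) {T : ℚ_[2]} {α : Fin 5 → ℤ} (hα : ∀ i, α i ∈ HH) (hm : Mono α)
    {b : Fin 5 → ℚ_[2]} (h : ∀ i, T - E i = α i * b i ^ 2) : Pt E α := by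
  by_cases hT : ‖T‖ ≤ 1
  · obtain ⟨x, hx⟩ : ∃ x : ℤ_[2], (x : ℚ_[2]) = T := ⟨⟨T, hT⟩, rfl⟩
    obtain ⟨r, hr, y, hy⟩ := residue (4 + 3) x
    obtain ⟨c1, c2⟩ := hE.chk1 r hr
    have key : ∀ i, ((r : ℤ) - E i) % 2 ^ (4 + 1) ≠ 0 → cl 4 ((r : ℤ) - E i) ∈ HH →
        α i = cl 4 ((r : ℤ) - E i) := by
      intro i hr hn
      have h4 := cl_close hy (E i) hr 4 (fun h => by rw [h] at hn; revert hn; decide)
      refine SqM.uniq (hα i) hn (SqM.of_eq (b := b i) ?_ (h4.ne_zero hn)) h4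
      rw [hx, ← h i]
    by_cases hk : ∃ k, ((r : ℤ) - E k) % 2 ^ (4 + 1) = 0
    · obtain ⟨k, hk⟩ := hk
      right
      refine ⟨k, fun l hl => ?_⟩
      obtain ⟨d1, d2, d3⟩ := c1 k l hk hl
      rw [← d3]
      exact key l d1 d2
    · push Not at hk
      obtain ⟨d1, d2⟩ := c2 hk
      have : α = fun i => cl 4 ((r : ℤ) - E i) := funext fun i => key i (hk i) (d1 i)
      rw [this] at hm ⊢
      exact d2 hm
  · obtain ⟨z, hz⟩ := inv_two hT
    have hT0 : T ≠ 0 := by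
      rintro rfl
      apply hT
      rw [norm_zero]
      exact zero_le_one
    have hTz : T * (2 * (z : ℚ_[2])) = 1 := by rw [← hz, mul_inv_cancel₀ hT0]
    obtain ⟨r, hr, y, hy⟩ := residue 2 z
    obtain ⟨c1, c2⟩ := hE.chk3 r (by norm_num at hr ⊢; exact hr) (α 2) (hα 2)
    have h0 : SqM (α 2) T := by
      refine SqM.of_eq (b := b 2) ?_ hT0
      rw [← h 2, hE.z2]
      simp
    have key : ∀ i, α i = cl 2 (α 2 * (1 - 2 * r * E i)) := by
      intro i
      have hn := c1 i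
      -- `T - e = T (1 - 2 r e) (1 + 8 y')`
      have hodd : (1 - 2 * (r : ℤ) * E i) % 2 = 1 := by
        have : 1 - 2 * (r : ℤ) * E i = 1 + 2 * (-(r * E i)) := by ring
        omega
      obtain ⟨u, hu⟩ := oddInv _ hodd
      have h3 : T - E i = T * ((((1 - 2 * r * E i : ℤ)) : ℚ_[2]) *
          (1 + 8 * ((-(E i : ℤ_[2]) * y * u : ℤ_[2]) : ℚ_[2]))) := by
        have hu' := congrArg (fun w : ℤ_[2] => (w : ℚ_[2])) hu
        have hy' := congrArg (fun w : ℤ_[2] => (w : ℚ_[2])) hy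
        have h2' : ((2 : ℤ_[2]) : ℚ_[2]) = 2 := rfl
        push_cast at hu' hy' ⊢
        rw [h2'] at hy' hu'
        linear_combination (E i : ℚ_[2]) * hTz - (2 * T * E i) * hy' +
          8 * T * (E i : ℚ_[2]) * y * hu'
      have h4 : SqM (cl 2 (α 2 * (1 - 2 * r * E i))) (T - E i) := by
        rw [h3]
        have h5 := (cl_spec 2 (α 2 * (1 - 2 * r * E i)) (fun h => by
          rw [h] at hn; revert hn; decide))
        obtain ⟨β, hβ, hTβ⟩ := h0
        have h6 := (sqM_close h5 (-(E i : ℤ_[2]) * y * u)).sq hβ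
        have h7 : T * ((((1 - 2 * r * E i : ℤ)) : ℚ_[2]) *
            (1 + 8 * ((-(E i : ℤ_[2]) * y * u : ℤ_[2]) : ℚ_[2]))) =
            (((α 2 * (1 - 2 * r * E i) : ℤ)) : ℚ_[2]) *
            (1 + 8 * ((-(E i : ℤ_[2]) * y * u : ℤ_[2]) : ℚ_[2])) * β ^ 2 := by
          rw [hTβ]
          push_cast
          ring
        rw [h7]
        exact h6
      exact SqM.uniq (hα i) hn (SqM.of_eq (h i) (h4.ne_zero hn)) h4
    have : α = fun i => cl 2 (α 2 * (1 - 2 * r * E i)) := funext key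
    rw [this] at hm ⊢
    exact c2 hm

/-- the classes at a place -/
theorem Six.pat_pl {L : Type} [Field L] [CharZero L] [Algebra ℚ L] (hE : Six E c m)
    (pl : Plc ℚ L ℚ_[2]) {t : L} {α : Fin 5 → ℤ} (hα : ∀ i, α i ∈ HH) (hm : Mono α)
    {b : Fin 5 → L} (hb : ∀ i, b i ≠ 0) (h : ∀ i, t - E i = α i * b i ^ 2) : Pt E α := by
  by_cases ht : t ∈ pl.W
  · obtain ⟨T, hT⟩ := Plc.val_of_mem ht
    have key : ∀ i, ∃ b' : ℚ_[2], T - E i = α i * b' ^ 2 := by
      intro i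
      have h5 : b i ^ 2 = (t - E i) * ((α i : ℤ) : L)⁻¹ := by
        rw [h i]
        field_simp [HH_ne (L := L) (hα i)]
      have h6 := (hT.sub (val_int (E i))).mul ((val_int (α i)).inv (hh_ne (hα i)))
      rw [← h5] at h6
      obtain ⟨b', hb'⟩ := Plc.val_of_mem (Plc.mem_of_pow_mem (pl := pl) (n := 2) (by norm_num) h6.mem)
      refine ⟨b', ?_⟩
      have h7 := (hb'.pow 2).unique h6
      rw [h7]
      field_simp [hh_ne (hα i)]
    choose b' hb' using key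
    exact hE.locT hα hm hb'
  · left
    intro i
    have hx0 : t ≠ 0 := by
      rintro rfl
      exact ht (zero_mem _)
    have hi := Plc.val_inv_of_notMem ht
    have key : ∀ (e n e' n' : ℤ) (b b' : L), n ∈ HH → n' ∈ HH → b ≠ 0 → b' ≠ 0 →
        t - e = n * b ^ 2 → t - e' = n' * b' ^ 2 → n = n' := by
      intro e n e' n' b b' hn hn' hb hb' h5 h6
      have hne : t - e' ≠ 0 := by
        rw [h6]
        exact mul_ne_zero (HH_ne hn') (pow_ne_zero _ hb')
      have h7 : (b / b') ^ 2 = (1 - e * t⁻¹) * (1 - e' * t⁻¹)⁻¹ * ((n' : ℤ) : L) * ((n : ℤ) : L)⁻¹ := by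
        have h8 : 1 - e' * t⁻¹ = (t - e') / t := by field_simp
        have h9 : 1 - e * t⁻¹ = (t - e) / t := by field_simp
        rw [h8, h9, h5, h6, inv_div]
        field_simp [HH_ne (L := L) hn, HH_ne (L := L) hn']
      have u1 : pl.val (1 - (e : L) * t⁻¹) 1 := by
        have := Plc.val_one.sub ((val_int (pl := pl) e).mul hi)
        rwa [mul_zero, sub_zero] at this
      have u2 : pl.val (1 - (e' : L) * t⁻¹) 1 := by
        have := Plc.val_one.sub ((val_int (pl := pl) e').mul hi)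
        rwa [mul_zero, sub_zero] at this
      have h10 := ((u1.mul (u2.inv one_ne_zero)).mul (val_int n')).mul
        ((val_int n).inv (hh_ne hn))
      rw [← h7] at h10
      obtain ⟨d, hd⟩ := Plc.val_of_mem (Plc.mem_of_pow_mem (pl := pl) (n := 2) (by norm_num) h10.mem)
      have h11 := (hd.pow 2).unique h10
      rw [inv_one, one_mul, one_mul] at h11
      refine prod_class hn' hn (c := n * d) ?_
      rw [mul_pow, h11]
      field_simp [hh_ne hn]
    exact key _ _ _ _ _ _ (hα i) (hα 2) (hb i) (hb 2) (h i) (h 2)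

end Pool.Agent.Zk12.G6
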