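import Mathlib
import Pool.Agent.Zk12.G6Loc

/-!
# Six points with good reduction outside `6`: the coordinate at the place
-/

set_option autoImplicit false
set_option linter.all false

namespace Pool.Agent.Zk12.G6

open Pool.Agent.Zk12 Pool.Agent.TH954 Pool.Agent.Zk12.CN

section

variable {L : Type} [Field L] [CharZero L] [Algebra ℚ L] {k : Subfield L}

/-- an arithmetic progression in the class `D` -/
theorem ap {n : ℤ} (hn : n = 2 ∨ n = 3) (hk : ∀ y : L, y ^ 2 ∈ k → y ∈ k) (hC : ClsN n k)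
    (pl : Plc ℚ L ℚ_[2]) {t : L} (ht : t ∉ k) {D : ℤ} (e δ r : ℤ) (hδ : δ ≠ 0)
    (hD : D * δ = n * r ^ 2)
    (h1 : ∃ q : L, t - ((e + δ : ℤ) : L) = D * q ^ 2) (h0 : ∃ q : L, t - (e : ℤ) = D * q ^ 2)
    (h2 : ∃ q : L, t - ((e - δ : ℤ) : L) = D * q ^ 2) : t ∉ pl.W := by
  have hn0 : (n : L) ≠ 0 := by
    rcases hn with rfl | rfl <;> norm_num
  have hδL : (δ : L) ≠ 0 := by exact_mod_cast hδ
  have hDL : (D : L) * δ = n * r ^ 2 := by exact_mod_cast congrArg (fun z : ℤ => (z : L)) hD
  obtain ⟨q1, h1⟩ := h1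
  obtain ⟨q0, h0⟩ := h0
  obtain ⟨q2, h2⟩ := h2
  push_cast at h1 h2
  have hxk : (n : L) * (t - e) / δ ∉ k := by
    intro h
    apply ht
    have h5 : t = e + δ * ((n : L) * (t - e) / δ) / n := by
      field_simp
      ring
    rw [h5]
    exact add_mem (intCast_mem k e) (div_mem (mul_mem (intCast_mem k δ) h) (intCast_mem k n))
  have h3 := coreN hn hk hC pl hxk ⟨n * r * q1 / δ, ?_⟩ ⟨n * r * q0 / δ, ?_⟩
    ⟨n * r * q2 / δ, ?_⟩
  · intro h
    apply h3
    have h5 : (n : L) * (t - e) / δ = n * (t - e) * (δ : L)⁻¹ := by rw [div_eq_mul_inv]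
    rw [h5]
    have h6 : ((δ : L))⁻¹ ∈ pl.W :=
      ((val_int (pl := pl) δ).inv (by exact_mod_cast hδ)).mem
    exact mul_mem (mul_mem (val_int (pl := pl) n).mem (sub_mem h (val_int (pl := pl) e).mem)) h6
  · have e1 : t - e = D * q1 ^ 2 + δ := by linear_combination h1
    rw [e1]
    field_simp
    linear_combination q1 ^ 2 * hDL
  · rw [h0]
    field_simp
    linear_combination q0 ^ 2 * hDL
  · have e1 : t - e = D * q2 ^ 2 - δ := by linear_combination h2
    rw [e1]
    field_simp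
    linear_combination q2 ^ 2 * hDL

theorem constA (hk : ∀ y : L, y ^ 2 ∈ k → y ∈ k) (hC2 : ClsN 2 k) (hC3 : ClsN 3 k)
    (pl : Plc ℚ L ℚ_[2]) {t : L} (ht : t ∉ k) {D : ℤ} (hD : D ∈ HH)
    (h : ∀ e ∈ ([-2, -1, 0, 1, 2] : List ℤ), ∃ q : L, t - (e : L) = D * q ^ 2) : t ∉ pl.W := by
  simp only [HH, List.mem_cons, List.not_mem_nil, or_false] at hD
  rcases hD with rfl | rfl | rfl | rfl | rfl | rfl | rfl | rfl
  · exact ap (Or.inl rfl) hk hC2 pl ht 0 2 1 (by decide) (by decide) (h _ (by decide))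
      (h _ (by decide)) (h _ (by decide))
  · exact ap (Or.inl rfl) hk hC2 pl ht 0 (-2) 1 (by decide) (by decide) (h _ (by decide))
      (h _ (by decide)) (h _ (by decide))
  · exact ap (Or.inl rfl) hk hC2 pl ht 0 1 1 (by decide) (by decide) (h _ (by decide))
      (h _ (by decide)) (h _ (by decide))
  · exact ap (Or.inl rfl) hk hC2 pl ht 0 (-1) 1 (by decide) (by decide) (h _ (by decide))
      (h _ (by decide)) (h _ (by decide))
  · exact ap (Or.inr rfl) hk hC3 pl ht 0 1 1 (by decide) (by decide) (h _ (by decide))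
      (h _ (by decide)) (h _ (by decide))
  · exact ap (Or.inr rfl) hk hC3 pl ht 0 (-1) 1 (by decide) (by decide) (h _ (by decide))
      (h _ (by decide)) (h _ (by decide))
  · exact ap (Or.inr rfl) hk hC3 pl ht 0 2 2 (by decide) (by decide) (h _ (by decide))
      (h _ (by decide)) (h _ (by decide))
  · exact ap (Or.inr rfl) hk hC3 pl ht 0 (-2) 2 (by decide) (by decide) (h _ (by decide))
      (h _ (by decide)) (h _ (by decide))

theorem constB (hk : ∀ y : L, y ^ 2 ∈ k → y ∈ k) (hC2 : ClsN 2 k) (hC3 : ClsN 3 k)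
    (pl : Plc ℚ L ℚ_[2]) {t : L} (ht : t ∉ k) {D : ℤ} (hD : D ∈ HH)
    (h : ∀ e ∈ ([-6, -3, -2, 0, 6] : List ℤ), ∃ q : L, t - (e : L) = D * q ^ 2) : t ∉ pl.W := by
  simp only [HH, List.mem_cons, List.not_mem_nil, or_false] at hD
  rcases hD with rfl | rfl | rfl | rfl | rfl | rfl | rfl | rfl
  · exact ap (Or.inr rfl) hk hC3 pl ht (-3) 3 1 (by decide) (by decide) (h _ (by decide))
      (h _ (by decide)) (h _ (by decide))
  · exact ap (Or.inr rfl) hk hC3 pl ht (-3) (-3) 1 (by decide) (by decide) (h _ (by decide))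
      (h _ (by decide)) (h _ (by decide))
  · exact ap (Or.inr rfl) hk hC3 pl ht 0 6 2 (by decide) (by decide) (h _ (by decide))
      (h _ (by decide)) (h _ (by decide))
  · exact ap (Or.inr rfl) hk hC3 pl ht 0 (-6) 2 (by decide) (by decide) (h _ (by decide))
      (h _ (by decide)) (h _ (by decide))
  · exact ap (Or.inl rfl) hk hC2 pl ht 0 6 3 (by decide) (by decide) (h _ (by decide))
      (h _ (by decide)) (h _ (by decide))
  · exact ap (Or.inl rfl) hk hC2 pl ht 0 (-6) 3 (by decide) (by decide) (h _ (by decide))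
      (h _ (by decide)) (h _ (by decide))
  · exact ap (Or.inl rfl) hk hC2 pl ht (-3) 3 3 (by decide) (by decide) (h _ (by decide))
      (h _ (by decide)) (h _ (by decide))
  · exact ap (Or.inl rfl) hk hC2 pl ht (-3) (-3) 3 (by decide) (by decide) (h _ (by decide))
      (h _ (by decide)) (h _ (by decide))

/-- a coordinate which has its pole at `e` -/
theorem mob_val (pl : Plc ℚ L ℚ_[2]) {t : L} {e A c : ℤ} (hc : c ≠ 0)
    (h6 : (A : L) + c / (t - e) ∉ pl.W) : pl.val t (e : ℚ_[2]) := by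
  have h7 : (t - e)⁻¹ ∉ pl.W := by
    intro h
    apply h6
    rw [div_eq_mul_inv]
    exact add_mem (val_int (pl := pl) A).mem (mul_mem (val_int (pl := pl) c).mem h)
  have h8 := Plc.val_inv_of_notMem h7
  rw [inv_inv] at h8
  have h9 := h8.add (val_int (pl := pl) e)
  rwa [sub_add_cancel, zero_add] at h9

theorem mob_notk {t : L} (ht : t ∉ k) {e A c : ℤ} (hc : c ≠ 0) :
    (A : L) + c / (t - e) ∉ k := by
  have hcL : (c : L) ≠ 0 := by exact_mod_cast hc
  have hte : t - e ≠ 0 := by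
    intro h
    apply ht
    rw [sub_eq_zero.1 h]
    exact intCast_mem k e
  intro h
  apply ht
  have h6 : t = e + c / ((A : L) + c / (t - e) - A) := by
    rw [add_sub_cancel_left]
    field_simp
    ring
  rw [h6]
  exact add_mem (intCast_mem k e) (div_mem (intCast_mem k c) (sub_mem h (intCast_mem k A)))

theorem mob_cls {t : L} {e A c αi D r : ℤ} {bi : L} (hi : t - e = αi * bi ^ 2)
    (hte : t - e ≠ 0) (hc : c ≠ 0) (hD : c * αi = D * r ^ 2) (e' el αl ρ : ℤ) (bl : L)
    (hl : t - el = αl * bl ^ 2) (hρ : e - el = αl * ρ ^ 2) (hA : (A - e') * (e - el) = c) :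
    ∃ q : L, (A : L) + c / (t - e) - (e' : L) = D * q ^ 2 := by
  have hcL : (c : L) ≠ 0 := by exact_mod_cast hc
  have hρ0 : (ρ : L) ≠ 0 := by
    have : ρ ≠ 0 := by
      rintro rfl
      apply hc
      rw [← hA, hρ]
      ring
    exact_mod_cast this
  have hα0 : (αi : L) ≠ 0 := by
    rintro h
    apply hte
    rw [hi, h]
    ring
  have hb0 : bi ≠ 0 := by
    rintro rfl
    apply hte
    rw [hi]
    ring
  have gD : (c : L) * αi = D * r ^ 2 := by exact_mod_cast congrArg (fun z : ℤ => (z : L)) hD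
  have gρ : (e : L) - el = αl * ρ ^ 2 := by exact_mod_cast congrArg (fun z : ℤ => (z : L)) hρ
  have gA : ((A : L) - e') * (e - el) = c := by exact_mod_cast congrArg (fun z : ℤ => (z : L)) hA
  refine ⟨r * bl / (ρ * αi * bi), ?_⟩
  have h1 : (A : L) + c / (t - e) - (e' : L) = (A - e') * (αl * bl ^ 2) / (t - e) := by
    rw [← hl]
    field_simp
    linear_combination -gA
  rw [h1, hi]
  have h2 : (D : L) * (r * bl / (ρ * αi * bi)) ^ 2 = (D * r ^ 2) * bl ^ 2 / (ρ * αi * bi) ^ 2 := by
    rw [div_pow]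
    ring
  rw [h2, ← gD, ← gA, gρ]
  field_simp

theorem mob_cls0 {t : L} {e A c αi D r : ℤ} {bi : L} (hi : t - e = αi * bi ^ 2)
    (hte : t - e ≠ 0) (hD : c * αi = D * r ^ 2) :
    ∃ q : L, (A : L) + c / (t - e) - (A : L) = D * q ^ 2 := by
  have hα0 : (αi : L) ≠ 0 := by
    rintro h
    apply hte
    rw [hi, h]
    ring
  have hb0 : bi ≠ 0 := by
    rintro rfl
    apply hte
    rw [hi]
    ring
  have gD : (c : L) * αi = D * r ^ 2 := by exact_mod_cast congrArg (fun z : ℤ => (z : L)) hD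
  refine ⟨r / (αi * bi), ?_⟩
  have h2 : (D : L) * (r / (αi * bi)) ^ 2 = (D * r ^ 2) / (αi * bi) ^ 2 := by
    rw [div_pow]
    ring
  rw [h2, ← gD, hi]
  field_simp
  ring

theorem cls_mul : ∀ c ∈ ([2, 6, -6, 12, -12] : List ℤ), ∀ a ∈ HH, ∃ D ∈ HH,
    ∃ r ∈ ([1, 2, 3, 6] : List ℤ), c * a = D * r ^ 2 := by decide

/-- the conclusion about the coordinate -/
def Conc (E : Fin 5 → ℤ) : Prop := ∀ (L : Type) [Field L] [CharZero L] [Algebra ℚ L]
  (k : Subfield L), (∀ y : L, y ^ 2 ∈ k → y ∈ k) → ClsE k → ClsN 2 k → ClsN 3 k →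
  ∀ (pl : Plc ℚ L ℚ_[2]) (t : L), t ∉ k → ∀ α : Fin 5 → ℤ, (∀ i, α i ∈ HH) → Pt E α →
  ∀ b : Fin 5 → L, (∀ i, t - E i = α i * b i ^ 2) → t ∉ pl.W ∨ ∃ i, pl.val t (E i : ℚ_[2])

theorem conc1 : Conc ev := fun L _ _ _ k hk hC _ _ pl t ht α hα hP b h =>
  t_conc hk hC pl ht hP h

theorem conc2 : Conc ev2 := by
  intro L _ _ _ k hk _ hC2 hC3 pl t ht α hα hP b h
  have hne : ∀ n : ℤ, t - n ≠ 0 := by
    intro n h
    apply ht
    rw [sub_eq_zero.1 h]
    exact intCast_mem k n
  rcases hP with hP | ⟨i, hi⟩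
  · left
    refine constA hk hC2 hC3 pl ht (hα 2) fun e he => ?_
    simp only [List.mem_cons, List.not_mem_nil, or_false] at he
    rcases he with rfl | rfl | rfl | rfl | rfl
    · exact ⟨b 0, by rw [← hP 0, ← h 0]; simp [ev2]⟩
    · exact ⟨b 1, by rw [← hP 1, ← h 1]; simp [ev2]⟩
    · exact ⟨b 2, by rw [← hP 2, ← h 2]; simp [ev2]⟩
    · exact ⟨b 3, by rw [← hP 3, ← h 3]; simp [ev2]⟩
    · exact ⟨b 4, by rw [← hP 4, ← h 4]; simp [ev2]⟩
  · right
    refine ⟨i, ?_⟩
    have g0 : t - ((-2 : ℤ) : L) = α 0 * b 0 ^ 2 := h 0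
    have g1 : t - ((-1 : ℤ) : L) = α 1 * b 1 ^ 2 := h 1
    have g2 : t - ((0 : ℤ) : L) = α 2 * b 2 ^ 2 := h 2
    have g3 : t - ((1 : ℤ) : L) = α 3 * b 3 ^ 2 := h 3
    have g4 : t - ((2 : ℤ) : L) = α 4 * b 4 ^ 2 := h 4
    fin_cases i
    · -- the point `-2`: `12/(t+2) - 6`
      have a1 : α 1 = -1 := by rw [hi 1 (by decide)]; decide
      have a2 : α 2 = -2 := by rw [hi 2 (by decide)]; decide
      have a3 : α 3 = -3 := by rw [hi 3 (by decide)]; decide
      have a4 : α 4 = -1 := by rw [hi 4 (by decide)]; decide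
      rw [a1] at g1
      rw [a2] at g2
      rw [a3] at g3
      rw [a4] at g4
      obtain ⟨D, hD, r, -, hDr⟩ := cls_mul 12 (by decide) _ (hα 0)
      refine mob_val (e := -2) (A := -6) (c := 12) pl (by decide)
        (constB hk hC2 hC3 pl (mob_notk ht (by decide)) hD fun e he => ?_)
      simp only [List.mem_cons, List.not_mem_nil, or_false] at he
      rcases he with rfl | rfl | rfl | rfl | rfl
      · exact mob_cls0 g0 (hne _) hDr
      · exact mob_cls g0 (hne _) (by decide) hDr (-3) 2 _ 2 _ g4 (by decide) (by decide)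
      · exact mob_cls g0 (hne _) (by decide) hDr (-2) 1 _ 1 _ g3 (by decide) (by decide)
      · exact mob_cls g0 (hne _) (by decide) hDr 0 0 _ 1 _ g2 (by decide) (by decide)
      · exact mob_cls g0 (hne _) (by decide) hDr 6 (-1) _ 1 _ g1 (by decide) (by decide)
    · -- the point `-1`
      have a0 : α 0 = 1 := by rw [hi 0 (by decide)]; decide
      have a2 : α 2 = -1 := by rw [hi 2 (by decide)]; decide
      have a3 : α 3 = -2 := by rw [hi 3 (by decide)]; decide
      have a4 : α 4 = -3 := by rw [hi 4 (by decide)]; decide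
      rw [a0] at g0
      rw [a2] at g2
      rw [a3] at g3
      rw [a4] at g4
      obtain ⟨D, hD, r, -, hDr⟩ := cls_mul (-6) (by decide) _ (hα 1)
      refine mob_val (e := -1) (A := 0) (c := -6) pl (by decide)
        (constB hk hC2 hC3 pl (mob_notk ht (by decide)) hD fun e he => ?_)
      simp only [List.mem_cons, List.not_mem_nil, or_false] at he
      rcases he with rfl | rfl | rfl | rfl | rfl
      · exact mob_cls g1 (hne _) (by decide) hDr (-6) 0 _ 1 _ g2 (by decide) (by decide)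
      · exact mob_cls g1 (hne _) (by decide) hDr (-3) 1 _ 1 _ g3 (by decide) (by decide)
      · exact mob_cls g1 (hne _) (by decide) hDr (-2) 2 _ 1 _ g4 (by decide) (by decide)
      · exact mob_cls0 g1 (hne _) hDr
      · exact mob_cls g1 (hne _) (by decide) hDr 6 (-2) _ 1 _ g0 (by decide) (by decide)
    · -- the point `0`
      have a0 : α 0 = 2 := by rw [hi 0 (by decide)]; decide
      have a1 : α 1 = 1 := by rw [hi 1 (by decide)]; decide
      have a3 : α 3 = -1 := by rw [hi 3 (by decide)]; decide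
      have a4 : α 4 = -2 := by rw [hi 4 (by decide)]; decide
      rw [a0] at g0
      rw [a1] at g1
      rw [a3] at g3
      rw [a4] at g4
      obtain ⟨D, hD, r, -, hDr⟩ := cls_mul 2 (by decide) _ (hα 2)
      refine mob_val (e := 0) (A := 0) (c := 2) pl (by decide)
        (constA hk hC2 hC3 pl (mob_notk ht (by decide)) hD fun e he => ?_)
      simp only [List.mem_cons, List.not_mem_nil, or_false] at he
      rcases he with rfl | rfl | rfl | rfl | rfl
      · exact mob_cls g2 (hne _) (by decide) hDr (-2) (-1) _ 1 _ g1 (by decide) (by decide)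
      · exact mob_cls g2 (hne _) (by decide) hDr (-1) (-2) _ 1 _ g0 (by decide) (by decide)
      · exact mob_cls0 g2 (hne _) hDr
      · exact mob_cls g2 (hne _) (by decide) hDr 1 2 _ 1 _ g4 (by decide) (by decide)
      · exact mob_cls g2 (hne _) (by decide) hDr 2 1 _ 1 _ g3 (by decide) (by decide)
    · -- the point `1`
      have a0 : α 0 = 3 := by rw [hi 0 (by decide)]; decide
      have a1 : α 1 = 2 := by rw [hi 1 (by decide)]; decide
      have a2 : α 2 = 1 := by rw [hi 2 (by decide)]; decide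
      have a4 : α 4 = -1 := by rw [hi 4 (by decide)]; decide
      rw [a0] at g0
      rw [a1] at g1
      rw [a2] at g2
      rw [a4] at g4
      obtain ⟨D, hD, r, -, hDr⟩ := cls_mul 6 (by decide) _ (hα 3)
      refine mob_val (e := 1) (A := 0) (c := 6) pl (by decide)
        (constB hk hC2 hC3 pl (mob_notk ht (by decide)) hD fun e he => ?_)
      simp only [List.mem_cons, List.not_mem_nil, or_false] at he
      rcases he with rfl | rfl | rfl | rfl | rfl
      · exact mob_cls g3 (hne _) (by decide) hDr (-6) 0 _ 1 _ g2 (by decide) (by decide)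
      · exact mob_cls g3 (hne _) (by decide) hDr (-3) (-1) _ 1 _ g1 (by decide) (by decide)
      · exact mob_cls g3 (hne _) (by decide) hDr (-2) (-2) _ 1 _ g0 (by decide) (by decide)
      · exact mob_cls0 g3 (hne _) hDr
      · exact mob_cls g3 (hne _) (by decide) hDr 6 2 _ 1 _ g4 (by decide) (by decide)
    · -- the point `2`: `-12/(t-2) - 6`
      have a0 : α 0 = 1 := by rw [hi 0 (by decide)]; decide
      have a1 : α 1 = 3 := by rw [hi 1 (by decide)]; decide
      have a2 : α 2 = 2 := by rw [hi 2 (by decide)]; decide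
      have a3 : α 3 = 1 := by rw [hi 3 (by decide)]; decide
      rw [a0] at g0
      rw [a1] at g1
      rw [a2] at g2
      rw [a3] at g3
      obtain ⟨D, hD, r, -, hDr⟩ := cls_mul (-12) (by decide) _ (hα 4)
      refine mob_val (e := 2) (A := -6) (c := -12) pl (by decide)
        (constB hk hC2 hC3 pl (mob_notk ht (by decide)) hD fun e he => ?_)
      simp only [List.mem_cons, List.not_mem_nil, or_false] at he
      rcases he with rfl | rfl | rfl | rfl | rfl
      · exact mob_cls0 g4 (hne _) hDr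
      · exact mob_cls g4 (hne _) (by decide) hDr (-3) (-2) _ 2 _ g0 (by decide) (by decide)
      · exact mob_cls g4 (hne _) (by decide) hDr (-2) (-1) _ 1 _ g1 (by decide) (by decide)
      · exact mob_cls g4 (hne _) (by decide) hDr 0 0 _ 1 _ g2 (by decide) (by decide)
      · exact mob_cls g4 (hne _) (by decide) hDr 6 1 _ 1 _ g3 (by decide) (by decide)

end

end Pool.Agent.Zk12.G6
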