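import Mathlib
import Pool.Agent.Zk12.G6Conc

/-!
# Six points with good reduction outside `6`: the coordinate `t` at the place
-/

set_option autoImplicit false
set_option linter.all false

namespace Pool.Agent.Zk12.G6

open Pool.Agent.Zk12 Pool.Agent.TH954 Pool.Agent.Zk12.CN
open Pool.Agent.Y157.PS (IsU Ine) 
open Pool.Agent.Y158.GR (Above)
open IsDedekindDomain NumberField

/-- the roots -/
def SE6 (E : Fin 5 → ℤ) : Finset ℚ := Finset.univ.image (fun i => (E i : ℚ))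

variable {E : Fin 5 → ℤ} {c m : ℤ}

theorem Six.inj (hE : Six E c m) : Function.Injective E := by
  intro i j h
  by_contra hij
  rcases lt_or_gt_of_ne hij with h1 | h1
  · have := hE.mono i j h1
    omega
  · have := hE.mono j i h1
    omega

theorem Six.injQ (hE : Six E c m) : Function.Injective (fun i => (E i : ℚ)) := by
  intro i j h
  have h' : (E i : ℚ) = E j := h
  exact hE.inj (by exact_mod_cast h')

theorem Six.card (hE : Six E c m) : (SE6 E).card = 2 * 2 + 1 := by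
  unfold SE6
  rw [Finset.card_image_of_injective _ hE.injQ]
  rfl

theorem Six.prod (hE : Six E c m) {F : Type} [Field F] [CharZero F] (t : F) :
    ∏ e ∈ SE6 E, (t - (e : F)) = ∏ i, (t - (E i : F)) := by
  unfold SE6
  rw [Finset.prod_image (fun i _ j _ h => hE.injQ h)]
  refine Finset.prod_congr rfl fun i _ => ?_
  push_cast
  rfl

theorem E_mem (i : Fin 5) : ((E i : ℤ) : ℚ) ∈ SE6 E := by
  unfold SE6
  exact Finset.mem_image_of_mem _ (Finset.mem_univ i)

/-- divisors of a power of `6` are units -/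
theorem v_dvd {v : HeightOneSpectrum (𝓞 ℚ)} (hv : v.valuation ℚ 6 = 1) {n : ℤ} {k : ℕ}
    (h : n ∣ 6 ^ k) : v.valuation ℚ (n : ℚ) = 1 := by
  obtain ⟨l, hl⟩ := h
  have h1 : v.valuation ℚ (n : ℚ) * v.valuation ℚ (l : ℚ) = 1 := by
    rw [← map_mul]
    have : ((n : ℚ) * l) = 6 ^ k := by exact_mod_cast hl.symm
    rw [this, map_pow, hv, one_pow]
  refine le_antisymm (v_int v n) ?_
  rw [← h1]
  exact mul_le_of_le_one_right' (v_int v l)

theorem Six.v_dif (hE : Six E c m) {v : HeightOneSpectrum (𝓞 ℚ)} (hv : v.valuation ℚ 6 = 1) :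
    ∀ e ∈ SE6 E, ∀ e' ∈ SE6 E, e ≠ e' → v.valuation ℚ (e - e') = 1 := by
  intro e he e' he' hee
  unfold SE6 at he he'
  rw [Finset.mem_image] at he he'
  obtain ⟨i, -, rfl⟩ := he
  obtain ⟨j, -, rfl⟩ := he'
  have hij : i ≠ j := by
    rintro rfl
    exact hee rfl
  have := v_dvd hv (hE.dif i j hij)
  rwa [Int.cast_sub] at this

section

variable {κ M L : Type} [Field κ] [Field M] [Field L] [CharZero M] [CharZero L] [Algebra ℚ κ]
  [IsAlgClosure ℚ κ] {ι : κ →+* M} {s : (κ ≃ₐ[ℚ] κ) →* RingAut M} {φ : L →+* M} [Algebra ℚ L]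

theorem Six.t_classes (hE : Six E c m) (hcon : Conc E) (hR : Root2 ι) (hs : SD ι s)
    (hφ : Fxd s φ)
    (hT : ∀ v : HeightOneSpectrum (𝓞 ℚ), v.valuation ℚ 6 = 1 → Tame v ι s)
    (pl : Plc ℚ L ℚ_[2]) {a : ℚ} (ha0 : a ≠ 0)
    (ha : ∀ v : HeightOneSpectrum (𝓞 ℚ), v.valuation ℚ 6 = 1 → v.valuation ℚ a = 1)
    {t y : L} (h : (a : L) * y ^ 2 = ∏ i, (t - (E i : L))) (ht : t ∉ kk ι φ) :
    t ∉ pl.W ∨ ∃ i, pl.val t (E i : ℚ_[2]) := by
  have hφq : ∀ q : ℚ, φ (q : L) = (q : M) := fun q => map_ratCast φ q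
  have hq : ∀ q : ℚ, (q : L) ∈ kk ι φ := fun q => mem_kk.2 ⟨algebraMap ℚ κ q, by
    rw [iota_rat, hφq]⟩
  have hxe : ∀ e : ℚ, t - (e : L) ≠ 0 := by
    intro e h
    apply ht
    rw [sub_eq_zero.1 h]
    exact hq e
  have h' : (a : L) * y ^ 2 = ∏ e ∈ SE6 E, (t - (e : L)) := by rw [hE.prod, h]
  have hy : y ≠ 0 := by
    rintro rfl
    have h2 : ∏ e ∈ SE6 E, (t - (e : L)) = 0 := by rw [← h']; ring
    rw [Finset.prod_eq_zero_iff] at h2
    obtain ⟨e, -, he⟩ := h2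
    exact hxe e he
  have hyM : φ y ≠ 0 := (map_ne_zero φ).2 hy
  have hM : (a : M) * (φ y) ^ 2 = ∏ e ∈ SE6 E, (φ t - (e : M)) := by
    have := congrArg φ h'
    rw [map_mul, map_pow, hφq, map_prod] at this
    rw [this]
    refine Finset.prod_congr rfl fun e _ => ?_
    rw [map_sub, hφq]
  have hcast : ∀ i, (((E i : ℤ) : ℚ) : L) = (E i : L) := fun i => by push_cast; rfl
  have key : ∀ i : Fin 5, ∃ (n : ℤ) (b : L), n ∈ HH ∧ b ≠ 0 ∧ t - (E i : L) = n * b ^ 2 := by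
    intro i
    have he := E_mem (E := E) i
    obtain ⟨u, hu⟩ := rootP hR hE.card ha0 hyM hM he
    have hu' : u ^ 2 = φ (t - (((E i : ℤ) : ℚ) : L)) := by rw [hu, map_sub, hφq]
    obtain ⟨n, b, c, hn, hb, hnb, hc, huc⟩ := kummer hs hφ hu' (hxe _)
    have hc0 : c ≠ 0 := by
      rintro rfl
      rw [zero_pow two_ne_zero] at hc
      haveI : CharZero κ := charZero_of_injective_algebraMap (algebraMap ℚ κ).injective
      exact hn.ne_zero (by exact_mod_cast hc.symm)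
    refine ⟨n, b, mem_HH hn fun v hv => ?_, hb, by rw [← hcast, hnb]⟩
    refine unrP (hT v hv) (v_23 hv).1 hs hφ hE.card (ha v hv) ?_ (hE.v_dif hv) hy h' he (u := u)
      hu' hc huc hc0 hb
    intro e he
    unfold SE6 at he
    rw [Finset.mem_image] at he
    obtain ⟨j, -, rfl⟩ := he
    exact v_int v (E j)
  choose α b hα hb hαb using key
  have hmono : Mono α := by
    intro i j hij
    obtain ⟨l, hli, hlj⟩ : ∃ l : Fin 5, l ≠ i ∧ l ≠ j := by
      revert i j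
      decide
    have hz : ∀ n ∈ HH, n ≠ 0 := by decide
    refine sgn_mono hR hs hφ (x := t) (e := (E i : ℚ)) (e' := (E j : ℚ)) (e'' := (E l : ℚ))
      (by exact_mod_cast hE.mono i j hij) (by exact_mod_cast hE.inj.ne hli)
      (by exact_mod_cast hE.inj.ne hlj) (b := b i) (b' := b j) (b'' := b l) ?_ ?_ ?_ (hz _ (hα l))
    · rw [hcast, hαb]
    · rw [hcast, hαb]
    · rw [hcast, hαb]
  exact hcon L (kk ι φ) (fun y hy => kk_sq hy) (clsE_of hR hs hφ (unrE_of hs hφ hT))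
    (clsN_of (Or.inl rfl) hR hs hφ hT) (clsN_of (Or.inr rfl) hR hs hφ hT) pl t ht α hα
    (hE.pat_pl pl hα hmono hb hαb) b hαb

end

end Pool.Agent.Zk12.G6
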