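import Mathlib
import Pool.Agent.Zk12.Sub
import Pool.Agent.Zk12.Mob
import Pool.Agent.Zk12.G6Cls
import Pool.Agent.Y158.GR.Prb

/-!
# The inertia groups at the places of good reduction
-/

set_option autoImplicit false
set_option linter.all false

open Polynomial FF Pool.Agent.Y157.PS IsDedekindDomain NumberField

namespace Pool.Agent.Zk12.G6

open Pool.Agent.Zk12 Pool.Agent.Y158.GR

/-- the branch points -/
def BQ6 (E : Fin 5 → ℤ) (c : ℤ) : Finset ℚ :=
  insert 0 (Finset.univ.image fun i => ((E i : ℚ) + c)⁻¹)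

variable {E : Fin 5 → ℤ} {c m : ℤ}

theorem Six.sh (hE : Six E c m) (i : Fin 5) : ((E i : ℚ) + c) ≠ 0 := by
  exact_mod_cast hE.shift i

theorem Six.injB (hE : Six E c m) : Function.Injective (fun i => ((E i : ℚ) + c)⁻¹) := by
  intro i j h
  have h' : ((E i : ℚ) + c)⁻¹ = ((E j : ℚ) + c)⁻¹ := h
  have h2 := add_right_cancel (inv_injective h')
  exact hE.inj (by exact_mod_cast h2)

theorem Six.zeroB (hE : Six E c m) :
    (0 : ℚ) ∉ Finset.univ.image (fun i => ((E i : ℚ) + c)⁻¹) := by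
  rw [Finset.mem_image]
  rintro ⟨i, -, h⟩
  exact inv_ne_zero (hE.sh i) h

/-- the branch points in `κ` -/
def BK6 (κ : Type) [Field κ] [Algebra ℚ κ] (E : Fin 5 → ℤ) (c : ℤ) : Finset κ :=
  (BQ6 E c).map ⟨algebraMap ℚ κ, (algebraMap ℚ κ).injective⟩

section

variable {κ : Type} [Field κ] [Algebra ℚ κ] [IsAlgClosure ℚ κ]

theorem mem_BK6 {e : κ} : e ∈ BK6 κ E c ↔ ∃ q ∈ BQ6 E c, algebraMap ℚ κ q = e := by
  unfold BK6
  rw [Finset.mem_map]
  rfl

theorem Six.BK_card (hE : Six E c m) : (BK6 κ E c).card = 2 * 3 := by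
  unfold BK6 BQ6
  rw [Finset.card_map, Finset.card_insert_of_notMem hE.zeroB,
    Finset.card_image_of_injective _ hE.injB]
  rfl

theorem inv_cast (i : Fin 5) : algebraMap ℚ κ (((E i : ℚ) + c)⁻¹) = ((E i : κ) + c)⁻¹ := by
  rw [map_inv₀, map_add, map_intCast, map_intCast]

theorem Six.BK_prod (hE : Six E c m) {F : Type} [CommMonoid F] (f : κ → F) :
    ∏ e ∈ BK6 κ E c, f e = f 0 * ∏ i, f (((E i : κ) + c)⁻¹) := by
  unfold BK6 BQ6
  rw [Finset.prod_map, Finset.prod_insert hE.zeroB,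
    Finset.prod_image (fun i _ j _ h => hE.injB h)]
  simp only [Function.Embedding.coeFn_mk, map_zero, inv_cast]

theorem BK_cases {e : κ} (he : e ∈ BK6 κ E c) : e = 0 ∨ ∃ i, e = ((E i : κ) + c)⁻¹ := by
  obtain ⟨q, hq, rfl⟩ := mem_BK6.1 he
  unfold BQ6 at hq
  rw [Finset.mem_insert, Finset.mem_image] at hq
  rcases hq with rfl | ⟨i, -, rfl⟩
  · left
    exact map_zero _
  · right
    exact ⟨i, inv_cast i⟩

/-- `a - w` is a unit outside `6` -/
theorem unit_aw6 {v : HeightOneSpectrum (𝓞 ℚ)} (hv : v.valuation ℚ 6 = 1)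
    {V : ValuationSubring κ} (hV : Above v V) {w : κ} (hw : w ^ 2 = -(m : κ)) {a : ℤ}
    (ha : (a ^ 2 + m) ∣ 6 ^ 6) : IsU V ((a : κ) - w) := by
  have hz : ∀ n : ℤ, (n : κ) ∈ V := by
    intro n
    have := (hV (n : ℚ)).2 (v_int v n)
    rwa [map_intCast] at this
  have hwV : w ∈ V := by
    by_contra h
    have h1 := (V.mem_or_inv_mem w).resolve_left h
    apply h
    have h4 : w = -(m : κ) * w⁻¹ := by
      have hw0 : w ≠ 0 := by
        rintro rfl
        exact h (zero_mem _)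
      field_simp
      linear_combination hw
    rw [h4]
    exact mul_mem (neg_mem (hz m)) h1
  have hU : IsU V (((a ^ 2 + m : ℤ)) : κ) := by
    have := (hV.isU _).2 (v_dvd hv ha)
    rwa [map_intCast] at this
  have hprod : ((a : κ) - w) * ((a : κ) + w) = ((a ^ 2 + m : ℤ) : κ) := by
    push_cast
    linear_combination -hw
  have h0 : ((a : κ) - w) ≠ 0 := by
    intro h
    rw [h, zero_mul] at hprod
    exact hU.1 hprod.symm
  refine ⟨h0, sub_mem (hz a) hwV, ?_⟩
  have h5 : ((a : κ) - w)⁻¹ = ((a : κ) + w) * (((a ^ 2 + m : ℤ)) : κ)⁻¹ := by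
    rw [← hprod]
    have h1 : ((a : κ) + w) ≠ 0 := by
      intro h
      rw [h, mul_zero] at hprod
      exact hU.1 hprod.symm
    field_simp
  rw [h5]
  exact mul_mem (add_mem (hz a) hwV) hU.2.2

/-- the transformed branch points -/
theorem Six.mobE_mem (hE : Six E c m) {w : κ} (hc0 : (c : κ) + w ≠ 0)
    (hA : ∀ i, (E i : κ) - w ≠ 0) {e : κ}
    (he : e ∈ BK6 κ E c) : mobE ((c + w)⁻¹) (-1 / (c + w) ^ 2) (-1 / (c + w)) e = 0 ∨
      ∃ i, mobE ((c + w)⁻¹) (-1 / (c + w) ^ 2) (-1 / (c + w)) e = ((E i : κ) - w)⁻¹ := by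
  haveI : CharZero κ := charZero_of_injective_algebraMap (algebraMap ℚ κ).injective
  rcases BK_cases he with rfl | ⟨i, rfl⟩
  · left
    unfold mobE
    field_simp
    ring
  · right
    refine ⟨i, ?_⟩
    have h1 := hA i
    have h2 : (E i : κ) + c ≠ 0 := by exact_mod_cast hE.shift i
    have h3 : ((E i : κ) + c)⁻¹ - (c + w)⁻¹ = (w - E i) / ((E i + c) * (c + w)) := by
      field_simp
      ring
    have h4 : w - (E i : κ) ≠ 0 := by
      intro h
      apply h1
      linear_combination -h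
    unfold mobE
    rw [h3]
    field_simp
    ring

/-- good reduction in the new coordinate -/
theorem Six.good_mob (hE : Six E c m) {v : HeightOneSpectrum (𝓞 ℚ)} (hv : v.valuation ℚ 6 = 1)
    {V : ValuationSubring κ} (hV : Above v V) {w : κ} (hw : w ^ 2 = -(m : κ))
    (hc0 : (c : κ) + w ≠ 0) [DecidableEq κ] :
    Good V ((BK6 κ E c).image (mobE ((c + w)⁻¹) (-1 / (c + w) ^ 2) (-1 / (c + w)))) := by
  have hU : ∀ i, IsU V ((E i : κ) - w) := fun i => unit_aw6 hv hV hw (hE.em i)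
  have hA : ∀ i, (E i : κ) - w ≠ 0 := fun i => (hU i).1
  have hd : ∀ i j, i ≠ j → IsU V ((E j : κ) - E i) := by
    intro i j hij
    have := (hV.isU _).2 (v_dvd hv (hE.dif j i hij.symm))
    rw [map_intCast] at this
    push_cast at this
    exact this
  have umul : ∀ a b : κ, IsU V a → IsU V b → IsU V (a * b) := fun a b ha hb =>
    ⟨mul_ne_zero ha.1 hb.1, mul_mem ha.2.1 hb.2.1, by rw [mul_inv]; exact mul_mem ha.2.2 hb.2.2⟩
  have uinv : ∀ a : κ, IsU V a → IsU V a⁻¹ := fun a ha =>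
    ⟨inv_ne_zero ha.1, ha.2.2, by rw [inv_inv]; exact ha.2.1⟩
  have uneg : ∀ a : κ, IsU V a → IsU V (-a) := fun a ha =>
    ⟨neg_ne_zero.2 ha.1, neg_mem ha.2.1, by rw [inv_neg]; exact neg_mem ha.2.2⟩
  have hform : ∀ e ∈ (BK6 κ E c).image (mobE ((c + w)⁻¹) (-1 / (c + w) ^ 2) (-1 / (c + w))),
      e = 0 ∨ ∃ i, e = ((E i : κ) - w)⁻¹ := by
    intro e he
    rw [Finset.mem_image] at he
    obtain ⟨e', he', rfl⟩ := he
    exact hE.mobE_mem hc0 hA he'
  constructor
  · intro e he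
    rcases hform e he with h | ⟨i, h⟩
    · rw [h]; exact zero_mem _
    · rw [h]; exact (hU i).2.2
  · intro e he e' he' hee
    rcases hform e he with h | ⟨i, h⟩ <;> rcases hform e' he' with h' | ⟨j, h'⟩
    · exact absurd (h.trans h'.symm) hee
    · rw [h, h', zero_sub]
      exact uneg _ (uinv _ (hU j))
    · rw [h, h', sub_zero]
      exact uinv _ (hU i)
    · have haa : i ≠ j := by
        rintro rfl
        exact hee (h.trans h'.symm)
      have h5 : ((E i : κ) - w)⁻¹ - ((E j : κ) - w)⁻¹ =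
          ((E j : κ) - E i) * (((E i : κ) - w)⁻¹ * ((E j : κ) - w)⁻¹) := by
        have := hA i
        have := hA j
        field_simp
        ring
      rw [h, h', h5]
      exact umul _ _ (hd i j haa) (umul _ _ (uinv _ (hU i)) (uinv _ (hU j)))

/-- the product for the leading coefficient -/
theorem Six.lead_prod (hE : Six E c m) {w : κ} (hc0 : (c : κ) + w ≠ 0)
    (hA : ∀ i, (E i : κ) - w ≠ 0) :
    ∏ e ∈ BK6 κ E c, (-(-1 / (c + w) ^ 2) / (e - (c + w)⁻¹)) =
      -(∏ i, ((E i : κ) + c)) / ((c + w) ^ 6 * ∏ i, (w - (E i : κ))) := by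
  haveI : CharZero κ := charZero_of_injective_algebraMap (algebraMap ℚ κ).injective
  rw [hE.BK_prod]
  have key : ∀ i, -(-1 / (c + w) ^ 2) / (((E i : κ) + c)⁻¹ - (c + w)⁻¹) =
      ((E i : κ) + c) / ((c + w) * (w - E i)) := by
    intro i
    have h1 := hA i
    have h2 : (E i : κ) + c ≠ 0 := by exact_mod_cast hE.shift i
    have h3 : ((E i : κ) + c)⁻¹ - (c + w)⁻¹ = (w - E i) / ((E i + c) * (c + w)) := by
      field_simp
      ring
    have h4 : w - (E i : κ) ≠ 0 := by
      intro h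
      apply h1
      linear_combination -h
    rw [h3]
    field_simp
  have k0 : -(-1 / ((c : κ) + w) ^ 2) / (0 - (c + w)⁻¹) = -1 / (c + w) := by
    field_simp
    ring
  rw [k0, Finset.prod_congr rfl (fun i _ => key i), Finset.prod_div_distrib,
    Finset.prod_mul_distrib, Finset.prod_const, Finset.card_univ, Fintype.card_fin]
  have h5 : ∏ i, (w - (E i : κ)) ≠ 0 := Finset.prod_ne_zero_iff.2 fun i _ h => hA i (by
    linear_combination -h)
  field_simp

end

end Pool.Agent.Zk12.G6
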