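import Mathlib
import Pool.Agent.Zk12.G6Good

/-!
# The inertia groups at the places of good reduction: the result
-/

set_option autoImplicit false
set_option linter.all false

open Polynomial FF Pool.Agent.Y157.PS IsDedekindDomain NumberField

namespace Pool.Agent.Zk12.G6

open Pool.Agent.Zk12 Pool.Agent.Y158.GR

section

variable {κ R M : Type} [Field κ] [Algebra ℚ κ] [IsAlgClosure ℚ κ] [Field R] [Field M]
  [Algebra κ R] [Algebra R M] [Algebra κ M] [IsScalarTower κ R M] {x : R} {Y : M}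

instance fact2' : Fact (Nat.Prime 2) := ⟨Nat.prime_two⟩

variable {E : Fin 5 → ℤ} {c m : ℤ}

theorem Six.good_all (hE : Six E c m) (hC : Cov 2 κ R M x (BK6 κ E c) Y) {a : ℚ} {δ : κ}
    (hδ : δ ^ 2 = algebraMap ℚ κ (-a / ∏ i, ((E i : ℚ) + c))) {S : (κ ≃ₐ[ℚ] κ) →* RingAut M}
    (hs : Sec ℚ κ R M x Y δ S) {v : HeightOneSpectrum (𝓞 ℚ)} (hv : v.valuation ℚ 6 = 1)
    (ha : v.valuation ℚ a = 1) :
    ∃ V : ValuationSubring κ, Above v V ∧
      (∃ O : ValuationSubring M, (∀ c, algebraMap κ M c ∈ O ↔ c ∈ V) ∧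
        (∀ z : M, z ≠ 0 → ∃ b : κ, b ≠ 0 ∧ IsU O (z / algebraMap κ M b)) ∧
        ∀ σ : κ ≃ₐ[ℚ] κ, Ine V σ → ∀ z ∈ O, S σ z - z ∈ O.nonunits) ∧
      (∀ (c : M ≃ₐ[R] M) (σ : κ ≃ₐ[ℚ] κ), Ine V σ → S σ = cjA c S σ) ∧
      (∀ (W : Place κ M), ∀ e ∈ BK6 κ E c, 0 < W.ord (algebraMap R M x - algebraMap κ M e) →
        ∃ c : M ≃ₐ[R] M, Fixes W c ∧ c Y ≠ Y) := by
  classical
  haveI : IsAlgClosed κ := IsAlgClosure.isAlgClosed ℚ
  haveI : Algebra.IsAlgebraic ℚ κ := IsAlgClosure.isAlgebraic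
  haveI : CharZero κ := charZero_of_injective_algebraMap (algebraMap ℚ κ).injective
  obtain ⟨h2, h3⟩ := v_23 hv
  obtain ⟨V, hV⟩ := exists_above (K := ℚ) κ v
  obtain ⟨w, hw⟩ := IsAlgClosed.exists_pow_nat_eq (-(m : κ)) (n := 2) (by norm_num)
  have hc0 : (c : κ) + w ≠ 0 := by
    intro h
    have h1 : w = -(c : κ) := by linear_combination h
    rw [h1] at hw
    apply hE.cm
    have h2 : (c : κ) ^ 2 + m = 0 := by linear_combination hw
    exact_mod_cast h2
  have hU : ∀ i, IsU V ((E i : κ) - w) := fun i => unit_aw6 hv hV hw (hE.em i)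
  have hA : ∀ i, (E i : κ) - w ≠ 0 := fun i => (hU i).1
  have hVq : ∀ q : ℚ, v.valuation ℚ q = 1 → IsU V (algebraMap ℚ κ q) := fun q hq => (hV.isU q).2 hq
  have umul : ∀ a b : κ, IsU V a → IsU V b → IsU V (a * b) := fun a b ha hb =>
    ⟨mul_ne_zero ha.1 hb.1, mul_mem ha.2.1 hb.2.1, by rw [mul_inv]; exact mul_mem ha.2.2 hb.2.2⟩
  have uinv : ∀ a : κ, IsU V a → IsU V a⁻¹ := fun a ha =>
    ⟨inv_ne_zero ha.1, ha.2.2, by rw [inv_inv]; exact ha.2.1⟩
  -- square roots of units are fixed by the inertia group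
  have usq : ∀ z : κ, IsU V (z ^ 2) → IsU V z := by
    intro z hz
    rw [isU_val, map_pow] at hz
    rw [isU_val]
    exact (pow_eq_one_iff_of_nonneg zero_le two_ne_zero).1 hz
  have hU2 : IsU V (2 : κ) := by
    have := hVq 2 h2
    rwa [map_ofNat] at this
  have hfix : ∀ (σ : κ ≃ₐ[ℚ] κ), Ine V σ → ∀ z : κ, IsU V z → σ z ^ 2 = z ^ 2 → σ z = z := by
    intro σ hσ z hz hz2
    rcases sq_eq_sq_iff_eq_or_eq_neg.1 hz2 with h | h
    · exact h
    · exfalso
      have h4 := hσ.2 z hz.2.1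
      rw [h] at h4
      have h5 : -z - z = (-2) * z := by ring
      rw [h5] at h4
      have h6 := (umul _ _ hU2 hz)
      rw [isU_val] at h6
      rw [ValuationSubring.mem_nonunits_iff, neg_mul, Valuation.map_neg, h6] at h4
      exact lt_irrefl _ h4
  have hwU : IsU V w := by
    apply usq
    rw [hw]
    have := hVq (-(m : ℚ)) (by rw [Valuation.map_neg, v_dvd hv hE.ml])
    rwa [map_neg, map_intCast] at this
  have hwfix : ∀ σ : κ ≃ₐ[ℚ] κ, Ine V σ → σ w = w := by
    intro σ hσ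
    refine hfix σ hσ w hwU ?_
    rw [← map_pow, hw, map_neg, map_intCast]
  -- the field
  obtain ⟨k', hk'⟩ : ∃ k' : IntermediateField ℚ κ, k' = IntermediateField.adjoin ℚ {w} := ⟨_, rfl⟩
  have hwk : w ∈ k' := by rw [hk']; exact IntermediateField.mem_adjoin_simple_self _ _
  haveI hfd : FiniteDimensional ℚ k' := by
    rw [hk']
    exact IntermediateField.adjoin.finiteDimensional (Algebra.IsIntegral.isIntegral w)
  haveI hnf : NumberField k' := @NumberField.mk k' _ inferInstance (by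
    convert hfd
    exact Subsingleton.elim _ _)
  haveI : Algebra.IsAlgebraic k' κ := Algebra.IsAlgebraic.tower_top (K := ℚ) (L := k') (A := κ)
  haveI : IsAlgClosure k' κ := ⟨inferInstance, inferInstance⟩
  -- the prime number
  obtain ⟨p, hp, hvp⟩ := exists_p v
  have hpV : (p : κ) ∈ V.nonunits := by
    have h4 : v.valuation ℚ (p : ℚ) < 1 := by
      rw [hvp.lt_one_iff_lt_one, Rat.padicValuation_self]
      exact WithZero.exp_lt_exp.2 (by norm_num)
    have := (hV.non (p : ℚ)).2 h4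
    rwa [_root_.map_natCast] at this
  obtain ⟨v', hV'⟩ := above_sub (K' := k') V hp.out.ne_zero hpV
  have h2v' : ((2 : ℕ) : 𝓞 k') ∉ v'.asIdeal := by
    rw [← v'.intValuation_eq_one_iff]
    have h4 : v'.valuation k' (algebraMap (𝓞 k') k' ((2 : ℕ) : 𝓞 k')) = 1 := by
      rw [_root_.map_natCast, ← hV'.isU, _root_.map_natCast]
      exact_mod_cast hU2
    rwa [v'.valuation_of_algebraMap] at h4
  -- restriction of the action
  obtain ⟨res, hres⟩ : ∃ res : (κ ≃ₐ[k'] κ) →* (κ ≃ₐ[ℚ] κ), ∀ σ z, res σ z = σ z :=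
    ⟨AlgEquiv.restrictScalarsHom ℚ, fun σ z => rfl⟩
  have hk'fix : ∀ σ : κ ≃ₐ[ℚ] κ, σ w = w → ∀ z ∈ k', σ z = z := by
    intro σ hσ z hz
    rw [hk'] at hz
    induction hz using IntermediateField.adjoin_induction with
    | mem y hy =>
      rw [Set.mem_singleton_iff] at hy
      rw [hy, hσ]
    | algebraMap c => exact σ.commutes c
    | add a b _ _ ha hb => rw [map_add, ha, hb]
    | inv a _ ha => rw [map_inv₀, ha]
    | mul a b _ _ ha hb => rw [map_mul, ha, hb]
  have hlift : ∀ σ : κ ≃ₐ[ℚ] κ, Ine V σ → ∃ σ' : κ ≃ₐ[k'] κ, res σ' = σ ∧ Ine V σ' := by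
    intro σ hσ
    let σ' : κ ≃ₐ[k'] κ := AlgEquiv.ofRingEquiv (f := (σ : κ ≃+* κ)) (fun r =>
      hk'fix σ (hwfix σ hσ) _ r.2)
    have h5 : ∀ z, σ' z = σ z := fun z => rfl
    exact ⟨σ', AlgEquiv.ext fun z => by rw [hres, h5], hσ.1, hσ.2⟩
  have hres_mem : ∀ (σ : κ ≃ₐ[k'] κ) (z : κ), z ∈ k' → σ z = z := fun σ z hz =>
    σ.commutes ⟨z, hz⟩
  have hck : (c : κ) + w ∈ k' := add_mem (intCast_mem k' c) hwk
  have huk : ((c : κ) + w)⁻¹ ∈ k' := inv_mem hck
  have hαk : -1 / ((c : κ) + w) ^ 2 ∈ k' := div_mem (neg_mem (one_mem _)) (pow_mem hck 2)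
  have hβk : -1 / ((c : κ) + w) ∈ k' := div_mem (neg_mem (one_mem _)) hck
  have hα : -1 / ((c : κ) + w) ^ 2 ≠ 0 :=
    div_ne_zero (neg_ne_zero.2 one_ne_zero) (pow_ne_zero _ hc0)
  have huB : ((c : κ) + w)⁻¹ ∉ BK6 κ E c := by
    intro h
    have h5 : mobE (((c : κ) + w)⁻¹) (-1 / (c + w) ^ 2) (-1 / (c + w)) (((c : κ) + w)⁻¹) =
        -1 / (c + w) := by
      unfold mobE
      rw [sub_self, div_zero, zero_add]
    rcases hE.mobE_mem hc0 hA h with h6 | ⟨i, h6⟩
    · rw [h5] at h6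
      exact div_ne_zero (neg_ne_zero.2 one_ne_zero) hc0 h6
    · rw [h5, eq_comm, inv_eq_iff_eq_inv, inv_div] at h6
      have h7 : (E i : κ) + c = 0 := by
        rw [div_neg, div_one] at h6
        linear_combination h6
      have h8 : E i + c = 0 := by exact_mod_cast h7
      exact hE.shift i h8
  obtain ⟨d, hd⟩ := IsAlgClosed.exists_pow_nat_eq
    (∏ e ∈ BK6 κ E c, (-(-1 / ((c : κ) + w) ^ 2) / (e - ((c : κ) + w)⁻¹))) (n := 2) (by norm_num)
  have hC' := cov_mob hC (β := -1 / ((c : κ) + w)) huB hα hE.BK_card hd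
  have hGood := hE.good_mob hv hV hw hc0
  rw [hE.lead_prod hc0 hA] at hd
  have hFw : IsU V (∏ i, (w - (E i : κ))) := by
    have : ∀ s : Finset (Fin 5), IsU V (∏ i ∈ s, (w - (E i : κ))) := by
      intro s
      induction s using Finset.induction_on with
      | empty => rw [Finset.prod_empty]; exact isU_one
      | insert i s hi ih =>
        rw [Finset.prod_insert hi]
        refine umul _ _ ?_ ih
        have h1 := hU i
        have h2 : w - (E i : κ) = -((E i : κ) - w) := by ring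
        rw [h2]
        exact ⟨neg_ne_zero.2 h1.1, neg_mem h1.2.1, by rw [inv_neg]; exact neg_mem h1.2.2⟩
    exact this _
  have hP : (∏ i, ((E i : ℚ) + c)) ≠ 0 := Finset.prod_ne_zero_iff.2 fun i _ => hE.sh i
  have hPκ : algebraMap ℚ κ (∏ i, ((E i : ℚ) + c)) = ∏ i, ((E i : κ) + c) := by
    rw [map_prod]
    refine Finset.prod_congr rfl fun i _ => ?_
    rw [map_add, map_intCast, map_intCast]
  have hP' : (∏ i, ((E i : κ) + c)) ≠ 0 := by
    rw [← hPκ]
    exact (_root_.map_ne_zero _).2 hP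
  have hd0 : d ≠ 0 := by
    rintro rfl
    rw [zero_pow two_ne_zero] at hd
    exact absurd hd.symm (div_ne_zero (neg_ne_zero.2 hP') (mul_ne_zero (pow_ne_zero _ hc0) hFw.1))
  have ha0 : a ≠ 0 := by
    rintro rfl
    rw [map_zero] at ha
    exact zero_ne_one ha
  have hδ0 : δ ≠ 0 := by
    rintro rfl
    rw [zero_pow two_ne_zero] at hδ
    have h5 := hδ.symm
    rw [_root_.map_eq_zero] at h5
    exact div_ne_zero (neg_ne_zero.2 ha0) hP h5
  obtain ⟨hl, hrot, O, hG, hGu, hwt⟩ := hV'.wgt h2v' hC' hGood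
  -- the section
  have hX : ∀ σ : κ ≃ₐ[k'] κ, ∀ z ∈ k', S (res σ) (algebraMap κ M z) = algebraMap κ M z := by
    intro σ z hz
    rw [hs.const, hres, hres_mem σ z hz]
  have hmobX : algebraMap R M (mobX x ((((c : κ) + w)⁻¹)) (-1 / (c + w) ^ 2) (-1 / (c + w))) =
      algebraMap κ M (-1 / (c + w) ^ 2) / (algebraMap R M x - algebraMap κ M ((((c : κ) + w)⁻¹))) +
        algebraMap κ M (-1 / (c + w)) := by
    unfold mobX
    rw [map_add, map_div₀, map_sub, ← IsScalarTower.algebraMap_apply,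
      ← IsScalarTower.algebraMap_apply, ← IsScalarTower.algebraMap_apply]
  have hAct' : Sec k' κ R M (mobX x ((((c : κ) + w)⁻¹)) (-1 / (c + w) ^ 2) (-1 / (c + w)))
      (algebraMap κ M d * Y / (algebraMap R M x - algebraMap κ M ((((c : κ) + w)⁻¹))) ^ 3) (d * δ)
      (S.comp res) := by
    refine ⟨fun σ c => ?_, fun σ => ?_, fun σ => ?_, fun z => ?_⟩
    · rw [MonoidHom.comp_apply, hs.const, hres]
    · rw [MonoidHom.comp_apply, hmobX, map_add, map_div₀, map_sub, hX σ _ huk, hX σ _ hαk,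
        hX σ _ hβk, hs.fixx]
    · rw [MonoidHom.comp_apply, map_div₀, map_pow, map_sub, hX σ _ huk, hs.fixx, map_mul,
        hs.const, hs.fixy, hres, hres]
      have h5 : σ (d * δ) / (d * δ) = σ d * (σ δ / δ) / d := by
        rw [map_mul]
        field_simp
      rw [h5]
      have hdM : algebraMap κ M d ≠ 0 := (_root_.map_ne_zero _).2 hd0
      simp only [map_div₀, map_mul]
      field_simp
    · obtain ⟨E, hE, hE'⟩ := hs.cont z
      haveI := hE
      have hle : k' ≤ E ⊔ k' := le_sup_right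
      haveI : FiniteDimensional ℚ (E ⊔ k' : IntermediateField ℚ κ) := inferInstance
      refine ⟨IntermediateField.extendScalars hle, ?_, fun σ hσ => ?_⟩
      · haveI : FiniteDimensional ℚ (IntermediateField.extendScalars hle) := this
        exact FiniteDimensional.right ℚ k' (IntermediateField.extendScalars hle)
      · rw [MonoidHom.comp_apply]
        apply hE'
        rw [IntermediateField.mem_fixingSubgroup_iff] at hσ ⊢
        intro y hy
        rw [hres]
        exact hσ y ((le_sup_left : E ≤ E ⊔ k') hy)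
  have hδfix : ∀ σ : κ ≃ₐ[k'] κ, Ine V σ → σ (d * δ) = d * δ := by
    intro σ hσ
    obtain ⟨q, hq⟩ : ∃ q : κ, q = (c + w) ^ 3 := ⟨_, rfl⟩
    have hqk : q ∈ k' := by rw [hq]; exact pow_mem hck 3
    have hq0 : q ≠ 0 := by rw [hq]; exact pow_ne_zero _ hc0
    have hz2 : (q * (d * δ)) ^ 2 = algebraMap ℚ κ a / ∏ i, (w - (E i : κ)) := by
      have h0 := hFw.1
      rw [mul_pow, mul_pow, hd, hδ, hq, map_div₀, map_neg, hPκ]
      field_simp
    have hzU : IsU V (q * (d * δ)) := by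
      apply usq
      rw [hz2, div_eq_mul_inv]
      exact umul _ _ (hVq a ha) (uinv _ hFw)
    have h5 : σ (q * (d * δ)) = q * (d * δ) := by
      have := hfix (res σ) ⟨fun z => by rw [hres]; exact hσ.1 z, fun z hz => by
        rw [hres]; exact hσ.2 z hz⟩ _ hzU (by
        rw [hres, ← map_pow, hz2]
        apply hres_mem
        exact div_mem (k'.algebraMap_mem a) (prod_mem fun i _ => sub_mem hwk (intCast_mem k' _)))
      rwa [hres] at this
    rw [map_mul, hres_mem σ q hqk] at h5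
    exact mul_left_cancel₀ hq0 h5
  have hwt' := hwt (d * δ) (mul_ne_zero hd0 hδ0) hδfix (S.comp res) hAct'
  refine ⟨V, hV, ⟨O, hG.1, fun z hz => ?_, fun σ hσ z hz => ?_⟩, fun c σ hσ => ?_,
    fun W e he hW => ?_⟩
  · exact (a_g2 2 κ R M _ _ _ hC' V O hG).1 z hz
  · obtain ⟨σ', rfl, hσ'⟩ := hlift σ hσ
    exact hwt' σ' hσ' z hz
  · obtain ⟨σ', rfl, hσ'⟩ := hlift σ hσ
    have h5 := comm_of_ine hC' hl hG hGu (Act.of_sec hAct') c (hwt' σ' hσ')
    exact h5
  · have hXt : Transcendental κ (algebraMap R M x) := by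
      rw [transcendental_algebraMap_iff (algebraMap R M).injective]
      exact hC.rat.trans
    have hXu : algebraMap R M x - algebraMap κ M ((((c : κ) + w)⁻¹)) ≠ 0 := by
      intro h
      apply hXt
      rw [sub_eq_zero.1 h]
      exact isAlgebraic_algebraMap _
    have heu : e ≠ (((c : κ) + w)⁻¹) := fun h => huB (h ▸ he)
    obtain ⟨c, hcW, hcY⟩ := exists_rot' hC' hrot W
      (Finset.mem_image_of_mem (mobE ((((c : κ) + w)⁻¹)) (-1 / (c + w) ^ 2) (-1 / (c + w))) he) (by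
      rw [hmobX, mob_sub hXu heu]
      have h6 : -(-1 / (c + w) ^ 2) / (e - (((c : κ) + w)⁻¹)) ≠ 0 :=
        div_ne_zero (neg_ne_zero.2 hα) (sub_ne_zero.2 heu)
      have h7 : algebraMap R M x - algebraMap κ M e ≠ 0 := by
        intro h
        rw [h, W.ord_zero] at hW
        exact lt_irrefl _ hW
      rw [W.ord_mul ((_root_.map_ne_zero _).2 h6) (div_ne_zero h7 hXu), W.ord_const h6,
        W.ord_div h7 hXu, ord_sub_const hW heu]
      omega)
    refine ⟨c, hcW, fun h => hcY ?_⟩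
    rw [map_div₀, map_mul, map_pow, map_sub, c.commutes, h, Pool.Agent.Y748.PS.gal_const,
      Pool.Agent.Y748.PS.gal_const]

end

end Pool.Agent.Zk12.G6
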