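import Mathlib
import Pool.Agent.Zk12.G6Good2
import Pool.Agent.Zk12.Rigid

/-!
# Rigidity of sections at a Weierstrass point
-/

set_option autoImplicit false
set_option linter.all false

open Polynomial FF Pool.Agent.Y157.PS IsDedekindDomain NumberField

namespace Pool.Agent.Zk12.G6

open Pool.Agent.Zk12 Pool.Agent.Y158.GR

section

variable {κ R M : Type} [Field κ] [Algebra ℚ κ] [IsAlgClosure ℚ κ] [Field R] [Field M]
  [Algebra κ R] [Algebra R M] [Algebra κ M] [IsScalarTower κ R M] {x : R} {Y : M}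
  {E : Fin 5 → ℤ} {c m : ℤ}

/-- a section whose decomposition group at `2` fixes a place above a branch point fixes it -/
theorem Six.rigid8 (hE : Six E c m) (hC : Cov 2 κ R M x (BK6 κ E c) Y) {a : ℚ} {δ : κ}
    (hδ : δ ^ 2 = algebraMap ℚ κ (-a / ∏ i, ((E i : ℚ) + c))) {S : (κ ≃ₐ[ℚ] κ) →* RingAut M}
    (hs : Sec ℚ κ R M x Y δ S)
    (ha : ∀ v : HeightOneSpectrum (𝓞 ℚ), v.valuation ℚ 6 = 1 → v.valuation ℚ a = 1)
    {C : Type} [Field C] [Algebra ℚ_[2] C] [Algebra ℚ C] [IsScalarTower ℚ ℚ_[2] C]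
    [IsAlgClosure ℚ_[2] C] (ι : κ →ₐ[ℚ] C) (W : Place κ M) {e : κ} (he : e ∈ BK6 κ E c)
    (hW : 0 < W.ord (algebraMap R M x - algebraMap κ M e))
    (hD : ∀ σ, DecL ℚ_[2] ι σ → Fixes W (S σ)) : ∀ σ, Fixes W (S σ) := by
  haveI : Algebra.IsAlgebraic ℚ κ := IsAlgClosure.isAlgebraic
  haveI : IsAlgClosed κ := IsAlgClosure.isAlgClosed ℚ
  haveI : CharZero κ := charZero_of_injective_algebraMap (algebraMap ℚ κ).injective
  haveI : Fact (Nat.Prime 5) := ⟨by norm_num⟩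
  obtain ⟨v₅, hv₅⟩ := exists_v 5
  have h65 : v₅.valuation ℚ 6 = 1 := by
    rw [← map_one (v₅.valuation ℚ)]
    apply hv₅.val_eq.2
    rw [map_one]
    have : Int.padicValuation 5 6 = 1 := by
      rw [Int.padicValuation_eq_one_iff]
      norm_num
    rw [← Rat.padicValuation_cast] at this
    exact_mod_cast this
  have ha0 : a ≠ 0 := by
    rintro rfl
    have := ha v₅ h65
    rw [map_zero] at this
    exact zero_ne_one this
  have hδ0 : δ ≠ 0 := by
    rintro rfl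
    rw [zero_pow two_ne_zero] at hδ
    have h5 := hδ.symm
    rw [_root_.map_eq_zero] at h5
    exact div_ne_zero (neg_ne_zero.2 ha0) (Finset.prod_ne_zero_iff.2 fun i _ => hE.sh i) h5
  obtain ⟨-, -, -, -, hrot⟩ := hE.good_all hC hδ hs h65 (ha v₅ h65)
  obtain ⟨c, hcW, hcY⟩ := hrot W e he hW
  have hA := Act.of_sec hs
  have hμ : ∀ σ : κ ≃ₐ[ℚ] κ, ∀ c : κ, c ^ 2 = 1 → σ c = c := by
    intro σ c hc
    have h1 : (c - 1) * (c + 1) = 0 := by linear_combination hc
    rcases mul_eq_zero.1 h1 with h | h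
    · rw [sub_eq_zero.1 h, map_one]
    · rw [eq_neg_of_add_eq_zero_left h, map_neg, map_one]
  have heq : S = cjA c S := by
    refine rigid inferInstance hC (fun σ e he => ?_) hμ hA (cjA_act c hA) fun χ h1 h2 h3 h4 => ?_
    · obtain ⟨q, -, rfl⟩ := mem_BK6.1 he
      exact σ.commutes q
    · refine char_triv ι χ h1 h2 h3 (fun v hv => ?_) fun σ hσ => h4 σ ?_
      · obtain ⟨V, hV, -, hcm, -⟩ := hE.good_all hC hδ hs hv (ha v hv)
        exact ⟨V, hV, fun σ hσ => h4 σ (hcm c σ hσ)⟩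
      · exact comm_of_fixes2 hC hA W he hW hcW (ξ₀ := σ δ / δ)
          (div_ne_zero ((_root_.map_ne_zero _).2 hδ0) hδ0) (hs.fixy σ) (hD σ hσ)
  intro σ
  exact fixes_of_comm hC hA W he hW hcW hcY (DFunLike.congr_fun heq σ)

end

end Pool.Agent.Zk12.G6
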