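import Mathlib
import Pool.Agent.Zk12.G6Rigid
import Pool.Agent.Y158.GR.Fer

/-!
# Sections of the geometrically pro-`2` fundamental group of `a y² = ∏ (t - E i)`
-/

set_option autoImplicit false
set_option linter.all false

open Polynomial FF Pool.Agent.Y157.PS IsDedekindDomain NumberField Pool.Agent.TH954

namespace Pool.Agent.Zk12.G6

open Pool.Agent.Zk12 Pool.Agent.Y158.GR

attribute [-instance] DivisionRing.toRatAlgebra

noncomputable local instance ratQ2 : Algebra ℚ ℚ_[2] := DivisionRing.toRatAlgebra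

section

variable {E : Fin 5 → ℤ} {c m : ℤ}
variable {F Ω : Type} [Field F] [Field Ω] [Algebra ℚ F] [Algebra F Ω] [Algebra ℚ Ω]
  [IsScalarTower ℚ F Ω] [IsAlgClosed Ω] [Algebra.IsAlgebraic F Ω]

theorem shift_ne {F : Type} [Field F] [Algebra ℚ F] {t : F} (ht : Transcendental ℚ t) (c : ℤ) :
    t + c ≠ 0 := by
  intro h
  apply ht
  rw [eq_neg_of_add_eq_zero_left h]
  have : (-(c : F)) = algebraMap ℚ F (-(c : ℚ)) := by rw [map_neg, map_intCast]
  rw [this]
  exact isAlgebraic_algebraMap _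

/-- the covering field -/
theorem Six.setup8 (hE : Six E c m) {a : ℚ} (ha0 : a ≠ 0) (t y : F) (ht : Transcendental ℚ t)
    (hF : IntermediateField.adjoin ℚ {t, y} = (⊤ : IntermediateField ℚ F))
    (hty : algebraMap ℚ F a * y ^ 2 = ∏ i, (t - (E i : F))) :
    ∃ (δ : algebraicClosure ℚ Ω) (R M : Type) (_ : Field R) (_ : Field M)
      (_ : Algebra (algebraicClosure ℚ Ω) R)
      (_ : Algebra R M) (_ : Algebra (algebraicClosure ℚ Ω) M)
      (_ : IsScalarTower (algebraicClosure ℚ Ω) R M) (x' : R) (Y : M)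
      (eqv : M ≃+* geomPro 2 ℚ F Ω), δ ≠ 0 ∧
      δ ^ 2 = algebraMap ℚ _ (-a / ∏ i, ((E i : ℚ) + c)) ∧
      Cov 2 (algebraicClosure ℚ Ω) R M x' (BK6 (algebraicClosure ℚ Ω) E c) Y ∧
      (∀ c : algebraicClosure ℚ Ω, ((eqv (algebraMap (algebraicClosure ℚ Ω) M c) :
        geomPro 2 ℚ F Ω) : Ω) = (c : Ω)) ∧
      ((eqv (algebraMap R M x') : geomPro 2 ℚ F Ω) : Ω) = algebraMap F Ω ((t + c)⁻¹) ∧
      ((eqv Y : geomPro 2 ℚ F Ω) : Ω) = (δ : Ω) * algebraMap F Ω (y / (t + c) ^ 3) := by
  have hac : IsAlgClosure ℚ (algebraicClosure ℚ Ω) := inferInstance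
  have hkb : IsAlgClosed (algebraicClosure ℚ Ω) := hac.1
  haveI : CharZero F := charZero_of_injective_algebraMap (algebraMap ℚ F).injective
  haveI : CharZero Ω := charZero_of_injective_algebraMap (algebraMap ℚ Ω).injective
  have ht2 : t + c ≠ 0 := shift_ne ht c
  have hP : (∏ i, ((E i : ℚ) + c)) ≠ 0 := Finset.prod_ne_zero_iff.2 fun i _ => hE.sh i
  obtain ⟨δ, hδ⟩ := IsAlgClosed.exists_pow_nat_eq
    (algebraMap ℚ (algebraicClosure ℚ Ω) (-a / ∏ i, ((E i : ℚ) + c))) (n := 2) (by norm_num)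
  have hδ0 : δ ≠ 0 := by
    rintro rfl
    rw [zero_pow two_ne_zero] at hδ
    have h5 := hδ.symm
    rw [_root_.map_eq_zero] at h5
    exact div_ne_zero (neg_ne_zero.2 ha0) hP h5
  have halg : IsAlgebraic ℚ (c : F) := by
    have : (c : F) = algebraMap ℚ F (c : ℚ) := by rw [map_intCast]
    rw [this]
    exact isAlgebraic_algebraMap _
  have hxt : Transcendental ℚ ((t + c)⁻¹) := by
    intro h
    apply ht
    have h1 : t = ((t + c)⁻¹)⁻¹ - c := by
      rw [inv_inv]
      ring
    rw [h1]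
    exact h.inv.sub halg
  have hF' : IntermediateField.adjoin ℚ {(t + c)⁻¹, y / (t + c) ^ 3} =
      (⊤ : IntermediateField ℚ F) := by
    rw [eq_top_iff, ← hF, IntermediateField.adjoin_le_iff]
    have h2 : (c : F) ∈ IntermediateField.adjoin ℚ {(t + c)⁻¹, y / (t + c) ^ 3} :=
      intCast_mem _ c
    have hx : (t + c)⁻¹ ∈ IntermediateField.adjoin ℚ {(t + c)⁻¹, y / (t + c) ^ 3} :=
      IntermediateField.subset_adjoin ℚ _ (by simp)
    have hy : y / (t + c) ^ 3 ∈ IntermediateField.adjoin ℚ {(t + c)⁻¹, y / (t + c) ^ 3} :=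
      IntermediateField.subset_adjoin ℚ _ (by simp)
    have htm : t ∈ IntermediateField.adjoin ℚ {(t + c)⁻¹, y / (t + c) ^ 3} := by
      have h1 : ((t + c)⁻¹)⁻¹ - c ∈
          IntermediateField.adjoin ℚ {(t + c)⁻¹, y / (t + c) ^ 3} :=
        sub_mem (inv_mem hx) h2
      have h3 : ((t + c)⁻¹)⁻¹ - c = t := by
        rw [inv_inv]
        ring
      rwa [h3] at h1
    intro z hz
    simp only [Set.mem_insert_iff, Set.mem_singleton_iff] at hz
    rcases hz with rfl | rfl
    · exact htm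
    · have h1 : z / (t + c) ^ 3 * (t + c) ^ 3 ∈
          IntermediateField.adjoin ℚ {(t + c)⁻¹, z / (t + c) ^ 3} :=
        mul_mem hy (pow_mem (add_mem htm h2) 3)
      rwa [div_mul_cancel₀ _ (pow_ne_zero _ ht2)] at h1
  haveI : Fact (Nat.Prime 2) := ⟨Nat.prime_two⟩
  obtain ⟨R, M, i1, i2, i3, i4, i5, i6, x', Y, eqv, h1, h2, h3, h4⟩ :=
    glue (ℓ := 2) (Ω := Ω) (BK6 (algebraicClosure ℚ Ω) E c) (by rw [hE.BK_card]; norm_num)
      (by rw [hE.BK_card]; norm_num) δ hδ0 ((t + c)⁻¹) (y / (t + c) ^ 3) hxt hF' (by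
        rw [hE.BK_prod]
        have e0 : ((0 : algebraicClosure ℚ Ω) : Ω) = 0 := rfl
        have hδΩ : (δ : Ω) ^ 2 = algebraMap F Ω (algebraMap ℚ F (-a / ∏ i, ((E i : ℚ) + c))) := by
          have := congrArg (algebraMap (algebraicClosure ℚ Ω) Ω) hδ
          rw [map_pow, ← IsScalarTower.algebraMap_apply] at this
          rw [← IsScalarTower.algebraMap_apply]
          exact this
        have ei : ∀ i, (((((E i : algebraicClosure ℚ Ω) + c)⁻¹ : algebraicClosure ℚ Ω)) : Ω) =
            algebraMap F Ω (((E i : F) + c)⁻¹) := by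
          intro i
          rw [map_inv₀, map_add, map_intCast, map_intCast]
          have h1 := map_inv₀ (algebraMap (algebraicClosure ℚ Ω) Ω)
            ((E i : algebraicClosure ℚ Ω) + c)
          rw [map_add, map_intCast, map_intCast] at h1
          exact h1
        have hpe : ∏ i, (algebraMap F Ω ((t + c)⁻¹) -
            (((((E i : algebraicClosure ℚ Ω) + c)⁻¹ : algebraicClosure ℚ Ω)) : Ω)) =
            algebraMap F Ω (∏ i, ((t + c)⁻¹ - ((E i : F) + c)⁻¹)) := by
          rw [map_prod]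
          refine Finset.prod_congr rfl fun i _ => ?_
          rw [map_sub, ei i]
        rw [e0, mul_pow, hδΩ, sub_zero, hpe, ← map_pow, ← map_mul, ← map_mul]
        congr 1
        have hsh : ∀ i, (E i : F) + c ≠ 0 := fun i => by exact_mod_cast hE.shift i
        have hPF : (∏ i, ((E i : F) + c)) ≠ 0 := Finset.prod_ne_zero_iff.2 fun i _ => hsh i
        have hPF' : algebraMap ℚ F (∏ i, ((E i : ℚ) + c)) = ∏ i, ((E i : F) + c) := by
          rw [map_prod]
          refine Finset.prod_congr rfl fun i _ => ?_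
          rw [map_add, map_intCast, map_intCast]
        have hpr : ∏ i, ((t + c)⁻¹ - ((E i : F) + c)⁻¹) =
            (∏ i : Fin 5, (-1 : F)) * (∏ i, (t - (E i : F))) / ((∏ i : Fin 5, (t + (c : F))) *
              ∏ i, ((E i : F) + c)) := by
          rw [← Finset.prod_mul_distrib, ← Finset.prod_mul_distrib, ← Finset.prod_div_distrib]
          refine Finset.prod_congr rfl fun i _ => ?_
          have := hsh i
          field_simp
          ring
        rw [hpr, ← hty, Finset.prod_const, Finset.prod_const, Finset.card_univ, Fintype.card_fin,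
          map_div₀, map_neg, hPF']
        field_simp)
  exact ⟨δ, R, M, i1, i2, i3, i4, i5, i6, x', Y, eqv, hδ0, hδ, h1, h2, h3, h4⟩

end

end Pool.Agent.Zk12.G6
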