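import Mathlib
import Pool.Agent.Zk12.G6Base2
import Pool.Agent.Y158.GR.Gen

/-!
# Sections of the geometrically pro-`2` fundamental group of curves over `a y² = t (t² - 1) (t² - 9)`
-/

set_option autoImplicit false
set_option linter.all false

open Polynomial FF Pool.Agent.Y157.PS IsDedekindDomain NumberField Pool.Agent.TH954

namespace Pool.Agent.Zk12.G6

open Pool.Agent.Zk12 Pool.Agent.Y158.GR

attribute [-instance] DivisionRing.toRatAlgebra SubfieldClass.instSMulRat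
attribute [local instance 1] DivisionRing.toRatAlgebra

section

variable {E : Fin 5 → ℤ} {c m : ℤ}
variable {F Ω B : Type} [Field F] [Field Ω] [Field B] [Algebra ℚ F] [Algebra F Ω] [Algebra ℚ Ω]
  [Algebra ℚ B] [IsScalarTower ℚ F Ω] [IsAlgClosed Ω] [Algebra.IsAlgebraic F Ω]
  [IsAlgClosure ℚ B]
  {C : Type} [Field C] [Algebra ℚ_[2] C] [Algebra ℚ C] [IsScalarTower ℚ ℚ_[2] C]
  [IsAlgClosure ℚ_[2] C]

theorem Six.gen8 (hE : Six E c m) (hcon : Conc E) {a : ℚ} (ha0 : a ≠ 0)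
    (ha : ∀ v : HeightOneSpectrum (𝓞 ℚ), v.valuation ℚ 6 = 1 → v.valuation ℚ a = 1) (t y : F)
    (ht : Transcendental ℚ t) (hFt : Algebra.IsAlgebraic (IntermediateField.adjoin ℚ {t}) F)
    (hty : algebraMap ℚ F a * y ^ 2 = ∏ i, (t - (E i : F)))
    (N : IntermediateField F Ω)
    (hN : ∀ z ∈ geomPro 2 ℚ (IntermediateField.adjoin ℚ {t, y}) Ω, z ∈ N)
    (s : GalSection ℚ F N B) (p : Plc ℚ N C) (hpv : s.GivenBy ℚ_[2] p) :
    (p.val (algebraMap F N t)⁻¹ 0 ∨ ∃ i, p.val (algebraMap F N t) ((E i : ℤ) : C)) ∧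
      ∀ (g : B ≃ₐ[ℚ] B) (z : N),
        (z : Ω) ∈ geomPro 2 ℚ (IntermediateField.adjoin ℚ {t, y}) Ω →
        (s.s g z ∈ p.W ↔ z ∈ p.W) := by
  obtain ⟨F₀, hF₀⟩ : ∃ F₀ : IntermediateField ℚ F,
    F₀ = IntermediateField.adjoin ℚ {t, y} := ⟨_, rfl⟩
  have htm : t ∈ F₀ := by
    rw [hF₀]; exact IntermediateField.subset_adjoin ℚ _ (by simp)
  have hym : y ∈ F₀ := by
    rw [hF₀]; exact IntermediateField.subset_adjoin ℚ _ (by simp)
  rw [← hF₀] at hN ⊢
  haveI hFF : Algebra.IsAlgebraic F₀ F :=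
    alg_sub hFt F₀ one_ne_zero (by rw [pow_one]; exact htm)
  haveI hFΩ : Algebra.IsAlgebraic F₀ Ω := Algebra.IsAlgebraic.trans F₀ F Ω
  have htop : IntermediateField.adjoin ℚ {(⟨t, htm⟩ : F₀), ⟨y, hym⟩} =
      (⊤ : IntermediateField ℚ F₀) := by
    apply IntermediateField.map_injective F₀.val
    rw [IntermediateField.adjoin_map, Set.image_pair, ← AlgHom.fieldRange_eq_map,
      IntermediateField.fieldRange_val]
    exact hF₀.symm
  have ht0 : Transcendental ℚ (⟨t, htm⟩ : F₀) := by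
    rw [← transcendental_algebraMap_iff (R := ℚ) (A := F) (algebraMap F₀ F).injective]
    exact ht
  have hty0 : algebraMap ℚ F₀ a * (⟨y, hym⟩ : F₀) ^ 2 =
      ∏ i, ((⟨t, htm⟩ : F₀) - (E i : F₀)) := by
    apply (algebraMap F₀ F).injective
    have h1 : algebraMap F₀ F (algebraMap ℚ F₀ a) = algebraMap ℚ F a := rfl
    have h2 : algebraMap F₀ F ⟨t, htm⟩ = t := rfl
    have h3 : algebraMap F₀ F ⟨y, hym⟩ = y := rfl
    rw [map_mul, map_pow, map_prod, h1, h3, hty]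
    refine Finset.prod_congr rfl fun i _ => ?_
    rw [map_sub, map_intCast, h2]
  have halg : Algebra.IsAlgebraic (IntermediateField.adjoin ℚ {(⟨t, htm⟩ : F₀)}) F₀ :=
    alg_of_eqn (k := ℚ) two_pos (∏ i, (X - (E i : ℚ[X]))) a ha0 (⟨t, htm⟩ : F₀) ⟨y, hym⟩ (by
      rw [hty0, map_prod]
      refine Finset.prod_congr rfl fun i _ => ?_
      rw [map_sub, aeval_X, map_intCast]) htop
  haveI : IsAlgClosure F₀ Ω := ⟨inferInstance, inferInstance⟩
  obtain ⟨-, hst⟩ := a_inrt 2 ℚ F₀ Ω (⟨t, htm⟩ : F₀) ht0 halg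
  -- the restriction
  obtain ⟨Φ, hΦc, hΦ⟩ := Pool.Agent.Y674.PS.restr' (F₀ := F₀) (Ω₀ := Ω) (F := F) (Ω := Ω)
    (algebraMap F₀ F) (RingHom.id Ω) (fun a => rfl) (geomPro 2 ℚ F₀ Ω) N hN (fun σ z hz =>
      ⟨σ z, hst (σ.restrictScalars F₀) z hz, rfl⟩)
  have hΦ' : ∀ (e : N ≃ₐ[F] N) (z : N) (w : geomPro 2 ℚ F₀ Ω), (w : Ω) = (z : Ω) →
      ((Φ e w : geomPro 2 ℚ F₀ Ω) : Ω) = ((e z : N) : Ω) := hΦ
  -- the algebraic closures
  haveI : IsScalarTower ℚ N Ω := IsScalarTower.of_algebraMap_eq fun _ => rfl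
  obtain ⟨eB, heB⟩ := exists_eB (Ω := Ω) ((IsScalarTower.toAlgHom ℚ N Ω).comp s.j)
  have heB' : ∀ b, ((s.j b : N) : Ω) = ((eB b : algebraicClosure ℚ Ω) : Ω) := fun b => (heB b).symm
  let j₀ : algebraicClosure ℚ Ω →ₐ[ℚ] geomPro 2 ℚ F₀ Ω :=
    { toFun := fun z => ⟨(z : Ω), const_geomPro 2 ℚ z⟩
      map_one' := rfl
      map_mul' := fun _ _ => rfl
      map_zero' := rfl
      map_add' := fun _ _ => rfl
      commutes' := fun c => rfl }
  have hj₀ : ∀ z, ((j₀ z : geomPro 2 ℚ F₀ Ω) : Ω) = (z : Ω) := fun z => rfl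
  let s₀ : GalSection ℚ F₀ (geomPro 2 ℚ F₀ Ω) (algebraicClosure ℚ Ω) :=
    { j := j₀
      s := (Φ.comp s.s).comp (AlgEquiv.autCongr eB.symm : _ →* _)
      cont := (hΦc.comp s.cont).comp (Pool.Agent.Y674.PS.conj_cont eB.symm)
      sec := by
        intro σ z
        apply Subtype.ext
        have h1 := hΦ' (s.s (AlgEquiv.autCongr eB.symm σ)) (s.j (eB.symm z)) (j₀ z) (by
          rw [heB', eB.apply_symm_apply, hj₀])
        have h2 : (AlgEquiv.autCongr eB.symm σ) (eB.symm z) = eB.symm (σ z) := by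
          change eB.symm (σ (eB (eB.symm z))) = _
          rw [eB.apply_symm_apply]
        rw [s.sec, h2, heB', eB.apply_symm_apply] at h1
        exact h1 }
  have hs₀ : ∀ σ (z : N) (w : geomPro 2 ℚ F₀ Ω), (w : Ω) = (z : Ω) →
      ((s₀.s σ w : geomPro 2 ℚ F₀ Ω) : Ω) =
        ((s.s (AlgEquiv.autCongr eB.symm σ) z : N) : Ω) := fun σ z w h => hΦ' _ z w h
  -- the place
  let i : geomPro 2 ℚ F₀ Ω →+* N :=
    { toFun := fun w => ⟨(w : Ω), hN _ w.2⟩
      map_one' := rfl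
      map_mul' := fun _ _ => rfl
      map_zero' := rfl
      map_add' := fun _ _ => rfl }
  have hi : ∀ w, ((i w : N) : Ω) = (w : Ω) := fun w => rfl
  have hiK : ∀ c : ℚ, i (algebraMap ℚ (geomPro 2 ℚ F₀ Ω) c) = algebraMap ℚ N c := fun c =>
    Subtype.ext rfl
  have his : ∀ σ w, i (s₀.s σ w) = s.s (AlgEquiv.autCongr eB.symm σ) (i w) := fun σ w =>
    Subtype.ext (hs₀ σ (i w) w rfl)
  have hij : ∀ z, i (j₀ z) = s.j (eB.symm z) := fun z => by
    apply Subtype.ext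
    rw [hi, hj₀, heB', eB.apply_symm_apply]
  have hpv₀ : s₀.GivenBy ℚ_[2] (resPlc i hiK p) := by
    intro τ σ h w c hw
    rw [resPlc_val] at hw ⊢
    rw [his]
    refine hpv τ _ (fun z c' hz => ?_) _ _ hw
    have h1 := h (eB z) c' (by
      rw [resPlc_val]
      change p.val (i (j₀ (eB z))) c'
      rw [hij, eB.symm_apply_apply]
      exact hz)
    rw [resPlc_val] at h1
    change p.val (i (j₀ (σ (eB z)))) (τ c') at h1
    rw [hij] at h1
    exact h1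
  obtain ⟨h1, h2⟩ := hE.base8 hcon (C := C) ha0 ha _ _ ht0 htop hty0 s₀ hj₀ (resPlc i hiK p) hpv₀
  have hiF : ∀ z : F₀, i (algebraMap F₀ (geomPro 2 ℚ F₀ Ω) z) = algebraMap F N (z : F) := fun z =>
    Subtype.ext rfl
  refine ⟨?_, fun g z hz => ?_⟩
  · rcases h1 with h1 | ⟨i', h1⟩
    · left
      rw [resPlc_val, map_inv₀, hiF] at h1
      exact h1
    · right
      refine ⟨i', ?_⟩
      rw [resPlc_val, hiF] at h1
      exact h1
  · have h3 := h2 (AlgEquiv.autCongr eB g) ⟨(z : Ω), hz⟩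
    rw [resPlc_mem, resPlc_mem, his] at h3
    have h4 : i ⟨(z : Ω), hz⟩ = z := Subtype.ext rfl
    have h5 : AlgEquiv.autCongr eB.symm (AlgEquiv.autCongr eB g) = g := by
      ext b
      change eB.symm (eB (g (eB.symm (eB b)))) = g b
      rw [eB.symm_apply_apply, eB.symm_apply_apply]
    rwa [h4, h5] at h3

end

end Pool.Agent.Zk12.G6
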