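import Mathlib

/-!
# Units outside `6`: the equation `x + y = 1`
-/

set_option autoImplicit false
set_option linter.all false

namespace Pool.Agent.Zk12.G6

/-- the rational numbers `± 2 ^ k 3 ^ l` -/
def U6 (q : ℚ) : Prop := ∃ k l : ℤ, q = 2 ^ k * 3 ^ l ∨ q = -(2 ^ k * 3 ^ l)

theorem U6.sgn {q : ℚ} (h : U6 q) : ∃ (s : ℤ) (k l : ℤ), (s = 1 ∨ s = -1) ∧
    q = s * (2 ^ k * 3 ^ l) := by
  obtain ⟨k, l, h | h⟩ := h
  · exact ⟨1, k, l, Or.inl rfl, by rw [h]; push_cast; ring⟩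
  · exact ⟨-1, k, l, Or.inr rfl, by rw [h]; push_cast; ring⟩

theorem U6.of_sgn {q : ℚ} (s : ℤ) (k l : ℤ) (hs : s = 1 ∨ s = -1)
    (h : q = s * (2 ^ k * 3 ^ l)) : U6 q := by
  rcases hs with rfl | rfl
  · exact ⟨k, l, Or.inl (by rw [h]; push_cast; ring)⟩
  · exact ⟨k, l, Or.inr (by rw [h]; push_cast; ring)⟩

theorem U6.ne_zero {q : ℚ} (h : U6 q) : q ≠ 0 := by
  have h1 : ∀ k l : ℤ, (2 : ℚ) ^ k * 3 ^ l ≠ 0 := fun k l =>
    mul_ne_zero (zpow_ne_zero _ (by norm_num)) (zpow_ne_zero _ (by norm_num))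
  obtain ⟨k, l, h | h⟩ := h
  · rw [h]; exact h1 k l
  · rw [h]; exact neg_ne_zero.2 (h1 k l)

theorem U6.mul {q r : ℚ} (hq : U6 q) (hr : U6 r) : U6 (q * r) := by
  obtain ⟨s, k, l, hs, h1⟩ := hq.sgn
  obtain ⟨s', k', l', hs', h2⟩ := hr.sgn
  refine U6.of_sgn (s * s') (k + k') (l + l') ?_ ?_
  · rcases hs with rfl | rfl <;> rcases hs' with rfl | rfl <;> norm_num
  · rw [h1, h2, zpow_add₀ (by norm_num), zpow_add₀ (by norm_num)]
    push_cast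
    ring

theorem U6.inv {q : ℚ} (hq : U6 q) : U6 q⁻¹ := by
  obtain ⟨s, k, l, hs, h1⟩ := hq.sgn
  refine U6.of_sgn s (-k) (-l) hs ?_
  rw [h1, zpow_neg, zpow_neg, mul_inv, mul_inv]
  rcases hs with rfl | rfl <;> norm_num

theorem U6.div {q r : ℚ} (hq : U6 q) (hr : U6 r) : U6 (q / r) := by
  rw [div_eq_mul_inv]
  exact hq.mul hr.inv

theorem U6.neg {q : ℚ} (hq : U6 q) : U6 (-q) := by
  obtain ⟨k, l, h | h⟩ := hq
  · exact ⟨k, l, Or.inr (by rw [h])⟩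
  · exact ⟨k, l, Or.inl (by rw [h]; ring)⟩

theorem U6.sub_comm {q r : ℚ} (h : U6 (q - r)) : U6 (r - q) := by
  have := h.neg
  rwa [neg_sub] at this

/-- a divisor of a power of `6` -/
theorem dvd_six_pow {n M : ℕ} (h : n ∣ 6 ^ M) : n ∣ 6 ^ n := by
  have hn : n ≠ 0 := by
    rintro rfl
    rw [zero_dvd_iff] at h
    exact pow_ne_zero _ (by norm_num) h
  rw [← Nat.factorization_prime_le_iff_dvd hn (pow_ne_zero _ (by norm_num))]
  intro p hp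
  rw [Nat.factorization_pow, Finsupp.smul_apply, smul_eq_mul]
  by_cases h6 : p ∣ 6
  · have h1 : 1 ≤ (6 : ℕ).factorization p := (hp.dvd_iff_one_le_factorization (by norm_num)).1 h6
    have h2 : n.factorization p < n := Nat.factorization_lt p hn
    nlinarith
  · have h3 : n.factorization p = 0 := by
      apply Nat.factorization_eq_zero_of_not_dvd
      intro h4
      exact h6 (hp.dvd_of_dvd_pow (h4.trans h))
    rw [h3]
    exact Nat.zero_le _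

/-- a condition that can be checked -/
def sm (q : ℚ) : Prop := q ≠ 0 ∧ q.num.natAbs ∣ 6 ^ q.num.natAbs ∧ q.den ∣ 6 ^ q.den

instance : DecidablePred sm := fun q => by unfold sm; infer_instance

theorem U6.frac {q : ℚ} (h : U6 q) : ∃ (a b : ℤ) (M : ℕ), b ≠ 0 ∧ a ∣ 6 ^ M ∧ b ∣ 6 ^ M ∧
    q = a / b := by
  obtain ⟨s, k, l, hs, h1⟩ := h.sgn
  obtain ⟨k₁, k₂, hk⟩ : ∃ k₁ k₂ : ℕ, k = k₁ - k₂ := ⟨k.toNat, (-k).toNat, by omega⟩
  obtain ⟨l₁, l₂, hl⟩ : ∃ l₁ l₂ : ℕ, l = l₁ - l₂ := ⟨l.toNat, (-l).toNat, by omega⟩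
  have hd : ∀ a b : ℕ, ((2 : ℤ) ^ a * 3 ^ b) ∣ 6 ^ (k₁ + k₂ + l₁ + l₂ + a + b) := by
    intro a b
    refine ⟨2 ^ (k₁ + k₂ + l₁ + l₂ + b) * 3 ^ (k₁ + k₂ + l₁ + l₂ + a), ?_⟩
    rw [show (6 : ℤ) = 2 * 3 by norm_num, mul_pow]
    ring
  have hd' : ∀ a b : ℕ, a ≤ k₁ + k₂ → b ≤ l₁ + l₂ →
      ((2 : ℤ) ^ a * 3 ^ b) ∣ 6 ^ (2 * (k₁ + k₂ + l₁ + l₂)) := fun a b h1 h2 =>
    (hd a b).trans (pow_dvd_pow _ (by omega))
  refine ⟨s * (2 ^ k₁ * 3 ^ l₁), 2 ^ k₂ * 3 ^ l₂, 2 * (k₁ + k₂ + l₁ + l₂), by positivity, ?_,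
    hd' _ _ (by omega) (by omega), ?_⟩
  · rcases hs with rfl | rfl
    · rw [one_mul]
      exact hd' _ _ (by omega) (by omega)
    · rw [neg_one_mul, neg_dvd]
      exact hd' _ _ (by omega) (by omega)
  · rw [h1, hk, hl, zpow_sub₀ (by norm_num), zpow_sub₀ (by norm_num)]
    push_cast
    simp only [zpow_natCast]
    field_simp

theorem U6.sm {q : ℚ} (h : U6 q) : sm q := by
  obtain ⟨a, b, M, hb, h1, h2, h3⟩ := h.frac
  refine ⟨h.ne_zero, ?_, ?_⟩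
  · apply dvd_six_pow (M := M)
    have h4 : q.num ∣ a := by
      rw [h3, ← Rat.divInt_eq_div]
      exact Rat.num_dvd a hb
    have h5 : q.num ∣ 6 ^ M := h4.trans h1
    have h6 := Int.natAbs_dvd_natAbs.2 h5
    rwa [Int.natAbs_pow] at h6
  · apply dvd_six_pow (M := M)
    have h4 : ((q.den : ℕ) : ℤ) ∣ b := by
      rw [h3, ← Rat.divInt_eq_div]
      exact Rat.den_dvd a b
    have h5 : ((q.den : ℕ) : ℤ) ∣ 6 ^ M := h4.trans h2
    exact_mod_cast h5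

/-- `3 ^ j = 2 ^ i + 1` -/
theorem exp1 {i j : ℕ} (h : 3 ^ j = 2 ^ i + 1) : i ≤ 3 ∧ j ≤ 2 := by
  have hi : i ≤ 3 := by
    by_contra hi
    push Not at hi
    obtain ⟨i', rfl⟩ : ∃ i', i = i' + 4 := ⟨i - 4, by omega⟩
    have h16 : 3 ^ j % 16 = 1 := by
      rw [h, pow_add]
      omega
    have hj : j % 4 = 0 := by
      have h1 : 3 ^ j % 16 = 3 ^ (j % 4) % 16 := by
        conv_lhs => rw [← Nat.div_add_mod j 4, pow_add, pow_mul]
        rw [Nat.mul_mod, Nat.pow_mod]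
        norm_num
      have h2 : j % 4 < 4 := Nat.mod_lt _ (by norm_num)
      rw [h1] at h16
      generalize j % 4 = r at *
      interval_cases r <;> simp_all
    obtain ⟨m, rfl⟩ : ∃ m, j = 4 * m := ⟨j / 4, by omega⟩
    have h5 : 3 ^ (4 * m) % 5 = 1 := by
      rw [pow_mul, Nat.pow_mod]
      norm_num
    have h6 : 5 ∣ 2 ^ (i' + 4) := by omega
    have h7 := (Nat.Prime.dvd_of_dvd_pow (by norm_num) h6 : 5 ∣ 2)
    norm_num at h7
  refine ⟨hi, ?_⟩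
  by_contra hj
  push Not at hj
  have h1 : 3 ^ 3 ≤ 3 ^ j := Nat.pow_le_pow_right (by norm_num) hj
  have h2 : 2 ^ i ≤ 2 ^ 3 := Nat.pow_le_pow_right (by norm_num) hi
  omega

/-- `3 ^ j + 1 = 2 ^ i` -/
theorem exp2 {i j : ℕ} (h : 3 ^ j + 1 = 2 ^ i) : i ≤ 3 ∧ j ≤ 2 := by
  have hi : i ≤ 2 := by
    by_contra hi
    push Not at hi
    obtain ⟨i', rfl⟩ : ∃ i', i = i' + 3 := ⟨i - 3, by omega⟩
    have h8 : 3 ^ j % 8 = 7 := by
      rw [pow_add] at h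
      omega
    have h1 : 3 ^ j % 8 = 3 ^ (j % 2) % 8 := by
      conv_lhs => rw [← Nat.div_add_mod j 2, pow_add, pow_mul]
      rw [Nat.mul_mod, Nat.pow_mod]
      norm_num
    have h2 : j % 2 < 2 := Nat.mod_lt _ (by norm_num)
    rw [h1] at h8
    generalize j % 2 = r at *
    interval_cases r <;> simp_all
  refine ⟨by omega, ?_⟩
  by_contra hj
  push Not at hj
  have h1 : 3 ^ 3 ≤ 3 ^ j := Nat.pow_le_pow_right (by norm_num) hj
  have h2 : 2 ^ i ≤ 2 ^ 2 := Nat.pow_le_pow_right (by norm_num) hi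
  omega

theorem bd_pow {i j N : ℕ} (h : 2 ^ i * 3 ^ j ≤ N) (hN : N < 16) : i ≤ 3 ∧ j ≤ 2 := by
  have h1 : 1 ≤ 2 ^ i := Nat.one_le_two_pow
  have h2 : 1 ≤ 3 ^ j := Nat.one_le_pow _ _ (by norm_num)
  constructor
  · by_contra hi
    push Not at hi
    have := Nat.pow_le_pow_right (n := 2) (by norm_num) hi
    nlinarith
  · by_contra hj
    push Not at hj
    have := Nat.pow_le_pow_right (n := 3) (by norm_num) hj
    nlinarith

theorem par2 (i j : ℕ) : ((2 : ℤ) ^ i * 3 ^ j) % 2 = 1 ↔ i = 0 := by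
  have h3 : ((3 : ℤ) ^ j) % 2 = 1 := by
    rw [← Int.odd_iff]
    exact Odd.pow (by decide)
  constructor
  · intro h
    by_contra h0
    obtain ⟨k, rfl⟩ := Nat.exists_eq_succ_of_ne_zero h0
    rw [pow_succ] at h
    have : (2 : ℤ) ^ k * 2 * 3 ^ j = 2 * (2 ^ k * 3 ^ j) := by ring
    rw [this] at h
    omega
  · rintro rfl
    rw [pow_zero, one_mul, h3]

theorem par3 (i j : ℕ) : (((2 : ℤ) ^ i * 3 ^ j) % 3 = 0) ↔ j ≠ 0 := by
  have h2 : ((2 : ℤ) ^ i) % 3 ≠ 0 := by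
    intro h
    have h1 := Int.dvd_of_emod_eq_zero h
    have h3 := Int.Prime.dvd_pow' (by norm_num : Nat.Prime 3) h1
    norm_num at h3
  constructor
  · rintro h rfl
    rw [pow_zero, mul_one] at h
    exact h2 h
  · intro h0
    obtain ⟨k, rfl⟩ := Nat.exists_eq_succ_of_ne_zero h0
    rw [pow_succ]
    have : (2 : ℤ) ^ i * (3 ^ k * 3) = 3 * (2 ^ i * 3 ^ k) := by ring
    rw [this]
    omega

/-- two of the exponents vanish -/
theorem two_zero {s s' : ℤ} (hs : s = 1 ∨ s = -1) (hs' : s' = 1 ∨ s' = -1)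
    {i i' i'' j j' j'' : ℕ} {A B C : ℤ} (h : s * A + s' * B = C)
    (p1 : A % 2 = 1 ↔ i = 0) (p2 : B % 2 = 1 ↔ i' = 0) (p3 : C % 2 = 1 ↔ i'' = 0)
    (q1 : A % 3 = 0 ↔ j ≠ 0) (q2 : B % 3 = 0 ↔ j' ≠ 0) (q3 : C % 3 = 0 ↔ j'' ≠ 0)
    (hi : i = 0 ∨ i' = 0 ∨ i'' = 0) (hj : j = 0 ∨ j' = 0 ∨ j'' = 0) :
    ((i = 0 ∧ i' = 0) ∨ (i = 0 ∧ i'' = 0) ∨ (i' = 0 ∧ i'' = 0)) ∧
    ((j = 0 ∧ j' = 0) ∨ (j = 0 ∧ j'' = 0) ∨ (j' = 0 ∧ j'' = 0)) := by
  rcases hs with rfl | rfl <;> rcases hs' with rfl | rfl <;> omega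

/-- the main equation -/
theorem main_eq {i j : ℕ} : ((2 : ℤ) ^ i * 3 ^ j ≤ 2 → i ≤ 3 ∧ j ≤ 2) ∧
    ((3 : ℤ) ^ j = 2 ^ i + 1 → i ≤ 3 ∧ j ≤ 2) ∧ ((3 : ℤ) ^ j + 1 = 2 ^ i → i ≤ 3 ∧ j ≤ 2) :=
  ⟨fun h => bd_pow (N := 2) (by exact_mod_cast h) (by norm_num),
    fun h => exp1 (by exact_mod_cast h), fun h => exp2 (by exact_mod_cast h)⟩

/-- all solutions are small -/
theorem small_sol {s s' : ℤ} (hs : s = 1 ∨ s = -1) (hs' : s' = 1 ∨ s' = -1)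
    {i i' i'' j j' j'' : ℕ} (h : s * (2 ^ i * 3 ^ j) + s' * (2 ^ i' * 3 ^ j') = 2 ^ i'' * 3 ^ j'')
    (hi : i = 0 ∨ i' = 0 ∨ i'' = 0) (hj : j = 0 ∨ j' = 0 ∨ j'' = 0) :
    (i ≤ 3 ∧ j ≤ 2) ∧ (i' ≤ 3 ∧ j' ≤ 2) ∧ (i'' ≤ 3 ∧ j'' ≤ 2) := by
  obtain ⟨hi2, hj2⟩ := two_zero hs hs' h (par2 i j) (par2 i' j') (par2 i'' j'') (par3 i j)
    (par3 i' j') (par3 i'' j'') hi hj
  have pos2 : ∀ i : ℕ, (0 : ℤ) < 2 ^ i := fun i => by positivity
  have pos3 : ∀ i : ℕ, (0 : ℤ) < 3 ^ i := fun i => by positivity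
  have pos6 : ∀ i j : ℕ, (0 : ℤ) < 2 ^ i * 3 ^ j := fun i j => by positivity
  have m1 := fun i j : ℕ => (main_eq (i := i) (j := j)).1
  have m2 := fun i j : ℕ => (main_eq (i := i) (j := j)).2.1
  have m3 := fun i j : ℕ => (main_eq (i := i) (j := j)).2.2
  have a1 := pos2 i
  have a2 := pos2 i'
  have a3 := pos2 i''
  have b1 := pos3 j
  have b2 := pos3 j'
  have b3 := pos3 j''
  have d1 := pos6 i j
  have d2 := pos6 i' j'
  have d3 := pos6 i'' j''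
  rcases hi2 with ⟨rfl, rfl⟩ | ⟨rfl, rfl⟩ | ⟨rfl, rfl⟩ <;>
    rcases hj2 with ⟨rfl, rfl⟩ | ⟨rfl, rfl⟩ | ⟨rfl, rfl⟩ <;>
    rcases hs with rfl | rfl <;> rcases hs' with rfl | rfl <;>
    simp only [pow_zero, one_mul, mul_one] at h d1 d2 d3 ⊢ <;>
    first
      | (have := m1 i j (by omega); omega)
      | (have := m1 i' j' (by omega); omega)
      | (have := m1 i'' j'' (by omega); omega)
      | (have := m2 i j (by omega); omega)
      | (have := m2 i j' (by omega); omega)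
      | (have := m2 i j'' (by omega); omega)
      | (have := m2 i' j (by omega); omega)
      | (have := m2 i' j' (by omega); omega)
      | (have := m2 i' j'' (by omega); omega)
      | (have := m2 i'' j (by omega); omega)
      | (have := m2 i'' j' (by omega); omega)
      | (have := m2 i'' j'' (by omega); omega)
      | (have := m3 i j (by omega); omega)
      | (have := m3 i j' (by omega); omega)
      | (have := m3 i j'' (by omega); omega)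
      | (have := m3 i' j (by omega); omega)
      | (have := m3 i' j' (by omega); omega)
      | (have := m3 i' j'' (by omega); omega)
      | (have := m3 i'' j (by omega); omega)
      | (have := m3 i'' j' (by omega); omega)
      | (have := m3 i'' j'' (by omega); omega)
      | omega

end Pool.Agent.Zk12.G6
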