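import Mathlib
import Pool.Agent.Zk12.U6

/-!
# Units outside `6`: the equation `x + y = 1`, the list of the solutions
-/

set_option autoImplicit false
set_option linter.all false

namespace Pool.Agent.Zk12.G6

/-- the solutions -/
def T21 : List ℚ := [-8, -3, -2, -1, -1/2, -1/3, -1/8, 1/9, 1/4, 1/3, 1/2, 2/3, 3/4, 8/9, 9/8, 4/3,
  3/2, 2, 3, 4, 9]

def chkS (s s' : ℤ) (i i' i'' j j' j'' : ℕ) : Prop :=
  s * (2 ^ i * 3 ^ j) + s' * (2 ^ i' * 3 ^ j') = 2 ^ i'' * 3 ^ j'' →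
    ((s : ℚ) * (2 ^ i * 3 ^ j)) / (2 ^ i'' * 3 ^ j'') ∈ T21

instance (s s' : ℤ) (i i' i'' j j' j'' : ℕ) : Decidable (chkS s s' i i' i'' j j' j'') := by
  unfold chkS; infer_instance

theorem chkS_all : ∀ s ∈ ([1, -1] : List ℤ), ∀ s' ∈ ([1, -1] : List ℤ), ∀ i < 4, ∀ i' < 4,
    ∀ i'' < 4, ∀ j < 3, ∀ j' < 3, ∀ j'' < 3, chkS s s' i i' i'' j j' j'' := by
  decide +kernel

theorem sunit {x : ℚ} (hx : U6 x) (hx' : U6 (1 - x)) : x ∈ T21 := by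
  obtain ⟨s, k, l, hs, h1⟩ := hx.sgn
  obtain ⟨s', k', l', hs', h2⟩ := hx'.sgn
  obtain ⟨m, hm, hmi⟩ : ∃ m : ℕ, (0 ≤ k + m ∧ 0 ≤ k' + m) ∧
      (k + m = 0 ∨ k' + m = 0 ∨ m = 0) := by
    refine ⟨(max (-k) (-k')).toNat, ?_, ?_⟩ <;> omega
  obtain ⟨r, hr, hri⟩ : ∃ r : ℕ, (0 ≤ l + r ∧ 0 ≤ l' + r) ∧
      (l + r = 0 ∨ l' + r = 0 ∨ r = 0) := by
    refine ⟨(max (-l) (-l')).toNat, ?_, ?_⟩ <;> omega
  obtain ⟨i, hi⟩ := Int.eq_ofNat_of_zero_le hm.1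
  obtain ⟨i', hi'⟩ := Int.eq_ofNat_of_zero_le hm.2
  obtain ⟨j, hj⟩ := Int.eq_ofNat_of_zero_le hr.1
  obtain ⟨j', hj'⟩ := Int.eq_ofNat_of_zero_le hr.2
  have t2 : (2 : ℚ) ≠ 0 := by norm_num
  have t3 : (3 : ℚ) ≠ 0 := by norm_num
  have c2 : ∀ (k : ℤ) (i : ℕ), k + m = i → (2 : ℚ) ^ k * 2 ^ m = 2 ^ i := by
    intro k i h
    rw [← zpow_natCast, ← zpow_natCast, ← zpow_add₀ t2, h]
  have c3 : ∀ (l : ℤ) (j : ℕ), l + r = j → (3 : ℚ) ^ l * 3 ^ r = 3 ^ j := by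
    intro k i h
    rw [← zpow_natCast, ← zpow_natCast, ← zpow_add₀ t3, h]
  have hxm : x * (2 ^ m * 3 ^ r) = s * (2 ^ i * 3 ^ j) := by
    rw [h1, ← c2 k i hi, ← c3 l j hj]
    ring
  have hxm' : (1 - x) * (2 ^ m * 3 ^ r) = s' * (2 ^ i' * 3 ^ j') := by
    rw [h2, ← c2 k' i' hi', ← c3 l' j' hj']
    ring
  have heq : s * (2 ^ i * 3 ^ j) + s' * (2 ^ i' * 3 ^ j') = 2 ^ m * 3 ^ r := by
    have : ((s * (2 ^ i * 3 ^ j) + s' * (2 ^ i' * 3 ^ j') : ℤ) : ℚ) = ((2 ^ m * 3 ^ r : ℤ) : ℚ) := by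
      push_cast
      rw [← hxm, ← hxm']
      ring
    exact_mod_cast this
  obtain ⟨⟨a1, a2⟩, ⟨a3, a4⟩, ⟨a5, a6⟩⟩ := small_sol hs hs' heq (by omega) (by omega)
  have hfin := chkS_all s (by rcases hs with rfl | rfl <;> decide) s'
    (by rcases hs' with rfl | rfl <;> decide) i (by omega) i' (by omega) m (by omega) j (by omega)
    j' (by omega) r (by omega) heq
  have hx3 : x = ((s : ℚ) * (2 ^ i * 3 ^ j)) / (2 ^ m * 3 ^ r) := by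
    rw [← hxm]
    field_simp
  rw [hx3]
  exact hfin

end Pool.Agent.Zk12.G6
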