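import Mathlib
import Pool.Agent.Zk12.U6b

/-!
# Five rational numbers whose differences are units outside `6`
-/

set_option autoImplicit false
set_option linter.all false

namespace Pool.Agent.Zk12.G6

/-- the first set -/
def W1 : Finset ℚ := {-3, -1, 0, 1, 3}

/-- the second set -/
def W2 : Finset ℚ := {-2, -1, 0, 1, 2}

/-- the entries: three numbers, a point which is moved to infinity, the exponents of the factor, the
shift and the set -/
def tab : List ((ℚ × ℚ × ℚ) × Option ℚ × (ℤ × ℤ) × ℚ × Bool) := [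
  (((-8), (-2), 4), (some (-2)), ((-1), (-1)), (1/6), true),
  (((-3), (-2), (-1)), (none), (0, 0), (-1), true),
  (((-3), (-1), (-1/3)), (some 1), ((-2), 0), (-1/2), true),
  (((-3), (-1), 3), (none), (0, 0), 0, false),
  (((-3), (3/2), 3), (some 0), (0, (-1)), (1/3), true),
  (((-3), 3, 9), (some (-3)), ((-2), (-1)), (1/6), true),
  (((-2), (-1), (-1/2)), (none), ((-1), 0), (-1/2), false),
  (((-2), (-1), 2), (none), (0, 0), 0, true),
  (((-2), (-1/2), (1/4)), (some 1), (0, (-1)), (-2/3), true),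
  (((-2), (-1/2), 4), (some 1), (0, (-1)), (-1/3), true),
  (((-2), (2/3), 2), (some 0), ((-1), 0), (1/2), true),
  (((-2), 2, 4), (none), (0, 0), 1, false),
  (((-1), (-1/2), (-1/3)), (some 0), (0, 0), (-1), true),
  (((-1), (-1/2), (1/2)), (none), ((-1), 0), 0, true),
  (((-1), (-1/3), (1/3)), (none), (0, (-1)), 0, false),
  (((-1), (1/3), (1/2)), (some 0), (0, 0), 1, true),
  (((-1), (1/3), 3), (some 1), ((-1), 0), (-1/2), true),
  (((-1), (1/2), 2), (none), ((-1), 0), (1/2), false),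
  (((-1), 2, 3), (none), (0, 0), 1, true),
  (((-1/2), (-1/8), (1/4)), (some (-1/2)), (1, (-1)), (4/3), true),
  (((-1/2), (1/4), (1/2)), (none), ((-2), 0), (1/4), false),
  (((-1/2), (1/2), (3/2)), (none), ((-1), 0), (1/2), true),
  (((-1/3), (1/9), (1/3)), (some (-1/3)), ((-2), 1), (3/2), true),
  (((-1/3), (1/3), (2/3)), (none), (0, (-1)), (1/3), true),
  (((1/4), (1/3), (1/2)), (some 0), (0, 0), 2, true),
  (((1/4), (1/2), (3/4)), (none), ((-2), 0), (1/2), true),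
  (((1/3), (1/2), (2/3)), (none), ((-1), (-1)), (1/2), false),
  (((1/3), (2/3), (4/3)), (none), (0, (-1)), (2/3), true),
  (((1/2), (2/3), (3/4)), (some 1), (0, 0), (-2), true),
  (((1/2), (2/3), 2), (some 0), ((-1), 0), 1, true),
  (((1/2), (3/4), (3/2)), (none), ((-2), 0), (3/4), false),
  (((1/2), (3/2), 2), (none), ((-1), 0), 1, true),
  (((2/3), (8/9), (4/3)), (some (2/3)), ((-1), 1), (3/2), true),
  (((2/3), (4/3), 2), (none), (0, (-1)), 1, false),
  (((3/4), (9/8), (3/2)), (some (3/4)), (2, (-1)), (4/3), true),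
  (((3/4), (3/2), 3), (some 0), (0, (-1)), (2/3), true),
  (((4/3), (3/2), 2), (some 1), (0, 0), 1, true),
  (((4/3), 2, 4), (some 0), ((-2), 0), (1/2), true),
  (((3/2), 2, 3), (none), ((-1), 0), (3/2), false),
  ((2, 3, 4), (none), (0, 0), 2, true)]

def setW (b : Bool) : Finset ℚ := if b then W2 else W1

/-- the affine image -/
def aff (k l : ℤ) (β : ℚ) (W : Finset ℚ) : Finset ℚ := W.image fun z => 2 ^ k * 3 ^ l * z + β

/-- the image under `1 / (z - k)` -/
def inv5 (k : ℚ) (S : Finset ℚ) : Finset ℚ := insert 0 ((S.erase k).image fun z => 1 / (z - k))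

def set5 (x : ℚ × ℚ × ℚ) : Finset ℚ := {0, 1, x.1, x.2.1, x.2.2}

def chkE (x : (ℚ × ℚ × ℚ) × Option ℚ × (ℤ × ℤ) × ℚ × Bool) : Prop :=
  match x with
  | (y, none, (k, l), β, b) => set5 y = aff k l β (setW b)
  | (y, some z, (k, l), β, b) => z ∈ set5 y ∧ inv5 z (set5 y) = aff k l β (setW b)

instance : DecidablePred chkE := fun x => by
  unfold chkE
  split <;> infer_instance

theorem tab_ok : ∀ x ∈ tab, chkE x := by decide +kernel

def inTab (x y z : ℚ) : Bool := tab.any fun e => e.1.1 = x ∧ e.1.2.1 = y ∧ e.1.2.2 = z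

theorem enum : ∀ x ∈ T21, ∀ y ∈ T21, x < y → sm (y - x) → ∀ z ∈ T21, y < z → sm (z - x) →
    sm (z - y) → inTab x y z = true := by decide +kernel

theorem cls3 {x y z : ℚ} (hx : x ∈ T21) (hy : y ∈ T21) (hz : z ∈ T21) (h1 : x < y) (h2 : y < z)
    (d1 : U6 (y - x)) (d2 : U6 (z - x)) (d3 : U6 (z - y)) : ∃ e ∈ tab, e.1 = (x, y, z) := by
  have h := enum x hx y hy h1 d1.sm z hz h2 d2.sm d3.sm
  unfold inTab at h
  rw [List.any_eq_true] at h
  obtain ⟨e, he, h3⟩ := h
  refine ⟨e, he, ?_⟩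
  simp only [decide_eq_true_eq] at h3
  obtain ⟨e1, e2, e3⟩ := h3
  exact Prod.ext e1 (Prod.ext e2 e3)

/-- five numbers whose differences are units outside `6`, two of them `0`, `1` -/
theorem cls5 {S : Finset ℚ} (h0 : 0 ∈ S) (h1 : 1 ∈ S) (hc : S.card = 5)
    (hd : ∀ x ∈ S, ∀ y ∈ S, x ≠ y → U6 (x - y)) : ∃ e ∈ tab, S = set5 e.1 := by
  have hc' : ((S.erase 0).erase 1).card = 3 := by
    rw [Finset.card_erase_of_mem (Finset.mem_erase.2 ⟨one_ne_zero, h1⟩),
      Finset.card_erase_of_mem h0, hc]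
  obtain ⟨x, y, z, hxy, hxz, hyz, hS⟩ := Finset.card_eq_three.1 hc'
  have hS' : S = {0, 1, x, y, z} := by
    have h2 : insert 1 ((S.erase 0).erase 1) = S.erase 0 :=
      Finset.insert_erase (Finset.mem_erase.2 ⟨one_ne_zero, h1⟩)
    have h3 : insert 0 (S.erase 0) = S := Finset.insert_erase h0
    rw [← h3, ← h2, hS]
  have hm : ∀ w ∈ (S.erase 0).erase 1, w ∈ S ∧ w ∈ T21 := by
    intro w hw
    rw [Finset.mem_erase, Finset.mem_erase] at hw
    refine ⟨hw.2.2, sunit ?_ (hd 1 h1 w hw.2.2 (Ne.symm hw.1))⟩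
    have := hd w hw.2.2 0 h0 hw.2.1
    rwa [sub_zero] at this
  obtain ⟨x1, x2⟩ := hm x (by rw [hS]; simp)
  obtain ⟨y1, y2⟩ := hm y (by rw [hS]; simp)
  obtain ⟨z1, z2⟩ := hm z (by rw [hS]; simp)
  have key : ∀ u v w : ℚ, u ∈ S → v ∈ S → w ∈ S → u ∈ T21 → v ∈ T21 → w ∈ T21 → u < v → v < w →
      S = {0, 1, u, v, w} → ∃ e ∈ tab, S = set5 e.1 := by
    intro u v w u1 v1 w1 u2 v2 w2 huv hvw hS
    obtain ⟨e, he, he'⟩ := cls3 u2 v2 w2 huv hvw (hd v v1 u u1 huv.ne') (hd w w1 u u1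
      (huv.trans hvw).ne') (hd w w1 v v1 hvw.ne')
    refine ⟨e, he, ?_⟩
    rw [he', hS]
    rfl
  rcases lt_or_gt_of_ne hxy with a | a <;> rcases lt_or_gt_of_ne hyz with b | b <;>
    rcases lt_or_gt_of_ne hxz with c | c
  · exact key x y z x1 y1 z1 x2 y2 z2 a b hS'
  · exact absurd (a.trans b) (not_lt.2 c.le)
  · exact key x z y x1 z1 y1 x2 z2 y2 c b (by rw [hS']; ext w; simp; tauto)
  · exact key z x y z1 x1 y1 z2 x2 y2 c a (by rw [hS']; ext w; simp; tauto)
  · exact key y x z y1 x1 z1 y2 x2 z2 a c (by rw [hS']; ext w; simp; tauto)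
  · exact key y z x y1 z1 x1 y2 z2 x2 b c (by rw [hS']; ext w; simp; tauto)
  · exact absurd (b.trans a) (not_lt.2 c.le)
  · exact key z y x z1 y1 x1 z2 y2 x2 b a (by rw [hS']; ext w; simp; tauto)

end Pool.Agent.Zk12.G6
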