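import Mathlib
import Pool.Agent.Zk12.G6Fin9
import Pool.Agent.Zk12.U6c

/-!
# Curves `a y² = ∏ (t - e)` with good reduction outside `6`: change of the coordinate
-/

set_option autoImplicit false
set_option linter.all false

open Polynomial FF Pool.Agent.Y157.PS IsDedekindDomain NumberField Pool.Agent.TH954

namespace Pool.Agent.Zk12.G6

open Pool.Agent.Zk12 Pool.Agent.Y158.GR Pool.Agent.Y158.FQ

attribute [-instance] DivisionRing.toRatAlgebra SubfieldClass.instSMulRat
attribute [local instance 1] DivisionRing.toRatAlgebra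

/-- the statement for the set `S` of branch points -/
def Sol (S : Finset ℚ) : Prop := ∀ (F Ω B C : Type) [Field F] [Field Ω] [Field B] [Field C]
  [Algebra ℚ F] [Algebra F Ω] [Algebra ℚ Ω] [Algebra ℚ B] [IsScalarTower ℚ F Ω] [IsAlgClosed Ω]
  [Algebra.IsAlgebraic F Ω] [IsAlgClosure ℚ B] [Algebra ℚ_[2] C] [Algebra ℚ C]
  [IsScalarTower ℚ ℚ_[2] C] [IsAlgClosure ℚ_[2] C] (a : ℚ), U6 a → ∀ (t : F),
  Transcendental ℚ t → Algebra.IsAlgebraic (IntermediateField.adjoin ℚ {t}) F →
  ∀ (N : IntermediateField F Ω) (s : GalSection ℚ F N B) (y : N),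
  algebraMap ℚ N a * y ^ 2 = algebraMap F N (∏ e ∈ S, (t - algebraMap ℚ F e)) →
  (∀ g, s.s g y = y) →
  (∀ z ∈ geomPro 2 ℚ (IntermediateField.adjoin ℚ {algebraMap F Ω t, (y : Ω)}) Ω, z ∈ N) →
  ∀ p : Plc ℚ N C, s.GivenBy ℚ_[2] p →
  (p.val (algebraMap F N t)⁻¹ 0 ∨ ∃ e ∈ S, p.val (algebraMap F N t) (algebraMap ℚ C e)) ∧
    ∀ (g : B ≃ₐ[ℚ] B) (z : N),
      (z : Ω) ∈ geomPro 2 ℚ (IntermediateField.adjoin ℚ {algebraMap F Ω t, (y : Ω)}) Ω →
      (s.s g z ∈ p.W ↔ z ∈ p.W)

theorem U6.val {q : ℚ} (h : U6 q) {v : HeightOneSpectrum (𝓞 ℚ)} (hv : v.valuation ℚ 6 = 1) :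
    v.valuation ℚ q = 1 := by
  obtain ⟨h2, h3⟩ := v_23 hv
  obtain ⟨k, l, h | h⟩ := h
  · rw [h, map_mul, map_zpow₀, map_zpow₀, h2, h3, one_zpow, one_zpow, one_mul]
  · rw [h, Valuation.map_neg, map_mul, map_zpow₀, map_zpow₀, h2, h3, one_zpow, one_zpow, one_mul]

theorem sol_of_six {E : Fin 5 → ℤ} {c m : ℤ} (hE : Six E c m) (hcon : Conc E) {S : Finset ℚ}
    (hS : S = SE6 E) : Sol S := by
  intro F Ω B C _ _ _ _ _ _ _ _ _ _ _ _ _ _ _ _ a ha t ht hFt N s y hty hys hN p hpv
  haveI : CharZero F := charZero_of_injective_algebraMap (algebraMap ℚ F).injective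
  have hpr : ∏ e ∈ S, (t - algebraMap ℚ F e) = ∏ i, (t - (E i : F)) := by
    rw [hS]
    unfold SE6
    rw [Finset.prod_image (fun i _ j _ h => hE.injQ h)]
    refine Finset.prod_congr rfl fun i _ => ?_
    rw [map_intCast]
  rw [hpr] at hty
  obtain ⟨h1, h2⟩ := hE.gen9 hcon ha.ne_zero (fun v hv => ha.val hv) t ht hFt N s y hty hys hN p hpv
  refine ⟨?_, h2⟩
  rcases h1 with h1 | ⟨i, h1⟩
  · exact Or.inl h1
  · right
    refine ⟨(E i : ℚ), by rw [hS]; exact E_mem i, ?_⟩
    rw [map_intCast]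
    exact h1

theorem sol_W1 : Sol W1 := sol_of_six six1 conc1 (by decide +kernel)

theorem sol_W2 : Sol W2 := sol_of_six six2 conc2 (by decide +kernel)

/-- change of the coordinate -/
theorem Sol.trans {W S : Finset ℚ} (hW : Sol W) {F Ω B C : Type} [Field F] [Field Ω] [Field B]
    [Field C]
    [Algebra ℚ F] [Algebra F Ω] [Algebra ℚ Ω] [Algebra ℚ B] [IsScalarTower ℚ F Ω] [IsAlgClosed Ω]
    [Algebra.IsAlgebraic F Ω] [IsAlgClosure ℚ B] [Algebra ℚ_[2] C] [Algebra ℚ C]
    [IsScalarTower ℚ ℚ_[2] C] [IsAlgClosure ℚ_[2] C] {a a' : ℚ} (ha0 : a ≠ 0) (ha' : U6 a')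
    {t t' h : F} (ht : Transcendental ℚ t) (hh : h ≠ 0)
    (hFt : Algebra.IsAlgebraic (IntermediateField.adjoin ℚ {t}) F)
    (m1 : t' ∈ IntermediateField.adjoin ℚ {t}) (m2 : t ∈ IntermediateField.adjoin ℚ {t'})
    (m3 : h ∈ IntermediateField.adjoin ℚ {t})
    (N : IntermediateField F Ω) (s : GalSection ℚ F N B) (y : N)
    (hty : algebraMap ℚ N a * y ^ 2 = algebraMap F N (∏ e ∈ S, (t - algebraMap ℚ F e)))
    (hys : ∀ g, s.s g y = y)
    (hN : ∀ z ∈ geomPro 2 ℚ (IntermediateField.adjoin ℚ {algebraMap F Ω t, (y : Ω)}) Ω, z ∈ N)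
    (p : Plc ℚ N C) (hpv : s.GivenBy ℚ_[2] p)
    (hid : algebraMap ℚ F a' * h ^ 2 * (∏ e ∈ S, (t - algebraMap ℚ F e)) =
      algebraMap ℚ F a * ∏ w ∈ W, (t' - algebraMap ℚ F w)) :
    (p.val (algebraMap F N t')⁻¹ 0 ∨ ∃ e ∈ W, p.val (algebraMap F N t') (algebraMap ℚ C e)) ∧
    ∀ (g : B ≃ₐ[ℚ] B) (z : N),
      (z : Ω) ∈ geomPro 2 ℚ (IntermediateField.adjoin ℚ {algebraMap F Ω t, (y : Ω)}) Ω →
      (s.s g z ∈ p.W ↔ z ∈ p.W) := by
  have hadj : IntermediateField.adjoin ℚ {t'} = IntermediateField.adjoin ℚ {t} := by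
    apply le_antisymm
    · rw [IntermediateField.adjoin_le_iff, Set.singleton_subset_iff]
      exact m1
    · rw [IntermediateField.adjoin_le_iff, Set.singleton_subset_iff]
      exact m2
  have ht' : Transcendental ℚ t' := by
    intro halg
    apply ht
    have h1 : Algebra.IsAlgebraic ℚ (IntermediateField.adjoin ℚ {t'}) :=
      IntermediateField.isAlgebraic_adjoin_simple halg.isIntegral
    have h2 : IsAlgebraic ℚ (⟨t, m2⟩ : IntermediateField.adjoin ℚ {t'}) := h1.isAlgebraic _
    exact h2.algebraMap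
  have hFt' : Algebra.IsAlgebraic (IntermediateField.adjoin ℚ {t'}) F := by
    rw [hadj]
    exact hFt
  obtain ⟨y', hy'⟩ : ∃ y' : N, y' = y * algebraMap F N h := ⟨_, rfl⟩
  have hty' : algebraMap ℚ N a' * y' ^ 2 = algebraMap F N (∏ w ∈ W, (t' - algebraMap ℚ F w)) := by
    have haN : algebraMap ℚ N a ≠ 0 := (_root_.map_ne_zero _).2 ha0
    apply mul_left_cancel₀ haN
    have hc : ∀ q : ℚ, algebraMap F N (algebraMap ℚ F q) = algebraMap ℚ N q := fun q =>
      (IsScalarTower.algebraMap_apply ℚ F N q).symm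
    have h1 := congrArg (algebraMap F N) hid
    rw [map_mul, map_mul, map_mul, map_pow, hc, hc, ← hty] at h1
    rw [← h1, hy']
    ring
  have hys' : ∀ g, s.s g y' = y' := by
    intro g
    rw [hy', map_mul, hys, AlgEquiv.commutes]
  have hfld : IntermediateField.adjoin ℚ {algebraMap F Ω t', (y' : Ω)} =
      IntermediateField.adjoin ℚ {algebraMap F Ω t, (y : Ω)} := by
    have hy'Ω : (y' : Ω) = (y : Ω) * algebraMap F Ω h := by
      rw [hy']
      rfl
    have hhΩ : algebraMap F Ω h ≠ 0 := (_root_.map_ne_zero _).2 hh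
    have hmap : ∀ (r : F) {u : F} {v : Ω}, r ∈ IntermediateField.adjoin ℚ {u} →
        algebraMap F Ω r ∈ IntermediateField.adjoin ℚ {algebraMap F Ω u, v} := by
      intro r u v hr
      have h2 := IntermediateField.adjoin_map ℚ {u} (IsScalarTower.toAlgHom ℚ F Ω)
      rw [Set.image_singleton] at h2
      have h3 : algebraMap F Ω r ∈ IntermediateField.adjoin ℚ {algebraMap F Ω u} := by
        have h4 : (IsScalarTower.toAlgHom ℚ F Ω) u = algebraMap F Ω u := rfl
        rw [← h4, ← h2]
        exact ⟨r, hr, rfl⟩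
      exact IntermediateField.adjoin.mono ℚ _ _ (by simp) h3
    apply le_antisymm
    · rw [IntermediateField.adjoin_le_iff]
      intro z hz
      simp only [Set.mem_insert_iff, Set.mem_singleton_iff] at hz
      rcases hz with rfl | rfl
      · exact hmap _ m1
      · rw [hy'Ω]
        exact mul_mem (IntermediateField.subset_adjoin ℚ _ (by simp)) (hmap _ m3)
    · rw [IntermediateField.adjoin_le_iff]
      intro z hz
      simp only [Set.mem_insert_iff, Set.mem_singleton_iff] at hz
      rcases hz with rfl | rfl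
      · exact hmap _ m2
      · have h4 : (y : Ω) = (y' : Ω) * (algebraMap F Ω h)⁻¹ := by
          rw [hy'Ω]
          field_simp
        rw [h4]
        refine mul_mem (IntermediateField.subset_adjoin ℚ _ (by simp)) (inv_mem (hmap _ ?_))
        rw [hadj]
        exact m3
  have hfin := hW F Ω B C a' ha' t' ht' hFt' N s y' hty' hys' (by rw [hfld]; exact hN) p hpv
  rw [hfld] at hfin
  exact hfin

theorem Sol.affine {W : Finset ℚ} (hW : Sol W) {α : ℚ} (hα : U6 α) (β : ℚ) :
    Sol (W.image fun z => α * z + β) := by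
  intro F Ω B C _ _ _ _ _ _ _ _ _ _ _ _ _ _ _ _ a ha t ht hFt N s y hty hys hN p hpv
  have hα0 := hα.ne_zero
  have hαF : algebraMap ℚ F α ≠ 0 := (_root_.map_ne_zero _).2 hα0
  obtain ⟨t', ht'⟩ : ∃ t' : F, t' = (t - algebraMap ℚ F β) / algebraMap ℚ F α := ⟨_, rfl⟩
  have htt' : t = algebraMap ℚ F α * t' + algebraMap ℚ F β := by
    rw [ht']
    field_simp
    ring
  have hU : ∀ n : ℕ, U6 (α ^ n) := by
    intro n
    induction n with
    | zero => rw [pow_zero]; exact ⟨0, 0, Or.inl (by norm_num)⟩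
    | succ n ih => rw [pow_succ]; exact ih.mul hα
  have hinj : Function.Injective fun z : ℚ => α * z + β := by
    intro z z' h
    have h1 : α * z + β = α * z' + β := h
    exact mul_left_cancel₀ hα0 (add_right_cancel h1)
  obtain ⟨h1, h2⟩ := hW.trans (S := W.image fun z => α * z + β) (a' := a / α ^ W.card)
    ha.ne_zero (ha.div (hU _)) (t' := t') (h := 1) ht one_ne_zero hFt (by
      rw [ht']
      exact div_mem (sub_mem (IntermediateField.mem_adjoin_simple_self _ _)
        (IntermediateField.algebraMap_mem _ β)) (IntermediateField.algebraMap_mem _ α)) (by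
      rw [htt']
      exact add_mem (mul_mem (IntermediateField.algebraMap_mem _ α)
        (IntermediateField.mem_adjoin_simple_self _ _)) (IntermediateField.algebraMap_mem _ β))
    (one_mem _) N s y hty hys hN p hpv (by
      rw [Finset.prod_image (fun z _ z' _ h => hinj h)]
      have h3 : ∀ w ∈ W, t - algebraMap ℚ F (α * w + β) =
          algebraMap ℚ F α * (t' - algebraMap ℚ F w) := by
        intro w _
        rw [htt', map_add, map_mul]
        ring
      rw [Finset.prod_congr rfl h3, Finset.prod_mul_distrib, Finset.prod_const, map_div₀, map_pow]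
      field_simp)
  refine ⟨?_, h2⟩
  have hchC : CharZero C := charZero_of_injective_algebraMap (algebraMap ℚ C).injective
  have hαC : algebraMap ℚ C α ≠ 0 := (_root_.map_ne_zero _).2 hα0
  have hc : ∀ q : ℚ, algebraMap F N (algebraMap ℚ F q) = algebraMap ℚ N q := fun q =>
    (IsScalarTower.algebraMap_apply ℚ F N q).symm
  have hcm : ∀ q : ℚ, p.val (algebraMap ℚ N q) (algebraMap ℚ C q) := fun q => p.comm q
  rcases h1 with h1 | ⟨e, he, h1⟩
  · left
    have ht'0 : t' ≠ 0 := by
      rintro h0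
      apply ht
      rw [htt', h0, mul_zero, zero_add]
      exact isAlgebraic_algebraMap β
    have ht0 : t ≠ 0 := by
      rintro h0
      apply ht
      rw [h0]
      exact isAlgebraic_zero
    have hαβ : algebraMap ℚ F α + algebraMap ℚ F β * t'⁻¹ ≠ 0 := by
      intro h0
      apply ht0
      rw [htt']
      have : algebraMap ℚ F α * t' + algebraMap ℚ F β =
          (algebraMap ℚ F α + algebraMap ℚ F β * t'⁻¹) * t' := by
        field_simp
      rw [this, h0, zero_mul]
    have h3 := h1.mul (((hcm α).add ((hcm β).mul h1)).inv (by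
      rw [mul_zero, add_zero]
      exact hαC))
    rw [zero_mul, ← hc, ← hc, ← map_inv₀, ← map_mul, ← map_add, ← map_inv₀, ← map_mul] at h3
    have h4 : t'⁻¹ * (algebraMap ℚ F α + algebraMap ℚ F β * t'⁻¹)⁻¹ = t⁻¹ := by
      rw [← mul_inv]
      congr 1
      rw [htt']
      field_simp
    rw [h4, map_inv₀] at h3
    exact h3
  · right
    refine ⟨α * e + β, Finset.mem_image_of_mem _ he, ?_⟩
    have h3 := ((hcm α).mul h1).add (hcm β)
    rw [← hc, ← hc, ← map_mul, ← map_add, ← htt', ← map_mul, ← map_add] at h3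
    exact h3

theorem Sol.inv {S : Finset ℚ} {k : ℚ} (hW : Sol (inv5 k S)) (hk : k ∈ S) (hc5 : S.card = 5)
    (hd : ∀ e ∈ S, e ≠ k → U6 (e - k)) : Sol S := by
  intro F Ω B C _ _ _ _ _ _ _ _ _ _ _ _ _ _ _ _ a ha t ht hFt N s y hty hys hN p hpv
  have htk : t - algebraMap ℚ F k ≠ 0 := by
    intro h
    apply ht
    rw [sub_eq_zero.1 h]
    exact isAlgebraic_algebraMap k
  obtain ⟨t', ht'⟩ : ∃ t' : F, t' = (t - algebraMap ℚ F k)⁻¹ := ⟨_, rfl⟩
  have ht'0 : t' ≠ 0 := by
    rw [ht']
    exact inv_ne_zero htk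
  have htt' : t = algebraMap ℚ F k + t'⁻¹ := by
    rw [ht', inv_inv]
    ring
  have hne : ∀ e ∈ S.erase k, e - k ≠ 0 := fun e he =>
    (hd e (Finset.mem_of_mem_erase he) (Finset.ne_of_mem_erase he)).ne_zero
  have hU : U6 (∏ e ∈ S.erase k, (e - k)) := by
    have : ∀ T : Finset ℚ, T ⊆ S.erase k → U6 (∏ e ∈ T, (e - k)) := by
      intro T
      induction T using Finset.induction_on with
      | empty => intro _; rw [Finset.prod_empty]; exact ⟨0, 0, Or.inl (by norm_num)⟩
      | insert i T hi ih =>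
        intro hT
        rw [Finset.prod_insert hi]
        have h1 := hT (Finset.mem_insert_self i T)
        exact (hd i (Finset.mem_of_mem_erase h1) (Finset.ne_of_mem_erase h1)).mul
          (ih fun z hz => hT (Finset.mem_insert_of_mem hz))
    exact this _ subset_rfl
  have hc4 : (S.erase k).card = 4 := by
    rw [Finset.card_erase_of_mem hk, hc5]
  obtain ⟨h1, h2⟩ := hW.trans (S := S) (a' := a / ∏ e ∈ S.erase k, (e - k))
    ha.ne_zero (ha.div hU) (t' := t') (h := t' ^ 3) ht (pow_ne_zero _ ht'0) hFt (by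
      rw [ht']
      exact inv_mem (sub_mem (IntermediateField.mem_adjoin_simple_self _ _)
        (IntermediateField.algebraMap_mem _ k))) (by
      rw [htt']
      exact add_mem (IntermediateField.algebraMap_mem _ k)
        (inv_mem (IntermediateField.mem_adjoin_simple_self _ _)))
    (by
      rw [ht']
      exact pow_mem (inv_mem (sub_mem (IntermediateField.mem_adjoin_simple_self _ _)
        (IntermediateField.algebraMap_mem _ k))) 3) N s y hty hys hN p hpv (by
      have hinj : ∀ z ∈ S.erase k, ∀ z' ∈ S.erase k, 1 / (z - k) = 1 / (z' - k) → z = z' := by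
        intro z hz z' hz' h
        have h1 := hne z hz
        have h2 := hne z' hz'
        field_simp at h
        linarith
      have h0 : (0 : ℚ) ∉ (S.erase k).image fun z => 1 / (z - k) := by
        rw [Finset.mem_image]
        rintro ⟨z, hz, h⟩
        exact div_ne_zero one_ne_zero (hne z hz) h
      unfold inv5
      rw [Finset.prod_insert h0, Finset.prod_image hinj, ← Finset.mul_prod_erase S _ hk]
      have h3 : ∀ w ∈ S.erase k, t' - algebraMap ℚ F (1 / (w - k)) =
          -(t - algebraMap ℚ F w) * t' * (algebraMap ℚ F (w - k))⁻¹ := by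
        intro w hw
        have h4 : algebraMap ℚ F (w - k) ≠ 0 := (_root_.map_ne_zero _).2 (hne w hw)
        rw [map_div₀, map_one, htt']
        have h5 : algebraMap ℚ F w = algebraMap ℚ F (w - k) + algebraMap ℚ F k := by
          rw [← map_add, sub_add_cancel]
        rw [h5]
        field_simp
        ring
      have h6 : algebraMap ℚ F (∏ e ∈ S.erase k, (e - k)) = ∏ e ∈ S.erase k,
          algebraMap ℚ F (e - k) := map_prod _ _ _
      have h7 : (∏ e ∈ S.erase k, algebraMap ℚ F (e - k)) ≠ 0 :=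
        Finset.prod_ne_zero_iff.2 fun e he => (_root_.map_ne_zero _).2 (hne e he)
      rw [Finset.prod_congr rfl h3, Finset.prod_mul_distrib, Finset.prod_mul_distrib,
        Finset.prod_const, hc4, Finset.prod_neg, hc4, Finset.prod_inv_distrib, map_div₀, h6,
        map_zero, sub_zero]
      have h8 : t - algebraMap ℚ F k = t'⁻¹ := by rw [ht', inv_inv]
      rw [h8]
      field_simp)
  refine ⟨?_, h2⟩
  have hchC : CharZero C := charZero_of_injective_algebraMap (algebraMap ℚ C).injective
  have hc : ∀ q : ℚ, algebraMap F N (algebraMap ℚ F q) = algebraMap ℚ N q := fun q =>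
    (IsScalarTower.algebraMap_apply ℚ F N q).symm
  have hcm : ∀ q : ℚ, p.val (algebraMap ℚ N q) (algebraMap ℚ C q) := fun q => p.comm q
  rcases h1 with h1 | ⟨e, he, h1⟩
  · right
    refine ⟨k, hk, ?_⟩
    have h3 := (hcm k).add h1
    rw [add_zero, ← hc, ← map_inv₀, ← map_add, ← htt'] at h3
    exact h3
  · unfold inv5 at he
    rw [Finset.mem_insert, Finset.mem_image] at he
    rcases he with rfl | ⟨w, hw, rfl⟩
    · left
      rw [map_zero] at h1
      have ht0 : t ≠ 0 := by
        rintro h0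
        apply ht
        rw [h0]
        exact isAlgebraic_zero
      have h3 := h1.mul ((Plc.val_one.add ((hcm k).mul h1)).inv (by
        rw [mul_zero, add_zero]
        exact one_ne_zero))
      rw [zero_mul, ← hc, ← map_one (algebraMap F N), ← map_mul, ← map_add, ← map_inv₀,
        ← map_mul] at h3
      have h5 : 1 + algebraMap ℚ F k * t' ≠ 0 := by
        intro h0
        apply ht0
        rw [htt']
        have : algebraMap ℚ F k + t'⁻¹ = (1 + algebraMap ℚ F k * t') * t'⁻¹ := by
          field_simp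
          ring
        rw [this, h0, zero_mul]
      have h4 : t' * (1 + algebraMap ℚ F k * t')⁻¹ = t⁻¹ := by
        rw [htt']
        field_simp
        ring
      rw [h4, map_inv₀] at h3
      exact h3
    · right
      refine ⟨w, Finset.mem_of_mem_erase hw, ?_⟩
      have h4 := hne w hw
      have h4C : algebraMap ℚ C (w - k) ≠ 0 := (_root_.map_ne_zero _).2 h4
      have h3 := (hcm k).add (h1.inv (by
        rw [map_div₀, map_one]
        exact div_ne_zero one_ne_zero h4C))
      rw [← hc, ← map_inv₀, ← map_add, ← htt', ← map_inv₀, ← map_add] at h3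
      have h5 : k + (1 / (w - k))⁻¹ = w := by
        field_simp
        ring
      rw [h5] at h3
      exact h3

end Pool.Agent.Zk12.G6
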