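import Mathlib
import Pool.Agent.Zk12.G6Sol

/-!
# Curves `a y² = ∏ (t - e)` with good reduction outside `6`: all curves
-/

set_option autoImplicit false
set_option linter.all false

open IsDedekindDomain NumberField

namespace Pool.Agent.Zk12.G6

open Pool.Agent.Zk12

theorem U6.zpow (k l : ℤ) : U6 (2 ^ k * 3 ^ l) := ⟨k, l, Or.inl rfl⟩

theorem sol_setW (b : Bool) : Sol (setW b) := by
  cases b
  · exact sol_W1
  · exact sol_W2

theorem sol_aff (k l : ℤ) (β : ℚ) (b : Bool) : Sol (aff k l β (setW b)) :=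
  (sol_setW b).affine (U6.zpow k l) β

/-- the sets of the table -/
theorem sol_tab {e : (ℚ × ℚ × ℚ) × Option ℚ × (ℤ × ℤ) × ℚ × Bool} (he : e ∈ tab) {S : Finset ℚ}
    (hS : S = set5 e.1) (hc : S.card = 5) (hd : ∀ x ∈ S, ∀ y ∈ S, x ≠ y → U6 (x - y)) :
    Sol S := by
  have h := tab_ok e he
  obtain ⟨y, z, ⟨k, l⟩, β, b⟩ := e
  simp only at hS
  cases z with
  | none =>
    have h1 : set5 y = aff k l β (setW b) := h
    rw [hS, h1]
    exact sol_aff k l β b
  | some z =>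
    obtain ⟨h1, h2⟩ : z ∈ set5 y ∧ inv5 z (set5 y) = aff k l β (setW b) := h
    rw [← hS] at h1 h2
    refine Sol.inv (k := z) ?_ h1 hc fun e he hez => hd e he z h1 hez
    rw [h2]
    exact sol_aff k l β b

/-- normalisation -/
theorem normal {S : Finset ℚ} (h2 : 2 ≤ S.card) (hd : ∀ x ∈ S, ∀ y ∈ S, x ≠ y → U6 (x - y)) :
    ∃ (S₀ : Finset ℚ) (α β : ℚ), U6 α ∧ S = S₀.image (fun z => α * z + β) ∧ 0 ∈ S₀ ∧ 1 ∈ S₀ ∧
      S₀.card = S.card ∧ ∀ x ∈ S₀, ∀ y ∈ S₀, x ≠ y → U6 (x - y) := by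
  obtain ⟨x, hx, y, hy, hxy⟩ := Finset.one_lt_card.1 h2
  have hα := hd y hy x hx hxy.symm
  have hα0 := hα.ne_zero
  refine ⟨S.image fun z => (z - x) / (y - x), y - x, x, hα, ?_, ?_, ?_, ?_, ?_⟩
  · rw [Finset.image_image]
    have : (fun z => (y - x) * z + x) ∘ (fun z => (z - x) / (y - x)) = id := by
      funext z
      simp only [Function.comp_apply, id]
      field_simp
      ring
    rw [this, Finset.image_id]
  · exact Finset.mem_image.2 ⟨x, hx, by rw [sub_self, zero_div]⟩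
  · exact Finset.mem_image.2 ⟨y, hy, div_self hα0⟩
  · apply Finset.card_image_of_injective
    intro z z' h
    have h1 : (z - x) / (y - x) = (z' - x) / (y - x) := h
    rw [div_left_inj' hα0] at h1
    linarith
  · intro u hu v hv huv
    rw [Finset.mem_image] at hu hv
    obtain ⟨u', hu', rfl⟩ := hu
    obtain ⟨v', hv', rfl⟩ := hv
    have h1 : u' ≠ v' := by
      rintro rfl
      exact huv rfl
    have h3 : (u' - x) / (y - x) - (v' - x) / (y - x) = (u' - v') / (y - x) := by ring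
    rw [h3]
    exact (hd u' hu' v' hv' h1).div hα

theorem enum4 : ∀ x ∈ T21, ∀ y ∈ T21, x < y → sm (y - x) → ∀ z ∈ T21, y < z → sm (z - x) →
    sm (z - y) → ∀ w ∈ T21, z < w → sm (w - x) → sm (w - y) → ¬ sm (w - z) := by decide +kernel

/-- there are no six numbers -/
theorem card_le_five {S : Finset ℚ} (hd : ∀ x ∈ S, ∀ y ∈ S, x ≠ y → U6 (x - y)) :
    S.card ≤ 5 := by
  by_contra hcon
  push Not at hcon
  obtain ⟨S₀, α, β, -, -, h0, h1, hc, hd⟩ := normal (by omega) hd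
  have hc' : 4 ≤ ((S₀.erase 0).erase 1).card := by
    rw [Finset.card_erase_of_mem (Finset.mem_erase.2 ⟨one_ne_zero, h1⟩),
      Finset.card_erase_of_mem h0, hc]
    omega
  obtain ⟨T, hT, hTc⟩ := Finset.exists_subset_card_eq hc'
  have hm : ∀ w ∈ T, w ∈ S₀ ∧ w ∈ T21 := by
    intro w hw
    have hw := hT hw
    rw [Finset.mem_erase, Finset.mem_erase] at hw
    refine ⟨hw.2.2, sunit ?_ (hd 1 h1 w hw.2.2 (Ne.symm hw.1))⟩
    have := hd w hw.2.2 0 h0 hw.2.1
    rwa [sub_zero] at this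
  let f := T.orderEmbOfFin hTc
  have hf : ∀ i, f i ∈ T := fun i => T.orderEmbOfFin_mem hTc i
  have hlt : ∀ i j, i < j → f i < f j := fun i j h => f.strictMono h
  have hsm : ∀ i j, i < j → sm (f j - f i) := fun i j h =>
    (hd _ (hm _ (hf j)).1 _ (hm _ (hf i)).1 (hlt i j h).ne').sm
  exact enum4 (f 0) (hm _ (hf 0)).2 (f 1) (hm _ (hf 1)).2 (hlt 0 1 (by decide))
    (hsm 0 1 (by decide)) (f 2) (hm _ (hf 2)).2 (hlt 1 2 (by decide)) (hsm 0 2 (by decide))
    (hsm 1 2 (by decide)) (f 3) (hm _ (hf 3)).2 (hlt 2 3 (by decide)) (hsm 0 3 (by decide))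
    (hsm 1 3 (by decide)) (hsm 2 3 (by decide))

/-- the theorem for all sets -/
theorem sol_all {S : Finset ℚ} (hc : 5 ≤ S.card)
    (hd : ∀ x ∈ S, ∀ y ∈ S, x ≠ y → U6 (x - y)) : Sol S := by
  have hc5 : S.card = 5 := le_antisymm (card_le_five hd) hc
  obtain ⟨S₀, α, β, hα, hS, h0, h1, hc0, hd0⟩ := normal (by omega) hd
  obtain ⟨e, he, he'⟩ := cls5 h0 h1 (by omega) hd0
  rw [hS]
  exact (sol_tab he he' (by omega) hd0).affine hα β

end Pool.Agent.Zk12.G6
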