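import Mathlib

/-!
# Square classes of `ℚ_2` and the local computations
-/

set_option autoImplicit false

namespace Pool.Agent.Zk12

/-- `x` is `c` times a nonzero square of `ℚ_2` -/
def SqM (c : ℤ) (x : ℚ_[2]) : Prop := ∃ b : ℚ_[2], b ≠ 0 ∧ x = c * b ^ 2

theorem sq8 (y : ℤ_[2]) : ∃ b : ℤ_[2], b ^ 2 = 1 + 8 * y ∧ b ≠ 0 := by
  have h2 : ‖(2 : ℤ_[2])‖ = 2⁻¹ := by
    have := PadicInt.norm_p (p := 2)
    simpa using this
  have h8 : ‖(8 : ℤ_[2])‖ = 8⁻¹ := by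
    have : (8 : ℤ_[2]) = 2 ^ 3 := by norm_num
    rw [this, norm_pow, h2]
    norm_num
  have hF : ‖(Polynomial.aeval (1 : ℤ_[2])) (Polynomial.X ^ 2 - Polynomial.C (1 + 8 * y))‖ <
      ‖(Polynomial.aeval (1 : ℤ_[2]))
        (Polynomial.derivative (Polynomial.X ^ 2 - Polynomial.C (1 + 8 * y)))‖ ^ 2 := by
    have e1 : (Polynomial.aeval (1 : ℤ_[2])) (Polynomial.X ^ 2 - Polynomial.C (1 + 8 * y)) =
        -(8 * y) := by
      simp
    have e2 : (Polynomial.aeval (1 : ℤ_[2]))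
        (Polynomial.derivative (Polynomial.X ^ 2 - Polynomial.C (1 + 8 * y))) = 2 := by
      simp
      norm_num
    rw [e1, e2, h2, norm_neg, norm_mul, h8]
    have := PadicInt.norm_le_one y
    nlinarith
  obtain ⟨z, hz, -⟩ := hensels_lemma hF
  have hz' : z ^ 2 = 1 + 8 * y := by
    have h1 : z ^ 2 - (1 + 8 * y) = 0 := by simpa using hz
    exact sub_eq_zero.1 h1
  refine ⟨z, hz', ?_⟩
  rintro rfl
  rw [zero_pow two_ne_zero] at hz'
  have h3 : (1 : ℤ_[2]) = -(8 * y) := by linear_combination -hz'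
  have h4 := congrArg norm h3
  rw [norm_one, norm_neg, norm_mul, h8] at h4
  have := PadicInt.norm_le_one y
  linarith

theorem SqM.mul {c d : ℤ} {x y : ℚ_[2]} (h : SqM c x) (h' : SqM d y) : SqM (c * d) (x * y) := by
  obtain ⟨b, hb, hx⟩ := h
  obtain ⟨b', hb', hy⟩ := h'
  exact ⟨b * b', mul_ne_zero hb hb', by rw [hx, hy]; push_cast; ring⟩

theorem sqM_one8 (y : ℤ_[2]) : SqM 1 (1 + 8 * (y : ℚ_[2])) := by
  obtain ⟨b, hb, hb0⟩ := sq8 y
  refine ⟨b, fun h => hb0 (Subtype.ext h), ?_⟩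
  rw [Int.cast_one, one_mul]
  have := congrArg (fun z : ℤ_[2] => (z : ℚ_[2])) hb
  push_cast at this
  exact this.symm

/-- the class of an odd number -/
def clo (w : ℤ) : ℤ :=
  if w % 8 = 1 then 1 else if w % 8 = 3 then 3 else if w % 8 = 5 then -3 else -1

/-- the class of an integer (`0` if the first argument is too small) -/
def cl : ℕ → ℤ → ℤ
  | 0, _ => 0
  | n + 1, z => if z % 4 = 0 then cl n (z / 4) else if z % 2 = 0 then 2 * clo (z / 2) else clo z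

theorem oddInv (w : ℤ) (hw : w % 2 = 1) : ∃ y : ℤ_[2], (w : ℤ_[2]) * y = 1 := by
  have h1 : ‖(w : ℤ_[2])‖ = 1 := by
    rw [PadicInt.norm_intCast_eq_one_iff]
    rw [Int.isCoprime_iff_gcd_eq_one]
    have : w % 2 = 1 := hw
    push_cast
    rw [← Int.isCoprime_iff_gcd_eq_one]
    refine ⟨1, -(w / 2), ?_⟩
    omega
  obtain ⟨u, hu⟩ := PadicInt.isUnit_iff.2 h1
  exact ⟨((u⁻¹ : ℤ_[2]ˣ) : ℤ_[2]), by rw [← hu, Units.mul_inv]⟩

/-- numbers which are congruent modulo `8 z` -/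
theorem sqM_close {c z : ℤ} (hz : SqM c (z : ℚ_[2])) (y : ℤ_[2]) :
    SqM c ((z : ℚ_[2]) * (1 + 8 * (y : ℚ_[2]))) := by
  have := hz.mul (sqM_one8 y)
  rwa [mul_one] at this

theorem SqM.sq {c : ℤ} {x b : ℚ_[2]} (h : SqM c x) (hb : b ≠ 0) : SqM c (x * b ^ 2) := by
  obtain ⟨a, ha, hx⟩ := h
  exact ⟨a * b, mul_ne_zero ha hb, by rw [hx]; ring⟩

theorem clo_spec (w : ℤ) (hw : w % 2 = 1) : SqM (clo w) (w : ℚ_[2]) := by
  have key : ∀ c : ℤ, c % 2 = 1 → w % 8 = c % 8 → SqM c (w : ℚ_[2]) := by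
    intro c hc h8
    obtain ⟨k, hk⟩ : ∃ k, w = c + 8 * k := ⟨(w - c) / 8, by omega⟩
    obtain ⟨y, hy⟩ := oddInv c hc
    have h1 : (w : ℚ_[2]) = (c : ℚ_[2]) * (1 + 8 * (((y * (k : ℤ_[2])) : ℤ_[2]) : ℚ_[2])) := by
      have hy' := congrArg (fun z : ℤ_[2] => (z : ℚ_[2])) hy
      push_cast at hy' ⊢
      rw [hk]
      push_cast
      linear_combination (-(8 * (k : ℚ_[2]))) * hy'
    rw [h1]
    exact sqM_close ⟨1, one_ne_zero, by ring⟩ _
  unfold clo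
  split_ifs with h1 h2 h3
  · exact key 1 (by norm_num) (by omega)
  · exact key 3 (by norm_num) (by omega)
  · exact key (-3) (by norm_num) (by omega)
  · exact key (-1) (by norm_num) (by omega)

theorem cl_spec (n : ℕ) : ∀ z : ℤ, cl n z ≠ 0 → SqM (cl n z) (z : ℚ_[2]) := by
  induction n with
  | zero => intro z h; exact absurd rfl h
  | succ n ih =>
    intro z h
    unfold cl at h ⊢
    split_ifs at h ⊢ with h1 h2
    · have h3 := ih (z / 4) h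
      have h4 : (z : ℚ_[2]) = ((z / 4 : ℤ) : ℚ_[2]) * 2 ^ 2 := by
        have : z = (z / 4) * 4 := by omega
        conv_lhs => rw [this]
        push_cast
        ring
      rw [h4]
      exact h3.sq two_ne_zero
    · have h3 := clo_spec (z / 2) (by omega)
      have h4 : (z : ℚ_[2]) = ((2 : ℤ) : ℚ_[2]) * ((z / 2 : ℤ) : ℚ_[2]) := by
        have : z = 2 * (z / 2) := by omega
        conv_lhs => rw [this]
        push_cast
        ring
      rw [h4]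
      exact SqM.mul ⟨1, one_ne_zero, by ring⟩ h3
    · exact clo_spec z (by omega)

/-- the divisors of 6 with both signs -/
def HH : List ℤ := [1, -1, 2, -2, 3, -3, 6, -6]

theorem sq_zmod {m : ℤ} {b : ℚ_[2]} (h : (m : ℚ_[2]) = b ^ 2) : ∃ c : ZMod 32, (m : ZMod 32) = c ^ 2 := by
  have hb : ‖b‖ ≤ 1 := by
    have h1 : ‖b‖ ^ 2 ≤ 1 := by
      rw [← norm_pow, ← h]
      exact Padic.norm_int_le_one m
    nlinarith [norm_nonneg b]
  obtain ⟨b', hb'⟩ : ∃ b' : ℤ_[2], (b' : ℚ_[2]) = b := ⟨⟨b, hb⟩, rfl⟩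
  have h1 : (m : ℤ_[2]) = b' ^ 2 := by
    apply Subtype.ext
    push_cast
    rw [hb']
    exact h
  have h2 := congrArg (PadicInt.toZModPow (p := 2) 5) h1
  rw [map_pow, map_intCast] at h2
  exact ⟨_, h2⟩

theorem hh_inj_aux : ∀ n ∈ HH, ∀ n' ∈ HH, n ≠ n' → ∀ c : ZMod 32, ((n * n' : ℤ) : ZMod 32) ≠ c ^ 2 := by
  decide +kernel

theorem SqM.uniq {n n' : ℤ} (hn : n ∈ HH) (hn' : n' ∈ HH) {x : ℚ_[2]} (h : SqM n x)
    (h' : SqM n' x) : n = n' := by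
  by_contra hne
  obtain ⟨b, hb, hx⟩ := h
  obtain ⟨b', hb', hx'⟩ := h'
  have h0 : ((n : ℤ) : ℚ_[2]) ≠ 0 := by
    have : n ≠ 0 := by
      rintro rfl
      revert hn
      decide
    exact_mod_cast this
  have h0' : ((n' : ℤ) : ℚ_[2]) ≠ 0 := by
    have : n' ≠ 0 := by
      rintro rfl
      revert hn'
      decide
    exact_mod_cast this
  have h1 : ((n * n' : ℤ) : ℚ_[2]) = (n' * b' / b) ^ 2 := by
    push_cast
    rw [div_pow, eq_div_iff (pow_ne_zero _ hb)]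
    have h2 : (n : ℚ_[2]) * b ^ 2 = n' * b' ^ 2 := by rw [← hx, ← hx']
    linear_combination (n' : ℚ_[2]) * h2
  obtain ⟨c, hc⟩ := sq_zmod h1
  exact hh_inj_aux n hn n' hn' hne c hc

/-- residues -/
theorem residue (m : ℕ) (x : ℤ_[2]) : ∃ r : ℕ, r < 2 ^ m ∧ ∃ y : ℤ_[2], x = r + 2 ^ m * y := by
  refine ⟨x.appr m, PadicInt.appr_lt x m, ?_⟩
  have h := PadicInt.appr_spec m x
  rw [Ideal.mem_span_singleton] at h
  obtain ⟨y, hy⟩ := h
  refine ⟨y, ?_⟩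
  rw [← sub_eq_iff_eq_add', hy]
  norm_num

theorem dvd_two_pow : ∀ (m : ℕ) (z : ℤ), z % 2 ^ (m + 1) ≠ 0 → ∃ y : ℤ_[2],
    (2 : ℤ_[2]) ^ m = z * y := by
  intro m
  induction m with
  | zero =>
    intro z hz
    obtain ⟨y, hy⟩ := oddInv z (by omega)
    exact ⟨y, by rw [hy, pow_zero]⟩
  | succ m ih =>
    intro z hz
    by_cases h2 : z % 2 = 1
    · obtain ⟨y, hy⟩ := oddInv z h2
      exact ⟨2 ^ (m + 1) * y, by linear_combination (-(2 : ℤ_[2]) ^ (m + 1)) * hy⟩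
    · obtain ⟨w, hw⟩ : ∃ w, z = 2 * w := ⟨z / 2, by omega⟩
      obtain ⟨y, hy⟩ := ih w (by
        intro h
        apply hz
        rw [hw, pow_succ' 2 (m + 1)]
        rw [Int.mul_emod_mul_of_pos _ _ (by norm_num), h, mul_zero])
      refine ⟨y, ?_⟩
      rw [hw, pow_succ', hy]
      push_cast
      ring

/-- the class of `x - e` for `x` close to `r` -/
theorem cl_close {m : ℕ} {x : ℤ_[2]} {r : ℕ} {y : ℤ_[2]} (hx : x = r + 2 ^ (m + 3) * y) (e : ℤ)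
    (hr : ((r : ℤ) - e) % 2 ^ (m + 1) ≠ 0) (n : ℕ) (hn : cl n ((r : ℤ) - e) ≠ 0) :
    SqM (cl n ((r : ℤ) - e)) ((x : ℚ_[2]) - e) := by
  obtain ⟨y', hy'⟩ := dvd_two_pow m _ hr
  have h1 : (x : ℚ_[2]) - e = (((r : ℤ) - e : ℤ) : ℚ_[2]) * (1 + 8 * ((y' * y : ℤ_[2]) : ℚ_[2])) := by
    have h2 := congrArg (fun z : ℤ_[2] => (z : ℚ_[2])) hy'
    have h3 : ((2 : ℤ_[2]) : ℚ_[2]) = 2 := rfl
    rw [hx]
    push_cast at h2 ⊢
    rw [h3] at h2 ⊢
    rw [pow_add]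
    linear_combination (8 * (y : ℚ_[2])) * h2
  rw [h1]
  exact sqM_close (cl_spec n _ hn) _

end Pool.Agent.Zk12
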